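import Pool.Agent.H6N7.Leaf1
import Pool.Agent.H6N7.Row
import Pool.Agent.H6N7.Blk0
import Pool.Agent.H6N7.Blk1
import Pool.Agent.H6N7.Blk2
import Pool.Agent.H6N7.Blk3

set_option autoImplicit false

/-!
# The blocks agree with the table
-/

namespace Pool.Agent.H6N7

open Pool.Agent.H6Turan

/-- the blocks -/
def blk (b11 b12 b13 b14 b15 b16 b17 b18 : ℕ) : ℕ :=
  cond (Nat.beq b18 0)
    (cond (Nat.beq b17 0) (bkq_0 b11 b12 b13 b14 b15 b16) (bkq_1 b11 b12 b13 b14 b15 b16))
    (cond (Nat.beq b17 0) (bkq_2 b11 b12 b13 b14 b15 b16) (bkq_3 b11 b12 b13 b14 b15 b16))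

theorem blk_chk : (all2 fun b18 => all2 fun b17 => all2 fun b16 => all2 fun b15 => all2 fun b14 =>
    all2 fun b13 => all2 fun b12 => all2 fun b11 =>
      Nat.beq (blk b11 b12 b13 b14 b15 b16 b17 b18) (selB row b11 b12 b13 b14 b15 b16 b17 b18))
    = true := by
  decide +kernel

theorem blk_ok : BlkOK row blk := by
  intro b11 b12 b13 b14 b15 b16 b17 b18 h11 h12 h13 h14 h15 h16 h17 h18
  exact Nat.eq_of_beq_eq_true (all2_spec (all2_spec (all2_spec (all2_spec (all2_spec (all2_spec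
    (all2_spec (all2_spec blk_chk h18) h17) h16) h15) h14) h13) h12) h11)

end Pool.Agent.H6N7
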