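import Pool.Agent.H6N7.Cov0
import Pool.Agent.H6N7.CovData

set_option autoImplicit false
set_option maxRecDepth 100000

/-!
# Kernel checks for the coverage of the six-vertex patterns (generated file)
-/

namespace Pool.Agent.H6N7

open Pool.Agent.H6Turan

theorem five_ok : chk5 r5 WF = true := by decide +kernel

theorem six_ok :
    chk6 rt WS0 (r5 0) = true ∧
    chk6 rt WS1 (r5 1) = true ∧
    chk6 rt WS2 (r5 2) = true ∧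
    chk6 rt WS3 (r5 3) = true ∧
    chk6 rt WS4 (r5 4) = true ∧
    chk6 rt WS5 (r5 5) = true ∧
    chk6 rt WS6 (r5 6) = true ∧
    chk6 rt WS7 (r5 7) = true ∧
    chk6 rt WS8 (r5 8) = true ∧
    chk6 rt WS9 (r5 9) = true ∧
    chk6 rt WS10 (r5 10) = true ∧
    chk6 rt WS11 (r5 11) = true ∧
    chk6 rt WS12 (r5 12) = true ∧
    chk6 rt WS13 (r5 13) = true ∧
    chk6 rt WS14 (r5 14) = true ∧
    chk6 rt WS15 (r5 15) = true ∧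
    chk6 rt WS16 (r5 16) = true ∧
    chk6 rt WS17 (r5 17) = true ∧
    chk6 rt WS18 (r5 18) = true ∧
    chk6 rt WS19 (r5 19) = true ∧
    chk6 rt WS20 (r5 20) = true ∧
    chk6 rt WS21 (r5 21) = true ∧
    chk6 rt WS22 (r5 22) = true := by
  refine ⟨?_, ?_, ?_, ?_, ?_, ?_, ?_, ?_, ?_, ?_, ?_, ?_, ?_, ?_, ?_, ?_, ?_, ?_, ?_, ?_, ?_, ?_, ?_⟩ <;> decide +kernel

theorem cover {V : Type*} {g : V → V → V → ℕ} {Pr : V → V → V → V → V → V → Prop}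
    (hb : ∀ a b c, g a b c = 0 ∨ g a b c = 1)
    (hfree : ∀ a b c d, g a b c * g a b d * g a c d * g b c d = 0)
    (hs : Symm3 g) (hp : Swp Pr)
    (hT : ∀ i < 964, ∀ b0 b1 b2 b3 b4 b5 b6 b7 b8 b9 b10 b11 b12 b13 b14 b15 b16 b17 b18 b19, c20 b0 b1 b2 b3 b4 b5 b6 b7 b8 b9 b10 b11 b12 b13 b14 b15 b16 b17 b18 b19 = rt i → G6 g Pr b0 b1 b2 b3 b4 b5 b6 b7 b8 b9 b10 b11 b12 b13 b14 b15 b16 b17 b18 b19)
    (a b c d e f : V) : Pr a b c d e f := by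
  refine chk5_sound hb hfree hs hp r5 (fun i hi b0 b1 b2 b3 b4 b5 b6 b7 b8 b9 hc => ?_) WF five_ok a b c d e f
  refine g5_of_code hb (r5 i) ?_ _ _ _ _ _ _ _ _ _ _ hc
  clear hc
  interval_cases i
  · exact chk6_sound hb hfree hs hp rt hT WS0 (r5 0) six_ok.1
  · exact chk6_sound hb hfree hs hp rt hT WS1 (r5 1) six_ok.2.1
  · exact chk6_sound hb hfree hs hp rt hT WS2 (r5 2) six_ok.2.2.1
  · exact chk6_sound hb hfree hs hp rt hT WS3 (r5 3) six_ok.2.2.2.1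
  · exact chk6_sound hb hfree hs hp rt hT WS4 (r5 4) six_ok.2.2.2.2.1
  · exact chk6_sound hb hfree hs hp rt hT WS5 (r5 5) six_ok.2.2.2.2.2.1
  · exact chk6_sound hb hfree hs hp rt hT WS6 (r5 6) six_ok.2.2.2.2.2.2.1
  · exact chk6_sound hb hfree hs hp rt hT WS7 (r5 7) six_ok.2.2.2.2.2.2.2.1
  · exact chk6_sound hb hfree hs hp rt hT WS8 (r5 8) six_ok.2.2.2.2.2.2.2.2.1
  · exact chk6_sound hb hfree hs hp rt hT WS9 (r5 9) six_ok.2.2.2.2.2.2.2.2.2.1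
  · exact chk6_sound hb hfree hs hp rt hT WS10 (r5 10) six_ok.2.2.2.2.2.2.2.2.2.2.1
  · exact chk6_sound hb hfree hs hp rt hT WS11 (r5 11) six_ok.2.2.2.2.2.2.2.2.2.2.2.1
  · exact chk6_sound hb hfree hs hp rt hT WS12 (r5 12) six_ok.2.2.2.2.2.2.2.2.2.2.2.2.1
  · exact chk6_sound hb hfree hs hp rt hT WS13 (r5 13) six_ok.2.2.2.2.2.2.2.2.2.2.2.2.2.1
  · exact chk6_sound hb hfree hs hp rt hT WS14 (r5 14) six_ok.2.2.2.2.2.2.2.2.2.2.2.2.2.2.1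
  · exact chk6_sound hb hfree hs hp rt hT WS15 (r5 15) six_ok.2.2.2.2.2.2.2.2.2.2.2.2.2.2.2.1
  · exact chk6_sound hb hfree hs hp rt hT WS16 (r5 16) six_ok.2.2.2.2.2.2.2.2.2.2.2.2.2.2.2.2.1
  · exact chk6_sound hb hfree hs hp rt hT WS17 (r5 17) six_ok.2.2.2.2.2.2.2.2.2.2.2.2.2.2.2.2.2.1
  · exact chk6_sound hb hfree hs hp rt hT WS18 (r5 18) six_ok.2.2.2.2.2.2.2.2.2.2.2.2.2.2.2.2.2.2.1
  · exact chk6_sound hb hfree hs hp rt hT WS19 (r5 19) six_ok.2.2.2.2.2.2.2.2.2.2.2.2.2.2.2.2.2.2.2.1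
  · exact chk6_sound hb hfree hs hp rt hT WS20 (r5 20) six_ok.2.2.2.2.2.2.2.2.2.2.2.2.2.2.2.2.2.2.2.2.1
  · exact chk6_sound hb hfree hs hp rt hT WS21 (r5 21) six_ok.2.2.2.2.2.2.2.2.2.2.2.2.2.2.2.2.2.2.2.2.2.1
  · exact chk6_sound hb hfree hs hp rt hT WS22 (r5 22) six_ok.2.2.2.2.2.2.2.2.2.2.2.2.2.2.2.2.2.2.2.2.2.2

end Pool.Agent.H6N7
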