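import Pool.Agent.H6N7.Leaf1

set_option autoImplicit false
set_option linter.unusedVariables false
set_option maxHeartbeats 4000000

/-!
# Soundness of the pointwise check (generated file)
-/

namespace Pool.Agent.H6N7

open Pool.Agent.H6Turan

def env15 (l0 l1 l2 l3 l4 l5 l6 l7 l8 l9 l10 l11 l12 l13 l14 : ℕ) : ℕ → ℕ
  | 0 => l0 | 1 => l1 | 2 => l2 | 3 => l3 | 4 => l4 | 5 => l5 | 6 => l6 | 7 => l7 | 8 => l8
  | 9 => l9 | 10 => l10 | 11 => l11 | 12 => l12 | 13 => l13 | 14 => l14 | _ => 0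

theorem env15_bit {l0 l1 l2 l3 l4 l5 l6 l7 l8 l9 l10 l11 l12 l13 l14 : ℕ} (h0 : Bit l0) (h1 : Bit l1) (h2 : Bit l2) (h3 : Bit l3) (h4 : Bit l4) (h5 : Bit l5) (h6 : Bit l6) (h7 : Bit l7) (h8 : Bit l8) (h9 : Bit l9) (h10 : Bit l10) (h11 : Bit l11) (h12 : Bit l12) (h13 : Bit l13) (h14 : Bit l14) (p : ℕ) (hp : p < 15) :
    env15 l0 l1 l2 l3 l4 l5 l6 l7 l8 l9 l10 l11 l12 l13 l14 p = 0 ∨ env15 l0 l1 l2 l3 l4 l5 l6 l7 l8 l9 l10 l11 l12 l13 l14 p = 1 := by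
  interval_cases p <;> assumption

/-- number of edges of `F` -/
def cnt (F : ℕ) : ℕ :=
  (Nat.add (Nat.add (Nat.add (Nat.add (bt F 0) (bt F 1)) (Nat.add (bt F 2) (Nat.add (bt F 3) (bt F 4)))) (Nat.add (Nat.add (bt F 5) (bt F 6)) (Nat.add (bt F 7) (Nat.add (bt F 8) (bt F 9))))) (Nat.add (Nat.add (Nat.add (bt F 10) (bt F 11)) (Nat.add (bt F 12) (Nat.add (bt F 13) (bt F 14)))) (Nat.add (Nat.add (bt F 15) (bt F 16)) (Nat.add (bt F 17) (Nat.add (bt F 18) (bt F 19))))))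

/-- the pointwise check for `F` -/
def leafOK (R : ℕ → ℕ → ℕ) (BK : ℕ → ℕ → ℕ → ℕ → ℕ → ℕ → ℕ → ℕ → ℕ) (A C F : ℕ) : Bool :=
  Nat.ble (Nat.mul A (cnt F)) C &&
    leAll 26 15 (Nat.sub C (Nat.mul A (cnt F))) (Nat.add (tot R BK F) (Nat.mul A (pop 26 15)))

theorem leaf_sound (R : ℕ → ℕ → ℕ) (h : rowsChk R = true) (BK : ℕ → ℕ → ℕ → ℕ → ℕ → ℕ → ℕ → ℕ → ℕ)
    (hBK : BlkOK R BK) (A C F : ℕ) (hC : C < 2 ^ 25)
    (hA : A * 15 + 105 * 262143 < 2 ^ 25) (hL : leafOK R BK A C F = true)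
    {l0 l1 l2 l3 l4 l5 l6 l7 l8 l9 l10 l11 l12 l13 l14 : ℕ} (k0 : Bit l0) (k1 : Bit l1) (k2 : Bit l2) (k3 : Bit l3) (k4 : Bit l4) (k5 : Bit l5) (k6 : Bit l6) (k7 : Bit l7) (k8 : Bit l8) (k9 : Bit l9) (k10 : Bit l10) (k11 : Bit l11) (k12 : Bit l12) (k13 : Bit l13) (k14 : Bit l14) :
    S7B (Kr R) (bt F 0) (bt F 1) (bt F 2) (bt F 3) (bt F 4) (bt F 5) (bt F 6) (bt F 7) (bt F 8) (bt F 9) (bt F 10) (bt F 11) (bt F 12) (bt F 13) (bt F 14) (bt F 15) (bt F 16) (bt F 17) (bt F 18) (bt F 19) l0 l1 l2 l3 l4 l5 l6 l7 l8 l9 l10 l11 l12 l13 l14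
      + A * E7B (bt F 0) (bt F 1) (bt F 2) (bt F 3) (bt F 4) (bt F 5) (bt F 6) (bt F 7) (bt F 8) (bt F 9) (bt F 10) (bt F 11) (bt F 12) (bt F 13) (bt F 14) (bt F 15) (bt F 16) (bt F 17) (bt F 18) (bt F 19) l0 l1 l2 l3 l4 l5 l6 l7 l8 l9 l10 l11 l12 l13 l14 ≤ C := by
  unfold leafOK at hL
  rw [Bool.and_eq_true] at hL
  have h1 : A * cnt F ≤ C := Nat.le_of_ble_eq_true hL.1
  have h2 := hL.2
  set e0 : ℕ → ℕ := env15 l7 l1 l8 l3 l10 l14 l9 l4 l12 l6 l0 l5 l13 l2 l11 with he0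
  have hpop : Nat.mul A (pop 26 15) = pk 26 15 (fun e => A * sm e 15) e0 := by
    rw [pop_eq 26 15 e0]
    exact (pk_mul 26 15 A (fun e => sm e 15) e0).symm
  have ht := tot_pv R h BK hBK F e0
  rw [add_pk ht.eq hpop] at h2
  have hb : ∀ p, p < 15 → e0 p = 0 ∨ e0 p = 1 :=
    env15_bit k7 k1 k8 k3 k10 k14 k9 k4 k12 k6 k0 k5 k13 k2 k11
  have h3 := leAll_sound' 26 15 _ (by norm_num) _ e0 (fun e' he => ?_) ?_ h2 e0
    ⟨fun _ _ => rfl, hb⟩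
  · have h4 : LS (Kr R) (bt F 0) (bt F 1) (bt F 2) (bt F 3) (bt F 4) (bt F 5) (bt F 6) (bt F 7) (bt F 8) (bt F 9) (bt F 10) (bt F 11) (bt F 12) (bt F 13) (bt F 14) (bt F 15) (bt F 16) (bt F 17) (bt F 18) (bt F 19) l0 l1 l2 l3 l4 l5 l6 l7 l8 l9 l10 l11 l12 l13 l14
        + A * sm e0 15 ≤ C - A * cnt F := h3
    rw [LS_eq] at h4
    have h5 : E7B (bt F 0) (bt F 1) (bt F 2) (bt F 3) (bt F 4) (bt F 5) (bt F 6) (bt F 7) (bt F 8) (bt F 9) (bt F 10) (bt F 11) (bt F 12) (bt F 13) (bt F 14) (bt F 15) (bt F 16) (bt F 17) (bt F 18) (bt F 19) l0 l1 l2 l3 l4 l5 l6 l7 l8 l9 l10 l11 l12 l13 l14 = cnt F + sm e0 15 := by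
      have : sm e0 15 = 0 + l7 + l1 + l8 + l3 + l10 + l14 + l9 + l4 + l12 + l6 + l0 + l5 + l13 + l2 + l11 := rfl
      rw [this]
      unfold E7B cnt
      simp only [Nat.add_eq]
      ring
    rw [h5, Nat.mul_add]
    omega
  · have hs : sm e' 15 ≤ 15 := by
      have : sm e' 15 = 0 + e' 0 + e' 1 + e' 2 + e' 3 + e' 4 + e' 5 + e' 6 + e' 7 + e' 8 + e' 9
        + e' 10 + e' 11 + e' 12 + e' 13 + e' 14 := rfl
      rw [this]
      have hb' : ∀ p, p < 15 → e' p ≤ 1 := by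
        intro p hp
        rcases he.2 p hp with h6 | h6 <;> omega
      have g0 := hb' 0 (by norm_num)
      have g1 := hb' 1 (by norm_num)
      have g2 := hb' 2 (by norm_num)
      have g3 := hb' 3 (by norm_num)
      have g4 := hb' 4 (by norm_num)
      have g5 := hb' 5 (by norm_num)
      have g6 := hb' 6 (by norm_num)
      have g7 := hb' 7 (by norm_num)
      have g8 := hb' 8 (by norm_num)
      have g9 := hb' 9 (by norm_num)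
      have g10 := hb' 10 (by norm_num)
      have g11 := hb' 11 (by norm_num)
      have g12 := hb' 12 (by norm_num)
      have g13 := hb' 13 (by norm_num)
      have g14 := hb' 14 (by norm_num)
      omega
    have h4 := ht.le e'
    have h5 : A * sm e' 15 ≤ A * 15 := Nat.mul_le_mul_left A hs
    show LS (Kr R) _ _ _ _ _ _ _ _ _ _ _ _ _ _ _ _ _ _ _ _ _ _ _ _ _ _ _ _ _ _ _ _ _ _ _
      + A * sm e' 15 < 2 ^ 25
    exact lt_of_le_of_lt (Nat.add_le_add h4 h5) (by omega)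
  · show C - A * cnt F < 2 ^ 25
    omega

end Pool.Agent.H6N7

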