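import Pool.Agent.H6N7.PsdFin
import Pool.Agent.H6N7.Leaf2
import Pool.Agent.H6N7.Blk

set_option autoImplicit false

/-!
# From the checks to the density bound
-/

namespace Pool.Agent.H6N7

open Pool.Agent.H6Turan

variable {V : Type*}

/-- the pointwise inequality for six given vertices and all seventh vertices -/
def Pt (g : V → V → V → ℕ) (a b c d e f : V) : Prop :=
  ∀ z, S7 (Kr row) g a b c d e f z + 48000 * E7 g a b c d e f z ≤ 9129456

/-- the six vertices have the code `F` -/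
def IsCode (g : V → V → V → ℕ) (F : ℕ) (a b c d e f : V) : Prop :=
  g a b c = bt F 0 ∧
    g a b d = bt F 1 ∧
    g a c d = bt F 2 ∧
    g b c d = bt F 3 ∧
    g a b e = bt F 4 ∧
    g a c e = bt F 5 ∧
    g b c e = bt F 6 ∧
    g a d e = bt F 7 ∧
    g b d e = bt F 8 ∧
    g c d e = bt F 9 ∧
    g a b f = bt F 10 ∧
    g a c f = bt F 11 ∧
    g b c f = bt F 12 ∧
    g a d f = bt F 13 ∧
    g b d f = bt F 14 ∧
    g c d f = bt F 15 ∧
    g a e f = bt F 16 ∧
    g b e f = bt F 17 ∧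
    g c e f = bt F 18 ∧
    g d e f = bt F 19

theorem pt_of_leaf (g : V → V → V → ℕ) (hb : ∀ a b c, g a b c = 0 ∨ g a b c = 1)
    (hs : Symm3 g) (F : ℕ) (hF : leafOK row blk 48000 9129456 F = true) (a b c d e f : V)
    (hc : IsCode g F a b c d e f) : Pt g a b c d e f := by
  intro z
  obtain ⟨h0, h1, h2, h3, h4, h5, h6, h7, h8, h9, h10, h11, h12, h13, h14, h15, h16, h17, h18, h19⟩ := hc
  rw [S7_eq_S7B (Kr row) g hs, E7_eq_E7B g, h0, h1, h2, h3, h4, h5, h6, h7, h8, h9, h10, h11, h12, h13, h14, h15, h16, h17, h18, h19]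
  exact leaf_sound row rows_ok blk blk_ok 48000 9129456 F (by norm_num) (by norm_num) hF
    (hb a b z) (hb a c z) (hb b c z) (hb a d z) (hb b d z) (hb c d z) (hb a e z) (hb b e z)
    (hb c e z) (hb d e z) (hb a f z) (hb b f z) (hb c f z) (hb d f z) (hb e f z)

theorem pt_swap0 (g : V → V → V → ℕ) (hk : KSym (Kr row) g) (hs : Symm3 g) (a b c d e f : V)
    (h : Pt g a b c d e f) : Pt g b a c d e f := by
  intro z
  rw [S7_swap0 (Kr row) g hk, E7_swap0 g hs]
  exact h z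

theorem pt_swap1 (g : V → V → V → ℕ) (hk : KSym (Kr row) g) (hs : Symm3 g) (a b c d e f : V)
    (h : Pt g a b c d e f) : Pt g a c b d e f := by
  intro z
  rw [S7_swap1 (Kr row) g hk, E7_swap1 g hs]
  exact h z

theorem pt_swap2 (g : V → V → V → ℕ) (hk : KSym (Kr row) g) (hs : Symm3 g) (a b c d e f : V)
    (h : Pt g a b c d e f) : Pt g a b d c e f := by
  intro z
  rw [S7_swap2 (Kr row) g hk, E7_swap2 g hs]
  exact h z

theorem pt_swap3 (g : V → V → V → ℕ) (hk : KSym (Kr row) g) (hs : Symm3 g) (a b c d e f : V)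
    (h : Pt g a b c d e f) : Pt g a b c e d f := by
  intro z
  rw [S7_swap3 (Kr row) g hk, E7_swap3 g hs]
  exact h z

theorem pt_swap4 (g : V → V → V → ℕ) (hk : KSym (Kr row) g) (hs : Symm3 g) (a b c d e f : V)
    (h : Pt g a b c d e f) : Pt g a b c d f e := by
  intro z
  rw [S7_swap4 (Kr row) g hk, E7_swap4 g hs]
  exact h z

theorem ksym_row (g : V → V → V → ℕ) (hb : ∀ a b c, g a b c = 0 ∨ g a b c = 1)
    (hs : Symm3 g) : KSym (Kr row) g := ksym row rows_ok s01 s12 s34 spp g hb hs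

/-- the density bound, from the pointwise inequality -/
theorem main_of_pt [Fintype V] (g : V → V → V → ℕ) (hb : ∀ a b c, g a b c = 0 ∨ g a b c = 1)
    (hfree : ∀ a b c d, g a b c * g a b d * g a c d * g b c d = 0)
    (hpt : ∀ a b c d e f, Pt g a b c d e f) :
    10000 * ((Fintype.card V : ℤ) ^ 4 * (EE g : ℤ)) ≤ 5592 * (Fintype.card V : ℤ) ^ 7 := by
  have hsum : ∑ x : Fin 7 → V, (S7 (Kr row) g (x 0) (x 1) (x 2) (x 3) (x 4) (x 5) (x 6)
      + 48000 * E7 g (x 0) (x 1) (x 2) (x 3) (x 4) (x 5) (x 6)) ≤ ∑ _x : Fin 7 → V, 9129456 :=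
    Finset.sum_le_sum (fun x _ => hpt (x 0) (x 1) (x 2) (x 3) (x 4) (x 5) (x 6))
  simp only [Finset.sum_add_distrib, ← Finset.mul_sum] at hsum
  rw [sum_S7, sum_E7] at hsum
  have hc : ∑ _x : Fin 7 → V, 9129456 = 9129456 * Fintype.card V ^ 7 := by
    simp only [Finset.sum_const, Finset.card_univ, smul_eq_mul, Fintype.card_fun,
      Fintype.card_fin]
    ring
  rw [hc] at hsum
  have hK := sum_K3_ge (Kr row) g 78000 (fun a b c => sum_flags0 g hb hfree a b c)
  have hsum' : (105 : ℤ) * ((∑ x : Fin 7 → V,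
      K3 (Kr row) g (x 0) (x 1) (x 2) (x 3) (x 4) (x 5) (x 6) : ℕ) : ℤ)
      + 48000 * (35 * ((Fintype.card V : ℤ) ^ 4 * (EE g : ℤ)))
      ≤ 9129456 * (Fintype.card V : ℤ) ^ 7 := by
    exact_mod_cast hsum
  have e0 : ((78000 : ℕ) : ℤ) = 78000 := rfl
  rw [e0] at hK
  linarith

end Pool.Agent.H6N7
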