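import Pool.Agent.H6N7.L.All
import Pool.Agent.H6N7.Cover
import Pool.Agent.H6N7.Main7

set_option autoImplicit false

/-!
# The density bound
-/

namespace Pool.Agent.H6N7

open Pool.Agent.H6Turan

theorem pt_all {V : Type*} (g : V → V → V → ℕ) (hb : ∀ a b c, g a b c = 0 ∨ g a b c = 1)
    (hfree : ∀ a b c d, g a b c * g a b d * g a c d * g b c d = 0) (hs : Symm3 g)
    (a b c d e f : V) : Pt g a b c d e f := by
  have hk := ksym_row g hb hs
  refine cover (Pr := Pt g) hb hfree hs ⟨pt_swap0 g hk hs, pt_swap1 g hk hs, pt_swap2 g hk hs,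
    pt_swap3 g hk hs, pt_swap4 g hk hs⟩ ?_ a b c d e f
  intro i hi b0 b1 b2 b3 b4 b5 b6 b7 b8 b9 b10 b11 b12 b13 b14 b15 b16 b17 b18 b19 hc
    a b c d e f h0 h1 h2 h3 h4 h5 h6 h7 h8 h9 h10 h11 h12 h13 h14 h15 h16 h17 h18 h19
  have B : ∀ {x : ℕ} {a b c : V}, g a b c = x → Bit x := by
    intro x a b c h
    rw [← h]
    exact hb a b c
  have k := bt_c20 (B h0) (B h1) (B h2) (B h3) (B h4) (B h5) (B h6) (B h7) (B h8) (B h9) (B h10)
    (B h11) (B h12) (B h13) (B h14) (B h15) (B h16) (B h17) (B h18) (B h19)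
  rw [hc] at k
  obtain ⟨k0, k1, k2, k3, k4, k5, k6, k7, k8, k9, k10, k11, k12, k13, k14, k15, k16, k17, k18,
    k19⟩ := k
  exact pt_of_leaf g hb hs (rt i) (leaf_all i hi) a b c d e f
    ⟨h0.trans k0.symm, h1.trans k1.symm, h2.trans k2.symm, h3.trans k3.symm, h4.trans k4.symm,
      h5.trans k5.symm, h6.trans k6.symm, h7.trans k7.symm, h8.trans k8.symm, h9.trans k9.symm,
      h10.trans k10.symm, h11.trans k11.symm, h12.trans k12.symm, h13.trans k13.symm,
      h14.trans k14.symm, h15.trans k15.symm, h16.trans k16.symm, h17.trans k17.symm,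
      h18.trans k18.symm, h19.trans k19.symm⟩

/-- the density bound for functions -/
theorem density {V : Type*} [Fintype V] (g : V → V → V → ℕ)
    (hb : ∀ a b c, g a b c = 0 ∨ g a b c = 1)
    (hfree : ∀ a b c d, g a b c * g a b d * g a c d * g b c d = 0) (hs : Symm3 g) :
    10000 * EE g ≤ 5592 * Fintype.card V ^ 3 := by
  have h := main_of_pt g hb hfree (pt_all g hb hfree hs)
  rcases Nat.eq_zero_or_pos (Fintype.card V) with hn | hn
  · have : IsEmpty V := Fintype.card_eq_zero_iff.mp hn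
    unfold EE
    simp
  · have h' : (Fintype.card V) ^ 4 * (10000 * EE g)
        ≤ (Fintype.card V) ^ 4 * (5592 * Fintype.card V ^ 3) := by
      have : 10000 * ((Fintype.card V) ^ 4 * EE g) ≤ 5592 * (Fintype.card V) ^ 7 := by
        exact_mod_cast h
      calc (Fintype.card V) ^ 4 * (10000 * EE g) = 10000 * ((Fintype.card V) ^ 4 * EE g) := by ring
        _ ≤ 5592 * (Fintype.card V) ^ 7 := this
        _ = (Fintype.card V) ^ 4 * (5592 * Fintype.card V ^ 3) := by ring
    exact Nat.le_of_mul_le_mul_left h' (pow_pos hn 4)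

end Pool.Agent.H6N7
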