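import Pool.Agent.H6N7.Leaf0

set_option autoImplicit false
set_option linter.unusedVariables false
set_option maxHeartbeats 4000000

/-!
# Coverage of the six-vertex patterns (generated file)
-/

namespace Pool.Agent.H6N7

open Pool.Agent.H6Turan

def c20 (b0 b1 b2 b3 b4 b5 b6 b7 b8 b9 b10 b11 b12 b13 b14 b15 b16 b17 b18 b19 : ℕ) : ℕ :=
  (Nat.add b0 (Nat.mul 2 (Nat.add b1 (Nat.mul 2 (Nat.add b2 (Nat.mul 2 (Nat.add b3 (Nat.mul 2 (Nat.add b4 (Nat.mul 2 (Nat.add b5 (Nat.mul 2 (Nat.add b6 (Nat.mul 2 (Nat.add b7 (Nat.mul 2 (Nat.add b8 (Nat.mul 2 (Nat.add b9 (Nat.mul 2 (Nat.add b10 (Nat.mul 2 (Nat.add b11 (Nat.mul 2 (Nat.add b12 (Nat.mul 2 (Nat.add b13 (Nat.mul 2 (Nat.add b14 (Nat.mul 2 (Nat.add b15 (Nat.mul 2 (Nat.add b16 (Nat.mul 2 (Nat.add b17 (Nat.mul 2 (Nat.add b18 (Nat.mul 2 b19))))))))))))))))))))))))))))))))))))))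

def c10 (b0 b1 b2 b3 b4 b5 b6 b7 b8 b9 : ℕ) : ℕ :=
  (Nat.add b0 (Nat.mul 2 (Nat.add b1 (Nat.mul 2 (Nat.add b2 (Nat.mul 2 (Nat.add b3 (Nat.mul 2 (Nat.add b4 (Nat.mul 2 (Nat.add b5 (Nat.mul 2 (Nat.add b6 (Nat.mul 2 (Nat.add b7 (Nat.mul 2 (Nat.add b8 (Nat.mul 2 b9))))))))))))))))))

theorem bt_eq (F i : ℕ) : bt F i = F / 2 ^ i % 2 := by
  show Nat.land (F >>> i) 1 = _
  have := land_mask (F >>> i) 1
  rw [Nat.shiftRight_eq_div_pow] at this ⊢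
  exact this

theorem bt_zero {b x : ℕ} (hb : Bit b) : bt (Nat.add b (Nat.mul 2 x)) 0 = b := by
  rw [bt_eq]
  show (b + 2 * x) / 2 ^ 0 % 2 = b
  rw [pow_zero, Nat.div_one]
  unfold Bit at hb
  omega

theorem bt_succ {b x : ℕ} (hb : Bit b) (i : ℕ) :
    bt (Nat.add b (Nat.mul 2 x)) (i + 1) = bt x i := by
  rw [bt_eq, bt_eq]
  show (b + 2 * x) / 2 ^ (i + 1) % 2 = x / 2 ^ i % 2
  have h1 : (b + 2 * x) / 2 = x := by
    unfold Bit at hb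
    omega
  rw [pow_succ', ← Nat.div_div_eq_div_mul, h1]

theorem bt_last {b : ℕ} (hb : Bit b) : bt b 0 = b := by
  rw [bt_eq, pow_zero, Nat.div_one]
  unfold Bit at hb
  omega

theorem bt_c20 {b0 b1 b2 b3 b4 b5 b6 b7 b8 b9 b10 b11 b12 b13 b14 b15 b16 b17 b18 b19 : ℕ} (h0 : Bit b0) (h1 : Bit b1) (h2 : Bit b2) (h3 : Bit b3) (h4 : Bit b4) (h5 : Bit b5) (h6 : Bit b6) (h7 : Bit b7) (h8 : Bit b8) (h9 : Bit b9) (h10 : Bit b10) (h11 : Bit b11) (h12 : Bit b12) (h13 : Bit b13) (h14 : Bit b14) (h15 : Bit b15) (h16 : Bit b16) (h17 : Bit b17) (h18 : Bit b18) (h19 : Bit b19) :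
    bt (c20 b0 b1 b2 b3 b4 b5 b6 b7 b8 b9 b10 b11 b12 b13 b14 b15 b16 b17 b18 b19) 0 = b0 ∧ bt (c20 b0 b1 b2 b3 b4 b5 b6 b7 b8 b9 b10 b11 b12 b13 b14 b15 b16 b17 b18 b19) 1 = b1 ∧ bt (c20 b0 b1 b2 b3 b4 b5 b6 b7 b8 b9 b10 b11 b12 b13 b14 b15 b16 b17 b18 b19) 2 = b2 ∧ bt (c20 b0 b1 b2 b3 b4 b5 b6 b7 b8 b9 b10 b11 b12 b13 b14 b15 b16 b17 b18 b19) 3 = b3 ∧ bt (c20 b0 b1 b2 b3 b4 b5 b6 b7 b8 b9 b10 b11 b12 b13 b14 b15 b16 b17 b18 b19) 4 = b4 ∧ bt (c20 b0 b1 b2 b3 b4 b5 b6 b7 b8 b9 b10 b11 b12 b13 b14 b15 b16 b17 b18 b19) 5 = b5 ∧ bt (c20 b0 b1 b2 b3 b4 b5 b6 b7 b8 b9 b10 b11 b12 b13 b14 b15 b16 b17 b18 b19) 6 = b6 ∧ bt (c20 b0 b1 b2 b3 b4 b5 b6 b7 b8 b9 b10 b11 b12 b13 b14 b15 b16 b17 b18 b19) 7 = b7 ∧ bt (c20 b0 b1 b2 b3 b4 b5 b6 b7 b8 b9 b10 b11 b12 b13 b14 b15 b16 b17 b18 b19) 8 = b8 ∧ bt (c20 b0 b1 b2 b3 b4 b5 b6 b7 b8 b9 b10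 b11 b12 b13 b14 b15 b16 b17 b18 b19) 9 = b9 ∧ bt (c20 b0 b1 b2 b3 b4 b5 b6 b7 b8 b9 b10 b11 b12 b13 b14 b15 b16 b17 b18 b19) 10 = b10 ∧ bt (c20 b0 b1 b2 b3 b4 b5 b6 b7 b8 b9 b10 b11 b12 b13 b14 b15 b16 b17 b18 b19) 11 = b11 ∧ bt (c20 b0 b1 b2 b3 b4 b5 b6 b7 b8 b9 b10 b11 b12 b13 b14 b15 b16 b17 b18 b19) 12 = b12 ∧ bt (c20 b0 b1 b2 b3 b4 b5 b6 b7 b8 b9 b10 b11 b12 b13 b14 b15 b16 b17 b18 b19) 13 = b13 ∧ bt (c20 b0 b1 b2 b3 b4 b5 b6 b7 b8 b9 b10 b11 b12 b13 b14 b15 b16 b17 b18 b19) 14 = b14 ∧ bt (c20 b0 b1 b2 b3 b4 b5 b6 b7 b8 b9 b10 b11 b12 b13 b14 b15 b16 b17 b18 b19) 15 = b15 ∧ bt (c20 b0 b1 b2 b3 b4 b5 b6 b7 b8 b9 b10 b11 b12 b13 b14 b15 b16 b17 b18 b19) 16 = b16 ∧ bt (c20 b0 b1 b2 b3 b4 b5 b6 b7 b8 b9 b10 b11 b12 b13 b14 b15 b16 b17 b18 b19) 17 = b17 ∧ bt (c20 b0 b1 b2 b3 b4 b5 b6 b7 b8 b9 b10 b11 b12 b13 b14 b15 b16 b17 b18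 b19) 18 = b18 ∧ bt (c20 b0 b1 b2 b3 b4 b5 b6 b7 b8 b9 b10 b11 b12 b13 b14 b15 b16 b17 b18 b19) 19 = b19 := by
  unfold c20
  refine ⟨?_, ?_, ?_, ?_, ?_, ?_, ?_, ?_, ?_, ?_, ?_, ?_, ?_, ?_, ?_, ?_, ?_, ?_, ?_, ?_⟩
  · rw [bt_zero h0]
  · rw [bt_succ h0, bt_zero h1]
  · rw [bt_succ h0, bt_succ h1, bt_zero h2]
  · rw [bt_succ h0, bt_succ h1, bt_succ h2, bt_zero h3]
  · rw [bt_succ h0, bt_succ h1, bt_succ h2, bt_succ h3, bt_zero h4]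
  · rw [bt_succ h0, bt_succ h1, bt_succ h2, bt_succ h3, bt_succ h4, bt_zero h5]
  · rw [bt_succ h0, bt_succ h1, bt_succ h2, bt_succ h3, bt_succ h4, bt_succ h5, bt_zero h6]
  · rw [bt_succ h0, bt_succ h1, bt_succ h2, bt_succ h3, bt_succ h4, bt_succ h5, bt_succ h6, bt_zero h7]
  · rw [bt_succ h0, bt_succ h1, bt_succ h2, bt_succ h3, bt_succ h4, bt_succ h5, bt_succ h6, bt_succ h7, bt_zero h8]
  · rw [bt_succ h0, bt_succ h1, bt_succ h2, bt_succ h3, bt_succ h4, bt_succ h5, bt_succ h6, bt_succ h7, bt_succ h8, bt_zero h9]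
  · rw [bt_succ h0, bt_succ h1, bt_succ h2, bt_succ h3, bt_succ h4, bt_succ h5, bt_succ h6, bt_succ h7, bt_succ h8, bt_succ h9, bt_zero h10]
  · rw [bt_succ h0, bt_succ h1, bt_succ h2, bt_succ h3, bt_succ h4, bt_succ h5, bt_succ h6, bt_succ h7, bt_succ h8, bt_succ h9, bt_succ h10, bt_zero h11]
  · rw [bt_succ h0, bt_succ h1, bt_succ h2, bt_succ h3, bt_succ h4, bt_succ h5, bt_succ h6, bt_succ h7, bt_succ h8, bt_succ h9, bt_succ h10, bt_succ h11, bt_zero h12]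
  · rw [bt_succ h0, bt_succ h1, bt_succ h2, bt_succ h3, bt_succ h4, bt_succ h5, bt_succ h6, bt_succ h7, bt_succ h8, bt_succ h9, bt_succ h10, bt_succ h11, bt_succ h12, bt_zero h13]
  · rw [bt_succ h0, bt_succ h1, bt_succ h2, bt_succ h3, bt_succ h4, bt_succ h5, bt_succ h6, bt_succ h7, bt_succ h8, bt_succ h9, bt_succ h10, bt_succ h11, bt_succ h12, bt_succ h13, bt_zero h14]
  · rw [bt_succ h0, bt_succ h1, bt_succ h2, bt_succ h3, bt_succ h4, bt_succ h5, bt_succ h6, bt_succ h7, bt_succ h8, bt_succ h9, bt_succ h10, bt_succ h11, bt_succ h12, bt_succ h13, bt_succ h14, bt_zero h15]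
  · rw [bt_succ h0, bt_succ h1, bt_succ h2, bt_succ h3, bt_succ h4, bt_succ h5, bt_succ h6, bt_succ h7, bt_succ h8, bt_succ h9, bt_succ h10, bt_succ h11, bt_succ h12, bt_succ h13, bt_succ h14, bt_succ h15, bt_zero h16]
  · rw [bt_succ h0, bt_succ h1, bt_succ h2, bt_succ h3, bt_succ h4, bt_succ h5, bt_succ h6, bt_succ h7, bt_succ h8, bt_succ h9, bt_succ h10, bt_succ h11, bt_succ h12, bt_succ h13, bt_succ h14, bt_succ h15, bt_succ h16, bt_zero h17]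
  · rw [bt_succ h0, bt_succ h1, bt_succ h2, bt_succ h3, bt_succ h4, bt_succ h5, bt_succ h6, bt_succ h7, bt_succ h8, bt_succ h9, bt_succ h10, bt_succ h11, bt_succ h12, bt_succ h13, bt_succ h14, bt_succ h15, bt_succ h16, bt_succ h17, bt_zero h18]
  · rw [bt_succ h0, bt_succ h1, bt_succ h2, bt_succ h3, bt_succ h4, bt_succ h5, bt_succ h6, bt_succ h7, bt_succ h8, bt_succ h9, bt_succ h10, bt_succ h11, bt_succ h12, bt_succ h13, bt_succ h14, bt_succ h15, bt_succ h16, bt_succ h17, bt_succ h18, bt_last h19]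

theorem bt_c10 {b0 b1 b2 b3 b4 b5 b6 b7 b8 b9 : ℕ} (h0 : Bit b0) (h1 : Bit b1) (h2 : Bit b2) (h3 : Bit b3) (h4 : Bit b4) (h5 : Bit b5) (h6 : Bit b6) (h7 : Bit b7) (h8 : Bit b8) (h9 : Bit b9) :
    bt (c10 b0 b1 b2 b3 b4 b5 b6 b7 b8 b9) 0 = b0 ∧ bt (c10 b0 b1 b2 b3 b4 b5 b6 b7 b8 b9) 1 = b1 ∧ bt (c10 b0 b1 b2 b3 b4 b5 b6 b7 b8 b9) 2 = b2 ∧ bt (c10 b0 b1 b2 b3 b4 b5 b6 b7 b8 b9) 3 = b3 ∧ bt (c10 b0 b1 b2 b3 b4 b5 b6 b7 b8 b9) 4 = b4 ∧ bt (c10 b0 b1 b2 b3 b4 b5 b6 b7 b8 b9) 5 = b5 ∧ bt (c10 b0 b1 b2 b3 b4 b5 b6 b7 b8 b9) 6 = b6 ∧ bt (c10 b0 b1 b2 b3 b4 b5 b6 b7 b8 b9) 7 = b7 ∧ bt (c10 b0 b1 b2 b3 b4 b5 b6 b7 b8 b9) 8 = b8 ∧ bt (c10 b0 b1 b2 b3 b4 b5 b6 b7 b8 b9) 9 = b9 := by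
  unfold c10
  refine ⟨?_, ?_, ?_, ?_, ?_, ?_, ?_, ?_, ?_, ?_⟩
  · rw [bt_zero h0]
  · rw [bt_succ h0, bt_zero h1]
  · rw [bt_succ h0, bt_succ h1, bt_zero h2]
  · rw [bt_succ h0, bt_succ h1, bt_succ h2, bt_zero h3]
  · rw [bt_succ h0, bt_succ h1, bt_succ h2, bt_succ h3, bt_zero h4]
  · rw [bt_succ h0, bt_succ h1, bt_succ h2, bt_succ h3, bt_succ h4, bt_zero h5]
  · rw [bt_succ h0, bt_succ h1, bt_succ h2, bt_succ h3, bt_succ h4, bt_succ h5, bt_zero h6]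
  · rw [bt_succ h0, bt_succ h1, bt_succ h2, bt_succ h3, bt_succ h4, bt_succ h5, bt_succ h6, bt_zero h7]
  · rw [bt_succ h0, bt_succ h1, bt_succ h2, bt_succ h3, bt_succ h4, bt_succ h5, bt_succ h6, bt_succ h7, bt_zero h8]
  · rw [bt_succ h0, bt_succ h1, bt_succ h2, bt_succ h3, bt_succ h4, bt_succ h5, bt_succ h6, bt_succ h7, bt_succ h8, bt_last h9]

/-- all tuples with the given bits have the property -/
def G6 {V : Type*} (g : V → V → V → ℕ) (Pr : V → V → V → V → V → V → Prop)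
    (b0 b1 b2 b3 b4 b5 b6 b7 b8 b9 b10 b11 b12 b13 b14 b15 b16 b17 b18 b19 : ℕ) : Prop :=
  ∀ a b c d e f, g a b c = b0 → g a b d = b1 → g a c d = b2 → g b c d = b3 → g a b e = b4 → g a c e = b5 → g b c e = b6 → g a d e = b7 → g b d e = b8 → g c d e = b9 → g a b f = b10 → g a c f = b11 → g b c f = b12 → g a d f = b13 → g b d f = b14 → g c d f = b15 → g a e f = b16 → g b e f = b17 → g c e f = b18 → g d e f = b19 → Pr a b c d e f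

/-- all tuples with the given bits have the property -/
def G5 {V : Type*} (g : V → V → V → ℕ) (Pr : V → V → V → V → V → V → Prop)
    (b0 b1 b2 b3 b4 b5 b6 b7 b8 b9 : ℕ) : Prop :=
  ∀ a b c d e f, g a b c = b0 → g a b d = b1 → g a c d = b2 → g b c d = b3 → g a b e = b4 → g a c e = b5 → g b c e = b6 → g a d e = b7 → g b d e = b8 → g c d e = b9 → Pr a b c d e f

/-- the property is invariant under exchanges of neighbours -/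
structure Swp {V : Type*} (Pr : V → V → V → V → V → V → Prop) : Prop where
  s0 : ∀ a b c d e f, Pr a b c d e f → Pr b a c d e f
  s1 : ∀ a b c d e f, Pr a b c d e f → Pr a c b d e f
  s2 : ∀ a b c d e f, Pr a b c d e f → Pr a b d c e f
  s3 : ∀ a b c d e f, Pr a b c d e f → Pr a b c e d f
  s4 : ∀ a b c d e f, Pr a b c d e f → Pr a b c d f e

theorem G6_s0 {V : Type*} {g : V → V → V → ℕ} {Pr : V → V → V → V → V → V → Prop}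
    (hs : Symm3 g) (hp : Swp Pr) {b0 b1 b2 b3 b4 b5 b6 b7 b8 b9 b10 b11 b12 b13 b14 b15 b16 b17 b18 b19 : ℕ}
    (h : G6 g Pr b0 b1 b3 b2 b4 b6 b5 b8 b7 b9 b10 b12 b11 b14 b13 b15 b17 b16 b18 b19) : G6 g Pr b0 b1 b2 b3 b4 b5 b6 b7 b8 b9 b10 b11 b12 b13 b14 b15 b16 b17 b18 b19 := by
  intro a b c d e f h0 h1 h2 h3 h4 h5 h6 h7 h8 h9 h10 h11 h12 h13 h14 h15 h16 h17 h18 h19
  exact hp.s0 b a c d e f (h b a c d e f ((hs.s12 a b c).trans h0) ((hs.s12 a b d).trans h1) h3 h2 ((hs.s12 a b e).trans h4) h6 h5 h8 h7 h9 ((hs.s12 a b f).trans h10) h12 h11 h14 h13 h15 h17 h16 h18 h19)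

theorem G6_s1 {V : Type*} {g : V → V → V → ℕ} {Pr : V → V → V → V → V → V → Prop}
    (hs : Symm3 g) (hp : Swp Pr) {b0 b1 b2 b3 b4 b5 b6 b7 b8 b9 b10 b11 b12 b13 b14 b15 b16 b17 b18 b19 : ℕ}
    (h : G6 g Pr b0 b2 b1 b3 b5 b4 b6 b7 b9 b8 b11 b10 b12 b13 b15 b14 b16 b18 b17 b19) : G6 g Pr b0 b1 b2 b3 b4 b5 b6 b7 b8 b9 b10 b11 b12 b13 b14 b15 b16 b17 b18 b19 := by
  intro a b c d e f h0 h1 h2 h3 h4 h5 h6 h7 h8 h9 h10 h11 h12 h13 h14 h15 h16 h17 h18 h19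
  exact hp.s1 a c b d e f (h a c b d e f ((hs.s23 a b c).trans h0) h2 h1 ((hs.s12 b c d).trans h3) h5 h4 ((hs.s12 b c e).trans h6) h7 h9 h8 h11 h10 ((hs.s12 b c f).trans h12) h13 h15 h14 h16 h18 h17 h19)

theorem G6_s2 {V : Type*} {g : V → V → V → ℕ} {Pr : V → V → V → V → V → V → Prop}
    (hs : Symm3 g) (hp : Swp Pr) {b0 b1 b2 b3 b4 b5 b6 b7 b8 b9 b10 b11 b12 b13 b14 b15 b16 b17 b18 b19 : ℕ}
    (h : G6 g Pr b1 b0 b2 b3 b4 b7 b8 b5 b6 b9 b10 b13 b14 b11 b12 b15 b16 b17 b19 b18) : G6 g Pr b0 b1 b2 b3 b4 b5 b6 b7 b8 b9 b10 b11 b12 b13 b14 b15 b16 b17 b18 b19 := by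
  intro a b c d e f h0 h1 h2 h3 h4 h5 h6 h7 h8 h9 h10 h11 h12 h13 h14 h15 h16 h17 h18 h19
  exact hp.s2 a b d c e f (h a b d c e f h1 h0 ((hs.s23 a c d).trans h2) ((hs.s23 b c d).trans h3) h4 h7 h8 h5 h6 ((hs.s12 c d e).trans h9) h10 h13 h14 h11 h12 ((hs.s12 c d f).trans h15) h16 h17 h19 h18)

theorem G6_s3 {V : Type*} {g : V → V → V → ℕ} {Pr : V → V → V → V → V → V → Prop}
    (hs : Symm3 g) (hp : Swp Pr) {b0 b1 b2 b3 b4 b5 b6 b7 b8 b9 b10 b11 b12 b13 b14 b15 b16 b17 b18 b19 : ℕ}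
    (h : G6 g Pr b0 b4 b5 b6 b1 b2 b3 b7 b8 b9 b10 b11 b12 b16 b17 b18 b13 b14 b15 b19) : G6 g Pr b0 b1 b2 b3 b4 b5 b6 b7 b8 b9 b10 b11 b12 b13 b14 b15 b16 b17 b18 b19 := by
  intro a b c d e f h0 h1 h2 h3 h4 h5 h6 h7 h8 h9 h10 h11 h12 h13 h14 h15 h16 h17 h18 h19
  exact hp.s3 a b c e d f (h a b c e d f h0 h4 h5 h6 h1 h2 h3 ((hs.s23 a d e).trans h7) ((hs.s23 b d e).trans h8) ((hs.s23 c d e).trans h9) h10 h11 h12 h16 h17 h18 h13 h14 h15 ((hs.s12 d e f).trans h19))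

theorem G6_s4 {V : Type*} {g : V → V → V → ℕ} {Pr : V → V → V → V → V → V → Prop}
    (hs : Symm3 g) (hp : Swp Pr) {b0 b1 b2 b3 b4 b5 b6 b7 b8 b9 b10 b11 b12 b13 b14 b15 b16 b17 b18 b19 : ℕ}
    (h : G6 g Pr b0 b1 b2 b3 b10 b11 b12 b13 b14 b15 b4 b5 b6 b7 b8 b9 b16 b17 b18 b19) : G6 g Pr b0 b1 b2 b3 b4 b5 b6 b7 b8 b9 b10 b11 b12 b13 b14 b15 b16 b17 b18 b19 := by
  intro a b c d e f h0 h1 h2 h3 h4 h5 h6 h7 h8 h9 h10 h11 h12 h13 h14 h15 h16 h17 h18 h19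
  exact hp.s4 a b c d f e (h a b c d f e h0 h1 h2 h3 h10 h11 h12 h13 h14 h15 h4 h5 h6 h7 h8 h9 ((hs.s23 a e f).trans h16) ((hs.s23 b e f).trans h17) ((hs.s23 c e f).trans h18) ((hs.s23 d e f).trans h19))

theorem G5_s0 {V : Type*} {g : V → V → V → ℕ} {Pr : V → V → V → V → V → V → Prop}
    (hs : Symm3 g) (hp : Swp Pr) {b0 b1 b2 b3 b4 b5 b6 b7 b8 b9 : ℕ}
    (h : G5 g Pr b0 b1 b3 b2 b4 b6 b5 b8 b7 b9) : G5 g Pr b0 b1 b2 b3 b4 b5 b6 b7 b8 b9 := by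
  intro a b c d e f h0 h1 h2 h3 h4 h5 h6 h7 h8 h9
  exact hp.s0 b a c d e f (h b a c d e f ((hs.s12 a b c).trans h0) ((hs.s12 a b d).trans h1) h3 h2 ((hs.s12 a b e).trans h4) h6 h5 h8 h7 h9)

theorem G5_s1 {V : Type*} {g : V → V → V → ℕ} {Pr : V → V → V → V → V → V → Prop}
    (hs : Symm3 g) (hp : Swp Pr) {b0 b1 b2 b3 b4 b5 b6 b7 b8 b9 : ℕ}
    (h : G5 g Pr b0 b2 b1 b3 b5 b4 b6 b7 b9 b8) : G5 g Pr b0 b1 b2 b3 b4 b5 b6 b7 b8 b9 := by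
  intro a b c d e f h0 h1 h2 h3 h4 h5 h6 h7 h8 h9
  exact hp.s1 a c b d e f (h a c b d e f ((hs.s23 a b c).trans h0) h2 h1 ((hs.s12 b c d).trans h3) h5 h4 ((hs.s12 b c e).trans h6) h7 h9 h8)

theorem G5_s2 {V : Type*} {g : V → V → V → ℕ} {Pr : V → V → V → V → V → V → Prop}
    (hs : Symm3 g) (hp : Swp Pr) {b0 b1 b2 b3 b4 b5 b6 b7 b8 b9 : ℕ}
    (h : G5 g Pr b1 b0 b2 b3 b4 b7 b8 b5 b6 b9) : G5 g Pr b0 b1 b2 b3 b4 b5 b6 b7 b8 b9 := by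
  intro a b c d e f h0 h1 h2 h3 h4 h5 h6 h7 h8 h9
  exact hp.s2 a b d c e f (h a b d c e f h1 h0 ((hs.s23 a c d).trans h2) ((hs.s23 b c d).trans h3) h4 h7 h8 h5 h6 ((hs.s12 c d e).trans h9))

theorem G5_s3 {V : Type*} {g : V → V → V → ℕ} {Pr : V → V → V → V → V → V → Prop}
    (hs : Symm3 g) (hp : Swp Pr) {b0 b1 b2 b3 b4 b5 b6 b7 b8 b9 : ℕ}
    (h : G5 g Pr b0 b4 b5 b6 b1 b2 b3 b7 b8 b9) : G5 g Pr b0 b1 b2 b3 b4 b5 b6 b7 b8 b9 := by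
  intro a b c d e f h0 h1 h2 h3 h4 h5 h6 h7 h8 h9
  exact hp.s3 a b c e d f (h a b c e d f h0 h4 h5 h6 h1 h2 h3 ((hs.s23 a d e).trans h7) ((hs.s23 b d e).trans h8) ((hs.s23 c d e).trans h9))

/-- follow a word of exchanges and compare the code -/
noncomputable def run6 (T : ℕ) (n : ℕ) : ℕ → ℕ → ℕ → ℕ → ℕ → ℕ → ℕ → ℕ → ℕ → ℕ → ℕ → ℕ → ℕ → ℕ → ℕ → ℕ → ℕ → ℕ → ℕ → ℕ → ℕ → Bool :=
  Nat.rec (fun _ _ _ _ _ _ _ _ _ _ _ _ _ _ _ _ _ _ _ _ _ => false)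
    (fun _ ih w b0 b1 b2 b3 b4 b5 b6 b7 b8 b9 b10 b11 b12 b13 b14 b15 b16 b17 b18 b19 =>
    cond (Nat.beq (Nat.land w 7) 0) (Nat.beq (c20 b0 b1 b2 b3 b4 b5 b6 b7 b8 b9 b10 b11 b12 b13 b14 b15 b16 b17 b18 b19) T)
      (cond (Nat.beq (Nat.land w 7) 1) (ih (Nat.shiftRight w 3) b0 b1 b3 b2 b4 b6 b5 b8 b7 b9 b10 b12 b11 b14 b13 b15 b17 b16 b18 b19)
      (cond (Nat.beq (Nat.land w 7) 2) (ih (Nat.shiftRight w 3) b0 b2 b1 b3 b5 b4 b6 b7 b9 b8 b11 b10 b12 b13 b15 b14 b16 b18 b17 b19)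
      (cond (Nat.beq (Nat.land w 7) 3) (ih (Nat.shiftRight w 3) b1 b0 b2 b3 b4 b7 b8 b5 b6 b9 b10 b13 b14 b11 b12 b15 b16 b17 b19 b18)
      (cond (Nat.beq (Nat.land w 7) 4) (ih (Nat.shiftRight w 3) b0 b4 b5 b6 b1 b2 b3 b7 b8 b9 b10 b11 b12 b16 b17 b18 b13 b14 b15 b19)
      (ih (Nat.shiftRight w 3) b0 b1 b2 b3 b10 b11 b12 b13 b14 b15 b4 b5 b6 b7 b8 b9 b16 b17 b18 b19)))))) n

theorem run6_succ (T n w b0 b1 b2 b3 b4 b5 b6 b7 b8 b9 b10 b11 b12 b13 b14 b15 b16 b17 b18 b19 : ℕ) : run6 T (n + 1) w b0 b1 b2 b3 b4 b5 b6 b7 b8 b9 b10 b11 b12 b13 b14 b15 b16 b17 b18 b19 =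
    cond (Nat.beq (Nat.land w 7) 0) (Nat.beq (c20 b0 b1 b2 b3 b4 b5 b6 b7 b8 b9 b10 b11 b12 b13 b14 b15 b16 b17 b18 b19) T)
      (cond (Nat.beq (Nat.land w 7) 1) (run6 T n (Nat.shiftRight w 3) b0 b1 b3 b2 b4 b6 b5 b8 b7 b9 b10 b12 b11 b14 b13 b15 b17 b16 b18 b19)
      (cond (Nat.beq (Nat.land w 7) 2) (run6 T n (Nat.shiftRight w 3) b0 b2 b1 b3 b5 b4 b6 b7 b9 b8 b11 b10 b12 b13 b15 b14 b16 b18 b17 b19)
      (cond (Nat.beq (Nat.land w 7) 3) (run6 T n (Nat.shiftRight w 3) b1 b0 b2 b3 b4 b7 b8 b5 b6 b9 b10 b13 b14 b11 b12 b15 b16 b17 b19 b18)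
      (cond (Nat.beq (Nat.land w 7) 4) (run6 T n (Nat.shiftRight w 3) b0 b4 b5 b6 b1 b2 b3 b7 b8 b9 b10 b11 b12 b16 b17 b18 b13 b14 b15 b19)
      (run6 T n (Nat.shiftRight w 3) b0 b1 b2 b3 b10 b11 b12 b13 b14 b15 b4 b5 b6 b7 b8 b9 b16 b17 b18 b19))))) := rfl

theorem run6_sound {V : Type*} {g : V → V → V → ℕ} {Pr : V → V → V → V → V → V → Prop}
    (hs : Symm3 g) (hp : Swp Pr) (T : ℕ)
    (hT : ∀ b0 b1 b2 b3 b4 b5 b6 b7 b8 b9 b10 b11 b12 b13 b14 b15 b16 b17 b18 b19, c20 b0 b1 b2 b3 b4 b5 b6 b7 b8 b9 b10 b11 b12 b13 b14 b15 b16 b17 b18 b19 = T → G6 g Pr b0 b1 b2 b3 b4 b5 b6 b7 b8 b9 b10 b11 b12 b13 b14 b15 b16 b17 b18 b19) (n w b0 b1 b2 b3 b4 b5 b6 b7 b8 b9 b10 b11 b12 b13 b14 b15 b16 b17 b18 b19 : ℕ)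
    (h : run6 T n w b0 b1 b2 b3 b4 b5 b6 b7 b8 b9 b10 b11 b12 b13 b14 b15 b16 b17 b18 b19 = true) : G6 g Pr b0 b1 b2 b3 b4 b5 b6 b7 b8 b9 b10 b11 b12 b13 b14 b15 b16 b17 b18 b19 := by
  induction n generalizing w b0 b1 b2 b3 b4 b5 b6 b7 b8 b9 b10 b11 b12 b13 b14 b15 b16 b17 b18 b19 with
  | zero => exact absurd (show (false : Bool) = true from h) Bool.false_ne_true
  | succ n ih =>
    rw [run6_succ] at h
    cases h0 : Nat.beq (Nat.land w 7) 0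
    case true => rw [h0, cond_true] at h; exact hT _ _ _ _ _ _ _ _ _ _ _ _ _ _ _ _ _ _ _ _ (Nat.eq_of_beq_eq_true h)
    rw [h0, cond_false] at h
    cases h1 : Nat.beq (Nat.land w 7) 1
    case true => rw [h1, cond_true] at h; exact G6_s0 hs hp (ih _ _ _ _ _ _ _ _ _ _ _ _ _ _ _ _ _ _ _ _ _ h)
    rw [h1, cond_false] at h
    cases h2 : Nat.beq (Nat.land w 7) 2
    case true => rw [h2, cond_true] at h; exact G6_s1 hs hp (ih _ _ _ _ _ _ _ _ _ _ _ _ _ _ _ _ _ _ _ _ _ h)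
    rw [h2, cond_false] at h
    cases h3 : Nat.beq (Nat.land w 7) 3
    case true => rw [h3, cond_true] at h; exact G6_s2 hs hp (ih _ _ _ _ _ _ _ _ _ _ _ _ _ _ _ _ _ _ _ _ _ h)
    rw [h3, cond_false] at h
    cases h4 : Nat.beq (Nat.land w 7) 4
    case true => rw [h4, cond_true] at h; exact G6_s3 hs hp (ih _ _ _ _ _ _ _ _ _ _ _ _ _ _ _ _ _ _ _ _ _ h)
    rw [h4, cond_false] at h
    exact G6_s4 hs hp (ih _ _ _ _ _ _ _ _ _ _ _ _ _ _ _ _ _ _ _ _ _ h)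

/-- follow a word of exchanges and compare the code -/
noncomputable def run5 (T : ℕ) (n : ℕ) : ℕ → ℕ → ℕ → ℕ → ℕ → ℕ → ℕ → ℕ → ℕ → ℕ → ℕ → Bool :=
  Nat.rec (fun _ _ _ _ _ _ _ _ _ _ _ => false)
    (fun _ ih w b0 b1 b2 b3 b4 b5 b6 b7 b8 b9 =>
    cond (Nat.beq (Nat.land w 7) 0) (Nat.beq (c10 b0 b1 b2 b3 b4 b5 b6 b7 b8 b9) T)
      (cond (Nat.beq (Nat.land w 7) 1) (ih (Nat.shiftRight w 3) b0 b1 b3 b2 b4 b6 b5 b8 b7 b9)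
      (cond (Nat.beq (Nat.land w 7) 2) (ih (Nat.shiftRight w 3) b0 b2 b1 b3 b5 b4 b6 b7 b9 b8)
      (cond (Nat.beq (Nat.land w 7) 3) (ih (Nat.shiftRight w 3) b1 b0 b2 b3 b4 b7 b8 b5 b6 b9)
      (ih (Nat.shiftRight w 3) b0 b4 b5 b6 b1 b2 b3 b7 b8 b9))))) n

theorem run5_succ (T n w b0 b1 b2 b3 b4 b5 b6 b7 b8 b9 : ℕ) : run5 T (n + 1) w b0 b1 b2 b3 b4 b5 b6 b7 b8 b9 =
    cond (Nat.beq (Nat.land w 7) 0) (Nat.beq (c10 b0 b1 b2 b3 b4 b5 b6 b7 b8 b9) T)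
      (cond (Nat.beq (Nat.land w 7) 1) (run5 T n (Nat.shiftRight w 3) b0 b1 b3 b2 b4 b6 b5 b8 b7 b9)
      (cond (Nat.beq (Nat.land w 7) 2) (run5 T n (Nat.shiftRight w 3) b0 b2 b1 b3 b5 b4 b6 b7 b9 b8)
      (cond (Nat.beq (Nat.land w 7) 3) (run5 T n (Nat.shiftRight w 3) b1 b0 b2 b3 b4 b7 b8 b5 b6 b9)
      (run5 T n (Nat.shiftRight w 3) b0 b4 b5 b6 b1 b2 b3 b7 b8 b9)))) := rfl

theorem run5_sound {V : Type*} {g : V → V → V → ℕ} {Pr : V → V → V → V → V → V → Prop}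
    (hs : Symm3 g) (hp : Swp Pr) (T : ℕ)
    (hT : ∀ b0 b1 b2 b3 b4 b5 b6 b7 b8 b9, c10 b0 b1 b2 b3 b4 b5 b6 b7 b8 b9 = T → G5 g Pr b0 b1 b2 b3 b4 b5 b6 b7 b8 b9) (n w b0 b1 b2 b3 b4 b5 b6 b7 b8 b9 : ℕ)
    (h : run5 T n w b0 b1 b2 b3 b4 b5 b6 b7 b8 b9 = true) : G5 g Pr b0 b1 b2 b3 b4 b5 b6 b7 b8 b9 := by
  induction n generalizing w b0 b1 b2 b3 b4 b5 b6 b7 b8 b9 with
  | zero => exact absurd (show (false : Bool) = true from h) Bool.false_ne_true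
  | succ n ih =>
    rw [run5_succ] at h
    cases h0 : Nat.beq (Nat.land w 7) 0
    case true => rw [h0, cond_true] at h; exact hT _ _ _ _ _ _ _ _ _ _ (Nat.eq_of_beq_eq_true h)
    rw [h0, cond_false] at h
    cases h1 : Nat.beq (Nat.land w 7) 1
    case true => rw [h1, cond_true] at h; exact G5_s0 hs hp (ih _ _ _ _ _ _ _ _ _ _ _ h)
    rw [h1, cond_false] at h
    cases h2 : Nat.beq (Nat.land w 7) 2
    case true => rw [h2, cond_true] at h; exact G5_s1 hs hp (ih _ _ _ _ _ _ _ _ _ _ _ h)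
    rw [h2, cond_false] at h
    cases h3 : Nat.beq (Nat.land w 7) 3
    case true => rw [h3, cond_true] at h; exact G5_s2 hs hp (ih _ _ _ _ _ _ _ _ _ _ _ h)
    rw [h3, cond_false] at h
    exact G5_s3 hs hp (ih _ _ _ _ _ _ _ _ _ _ _ h)

def bad6 (b0 b1 b2 b3 b4 b5 b6 b7 b8 b9 l0 l1 l2 l3 l4 l5 l6 l7 l8 l9 : ℕ) : ℕ :=
  (Nat.add (Nat.add (Nat.add (Nat.mul (Nat.mul b0 l0) (Nat.mul l1 l2)) (Nat.mul (Nat.mul b1 l0) (Nat.mul l3 l4))) (Nat.add (Nat.mul (Nat.mul b2 l1) (Nat.mul l3 l5)) (Nat.add (Nat.mul (Nat.mul b3 l2) (Nat.mul l4 l5)) (Nat.mul (Nat.mul b4 l0) (Nat.mul l6 l7))))) (Nat.add (Nat.add (Nat.mul (Nat.mul b5 l1) (Nat.mul l6 l8)) (Nat.mul (Nat.mul b6 l2) (Nat.mul l7 l8))) (Nat.add (Nat.mul (Nat.mul b7 l3) (Nat.mul l6 l9)) (Nat.add (Nat.mul (Nat.mul b8 l4) (Nat.mul l7 l9)) (Nat.mul (Nat.mul b9 l5) (Nat.mul l8 l9))))))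

def bad5 (b0 b1 b2 b3 b4 b5 b6 b7 b8 b9 : ℕ) : ℕ :=
  (Nat.add (Nat.add (Nat.mul (Nat.mul b0 b1) (Nat.mul b2 b3)) (Nat.mul (Nat.mul b0 b4) (Nat.mul b5 b6))) (Nat.add (Nat.mul (Nat.mul b1 b4) (Nat.mul b7 b8)) (Nat.add (Nat.mul (Nat.mul b2 b5) (Nat.mul b7 b9)) (Nat.mul (Nat.mul b3 b6) (Nat.mul b8 b9)))))

/-- entry of a table with lanes of 64 bits -/
def ent (W i : ℕ) : ℕ := Nat.land (Nat.shiftRight W (Nat.mul 64 i)) 18446744073709551615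

/-- check of all extensions of the five-vertex graph `r` -/
noncomputable def chk6 (rt : ℕ → ℕ) (W r : ℕ) : Bool :=
  all2 fun l0 => all2 fun l1 => all2 fun l2 => all2 fun l3 => all2 fun l4 => all2 fun l5 => all2 fun l6 => all2 fun l7 => all2 fun l8 => all2 fun l9 =>
    cond (Nat.beq (bad6 (bt r 0) (bt r 1) (bt r 2) (bt r 3) (bt r 4) (bt r 5) (bt r 6) (bt r 7) (bt r 8) (bt r 9) l0 l1 l2 l3 l4 l5 l6 l7 l8 l9) 0)
      (Nat.blt (Nat.land (ent W (c10 l0 l1 l2 l3 l4 l5 l6 l7 l8 l9)) 1023) 964 &&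
        run6 (rt (Nat.land (ent W (c10 l0 l1 l2 l3 l4 l5 l6 l7 l8 l9)) 1023)) 16 (Nat.shiftRight (ent W (c10 l0 l1 l2 l3 l4 l5 l6 l7 l8 l9)) 10)
          (bt r 0) (bt r 1) (bt r 2) (bt r 3) (bt r 4) (bt r 5) (bt r 6) (bt r 7) (bt r 8) (bt r 9) l0 l1 l2 l3 l4 l5 l6 l7 l8 l9) true

/-- check of all five-vertex graphs -/
noncomputable def chk5 (r5 : ℕ → ℕ) (W : ℕ) : Bool :=
  all2 fun b0 => all2 fun b1 => all2 fun b2 => all2 fun b3 => all2 fun b4 => all2 fun b5 => all2 fun b6 => all2 fun b7 => all2 fun b8 => all2 fun b9 =>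
    cond (Nat.beq (bad5 b0 b1 b2 b3 b4 b5 b6 b7 b8 b9) 0)
      (Nat.blt (Nat.land (ent W (c10 b0 b1 b2 b3 b4 b5 b6 b7 b8 b9)) 63) 23 &&
        run5 (r5 (Nat.land (ent W (c10 b0 b1 b2 b3 b4 b5 b6 b7 b8 b9)) 63)) 16 (Nat.shiftRight (ent W (c10 b0 b1 b2 b3 b4 b5 b6 b7 b8 b9)) 6) b0 b1 b2 b3 b4 b5 b6 b7 b8 b9) true

theorem chk6_sound {V : Type*} {g : V → V → V → ℕ} {Pr : V → V → V → V → V → V → Prop}
    (hb : ∀ a b c, g a b c = 0 ∨ g a b c = 1)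
    (hfree : ∀ a b c d, g a b c * g a b d * g a c d * g b c d = 0)
    (hs : Symm3 g) (hp : Swp Pr) (rt : ℕ → ℕ)
    (hT : ∀ i < 964, ∀ b0 b1 b2 b3 b4 b5 b6 b7 b8 b9 b10 b11 b12 b13 b14 b15 b16 b17 b18 b19, c20 b0 b1 b2 b3 b4 b5 b6 b7 b8 b9 b10 b11 b12 b13 b14 b15 b16 b17 b18 b19 = rt i → G6 g Pr b0 b1 b2 b3 b4 b5 b6 b7 b8 b9 b10 b11 b12 b13 b14 b15 b16 b17 b18 b19) (W r : ℕ) (h : chk6 rt W r = true) :
    G5 g Pr (bt r 0) (bt r 1) (bt r 2) (bt r 3) (bt r 4) (bt r 5) (bt r 6) (bt r 7) (bt r 8) (bt r 9) := by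
  intro a b c d e f q0 q1 q2 q3 q4 q5 q6 q7 q8 q9
  have z1 := all2_spec (all2_spec (all2_spec (all2_spec (all2_spec (all2_spec (all2_spec (all2_spec (all2_spec (all2_spec h (hb a b f)) (hb a c f)) (hb b c f)) (hb a d f)) (hb b d f)) (hb c d f)) (hb a e f)) (hb b e f)) (hb c e f)) (hb d e f)
  have hbad : bad6 (bt r 0) (bt r 1) (bt r 2) (bt r 3) (bt r 4) (bt r 5) (bt r 6) (bt r 7) (bt r 8) (bt r 9) (g a b f) (g a c f) (g b c f) (g a d f) (g b d f) (g c d f) (g a e f) (g b e f) (g c e f) (g d e f) = 0 := by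
    rw [← q0, ← q1, ← q2, ← q3, ← q4, ← q5, ← q6, ← q7, ← q8, ← q9]
    have f0 := hfree a b c f
    have f1 := hfree a b d f
    have f2 := hfree a c d f
    have f3 := hfree b c d f
    have f4 := hfree a b e f
    have f5 := hfree a c e f
    have f6 := hfree b c e f
    have f7 := hfree a d e f
    have f8 := hfree b d e f
    have f9 := hfree c d e f
    show ((((g a b c * g a b f * (g a c f * g b c f)) + (g a b d * g a b f * (g a d f * g b d f))) + ((g a c d * g a c f * (g a d f * g c d f)) + ((g b c d * g b c f * (g b d f * g c d f)) + (g a b e * g a b f * (g a e f * g b e f))))) + (((g a c e * g a c f * (g a e f * g c e f)) + (g b c e * g b c f * (g b e f * g c e f))) + ((g a d e * g a d f * (g a e f * g d e f)) + ((g b d e * g b d f * (g b e f * g d e f)) + (g c d e * g c d f * (g c e f * g d e f)))))) = 0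
    simp only [f0, f1, f2, f3, f4, f5, f6, f7, f8, f9, ← mul_assoc, add_zero]
  rw [hbad] at z1
  have z2 : (Nat.blt (Nat.land (ent W (c10 (g a b f) (g a c f) (g b c f) (g a d f) (g b d f) (g c d f) (g a e f) (g b e f) (g c e f) (g d e f))) 1023) 964 &&
        run6 (rt (Nat.land (ent W (c10 (g a b f) (g a c f) (g b c f) (g a d f) (g b d f) (g c d f) (g a e f) (g b e f) (g c e f) (g d e f))) 1023)) 16 (Nat.shiftRight (ent W (c10 (g a b f) (g a c f) (g b c f) (g a d f) (g b d f) (g c d f) (g a e f) (g b e f) (g c e f) (g d e f))) 10)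
          (bt r 0) (bt r 1) (bt r 2) (bt r 3) (bt r 4) (bt r 5) (bt r 6) (bt r 7) (bt r 8) (bt r 9) (g a b f) (g a c f) (g b c f) (g a d f) (g b d f) (g c d f) (g a e f) (g b e f) (g c e f) (g d e f)) = true := z1
  rw [Bool.and_eq_true] at z2
  exact run6_sound hs hp _ (hT _ (Nat.le_of_ble_eq_true z2.1)) _ _ _ _ _ _ _ _ _ _ _ _ _ _ _ _ _ _ _ _ _ _ z2.2 a b c d e f
    q0 q1 q2 q3 q4 q5 q6 q7 q8 q9 rfl rfl rfl rfl rfl rfl rfl rfl rfl rfl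

theorem chk5_sound {V : Type*} {g : V → V → V → ℕ} {Pr : V → V → V → V → V → V → Prop}
    (hb : ∀ a b c, g a b c = 0 ∨ g a b c = 1)
    (hfree : ∀ a b c d, g a b c * g a b d * g a c d * g b c d = 0)
    (hs : Symm3 g) (hp : Swp Pr) (r5 : ℕ → ℕ)
    (hT : ∀ i < 23, ∀ b0 b1 b2 b3 b4 b5 b6 b7 b8 b9, c10 b0 b1 b2 b3 b4 b5 b6 b7 b8 b9 = r5 i → G5 g Pr b0 b1 b2 b3 b4 b5 b6 b7 b8 b9) (W : ℕ) (h : chk5 r5 W = true)
    (a b c d e f : V) : Pr a b c d e f := by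
  have h1 := all2_spec (all2_spec (all2_spec (all2_spec (all2_spec (all2_spec (all2_spec (all2_spec (all2_spec (all2_spec h (hb a b c)) (hb a b d)) (hb a c d)) (hb b c d)) (hb a b e)) (hb a c e)) (hb b c e)) (hb a d e)) (hb b d e)) (hb c d e)
  have hbad : bad5 (g a b c) (g a b d) (g a c d) (g b c d) (g a b e) (g a c e) (g b c e) (g a d e) (g b d e) (g c d e) = 0 := by
    have f0 := hfree a b c d
    have f1 := hfree a b c e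
    have f2 := hfree a b d e
    have f3 := hfree a c d e
    have f4 := hfree b c d e
    show (((g a b c * g a b d * (g a c d * g b c d)) + (g a b c * g a b e * (g a c e * g b c e))) + ((g a b d * g a b e * (g a d e * g b d e)) + ((g a c d * g a c e * (g a d e * g c d e)) + (g b c d * g b c e * (g b d e * g c d e))))) = 0
    simp only [f0, f1, f2, f3, f4, ← mul_assoc, add_zero]
  rw [hbad] at h1
  have h2 : (Nat.blt (Nat.land (ent W (c10 (g a b c) (g a b d) (g a c d) (g b c d) (g a b e) (g a c e) (g b c e) (g a d e) (g b d e) (g c d e))) 63) 23 &&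
        run5 (r5 (Nat.land (ent W (c10 (g a b c) (g a b d) (g a c d) (g b c d) (g a b e) (g a c e) (g b c e) (g a d e) (g b d e) (g c d e))) 63)) 16 (Nat.shiftRight (ent W (c10 (g a b c) (g a b d) (g a c d) (g b c d) (g a b e) (g a c e) (g b c e) (g a d e) (g b d e) (g c d e))) 6)
          (g a b c) (g a b d) (g a c d) (g b c d) (g a b e) (g a c e) (g b c e) (g a d e) (g b d e) (g c d e)) = true := h1
  rw [Bool.and_eq_true] at h2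
  exact run5_sound hs hp _ (hT _ (Nat.le_of_ble_eq_true h2.1)) _ _ _ _ _ _ _ _ _ _ _ _ h2.2 a b c d e f
    rfl rfl rfl rfl rfl rfl rfl rfl rfl rfl

/-- from codes to bits, five vertices -/
theorem g5_of_code {V : Type*} {g : V → V → V → ℕ} {Pr : V → V → V → V → V → V → Prop}
    (hb : ∀ a b c, g a b c = 0 ∨ g a b c = 1) (r : ℕ) (h : G5 g Pr (bt r 0) (bt r 1) (bt r 2) (bt r 3) (bt r 4) (bt r 5) (bt r 6) (bt r 7) (bt r 8) (bt r 9)) (b0 b1 b2 b3 b4 b5 b6 b7 b8 b9 : ℕ)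
    (hc : c10 b0 b1 b2 b3 b4 b5 b6 b7 b8 b9 = r) : G5 g Pr b0 b1 b2 b3 b4 b5 b6 b7 b8 b9 := by
  intro a b c d e f h0 h1 h2 h3 h4 h5 h6 h7 h8 h9
  have k := @bt_c10 b0 b1 b2 b3 b4 b5 b6 b7 b8 b9 (by rw [← h0]; exact hb _ _ _) (by rw [← h1]; exact hb _ _ _) (by rw [← h2]; exact hb _ _ _) (by rw [← h3]; exact hb _ _ _) (by rw [← h4]; exact hb _ _ _) (by rw [← h5]; exact hb _ _ _) (by rw [← h6]; exact hb _ _ _) (by rw [← h7]; exact hb _ _ _) (by rw [← h8]; exact hb _ _ _) (by rw [← h9]; exact hb _ _ _)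
  rw [hc] at k
  obtain ⟨k0, k1, k2, k3, k4, k5, k6, k7, k8, k9⟩ := k
  exact h a b c d e f (h0.trans k0.symm) (h1.trans k1.symm) (h2.trans k2.symm) (h3.trans k3.symm) (h4.trans k4.symm) (h5.trans k5.symm) (h6.trans k6.symm) (h7.trans k7.symm) (h8.trans k8.symm) (h9.trans k9.symm)

end Pool.Agent.H6N7
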