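import Pool.Agent.H6N7.TabSym

set_option autoImplicit false

/-!
# Tools for the pointwise check (generic part)
-/

namespace Pool.Agent.H6N7

open Pool.Agent.H6Turan

/-! ### Several insertions -/

/-- `h` depends only on the index bits below `k` -/
def Dep (k : ℕ) (h : (ℕ → ℕ) → ℕ) : Prop := ∀ e e', (∀ p, p < k → e p = e' p) → h e = h e'

theorem Dep.indep {k : ℕ} {h : (ℕ → ℕ) → ℕ} (hd : Dep k h) (e : ℕ → ℕ) (b : ℕ) :
    h (upd e k b) = h e := hd _ _ (fun _ hp => upd_ne _ _ (by omega))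

theorem Dep.ins {k p : ℕ} {h : (ℕ → ℕ) → ℕ} (hd : Dep k h) :
    Dep (k + 1) (fun e => h (upd e p (e k))) := by
  intro e e' he
  refine hd _ _ (fun q hq => ?_)
  unfold upd
  rw [he k (by omega), he q (by omega)]

theorem Dep.swe {k p q : ℕ} {h : (ℕ → ℕ) → ℕ} (hd : Dep k h) (hp : p < k) (hq : q < k) :
    Dep k (fun e => h (swe e p q)) := by
  intro e e' he
  refine hd _ _ (fun r hr => ?_)
  show upd (upd e p (e q)) q (e p) r = upd (upd e' p (e' q)) q (e' p) r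
  unfold upd
  rw [he p hp, he q hq, he r hr]

theorem Dep.swes {k : ℕ} (l : List (ℕ × ℕ)) (hl : ∀ a ∈ l, a.1 < a.2 ∧ a.2 < k)
    {h : (ℕ → ℕ) → ℕ} (hd : Dep k h) : Dep k (fun e => h (swes l e)) := by
  induction l with
  | nil => exact hd
  | cons a l ih =>
    have h1 := hl a List.mem_cons_self
    exact Dep.swe (ih (fun b hb => hl b (List.mem_cons_of_mem _ hb))) (lt_trans h1.1 h1.2) h1.2

/-- several insertions of free index bits -/
def inss (w : ℕ) : ℕ → List ℕ → ℕ → ℕ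
  | _, [], x => x
  | k, p :: l, x => inss w (Nat.succ k) l (ins w k p x)

def ines : ℕ → List ℕ → (ℕ → ℕ) → (ℕ → ℕ)
  | _, [], e => e
  | k, p :: l, e => upd (ines (Nat.succ k) l e) p (ines (Nat.succ k) l e k)

def okp : ℕ → List ℕ → Bool
  | _, [] => true
  | k, p :: l => Nat.ble p k && okp (Nat.succ k) l

theorem inss_pk (w : ℕ) (l : List ℕ) (k : ℕ) (hl : okp k l = true) (h : (ℕ → ℕ) → ℕ)
    (e : ℕ → ℕ) (H : ∀ e', h e' < 2 ^ w) (hd : Dep k h) :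
    inss w k l (pk w k h e) = pk w (k + l.length) (fun e => h (ines k l e)) e := by
  induction l generalizing k h with
  | nil => rfl
  | cons p l ih =>
    have hl' : Nat.ble p k = true ∧ okp (Nat.succ k) l = true := by
      have : (Nat.ble p k && okp (Nat.succ k) l) = true := hl
      rwa [Bool.and_eq_true] at this
    rw [inss, ins_pk w k p (Nat.le_of_ble_eq_true hl'.1) h e H hd.indep]
    have := ih (k + 1) hl'.2 (fun e => h (upd e p (e k))) (fun e' => H _) hd.ins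
    show inss w (k + 1) l _ = _
    rw [this, List.length_cons]
    have e1 : k + 1 + l.length = k + (l.length + 1) := by ring
    rw [e1]
    rfl

/-! ### Change of the outer environment -/

theorem pk_env (w k : ℕ) (h : (ℕ → ℕ) → ℕ) (hd : Dep k h) (e1 e2 : ℕ → ℕ) :
    pk w k h e1 = pk w k h e2 :=
  pk_congr_env w k h h e1 e2 (fun _ _ _ _ hab => hd _ _ hab)

/-! ### Choice of a bit -/

def frc (b : ℕ) (f : ℕ → ℕ) : ℕ := cond (Nat.beq b 0) (f 0) (f 1)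

theorem frc_eq {b : ℕ} (hb : Bit b) (f : ℕ → ℕ) : frc b f = f b := by
  rcases hb with rfl | rfl <;> rfl

/-- bit number `i` of `F` -/
def bt (F i : ℕ) : ℕ := Nat.land (Nat.shiftRight F i) 1

theorem bt_bit (F i : ℕ) : Bit (bt F i) := by
  have : bt F i ≤ 1 := Nat.and_le_right
  unfold Bit
  omega

/-! ### Tables for the two kinds of terms -/

def lB : List (ℕ × ℕ) := [(0, 11), (3, 13), (6, 14), (7, 17), (9, 18)]

def KTB (R : ℕ → ℕ → ℕ) : ℕ := swps 26 19 lB (KTg R)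

def selB (R : ℕ → ℕ → ℕ) (b11 b12 b13 b14 b15 b16 b17 b18 : ℕ) : ℕ :=
  sel 26 11 b11 (sel 26 12 b12 (sel 26 13 b13 (sel 26 14 b14 (sel 26 15 b15 (sel 26 16 b16
    (sel 26 17 b17 (sel 26 18 b18 (KTB R))))))))

/-- term of the second kind as a function of the environment -/
def HB (R : ℕ → ℕ → ℕ) (b11 b12 b13 b14 b15 b16 b17 b18 : ℕ) (e : ℕ → ℕ) : ℕ :=
  Kr R (e 9) (c9 b18 (e 10) (e 0) b12 (e 3) (e 6) b15 b16 (e 7))
    (c9 b11 (e 1) (e 2) b13 (e 4) (e 5) b14 b17 (e 8))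

theorem HB_lt (R : ℕ → ℕ → ℕ) (b11 b12 b13 b14 b15 b16 b17 b18 : ℕ) (e : ℕ → ℕ) :
    HB R b11 b12 b13 b14 b15 b16 b17 b18 e < 2 ^ 26 :=
  lt_trans (Kr_lt R _ _ _) (by norm_num)

theorem HB_dep (R : ℕ → ℕ → ℕ) (b11 b12 b13 b14 b15 b16 b17 b18 : ℕ) :
    Dep 11 (HB R b11 b12 b13 b14 b15 b16 b17 b18) := by
  intro e e' he
  unfold HB
  rw [he 0 (by norm_num), he 1 (by norm_num), he 2 (by norm_num), he 3 (by norm_num),
    he 4 (by norm_num), he 5 (by norm_num), he 6 (by norm_num), he 7 (by norm_num),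
    he 8 (by norm_num), he 9 (by norm_num), he 10 (by norm_num)]

theorem selB_pk (R : ℕ → ℕ → ℕ) (h : rowsChk R = true) {b11 b12 b13 b14 b15 b16 b17 b18 : ℕ}
    (h11 : Bit b11) (h12 : Bit b12) (h13 : Bit b13) (h14 : Bit b14) (h15 : Bit b15)
    (h16 : Bit b16) (h17 : Bit b17) (h18 : Bit b18) (e0 : ℕ → ℕ) :
    selB R b11 b12 b13 b14 b15 b16 b17 b18
      = pk 26 11 (HB R b11 b12 b13 b14 b15 b16 b17 b18) e0 := by
  have hKT : KTB R = pk 26 19 (fun e => HT R (swes lB e)) e0 := by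
    unfold KTB
    have h2 : KTg R = pk 26 19 (HT R) e0 := KTg_eq R h e0
    rw [h2, swps_pk 26 19 lB (okl_spec rfl) (HT R) e0 (HT_lt R)]
  have HH : ∀ e', (fun e => HT R (swes lB e)) e' < 2 ^ 26 := fun e' => HT_lt R _
  unfold selB
  rw [hKT, sel_pk 26 18 b18 _ _ HH h18, sel_pk 26 17 b17 _ _ HH h17, sel_pk 26 16 b16 _ _ HH h16,
    sel_pk 26 15 b15 _ _ HH h15, sel_pk 26 14 b14 _ _ HH h14, sel_pk 26 13 b13 _ _ HH h13,
    sel_pk 26 12 b12 _ _ HH h12, sel_pk 26 11 b11 _ _ HH h11,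
    pk_env 26 11 (HB R b11 b12 b13 b14 b15 b16 b17 b18) (HB_dep R _ _ _ _ _ _ _ _) e0
      (upd (upd (upd (upd (upd (upd (upd (upd e0 18 b18) 17 b17) 16 b16) 15 b15) 14 b14) 13 b13)
        12 b12) 11 b11)]
  refine pk_congr _ _ _ _ _ (fun e he => ?_)
  have a11 : e 11 = b11 := he.1 11 (by norm_num)
  have a12 : e 12 = b12 := he.1 12 (by norm_num)
  have a13 : e 13 = b13 := he.1 13 (by norm_num)
  have a14 : e 14 = b14 := he.1 14 (by norm_num)
  have a15 : e 15 = b15 := he.1 15 (by norm_num)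
  have a16 : e 16 = b16 := he.1 16 (by norm_num)
  have a17 : e 17 = b17 := he.1 17 (by norm_num)
  have a18 : e 18 = b18 := he.1 18 (by norm_num)
  show Kr R (e 9) (c9 (e 18) (e 10) (e 0) (e 12) (e 3) (e 6) (e 15) (e 16) (e 7))
    (c9 (e 11) (e 1) (e 2) (e 13) (e 4) (e 5) (e 14) (e 17) (e 8)) = _
  rw [a11, a12, a13, a14, a15, a16, a17, a18]
  rfl

def lA : List (ℕ × ℕ) := [(0, 6), (1, 7), (2, 8)]

def selA (R : ℕ → ℕ → ℕ) (t f g0 g1 g2 : ℕ) : ℕ :=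
  sel 26 6 g0 (sel 26 7 g1 (sel 26 8 g2 (swps 26 9 lA (R t f))))

/-- term of the first kind as a function of the environment -/
def HA (R : ℕ → ℕ → ℕ) (t f g0 g1 g2 : ℕ) (e : ℕ → ℕ) : ℕ :=
  Kr R t f (c9 g0 g1 g2 (e 3) (e 4) (e 5) (e 0) (e 1) (e 2))

theorem HA_lt (R : ℕ → ℕ → ℕ) (t f g0 g1 g2 : ℕ) (e : ℕ → ℕ) : HA R t f g0 g1 g2 e < 2 ^ 26 :=
  lt_trans (Kr_lt R _ _ _) (by norm_num)

theorem HA_dep (R : ℕ → ℕ → ℕ) (t f g0 g1 g2 : ℕ) : Dep 6 (HA R t f g0 g1 g2) := by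
  intro e e' he
  unfold HA
  rw [he 0 (by norm_num), he 1 (by norm_num), he 2 (by norm_num), he 3 (by norm_num),
    he 4 (by norm_num), he 5 (by norm_num)]

theorem row_pk (R : ℕ → ℕ → ℕ) (h : rowsChk R = true) {t f : ℕ} (ht : Bit t) (hf : f < 512)
    (e0 : ℕ → ℕ) : R t f = pk 26 9 (fun e =>
      Kr R t f (c9 (e 0) (e 1) (e 2) (e 3) (e 4) (e 5) (e 6) (e 7) (e 8))) e0 := by
  have ht' : t = 0 ∨ t = 1 := ht
  have hn : f + 512 * t < 1024 := by omega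
  have h1 := allLt_spec h (f + 512 * t) hn
  rw [Bool.and_eq_true] at h1
  have h2 := Nat.le_of_ble_eq_true h1.1
  have h4 : rowN R (f + 512 * t) = R t f := by
    have a1 : Nat.shiftRight (f + 512 * t) 9 = t := by
      rw [shr9]
      omega
    have a2 : Nat.land (f + 512 * t) 511 = f := by
      rw [land511]
      omega
    unfold rowN
    rw [a1, a2]
  have e2 : (13312 : ℕ) = 26 * 2 ^ 9 := by norm_num
  rw [e2, h4] at h2
  have h5 := pk_lanes 26 9 (R t f) e0 h2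
  rw [← h5]
  refine pk_congr _ _ _ _ _ (fun e he => ?_)
  have hb : ∀ p, p < 9 → e p = 0 ∨ e p = 1 := he.2
  rw [idx9, ← h4]
  exact KTg_pt R h _ _ _ ht hf
    (c9_lt _ _ _ _ _ _ _ _ _ (hb 0 (by norm_num)) (hb 1 (by norm_num)) (hb 2 (by norm_num))
      (hb 3 (by norm_num)) (hb 4 (by norm_num)) (hb 5 (by norm_num)) (hb 6 (by norm_num))
      (hb 7 (by norm_num)) (hb 8 (by norm_num)))

theorem selA_pk (R : ℕ → ℕ → ℕ) (h : rowsChk R = true) {t f g0 g1 g2 : ℕ} (ht : Bit t)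
    (hf : f < 512) (hg0 : Bit g0) (hg1 : Bit g1) (hg2 : Bit g2) (e0 : ℕ → ℕ) :
    selA R t f g0 g1 g2 = pk 26 6 (HA R t f g0 g1 g2) e0 := by
  have h1 := row_pk R h ht hf e0
  unfold selA
  rw [h1]
  have HH : ∀ e', (fun e : ℕ → ℕ => Kr R t f (c9 (e 0) (e 1) (e 2) (e 3) (e 4) (e 5) (e 6) (e 7)
      (e 8))) e' < 2 ^ 26 := fun e' => lt_trans (Kr_lt R _ _ _) (by norm_num)
  rw [swps_pk 26 9 lA (okl_spec rfl) _ e0 HH]
  have HH' : ∀ e', (fun e : ℕ → ℕ => (fun e : ℕ → ℕ => Kr R t f (c9 (e 0) (e 1) (e 2) (e 3) (e 4)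
      (e 5) (e 6) (e 7) (e 8))) (swes lA e)) e' < 2 ^ 26 := fun e' => HH _
  rw [sel_pk 26 8 g2 _ _ HH' hg2, sel_pk 26 7 g1 _ _ HH' hg1, sel_pk 26 6 g0 _ _ HH' hg0,
    pk_env 26 6 (HA R t f g0 g1 g2) (HA_dep R _ _ _ _ _) e0
      (upd (upd (upd e0 8 g2) 7 g1) 6 g0)]
  refine pk_congr _ _ _ _ _ (fun e he => ?_)
  have a6 : e 6 = g0 := he.1 6 (by norm_num)
  have a7 : e 7 = g1 := he.1 7 (by norm_num)
  have a8 : e 8 = g2 := he.1 8 (by norm_num)
  show Kr R t f (c9 (e 6) (e 7) (e 8) (e 3) (e 4) (e 5) (e 0) (e 1) (e 2)) = _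
  rw [a6, a7, a8]
  rfl

/-! ### Number of ones -/

def pop (w : ℕ) : ℕ → ℕ
  | 0 => 0
  | k + 1 => Nat.add (pop w k) (Nat.shiftLeft (Nat.add (pop w k) (ones w k))
      (Nat.mul w (Nat.pow 2 k)))

def sm (e : ℕ → ℕ) : ℕ → ℕ
  | 0 => 0
  | k + 1 => sm e k + e k

theorem sm_congr (e e' : ℕ → ℕ) (k : ℕ) (h : ∀ p, p < k → e p = e' p) : sm e k = sm e' k := by
  induction k with
  | zero => rfl
  | succ k ih => rw [sm, sm, ih (fun p hp => h p (by omega)), h k (by omega)]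

theorem pop_eq (w k : ℕ) (e : ℕ → ℕ) : pop w k = pk w k (fun e => sm e k) e := by
  induction k generalizing e with
  | zero => rfl
  | succ k ih =>
    rw [pop, pk, shl]
    have a0 : pk w k (fun e => sm e (k + 1)) (upd e k 0) = pk w k (fun e => sm e k) (upd e k 0) := by
      refine pk_congr _ _ _ _ _ (fun e' he => ?_)
      have : e' k = 0 := by rw [he.1 k le_rfl, upd_same]
      show sm e' k + e' k = _
      rw [this, add_zero]
    have a1 : pk w k (fun e => sm e (k + 1)) (upd e k 1)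
        = pk w k (fun e => sm e k) (upd e k 1) + pk w k (fun _ => 1) (upd e k 1) := by
      rw [← pk_add]
      refine pk_congr _ _ _ _ _ (fun e' he => ?_)
      have : e' k = 1 := by rw [he.1 k le_rfl, upd_same]
      show sm e' k + e' k = _
      rw [this]
    rw [a0, a1, ← ih (upd e k 0), ← ih (upd e k 1), ← ones_eq]
    rfl

/-- comparison, with the bound on the values only at the bits -/
theorem leAll_sound' (w k C : ℕ) (hw : 0 < w) (h : (ℕ → ℕ) → ℕ) (e : ℕ → ℕ)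
    (H : ∀ e', Reach k e e' → h e' < 2 ^ (w - 1)) (hC : C < 2 ^ (w - 1))
    (hchk : leAll w k C (pk w k h e) = true) : ∀ e', Reach k e e' → h e' ≤ C := by
  have h1 : pk w k h e = pk w k (fun e => if h e < 2 ^ (w - 1) then h e else 0) e :=
    pk_congr _ _ _ _ _ (fun e' he => (if_pos (H e' he)).symm)
  rw [h1] at hchk
  intro e' he
  have h2 := leAll_sound w k C hw (fun e => if h e < 2 ^ (w - 1) then h e else 0) e
    (fun e' => by
      show (if h e' < 2 ^ (w - 1) then h e' else 0) < 2 ^ (w - 1)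
      split_ifs with h3
      · exact h3
      · exact Nat.two_pow_pos _) hC hchk e' he
  have h3 : (if h e' < 2 ^ (w - 1) then h e' else 0) ≤ C := h2
  rwa [if_pos (H e' he)] at h3

/-- sum of packed vectors -/
theorem add_pk {w k x y : ℕ} {h h' : (ℕ → ℕ) → ℕ} {e : ℕ → ℕ} (hx : x = pk w k h e)
    (hy : y = pk w k h' e) : Nat.add x y = pk w k (fun e => Nat.add (h e) (h' e)) e := by
  rw [hx, hy]
  exact (pk_add w k h h' e).symm

/-! ### Packed vectors with bounds -/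

/-- `x` is the packed vector of `h`, which is at most `M` and depends only on `k` bits -/
structure PV (k x M : ℕ) (h : (ℕ → ℕ) → ℕ) (e0 : ℕ → ℕ) : Prop where
  eq : x = pk 26 k h e0
  le : ∀ e, h e ≤ M
  dep : Dep k h

theorem PV.add {k x y M M' : ℕ} {h h' : (ℕ → ℕ) → ℕ} {e0 : ℕ → ℕ} (hx : PV k x M h e0)
    (hy : PV k y M' h' e0) : PV k (Nat.add x y) (M + M') (fun e => Nat.add (h e) (h' e)) e0 := by
  refine ⟨add_pk hx.eq hy.eq, fun e => Nat.add_le_add (hx.le e) (hy.le e), ?_⟩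
  intro e e' he
  show Nat.add (h e) (h' e) = Nat.add (h e') (h' e')
  rw [hx.dep e e' he, hy.dep e e' he]

theorem PV.ins {k x M : ℕ} {h : (ℕ → ℕ) → ℕ} {e0 : ℕ → ℕ} (p : ℕ) (hp : Nat.ble p k = true)
    (hM : Nat.blt M 67108864 = true) (hx : PV k x M h e0) :
    PV (Nat.succ k) (ins 26 k p x) M (fun e => h (upd e p (e k))) e0 := by
  have hM' : M < 2 ^ 26 := by
    have := Nat.le_of_ble_eq_true hM
    exact this
  refine ⟨?_, fun e => hx.le _, hx.dep.ins⟩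
  rw [hx.eq]
  exact ins_pk 26 k p (Nat.le_of_ble_eq_true hp) h e0 (fun e => lt_of_le_of_lt (hx.le e) hM')
    hx.dep.indep

theorem PV.swp {k x M : ℕ} {h : (ℕ → ℕ) → ℕ} {e0 : ℕ → ℕ} (p q : ℕ) (hpq : Nat.blt p q = true)
    (hq : Nat.blt q k = true) (hM : Nat.blt M 67108864 = true) (hx : PV k x M h e0) :
    PV k (swp 26 k p q x) M (fun e => h (swe e p q)) e0 := by
  have hM' : M < 2 ^ 26 := by
    have := Nat.le_of_ble_eq_true hM
    exact this
  have h1 : p < q := Nat.le_of_ble_eq_true hpq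
  have h2 : q < k := Nat.le_of_ble_eq_true hq
  refine ⟨?_, fun e => hx.le _, hx.dep.swe (lt_trans h1 h2) h2⟩
  rw [hx.eq]
  exact swp_pk 26 k p q h1 h2 h e0 (fun e => lt_of_le_of_lt (hx.le e) hM')

theorem PV.mono {k x M M' : ℕ} {h : (ℕ → ℕ) → ℕ} {e0 : ℕ → ℕ} (hx : PV k x M h e0)
    (hM : Nat.ble M M' = true) : PV k x M' h e0 :=
  ⟨hx.eq, fun e => le_trans (hx.le e) (Nat.le_of_ble_eq_true hM), hx.dep⟩

theorem PV.cast {k x y M : ℕ} {h : (ℕ → ℕ) → ℕ} {e0 : ℕ → ℕ} (hxy : y = x)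
    (hx : PV k x M h e0) : PV k y M h e0 := by
  rw [hxy]
  exact hx

theorem HB_pv (R : ℕ → ℕ → ℕ) (h : rowsChk R = true) {b11 b12 b13 b14 b15 b16 b17 b18 : ℕ}
    (h11 : Bit b11) (h12 : Bit b12) (h13 : Bit b13) (h14 : Bit b14) (h15 : Bit b15)
    (h16 : Bit b16) (h17 : Bit b17) (h18 : Bit b18) (e0 : ℕ → ℕ) :
    PV 11 (selB R b11 b12 b13 b14 b15 b16 b17 b18) 262143
      (HB R b11 b12 b13 b14 b15 b16 b17 b18) e0 :=
  ⟨selB_pk R h h11 h12 h13 h14 h15 h16 h17 h18 e0,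
    fun _ => Nat.le_of_lt_succ (Kr_lt R _ _ _), HB_dep R _ _ _ _ _ _ _ _⟩

theorem HA_pv (R : ℕ → ℕ → ℕ) (h : rowsChk R = true) {t f g0 g1 g2 : ℕ} (ht : Bit t)
    (hf : f < 512) (hg0 : Bit g0) (hg1 : Bit g1) (hg2 : Bit g2) (e0 : ℕ → ℕ) :
    PV 6 (selA R t f g0 g1 g2) 262143 (HA R t f g0 g1 g2) e0 :=
  ⟨selA_pk R h ht hf hg0 hg1 hg2 e0, fun _ => Nat.le_of_lt_succ (Kr_lt R _ _ _),
    HA_dep R _ _ _ _ _⟩

end Pool.Agent.H6N7
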