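import Pool.Agent.H6N7.Leaf0

set_option autoImplicit false
set_option linter.unusedVariables false
set_option maxHeartbeats 4000000
set_option maxRecDepth 20000

/-!
# The pointwise check (generated file)
-/

namespace Pool.Agent.H6N7

open Pool.Agent.H6Turan

/-- literal blocks agree with the table -/
def BlkOK (R : ℕ → ℕ → ℕ) (BK : ℕ → ℕ → ℕ → ℕ → ℕ → ℕ → ℕ → ℕ → ℕ) : Prop :=
  ∀ b11 b12 b13 b14 b15 b16 b17 b18, Bit b11 → Bit b12 → Bit b13 → Bit b14 → Bit b15 → Bit b16 →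
    Bit b17 → Bit b18 → BK b11 b12 b13 b14 b15 b16 b17 b18 = selB R b11 b12 b13 b14 b15 b16 b17 b18

/-- block given by the bits of `F`, with a continuation -/
def tB (BK : ℕ → ℕ → ℕ → ℕ → ℕ → ℕ → ℕ → ℕ → ℕ) (c : ℕ → ℕ)
    (F i11 i12 i13 i14 i15 i16 i17 i18 : ℕ) : ℕ :=
  frc (bt F i11) fun b11 => frc (bt F i12) fun b12 => frc (bt F i13) fun b13 =>
  frc (bt F i14) fun b14 => frc (bt F i15) fun b15 => frc (bt F i16) fun b16 =>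
  frc (bt F i17) fun b17 => frc (bt F i18) fun b18 => c (BK b11 b12 b13 b14 b15 b16 b17 b18)

theorem tB_eq (R : ℕ → ℕ → ℕ) (BK : ℕ → ℕ → ℕ → ℕ → ℕ → ℕ → ℕ → ℕ → ℕ) (hBK : BlkOK R BK)
    (c : ℕ → ℕ) (F i11 i12 i13 i14 i15 i16 i17 i18 : ℕ) :
    tB BK c F i11 i12 i13 i14 i15 i16 i17 i18 = c (selB R (bt F i11) (bt F i12) (bt F i13)
      (bt F i14) (bt F i15) (bt F i16) (bt F i17) (bt F i18)) := by
  unfold tB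
  rw [frc_eq (bt_bit F i11), frc_eq (bt_bit F i12), frc_eq (bt_bit F i13), frc_eq (bt_bit F i14),
    frc_eq (bt_bit F i15), frc_eq (bt_bit F i16), frc_eq (bt_bit F i17), frc_eq (bt_bit F i18),
    hBK _ _ _ _ _ _ _ _ (bt_bit F i11) (bt_bit F i12) (bt_bit F i13) (bt_bit F i14)
      (bt_bit F i15) (bt_bit F i16) (bt_bit F i17) (bt_bit F i18)]

def tA (R : ℕ → ℕ → ℕ) (F it i0 i1 i2 i3 i4 i5 i6 i7 i8 j0 j1 j2 : ℕ) : ℕ :=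
  selA R (bt F it) (c9 (bt F i0) (bt F i1) (bt F i2) (bt F i3) (bt F i4) (bt F i5)
    (bt F i6) (bt F i7) (bt F i8)) (bt F j0) (bt F j1) (bt F j2)

theorem tA_pv (R : ℕ → ℕ → ℕ) (h : rowsChk R = true)
    (F it i0 i1 i2 i3 i4 i5 i6 i7 i8 j0 j1 j2 : ℕ) (e0 : ℕ → ℕ) :
    PV 6 (tA R F it i0 i1 i2 i3 i4 i5 i6 i7 i8 j0 j1 j2) 262143
      (HA R (bt F it) (c9 (bt F i0) (bt F i1) (bt F i2) (bt F i3) (bt F i4) (bt F i5)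
        (bt F i6) (bt F i7) (bt F i8)) (bt F j0) (bt F j1) (bt F j2)) e0 :=
  HA_pv R h (bt_bit F it) (c9_lt _ _ _ _ _ _ _ _ _ (bt_bit F i0) (bt_bit F i1)
      (bt_bit F i2) (bt_bit F i3) (bt_bit F i4) (bt_bit F i5) (bt_bit F i6) (bt_bit F i7)
      (bt_bit F i8)) (bt_bit F j0) (bt_bit F j1) (bt_bit F j2) e0

theorem tB_pv (R : ℕ → ℕ → ℕ) (h : rowsChk R = true) (F i11 i12 i13 i14 i15 i16 i17 i18 : ℕ)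
    (e0 : ℕ → ℕ) :
    PV 11 (selB R (bt F i11) (bt F i12) (bt F i13)
      (bt F i14) (bt F i15) (bt F i16) (bt F i17) (bt F i18)) 262143
      (HB R (bt F i11) (bt F i12) (bt F i13)
        (bt F i14) (bt F i15) (bt F i16) (bt F i17) (bt F i18)) e0 :=
  HB_pv R h (bt_bit F i11) (bt_bit F i12) (bt_bit F i13) (bt_bit F i14)
      (bt_bit F i15) (bt_bit F i16) (bt_bit F i17) (bt_bit F i18) e0

def x0 (R : ℕ → ℕ → ℕ) (BK : ℕ → ℕ → ℕ → ℕ → ℕ → ℕ → ℕ → ℕ → ℕ) (F : ℕ) : ℕ :=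
  Nat.add (tB BK (fun x => (swp 26 11 9 10 (swp 26 11 6 7 (swp 26 11 5 8 (swp 26 11 1 10 (swp 26 11 0 2 x)))))) F 4 1 10 16 2 3 17 0)
    (ins 26 10 0 (ins 26 9 9 (ins 26 8 8 (ins 26 7 4 (ins 26 6 5 (Nat.add (Nat.add (swp 26 6 2 3 (tA R F 3 6 8 9 12 14 15 17 18 19 0 1 2)) (swp 26 6 3 4 (swp 26 6 2 3 (swp 26 6 1 3 (tA R F 2 5 7 9 11 13 15 16 18 19 0 1 3))))) (Nat.add (swp 26 6 4 5 (swp 26 6 3 4 (swp 26 6 2 3 (swp 26 6 1 3 (swp 26 6 0 3 (tA R F 1 4 7 8 10 13 14 16 17 19 0 2 3)))))) (swp 26 6 2 5 (swp 26 6 1 4 (swp 26 6 0 3 (tA R F 0 4 5 6 10 11 12 16 17 18 1 2 3)))))))))))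

def LX0 (K : ℕ → ℕ → ℕ → ℕ) (b012 b013 b023 b123 b014 b024 b124 b034 b134 b234 b015 b025 b125 b035 b135 b235 b045 b145 b245 b345 b016 b026 b126 b036 b136 b236 b046 b146 b246 b346 b056 b156 b256 b356 b456 : ℕ) : ℕ :=
  (Nat.add (K b016 (c9 b012 b026 b126 b013 b036 b136 b023 b123 b236) (c9 b014 b046 b146 b015 b056 b156 b045 b145 b456)) (Nat.add (Nat.add (K b123 (c9 b124 b134 b234 b125 b135 b235 b145 b245 b345) (c9 b012 b013 b023 b126 b136 b236 b016 b026 b036)) (K b023 (c9 b024 b034 b234 b025 b035 b235 b045 b245 b345) (c9 b012 b013 b123 b026 b036 b236 b016 b126 b136))) (Nat.add (K b013 (c9 b014 b034 b134 b015 b035 b135 b045 b145 b345) (c9 b012 b023 b123 b016 b036 b136 b026 b126 b236)) (K b012 (c9 b014 b024 b124 b015 b025 b125 b045 b145 b245) (c9 b013 b023 b123 b016 b026 b126 b036 b136 b236)))))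

theorem x0_pv (R : ℕ → ℕ → ℕ) (h : rowsChk R = true)
    (BK : ℕ → ℕ → ℕ → ℕ → ℕ → ℕ → ℕ → ℕ → ℕ) (hBK : BlkOK R BK) (F : ℕ) (e0 : ℕ → ℕ) :
    PV 11 (x0 R BK F) (5 * 262143) (fun e =>
      LX0 (Kr R) (bt F 0) (bt F 1) (bt F 2) (bt F 3) (bt F 4) (bt F 5) (bt F 6) (bt F 7) (bt F 8) (bt F 9) (bt F 10) (bt F 11) (bt F 12) (bt F 13) (bt F 14) (bt F 15) (bt F 16) (bt F 17) (bt F 18) (bt F 19) (e 10) (e 1) (e 2) (e 3) (e 7) (e 6) (e 9) (e 0) 0 0 (e 4) (e 8) 0 0 (e 5)) e0 :=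
  PV.mono ((PV.cast (tB_eq R BK hBK (fun x => (swp 26 11 9 10 (swp 26 11 6 7 (swp 26 11 5 8 (swp 26 11 1 10 (swp 26 11 0 2 x)))))) F 4 1 10 16 2 3 17 0)
      ((((((tB_pv R h F 4 1 10 16 2 3 17 0 e0).swp 0 2 rfl rfl rfl).swp 1 10 rfl rfl rfl).swp 5 8 rfl rfl rfl).swp 6 7 rfl rfl rfl).swp 9 10 rfl rfl rfl)).add
      (((((((((tA_pv R h F 3 6 8 9 12 14 15 17 18 19 0 1 2 e0).swp 2 3 rfl rfl rfl).add ((((tA_pv R h F 2 5 7 9 11 13 15 16 18 19 0 1 3 e0).swp 1 3 rfl rfl rfl).swp 2 3 rfl rfl rfl).swp 3 4 rfl rfl rfl)).add (((((((tA_pv R h F 1 4 7 8 10 13 14 16 17 19 0 2 3 e0).swp 0 3 rfl rfl rfl).swp 1 3 rfl rfl rfl).swp 2 3 rfl rfl rfl).swp 3 4 rfl rfl rfl).swp 4 5 rfl rfl rfl).add ((((tA_pv R h F 0 4 5 6 10 11 12 16 17 18 1 2 3 e0).swp 0 3 rfl rfl rfl).swp 1 4 rfl rfl rfl).swp 2 5 rfl rfl rfl))).ins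 5 rfl rfl).ins 4 rfl rfl).ins 8 rfl rfl).ins 9 rfl rfl).ins 0 rfl rfl)) rfl

def x1 (R : ℕ → ℕ → ℕ) (BK : ℕ → ℕ → ℕ → ℕ → ℕ → ℕ → ℕ → ℕ → ℕ) (F : ℕ) : ℕ :=
  Nat.add (tB BK (fun x => (swp 26 11 9 10 (swp 26 11 3 10 (swp 26 11 2 7 (swp 26 11 1 10 (swp 26 11 0 6 x)))))) F 1 4 10 13 5 6 14 0)
    (ins 26 10 3 (ins 26 9 4 (ins 26 8 8 (ins 26 7 7 (ins 26 6 5 (Nat.add (Nat.add (swp 26 6 4 5 (swp 26 6 3 4 (swp 26 6 2 5 (swp 26 6 0 4 (tA R F 6 3 8 9 12 17 18 14 15 19 0 4 5))))) (swp 26 6 3 5 (swp 26 6 2 5 (swp 26 6 1 3 (swp 26 6 0 2 (tA R F 5 2 7 9 11 16 18 13 15 19 0 4 6)))))) (Nat.add (swp 26 6 1 5 (swp 26 6 0 5 (tA R F 4 1 7 8 10 16 17 13 14 19 0 5 6))) (swp 26 6 1 4 (swp 26 6 0 1 (tA R F 0 1 2 3 10 11 12 13 14 15 4 5 6))))))))))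

def LX1 (K : ℕ → ℕ → ℕ → ℕ) (b012 b013 b023 b123 b014 b024 b124 b034 b134 b234 b015 b025 b125 b035 b135 b235 b045 b145 b245 b345 b016 b026 b126 b036 b136 b236 b046 b146 b246 b346 b056 b156 b256 b356 b456 : ℕ) : ℕ :=
  (Nat.add (K b016 (c9 b012 b026 b126 b014 b046 b146 b024 b124 b246) (c9 b013 b036 b136 b015 b056 b156 b035 b135 b356)) (Nat.add (Nat.add (K b124 (c9 b123 b134 b234 b125 b145 b245 b135 b235 b345) (c9 b012 b014 b024 b126 b146 b246 b016 b026 b046)) (K b024 (c9 b023 b034 b234 b025 b045 b245 b035 b235 b345) (c9 b012 b014 b124 b026 b046 b246 b016 b126 b146))) (Nat.add (K b014 (c9 b013 b034 b134 b015 b045 b145 b035 b135 b345) (c9 b012 b024 b124 b016 b046 b146 b026 b126 b246)) (K b012 (c9 b013 b023 b123 b015 b025 b125 b035 b135 b235) (c9 b014 b024 b124 b016 b026 b126 b046 b146 b246)))))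

theorem x1_pv (R : ℕ → ℕ → ℕ) (h : rowsChk R = true)
    (BK : ℕ → ℕ → ℕ → ℕ → ℕ → ℕ → ℕ → ℕ → ℕ) (hBK : BlkOK R BK) (F : ℕ) (e0 : ℕ → ℕ) :
    PV 11 (x1 R BK F) (5 * 262143) (fun e =>
      LX1 (Kr R) (bt F 0) (bt F 1) (bt F 2) (bt F 3) (bt F 4) (bt F 5) (bt F 6) (bt F 7) (bt F 8) (bt F 9) (bt F 10) (bt F 11) (bt F 12) (bt F 13) (bt F 14) (bt F 15) (bt F 16) (bt F 17) (bt F 18) (bt F 19) (e 10) (e 1) (e 6) (e 3) (e 7) 0 (e 9) (e 0) (e 2) 0 (e 4) (e 5) 0 (e 8) 0) e0 :=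
  PV.mono ((PV.cast (tB_eq R BK hBK (fun x => (swp 26 11 9 10 (swp 26 11 3 10 (swp 26 11 2 7 (swp 26 11 1 10 (swp 26 11 0 6 x)))))) F 1 4 10 13 5 6 14 0)
      ((((((tB_pv R h F 1 4 10 13 5 6 14 0 e0).swp 0 6 rfl rfl rfl).swp 1 10 rfl rfl rfl).swp 2 7 rfl rfl rfl).swp 3 10 rfl rfl rfl).swp 9 10 rfl rfl rfl)).add
      ((((((((((((tA_pv R h F 6 3 8 9 12 17 18 14 15 19 0 4 5 e0).swp 0 4 rfl rfl rfl).swp 2 5 rfl rfl rfl).swp 3 4 rfl rfl rfl).swp 4 5 rfl rfl rfl).add (((((tA_pv R h F 5 2 7 9 11 16 18 13 15 19 0 4 6 e0).swp 0 2 rfl rfl rfl).swp 1 3 rfl rfl rfl).swp 2 5 rfl rfl rfl).swp 3 5 rfl rfl rfl)).add ((((tA_pv R h F 4 1 7 8 10 16 17 13 14 19 0 5 6 e0).swp 0 5 rfl rfl rfl).swp 1 5 rfl rfl rfl).add (((tA_pv R h F 0 1 2 3 10 11 12 13 14 15 4 5 6 e0).swp 0 1 rfl rfl rfl).swp 1 4 rfl rfl rfl))).ins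 5 rfl rfl).ins 7 rfl rfl).ins 8 rfl rfl).ins 4 rfl rfl).ins 3 rfl rfl)) rfl

def x2 (R : ℕ → ℕ → ℕ) (BK : ℕ → ℕ → ℕ → ℕ → ℕ → ℕ → ℕ → ℕ → ℕ) (F : ℕ) : ℕ :=
  Nat.add (tB BK (fun x => (swp 26 11 9 10 (swp 26 11 6 7 (swp 26 11 3 10 (swp 26 11 0 6 x))))) F 0 4 10 11 7 8 12 1)
    (ins 26 10 2 (ins 26 9 4 (ins 26 8 8 (ins 26 7 1 (ins 26 6 5 (Nat.add (Nat.add (swp 26 6 2 4 (swp 26 6 1 3 (swp 26 6 0 4 (tA R F 8 3 6 9 14 17 19 12 15 18 1 4 7)))) (swp 26 6 0 2 (tA R F 7 2 5 9 13 16 19 11 15 18 1 4 8))) (Nat.add (swp 26 6 3 5 (swp 26 6 2 3 (swp 26 6 0 5 (tA R F 4 0 5 6 10 16 17 11 12 18 1 7 8)))) (swp 26 6 4 5 (swp 26 6 3 4 (swp 26 6 2 3 (swp 26 6 1 5 (swp 26 6 0 1 (tA R F 1 0 2 3 10 13 14 11 12 15 4 7 8)))))))))))))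

def LX2 (K : ℕ → ℕ → ℕ → ℕ) (b012 b013 b023 b123 b014 b024 b124 b034 b134 b234 b015 b025 b125 b035 b135 b235 b045 b145 b245 b345 b016 b026 b126 b036 b136 b236 b046 b146 b246 b346 b056 b156 b256 b356 b456 : ℕ) : ℕ :=
  (Nat.add (K b016 (c9 b013 b036 b136 b014 b046 b146 b034 b134 b346) (c9 b012 b026 b126 b015 b056 b156 b025 b125 b256)) (Nat.add (Nat.add (K b134 (c9 b123 b124 b234 b135 b145 b345 b125 b235 b245) (c9 b013 b014 b034 b136 b146 b346 b016 b036 b046)) (K b034 (c9 b023 b024 b234 b035 b045 b345 b025 b235 b245) (c9 b013 b014 b134 b036 b046 b346 b016 b136 b146))) (Nat.add (K b014 (c9 b012 b024 b124 b015 b045 b145 b025 b125 b245) (c9 b013 b034 b134 b016 b046 b146 b036 b136 b346)) (K b013 (c9 b012 b023 b123 b015 b035 b135 b025 b125 b235) (c9 b014 b034 b134 b016 b036 b136 b046 b146 b346)))))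

theorem x2_pv (R : ℕ → ℕ → ℕ) (h : rowsChk R = true)
    (BK : ℕ → ℕ → ℕ → ℕ → ℕ → ℕ → ℕ → ℕ → ℕ) (hBK : BlkOK R BK) (F : ℕ) (e0 : ℕ → ℕ) :
    PV 11 (x2 R BK F) (5 * 262143) (fun e =>
      LX2 (Kr R) (bt F 0) (bt F 1) (bt F 2) (bt F 3) (bt F 4) (bt F 5) (bt F 6) (bt F 7) (bt F 8) (bt F 9) (bt F 10) (bt F 11) (bt F 12) (bt F 13) (bt F 14) (bt F 15) (bt F 16) (bt F 17) (bt F 18) (bt F 19) (e 10) (e 1) (e 2) (e 3) (e 7) 0 (e 9) (e 0) 0 (e 6) (e 4) (e 5) (e 8) 0 0) e0 :=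
  PV.mono ((PV.cast (tB_eq R BK hBK (fun x => (swp 26 11 9 10 (swp 26 11 6 7 (swp 26 11 3 10 (swp 26 11 0 6 x))))) F 0 4 10 11 7 8 12 1)
      (((((tB_pv R h F 0 4 10 11 7 8 12 1 e0).swp 0 6 rfl rfl rfl).swp 3 10 rfl rfl rfl).swp 6 7 rfl rfl rfl).swp 9 10 rfl rfl rfl)).add
      (((((((((((tA_pv R h F 8 3 6 9 14 17 19 12 15 18 1 4 7 e0).swp 0 4 rfl rfl rfl).swp 1 3 rfl rfl rfl).swp 2 4 rfl rfl rfl).add ((tA_pv R h F 7 2 5 9 13 16 19 11 15 18 1 4 8 e0).swp 0 2 rfl rfl rfl)).add (((((tA_pv R h F 4 0 5 6 10 16 17 11 12 18 1 7 8 e0).swp 0 5 rfl rfl rfl).swp 2 3 rfl rfl rfl).swp 3 5 rfl rfl rfl).add ((((((tA_pv R h F 1 0 2 3 10 13 14 11 12 15 4 7 8 e0).swp 0 1 rfl rfl rfl).swp 1 5 rfl rfl rfl).swp 2 3 rfl rfl rfl).swp 3 4 rfl rfl rfl).swp 4 5 rfl rfl rfl))).ins 5 rfl rfl).ins 1 rfl rfl).ins 8 rfl rfl).ins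 4 rfl rfl).ins 2 rfl rfl)) rfl

def x3 (R : ℕ → ℕ → ℕ) (BK : ℕ → ℕ → ℕ → ℕ → ℕ → ℕ → ℕ → ℕ → ℕ) (F : ℕ) : ℕ :=
  Nat.add (tB BK (fun x => (swp 26 11 5 8 (swp 26 11 1 9 x))) F 5 2 11 16 1 3 18 0)
    (ins 26 10 10 (ins 26 9 0 (ins 26 8 3 (ins 26 7 7 (ins 26 6 6 (Nat.add (Nat.add (swp 26 6 3 4 (swp 26 6 2 3 (swp 26 6 0 1 (tA R F 18 6 12 17 9 15 19 3 8 14 5 11 16)))) (swp 26 6 2 3 (swp 26 6 1 3 (swp 26 6 0 3 (tA R F 16 4 10 17 7 13 19 1 8 14 5 11 18))))) (Nat.add (swp 26 6 3 5 (swp 26 6 2 3 (swp 26 6 1 3 (tA R F 11 0 10 12 2 13 15 1 3 14 5 16 18)))) (swp 26 6 2 5 (swp 26 6 1 3 (swp 26 6 0 4 (tA R F 5 0 4 6 2 7 9 1 3 8 11 16 18)))))))))))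

def LX3 (K : ℕ → ℕ → ℕ → ℕ) (b012 b013 b023 b123 b014 b024 b124 b034 b134 b234 b015 b025 b125 b035 b135 b235 b045 b145 b245 b345 b016 b026 b126 b036 b136 b236 b046 b146 b246 b346 b056 b156 b256 b356 b456 : ℕ) : ℕ :=
  (Nat.add (K b026 (c9 b012 b016 b126 b023 b036 b236 b013 b123 b136) (c9 b024 b046 b246 b025 b056 b256 b045 b245 b456)) (Nat.add (Nat.add (K b245 (c9 b124 b125 b145 b234 b235 b345 b123 b134 b135) (c9 b024 b025 b045 b246 b256 b456 b026 b046 b056)) (K b045 (c9 b014 b015 b145 b034 b035 b345 b013 b134 b135) (c9 b024 b025 b245 b046 b056 b456 b026 b246 b256))) (Nat.add (K b025 (c9 b012 b015 b125 b023 b035 b235 b013 b123 b135) (c9 b024 b045 b245 b026 b056 b256 b046 b246 b456)) (K b024 (c9 b012 b014 b124 b023 b034 b234 b013 b123 b134) (c9 b025 b045 b245 b026 b046 b246 b056 b256 b456)))))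

theorem x3_pv (R : ℕ → ℕ → ℕ) (h : rowsChk R = true)
    (BK : ℕ → ℕ → ℕ → ℕ → ℕ → ℕ → ℕ → ℕ → ℕ) (hBK : BlkOK R BK) (F : ℕ) (e0 : ℕ → ℕ) :
    PV 11 (x3 R BK F) (5 * 262143) (fun e =>
      LX3 (Kr R) (bt F 0) (bt F 1) (bt F 2) (bt F 3) (bt F 4) (bt F 5) (bt F 6) (bt F 7) (bt F 8) (bt F 9) (bt F 10) (bt F 11) (bt F 12) (bt F 13) (bt F 14) (bt F 15) (bt F 16) (bt F 17) (bt F 18) (bt F 19) (e 10) (e 1) (e 0) (e 3) (e 7) (e 6) (e 9) 0 (e 2) 0 (e 4) 0 (e 8) 0 (e 5)) e0 :=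
  PV.mono ((PV.cast (tB_eq R BK hBK (fun x => (swp 26 11 5 8 (swp 26 11 1 9 x))) F 5 2 11 16 1 3 18 0)
      (((tB_pv R h F 5 2 11 16 1 3 18 0 e0).swp 1 9 rfl rfl rfl).swp 5 8 rfl rfl rfl)).add
      (((((((((((tA_pv R h F 18 6 12 17 9 15 19 3 8 14 5 11 16 e0).swp 0 1 rfl rfl rfl).swp 2 3 rfl rfl rfl).swp 3 4 rfl rfl rfl).add ((((tA_pv R h F 16 4 10 17 7 13 19 1 8 14 5 11 18 e0).swp 0 3 rfl rfl rfl).swp 1 3 rfl rfl rfl).swp 2 3 rfl rfl rfl)).add (((((tA_pv R h F 11 0 10 12 2 13 15 1 3 14 5 16 18 e0).swp 1 3 rfl rfl rfl).swp 2 3 rfl rfl rfl).swp 3 5 rfl rfl rfl).add ((((tA_pv R h F 5 0 4 6 2 7 9 1 3 8 11 16 18 e0).swp 0 4 rfl rfl rfl).swp 1 3 rfl rfl rfl).swp 2 5 rfl rfl rfl))).ins 6 rfl rfl).ins 7 rfl rfl).ins 3 rfl rfl).ins 0 rfl rfl).ins 10 rfl rfl)) rfl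

def x4 (R : ℕ → ℕ → ℕ) (BK : ℕ → ℕ → ℕ → ℕ → ℕ → ℕ → ℕ → ℕ → ℕ) (F : ℕ) : ℕ :=
  Nat.add (tB BK (fun x => (swp 26 11 5 8 (swp 26 11 3 9 (swp 26 11 2 6 (swp 26 11 1 9 (swp 26 11 0 7 x)))))) F 2 5 11 13 4 6 15 0)
    (ins 26 10 10 (ins 26 9 9 (ins 26 8 2 (ins 26 7 7 (ins 26 6 0 (Nat.add (Nat.add (swp 26 6 2 4 (swp 26 6 1 3 (swp 26 6 0 3 (tA R F 15 3 12 14 9 18 19 6 8 17 2 11 13)))) (swp 26 6 0 1 (tA R F 13 1 10 14 7 16 19 4 8 17 2 11 15))) (Nat.add (swp 26 6 2 5 (swp 26 6 1 3 (swp 26 6 0 1 (tA R F 11 0 10 12 5 16 18 4 6 17 2 13 15)))) (swp 26 6 4 5 (swp 26 6 3 4 (swp 26 6 2 3 (swp 26 6 1 3 (swp 26 6 0 5 (tA R F 2 0 1 3 5 7 9 4 6 8 11 13 15)))))))))))))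

def LX4 (K : ℕ → ℕ → ℕ → ℕ) (b012 b013 b023 b123 b014 b024 b124 b034 b134 b234 b015 b025 b125 b035 b135 b235 b045 b145 b245 b345 b016 b026 b126 b036 b136 b236 b046 b146 b246 b346 b056 b156 b256 b356 b456 : ℕ) : ℕ :=
  (Nat.add (K b026 (c9 b012 b016 b126 b024 b046 b246 b014 b124 b146) (c9 b023 b036 b236 b025 b056 b256 b035 b235 b356)) (Nat.add (Nat.add (K b235 (c9 b123 b125 b135 b234 b245 b345 b124 b134 b145) (c9 b023 b025 b035 b236 b256 b356 b026 b036 b056)) (K b035 (c9 b013 b015 b135 b034 b045 b345 b014 b134 b145) (c9 b023 b025 b235 b036 b056 b356 b026 b236 b256))) (Nat.add (K b025 (c9 b012 b015 b125 b024 b045 b245 b014 b124 b145) (c9 b023 b035 b235 b026 b056 b256 b036 b236 b356)) (K b023 (c9 b012 b013 b123 b024 b034 b234 b014 b124 b134) (c9 b025 b035 b235 b026 b036 b236 b056 b256 b356)))))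

theorem x4_pv (R : ℕ → ℕ → ℕ) (h : rowsChk R = true)
    (BK : ℕ → ℕ → ℕ → ℕ → ℕ → ℕ → ℕ → ℕ → ℕ) (hBK : BlkOK R BK) (F : ℕ) (e0 : ℕ → ℕ) :
    PV 11 (x4 R BK F) (5 * 262143) (fun e =>
      LX4 (Kr R) (bt F 0) (bt F 1) (bt F 2) (bt F 3) (bt F 4) (bt F 5) (bt F 6) (bt F 7) (bt F 8) (bt F 9) (bt F 10) (bt F 11) (bt F 12) (bt F 13) (bt F 14) (bt F 15) (bt F 16) (bt F 17) (bt F 18) (bt F 19) (e 10) (e 1) (e 7) (e 3) 0 (e 6) (e 9) (e 0) (e 2) 0 (e 4) 0 (e 8) (e 5) 0) e0 :=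
  PV.mono ((PV.cast (tB_eq R BK hBK (fun x => (swp 26 11 5 8 (swp 26 11 3 9 (swp 26 11 2 6 (swp 26 11 1 9 (swp 26 11 0 7 x)))))) F 2 5 11 13 4 6 15 0)
      ((((((tB_pv R h F 2 5 11 13 4 6 15 0 e0).swp 0 7 rfl rfl rfl).swp 1 9 rfl rfl rfl).swp 2 6 rfl rfl rfl).swp 3 9 rfl rfl rfl).swp 5 8 rfl rfl rfl)).add
      (((((((((((tA_pv R h F 15 3 12 14 9 18 19 6 8 17 2 11 13 e0).swp 0 3 rfl rfl rfl).swp 1 3 rfl rfl rfl).swp 2 4 rfl rfl rfl).add ((tA_pv R h F 13 1 10 14 7 16 19 4 8 17 2 11 15 e0).swp 0 1 rfl rfl rfl)).add (((((tA_pv R h F 11 0 10 12 5 16 18 4 6 17 2 13 15 e0).swp 0 1 rfl rfl rfl).swp 1 3 rfl rfl rfl).swp 2 5 rfl rfl rfl).add ((((((tA_pv R h F 2 0 1 3 5 7 9 4 6 8 11 13 15 e0).swp 0 5 rfl rfl rfl).swp 1 3 rfl rfl rfl).swp 2 3 rfl rfl rfl).swp 3 4 rfl rfl rfl).swp 4 5 rfl rfl rfl))).ins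 0 rfl rfl).ins 7 rfl rfl).ins 2 rfl rfl).ins 9 rfl rfl).ins 10 rfl rfl)) rfl

def x5 (R : ℕ → ℕ → ℕ) (BK : ℕ → ℕ → ℕ → ℕ → ℕ → ℕ → ℕ → ℕ → ℕ) (F : ℕ) : ℕ :=
  Nat.add (tB BK (fun x => (swp 26 11 9 10 (swp 26 11 6 7 (swp 26 11 5 8 (swp 26 11 3 10 (swp 26 11 2 6 (swp 26 11 1 9 x))))))) F 0 5 11 10 7 9 12 2)
    (ins 26 10 10 (ins 26 9 4 (ins 26 8 8 (ins 26 7 7 (ins 26 6 5 (Nat.add (Nat.add (swp 26 6 2 4 (swp 26 6 1 3 (swp 26 6 0 3 (tA R F 9 3 6 8 15 18 19 12 14 17 2 5 7)))) (swp 26 6 0 1 (tA R F 7 1 4 8 13 16 19 10 14 17 2 5 9))) (Nat.add (swp 26 6 2 5 (swp 26 6 1 3 (swp 26 6 0 1 (tA R F 5 0 4 6 11 16 18 10 12 17 2 7 9)))) (swp 26 6 4 5 (swp 26 6 3 4 (swp 26 6 2 3 (swp 26 6 1 3 (swp 26 6 0 5 (tA R F 2 0 1 3 11 13 15 10 12 14 5 7 9)))))))))))))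

def LX5 (K : ℕ → ℕ → ℕ → ℕ) (b012 b013 b023 b123 b014 b024 b124 b034 b134 b234 b015 b025 b125 b035 b135 b235 b045 b145 b245 b345 b016 b026 b126 b036 b136 b236 b046 b146 b246 b346 b056 b156 b256 b356 b456 : ℕ) : ℕ :=
  (Nat.add (K b026 (c9 b023 b036 b236 b024 b046 b246 b034 b234 b346) (c9 b012 b016 b126 b025 b056 b256 b015 b125 b156)) (Nat.add (Nat.add (K b234 (c9 b123 b124 b134 b235 b245 b345 b125 b135 b145) (c9 b023 b024 b034 b236 b246 b346 b026 b036 b046)) (K b034 (c9 b013 b014 b134 b035 b045 b345 b015 b135 b145) (c9 b023 b024 b234 b036 b046 b346 b026 b236 b246))) (Nat.add (K b024 (c9 b012 b014 b124 b025 b045 b245 b015 b125 b145) (c9 b023 b034 b234 b026 b046 b246 b036 b236 b346)) (K b023 (c9 b012 b013 b123 b025 b035 b235 b015 b125 b135) (c9 b024 b034 b234 b026 b036 b236 b046 b246 b346)))))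

theorem x5_pv (R : ℕ → ℕ → ℕ) (h : rowsChk R = true)
    (BK : ℕ → ℕ → ℕ → ℕ → ℕ → ℕ → ℕ → ℕ → ℕ) (hBK : BlkOK R BK) (F : ℕ) (e0 : ℕ → ℕ) :
    PV 11 (x5 R BK F) (5 * 262143) (fun e =>
      LX5 (Kr R) (bt F 0) (bt F 1) (bt F 2) (bt F 3) (bt F 4) (bt F 5) (bt F 6) (bt F 7) (bt F 8) (bt F 9) (bt F 10) (bt F 11) (bt F 12) (bt F 13) (bt F 14) (bt F 15) (bt F 16) (bt F 17) (bt F 18) (bt F 19) (e 10) (e 1) (e 7) (e 3) 0 (e 0) (e 9) 0 (e 2) (e 6) (e 4) (e 5) (e 8) 0 0) e0 :=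
  PV.mono ((PV.cast (tB_eq R BK hBK (fun x => (swp 26 11 9 10 (swp 26 11 6 7 (swp 26 11 5 8 (swp 26 11 3 10 (swp 26 11 2 6 (swp 26 11 1 9 x))))))) F 0 5 11 10 7 9 12 2)
      (((((((tB_pv R h F 0 5 11 10 7 9 12 2 e0).swp 1 9 rfl rfl rfl).swp 2 6 rfl rfl rfl).swp 3 10 rfl rfl rfl).swp 5 8 rfl rfl rfl).swp 6 7 rfl rfl rfl).swp 9 10 rfl rfl rfl)).add
      (((((((((((tA_pv R h F 9 3 6 8 15 18 19 12 14 17 2 5 7 e0).swp 0 3 rfl rfl rfl).swp 1 3 rfl rfl rfl).swp 2 4 rfl rfl rfl).add ((tA_pv R h F 7 1 4 8 13 16 19 10 14 17 2 5 9 e0).swp 0 1 rfl rfl rfl)).add (((((tA_pv R h F 5 0 4 6 11 16 18 10 12 17 2 7 9 e0).swp 0 1 rfl rfl rfl).swp 1 3 rfl rfl rfl).swp 2 5 rfl rfl rfl).add ((((((tA_pv R h F 2 0 1 3 11 13 15 10 12 14 5 7 9 e0).swp 0 5 rfl rfl rfl).swp 1 3 rfl rfl rfl).swp 2 3 rfl rfl rfl).swp 3 4 rfl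 rfl rfl).swp 4 5 rfl rfl rfl))).ins 5 rfl rfl).ins 7 rfl rfl).ins 8 rfl rfl).ins 4 rfl rfl).ins 10 rfl rfl)) rfl

def x6 (R : ℕ → ℕ → ℕ) (BK : ℕ → ℕ → ℕ → ℕ → ℕ → ℕ → ℕ → ℕ → ℕ) (F : ℕ) : ℕ :=
  Nat.add (tB BK (fun x => (swp 26 11 5 8 (swp 26 11 3 7 (swp 26 11 0 1 x)))) F 6 3 12 17 1 2 18 0)
    (ins 26 10 10 (ins 26 9 3 (ins 26 8 1 (ins 26 7 7 (ins 26 6 6 (Nat.add (Nat.add (swp 26 6 3 4 (swp 26 6 2 3 (swp 26 6 1 4 (swp 26 6 0 1 (tA R F 18 5 11 16 9 15 19 2 7 13 6 12 17))))) (swp 26 6 1 2 (swp 26 6 0 3 (tA R F 17 4 10 16 8 14 19 1 7 13 6 12 18)))) (Nat.add (swp 26 6 2 5 (swp 26 6 1 5 (tA R F 12 0 10 11 3 14 15 1 2 13 6 17 18))) (swp 26 6 2 5 (swp 26 6 0 4 (tA R F 6 0 4 5 3 8 9 1 2 7 12 17 18))))))))))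

def LX6 (K : ℕ → ℕ → ℕ → ℕ) (b012 b013 b023 b123 b014 b024 b124 b034 b134 b234 b015 b025 b125 b035 b135 b235 b045 b145 b245 b345 b016 b026 b126 b036 b136 b236 b046 b146 b246 b346 b056 b156 b256 b356 b456 : ℕ) : ℕ :=
  (Nat.add (K b126 (c9 b012 b016 b026 b123 b136 b236 b013 b023 b036) (c9 b124 b146 b246 b125 b156 b256 b145 b245 b456)) (Nat.add (Nat.add (K b245 (c9 b024 b025 b045 b234 b235 b345 b023 b034 b035) (c9 b124 b125 b145 b246 b256 b456 b126 b146 b156)) (K b145 (c9 b014 b015 b045 b134 b135 b345 b013 b034 b035) (c9 b124 b125 b245 b146 b156 b456 b126 b246 b256))) (Nat.add (K b125 (c9 b012 b015 b025 b123 b135 b235 b013 b023 b035) (c9 b124 b145 b245 b126 b156 b256 b146 b246 b456)) (K b124 (c9 b012 b014 b024 b123 b134 b234 b013 b023 b034) (c9 b125 b145 b245 b126 b146 b246 b156 b256 b456)))))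

theorem x6_pv (R : ℕ → ℕ → ℕ) (h : rowsChk R = true)
    (BK : ℕ → ℕ → ℕ → ℕ → ℕ → ℕ → ℕ → ℕ → ℕ) (hBK : BlkOK R BK) (F : ℕ) (e0 : ℕ → ℕ) :
    PV 11 (x6 R BK F) (5 * 262143) (fun e =>
      LX6 (Kr R) (bt F 0) (bt F 1) (bt F 2) (bt F 3) (bt F 4) (bt F 5) (bt F 6) (bt F 7) (bt F 8) (bt F 9) (bt F 10) (bt F 11) (bt F 12) (bt F 13) (bt F 14) (bt F 15) (bt F 16) (bt F 17) (bt F 18) (bt F 19) (e 10) (e 1) (e 9) (e 3) (e 7) (e 6) 0 (e 0) (e 2) 0 0 (e 4) (e 8) 0 (e 5)) e0 :=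
  PV.mono ((PV.cast (tB_eq R BK hBK (fun x => (swp 26 11 5 8 (swp 26 11 3 7 (swp 26 11 0 1 x)))) F 6 3 12 17 1 2 18 0)
      ((((tB_pv R h F 6 3 12 17 1 2 18 0 e0).swp 0 1 rfl rfl rfl).swp 3 7 rfl rfl rfl).swp 5 8 rfl rfl rfl)).add
      ((((((((((((tA_pv R h F 18 5 11 16 9 15 19 2 7 13 6 12 17 e0).swp 0 1 rfl rfl rfl).swp 1 4 rfl rfl rfl).swp 2 3 rfl rfl rfl).swp 3 4 rfl rfl rfl).add (((tA_pv R h F 17 4 10 16 8 14 19 1 7 13 6 12 18 e0).swp 0 3 rfl rfl rfl).swp 1 2 rfl rfl rfl)).add ((((tA_pv R h F 12 0 10 11 3 14 15 1 2 13 6 17 18 e0).swp 1 5 rfl rfl rfl).swp 2 5 rfl rfl rfl).add (((tA_pv R h F 6 0 4 5 3 8 9 1 2 7 12 17 18 e0).swp 0 4 rfl rfl rfl).swp 2 5 rfl rfl rfl))).ins 6 rfl rfl).ins 7 rfl rfl).ins 1 rfl rfl).ins 3 rfl rfl).ins 10 rfl rfl)) rfl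

def x7 (R : ℕ → ℕ → ℕ) (BK : ℕ → ℕ → ℕ → ℕ → ℕ → ℕ → ℕ → ℕ → ℕ) (F : ℕ) : ℕ :=
  Nat.add (tB BK (fun x => (swp 26 11 7 9 (swp 26 11 5 8 (swp 26 11 3 9 (swp 26 11 2 6 (swp 26 11 1 3 (swp 26 11 0 3 x))))))) F 3 6 12 14 4 5 15 0)
    (ins 26 10 10 (ins 26 9 9 (ins 26 8 2 (ins 26 7 0 (ins 26 6 1 (Nat.add (Nat.add (swp 26 6 2 4 (swp 26 6 1 3 (swp 26 6 0 1 (tA R F 15 2 11 13 9 18 19 5 7 16 3 12 14)))) (swp 26 6 0 3 (tA R F 14 1 10 13 8 17 19 4 7 16 3 12 15))) (Nat.add (swp 26 6 2 5 (tA R F 12 0 10 11 6 17 18 4 5 16 3 14 15)) (swp 26 6 2 5 (swp 26 6 1 5 (swp 26 6 0 4 (tA R F 3 0 1 2 6 8 9 4 5 7 12 14 15)))))))))))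

def LX7 (K : ℕ → ℕ → ℕ → ℕ) (b012 b013 b023 b123 b014 b024 b124 b034 b134 b234 b015 b025 b125 b035 b135 b235 b045 b145 b245 b345 b016 b026 b126 b036 b136 b236 b046 b146 b246 b346 b056 b156 b256 b356 b456 : ℕ) : ℕ :=
  (Nat.add (K b126 (c9 b012 b016 b026 b124 b146 b246 b014 b024 b046) (c9 b123 b136 b236 b125 b156 b256 b135 b235 b356)) (Nat.add (Nat.add (K b235 (c9 b023 b025 b035 b234 b245 b345 b024 b034 b045) (c9 b123 b125 b135 b236 b256 b356 b126 b136 b156)) (K b135 (c9 b013 b015 b035 b134 b145 b345 b014 b034 b045) (c9 b123 b125 b235 b136 b156 b356 b126 b236 b256))) (Nat.add (K b125 (c9 b012 b015 b025 b124 b145 b245 b014 b024 b045) (c9 b123 b135 b235 b126 b156 b256 b136 b236 b356)) (K b123 (c9 b012 b013 b023 b124 b134 b234 b014 b024 b034) (c9 b125 b135 b235 b126 b136 b236 b156 b256 b356)))))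

theorem x7_pv (R : ℕ → ℕ → ℕ) (h : rowsChk R = true)
    (BK : ℕ → ℕ → ℕ → ℕ → ℕ → ℕ → ℕ → ℕ → ℕ) (hBK : BlkOK R BK) (F : ℕ) (e0 : ℕ → ℕ) :
    PV 11 (x7 R BK F) (5 * 262143) (fun e =>
      LX7 (Kr R) (bt F 0) (bt F 1) (bt F 2) (bt F 3) (bt F 4) (bt F 5) (bt F 6) (bt F 7) (bt F 8) (bt F 9) (bt F 10) (bt F 11) (bt F 12) (bt F 13) (bt F 14) (bt F 15) (bt F 16) (bt F 17) (bt F 18) (bt F 19) (e 10) (e 1) (e 3) 0 (e 7) (e 6) (e 9) (e 0) (e 2) 0 0 (e 4) (e 8) (e 5) 0) e0 :=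
  PV.mono ((PV.cast (tB_eq R BK hBK (fun x => (swp 26 11 7 9 (swp 26 11 5 8 (swp 26 11 3 9 (swp 26 11 2 6 (swp 26 11 1 3 (swp 26 11 0 3 x))))))) F 3 6 12 14 4 5 15 0)
      (((((((tB_pv R h F 3 6 12 14 4 5 15 0 e0).swp 0 3 rfl rfl rfl).swp 1 3 rfl rfl rfl).swp 2 6 rfl rfl rfl).swp 3 9 rfl rfl rfl).swp 5 8 rfl rfl rfl).swp 7 9 rfl rfl rfl)).add
      (((((((((((tA_pv R h F 15 2 11 13 9 18 19 5 7 16 3 12 14 e0).swp 0 1 rfl rfl rfl).swp 1 3 rfl rfl rfl).swp 2 4 rfl rfl rfl).add ((tA_pv R h F 14 1 10 13 8 17 19 4 7 16 3 12 15 e0).swp 0 3 rfl rfl rfl)).add (((tA_pv R h F 12 0 10 11 6 17 18 4 5 16 3 14 15 e0).swp 2 5 rfl rfl rfl).add ((((tA_pv R h F 3 0 1 2 6 8 9 4 5 7 12 14 15 e0).swp 0 4 rfl rfl rfl).swp 1 5 rfl rfl rfl).swp 2 5 rfl rfl rfl))).ins 1 rfl rfl).ins 0 rfl rfl).ins 2 rfl rfl).ins 9 rfl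 rfl).ins 10 rfl rfl)) rfl

def x8 (R : ℕ → ℕ → ℕ) (BK : ℕ → ℕ → ℕ → ℕ → ℕ → ℕ → ℕ → ℕ → ℕ) (F : ℕ) : ℕ :=
  Nat.add (tB BK (fun x => (swp 26 11 8 9 (swp 26 11 7 10 (swp 26 11 6 7 (swp 26 11 5 9 (swp 26 11 4 8 (swp 26 11 3 9 (swp 26 11 2 6 (swp 26 11 1 2 (swp 26 11 0 3 x)))))))))) F 0 6 12 10 8 9 11 3)
    (ins 26 10 0 (ins 26 9 2 (ins 26 8 5 (ins 26 7 7 (ins 26 6 6 (Nat.add (Nat.add (swp 26 6 2 4 (tA R F 12 3 14 15 6 17 18 8 9 19 0 10 11)) (swp 26 6 1 3 (tA R F 11 2 13 15 5 16 18 7 9 19 0 10 12))) (Nat.add (swp 26 6 2 5 (swp 26 6 1 3 (swp 26 6 0 3 (tA R F 10 1 13 14 4 16 17 7 8 19 0 11 12)))) (swp 26 6 4 5 (swp 26 6 3 5 (swp 26 6 2 4 (swp 26 6 1 4 (swp 26 6 0 3 (tA R F 0 1 2 3 4 5 6 7 8 9 10 11 12)))))))))))))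

def LX8 (K : ℕ → ℕ → ℕ → ℕ) (b012 b013 b023 b123 b014 b024 b124 b034 b134 b234 b015 b025 b125 b035 b135 b235 b045 b145 b245 b345 b016 b026 b126 b036 b136 b236 b046 b146 b246 b346 b056 b156 b256 b356 b456 : ℕ) : ℕ :=
  (Nat.add (K b126 (c9 b123 b136 b236 b124 b146 b246 b134 b234 b346) (c9 b012 b016 b026 b125 b156 b256 b015 b025 b056)) (Nat.add (Nat.add (K b125 (c9 b123 b135 b235 b124 b145 b245 b134 b234 b345) (c9 b012 b015 b025 b126 b156 b256 b016 b026 b056)) (K b025 (c9 b023 b035 b235 b024 b045 b245 b034 b234 b345) (c9 b012 b015 b125 b026 b056 b256 b016 b126 b156))) (Nat.add (K b015 (c9 b013 b035 b135 b014 b045 b145 b034 b134 b345) (c9 b012 b025 b125 b016 b056 b156 b026 b126 b256)) (K b012 (c9 b013 b023 b123 b014 b024 b124 b034 b134 b234) (c9 b015 b025 b125 b016 b026 b126 b056 b156 b256)))))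

theorem x8_pv (R : ℕ → ℕ → ℕ) (h : rowsChk R = true)
    (BK : ℕ → ℕ → ℕ → ℕ → ℕ → ℕ → ℕ → ℕ → ℕ) (hBK : BlkOK R BK) (F : ℕ) (e0 : ℕ → ℕ) :
    PV 11 (x8 R BK F) (5 * 262143) (fun e =>
      LX8 (Kr R) (bt F 0) (bt F 1) (bt F 2) (bt F 3) (bt F 4) (bt F 5) (bt F 6) (bt F 7) (bt F 8) (bt F 9) (bt F 10) (bt F 11) (bt F 12) (bt F 13) (bt F 14) (bt F 15) (bt F 16) (bt F 17) (bt F 18) (bt F 19) (e 10) (e 1) (e 3) 0 (e 7) (e 5) 0 (e 0) (e 2) (e 6) (e 4) (e 9) (e 8) 0 0) e0 :=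
  PV.mono ((PV.cast (tB_eq R BK hBK (fun x => (swp 26 11 8 9 (swp 26 11 7 10 (swp 26 11 6 7 (swp 26 11 5 9 (swp 26 11 4 8 (swp 26 11 3 9 (swp 26 11 2 6 (swp 26 11 1 2 (swp 26 11 0 3 x)))))))))) F 0 6 12 10 8 9 11 3)
      ((((((((((tB_pv R h F 0 6 12 10 8 9 11 3 e0).swp 0 3 rfl rfl rfl).swp 1 2 rfl rfl rfl).swp 2 6 rfl rfl rfl).swp 3 9 rfl rfl rfl).swp 4 8 rfl rfl rfl).swp 5 9 rfl rfl rfl).swp 6 7 rfl rfl rfl).swp 7 10 rfl rfl rfl).swp 8 9 rfl rfl rfl)).add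
      (((((((((tA_pv R h F 12 3 14 15 6 17 18 8 9 19 0 10 11 e0).swp 2 4 rfl rfl rfl).add ((tA_pv R h F 11 2 13 15 5 16 18 7 9 19 0 10 12 e0).swp 1 3 rfl rfl rfl)).add (((((tA_pv R h F 10 1 13 14 4 16 17 7 8 19 0 11 12 e0).swp 0 3 rfl rfl rfl).swp 1 3 rfl rfl rfl).swp 2 5 rfl rfl rfl).add ((((((tA_pv R h F 0 1 2 3 4 5 6 7 8 9 10 11 12 e0).swp 0 3 rfl rfl rfl).swp 1 4 rfl rfl rfl).swp 2 4 rfl rfl rfl).swp 3 5 rfl rfl rfl).swp 4 5 rfl rfl rfl))).ins 6 rfl rfl).ins 7 rfl rfl).ins 5 rfl rfl).ins 2 rfl rfl).ins 0 rfl rfl)) rfl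

def x9 (R : ℕ → ℕ → ℕ) (BK : ℕ → ℕ → ℕ → ℕ → ℕ → ℕ → ℕ → ℕ → ℕ) (F : ℕ) : ℕ :=
  Nat.add (tB BK (fun x => (swp 26 11 5 8 (swp 26 11 3 9 (swp 26 11 2 6 (swp 26 11 1 3 (swp 26 11 0 7 x)))))) F 7 2 13 16 0 3 19 1)
    (ins 26 10 10 (ins 26 9 0 (ins 26 8 2 (ins 26 7 7 (ins 26 6 1 (Nat.add (Nat.add (swp 26 6 2 4 (swp 26 6 1 3 (swp 26 6 0 1 (tA R F 19 8 14 17 9 15 18 3 6 12 7 13 16)))) (swp 26 6 0 3 (tA R F 16 4 10 17 5 11 18 0 6 12 7 13 19))) (Nat.add (swp 26 6 2 5 (tA R F 13 1 10 14 2 11 15 0 3 12 7 16 19)) (swp 26 6 2 5 (swp 26 6 1 5 (swp 26 6 0 4 (tA R F 7 1 4 8 2 5 9 0 3 6 13 16 19)))))))))))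

def LX9 (K : ℕ → ℕ → ℕ → ℕ) (b012 b013 b023 b123 b014 b024 b124 b034 b134 b234 b015 b025 b125 b035 b135 b235 b045 b145 b245 b345 b016 b026 b126 b036 b136 b236 b046 b146 b246 b346 b056 b156 b256 b356 b456 : ℕ) : ℕ :=
  (Nat.add (K b036 (c9 b013 b016 b136 b023 b026 b236 b012 b123 b126) (c9 b034 b046 b346 b035 b056 b356 b045 b345 b456)) (Nat.add (Nat.add (K b345 (c9 b134 b135 b145 b234 b235 b245 b123 b124 b125) (c9 b034 b035 b045 b346 b356 b456 b036 b046 b056)) (K b045 (c9 b014 b015 b145 b024 b025 b245 b012 b124 b125) (c9 b034 b035 b345 b046 b056 b456 b036 b346 b356))) (Nat.add (K b035 (c9 b013 b015 b135 b023 b025 b235 b012 b123 b125) (c9 b034 b045 b345 b036 b056 b356 b046 b346 b456)) (K b034 (c9 b013 b014 b134 b023 b024 b234 b012 b123 b124) (c9 b035 b045 b345 b036 b046 b346 b056 b356 b456)))))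

theorem x9_pv (R : ℕ → ℕ → ℕ) (h : rowsChk R = true)
    (BK : ℕ → ℕ → ℕ → ℕ → ℕ → ℕ → ℕ → ℕ → ℕ) (hBK : BlkOK R BK) (F : ℕ) (e0 : ℕ → ℕ) :
    PV 11 (x9 R BK F) (5 * 262143) (fun e =>
      LX9 (Kr R) (bt F 0) (bt F 1) (bt F 2) (bt F 3) (bt F 4) (bt F 5) (bt F 6) (bt F 7) (bt F 8) (bt F 9) (bt F 10) (bt F 11) (bt F 12) (bt F 13) (bt F 14) (bt F 15) (bt F 16) (bt F 17) (bt F 18) (bt F 19) (e 10) (e 1) (e 0) (e 3) (e 7) (e 2) (e 9) 0 0 (e 6) (e 4) 0 0 (e 8) (e 5)) e0 :=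
  PV.mono ((PV.cast (tB_eq R BK hBK (fun x => (swp 26 11 5 8 (swp 26 11 3 9 (swp 26 11 2 6 (swp 26 11 1 3 (swp 26 11 0 7 x)))))) F 7 2 13 16 0 3 19 1)
      ((((((tB_pv R h F 7 2 13 16 0 3 19 1 e0).swp 0 7 rfl rfl rfl).swp 1 3 rfl rfl rfl).swp 2 6 rfl rfl rfl).swp 3 9 rfl rfl rfl).swp 5 8 rfl rfl rfl)).add
      (((((((((((tA_pv R h F 19 8 14 17 9 15 18 3 6 12 7 13 16 e0).swp 0 1 rfl rfl rfl).swp 1 3 rfl rfl rfl).swp 2 4 rfl rfl rfl).add ((tA_pv R h F 16 4 10 17 5 11 18 0 6 12 7 13 19 e0).swp 0 3 rfl rfl rfl)).add (((tA_pv R h F 13 1 10 14 2 11 15 0 3 12 7 16 19 e0).swp 2 5 rfl rfl rfl).add ((((tA_pv R h F 7 1 4 8 2 5 9 0 3 6 13 16 19 e0).swp 0 4 rfl rfl rfl).swp 1 5 rfl rfl rfl).swp 2 5 rfl rfl rfl))).ins 1 rfl rfl).ins 7 rfl rfl).ins 2 rfl rfl).ins 0 rfl rfl).ins 10 rfl rfl)) rfl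

def x10 (R : ℕ → ℕ → ℕ) (BK : ℕ → ℕ → ℕ → ℕ → ℕ → ℕ → ℕ → ℕ → ℕ) (F : ℕ) : ℕ :=
  tB BK (fun x => (swp 26 11 3 9 (swp 26 11 0 7 x))) F 2 7 13 11 4 8 15 1

def LX10 (K : ℕ → ℕ → ℕ → ℕ) (b012 b013 b023 b123 b014 b024 b124 b034 b134 b234 b015 b025 b125 b035 b135 b235 b045 b145 b245 b345 b016 b026 b126 b036 b136 b236 b046 b146 b246 b346 b056 b156 b256 b356 b456 : ℕ) : ℕ :=
  (K b036 (c9 b013 b016 b136 b034 b046 b346 b014 b134 b146) (c9 b023 b026 b236 b035 b056 b356 b025 b235 b256))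

theorem x10_pv (R : ℕ → ℕ → ℕ) (h : rowsChk R = true)
    (BK : ℕ → ℕ → ℕ → ℕ → ℕ → ℕ → ℕ → ℕ → ℕ) (hBK : BlkOK R BK) (F : ℕ) (e0 : ℕ → ℕ) :
    PV 11 (x10 R BK F) (1 * 262143) (fun e =>
      LX10 (Kr R) (bt F 0) (bt F 1) (bt F 2) (bt F 3) (bt F 4) (bt F 5) (bt F 6) (bt F 7) (bt F 8) (bt F 9) (bt F 10) (bt F 11) (bt F 12) (bt F 13) (bt F 14) (bt F 15) (bt F 16) (bt F 17) (bt F 18) (bt F 19) (e 10) (e 1) 0 (e 3) (e 7) (e 2) (e 9) (e 0) 0 (e 6) (e 4) 0 (e 8) (e 5) 0) e0 :=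
  PV.mono (PV.cast (tB_eq R BK hBK (fun x => (swp 26 11 3 9 (swp 26 11 0 7 x))) F 2 7 13 11 4 8 15 1)
      (((tB_pv R h F 2 7 13 11 4 8 15 1 e0).swp 0 7 rfl rfl rfl).swp 3 9 rfl rfl rfl)) rfl

def x11 (R : ℕ → ℕ → ℕ) (BK : ℕ → ℕ → ℕ → ℕ → ℕ → ℕ → ℕ → ℕ → ℕ) (F : ℕ) : ℕ :=
  tB BK (fun x => (swp 26 11 3 9 (swp 26 11 2 7 (swp 26 11 1 10 (swp 26 11 0 8 x))))) F 1 7 13 10 5 9 14 2

def LX11 (K : ℕ → ℕ → ℕ → ℕ) (b012 b013 b023 b123 b014 b024 b124 b034 b134 b234 b015 b025 b125 b035 b135 b235 b045 b145 b245 b345 b016 b026 b126 b036 b136 b236 b046 b146 b246 b346 b056 b156 b256 b356 b456 : ℕ) : ℕ :=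
  (K b036 (c9 b023 b026 b236 b034 b046 b346 b024 b234 b246) (c9 b013 b016 b136 b035 b056 b356 b015 b135 b156))

theorem x11_pv (R : ℕ → ℕ → ℕ) (h : rowsChk R = true)
    (BK : ℕ → ℕ → ℕ → ℕ → ℕ → ℕ → ℕ → ℕ → ℕ) (hBK : BlkOK R BK) (F : ℕ) (e0 : ℕ → ℕ) :
    PV 11 (x11 R BK F) (1 * 262143) (fun e =>
      LX11 (Kr R) (bt F 0) (bt F 1) (bt F 2) (bt F 3) (bt F 4) (bt F 5) (bt F 6) (bt F 7) (bt F 8) (bt F 9) (bt F 10) (bt F 11) (bt F 12) (bt F 13) (bt F 14) (bt F 15) (bt F 16) (bt F 17) (bt F 18) (bt F 19) (e 10) (e 1) 0 (e 3) (e 7) (e 8) (e 9) 0 (e 2) (e 6) (e 4) (e 0) 0 (e 5) 0) e0 :=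
  PV.mono (PV.cast (tB_eq R BK hBK (fun x => (swp 26 11 3 9 (swp 26 11 2 7 (swp 26 11 1 10 (swp 26 11 0 8 x))))) F 1 7 13 10 5 9 14 2)
      (((((tB_pv R h F 1 7 13 10 5 9 14 2 e0).swp 0 8 rfl rfl rfl).swp 1 10 rfl rfl rfl).swp 2 7 rfl rfl rfl).swp 3 9 rfl rfl rfl)) rfl

def x12 (R : ℕ → ℕ → ℕ) (BK : ℕ → ℕ → ℕ → ℕ → ℕ → ℕ → ℕ → ℕ → ℕ) (F : ℕ) : ℕ :=
  Nat.add (tB BK (fun x => (swp 26 11 7 9 (swp 26 11 5 8 (swp 26 11 3 7 (swp 26 11 2 6 (swp 26 11 1 7 (swp 26 11 0 1 x))))))) F 8 3 14 17 0 2 19 1)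
    (ins 26 10 10 (ins 26 9 9 (ins 26 8 2 (ins 26 7 3 (ins 26 6 1 (Nat.add (Nat.add (swp 26 6 2 4 (swp 26 6 1 3 (swp 26 6 0 1 (tA R F 19 7 13 16 9 15 18 2 5 11 8 14 17)))) (swp 26 6 0 3 (tA R F 17 4 10 16 6 12 18 0 5 11 8 14 19))) (Nat.add (swp 26 6 2 5 (tA R F 14 1 10 13 3 12 15 0 2 11 8 17 19)) (swp 26 6 2 5 (swp 26 6 1 5 (swp 26 6 0 4 (tA R F 8 1 4 7 3 6 9 0 2 5 14 17 19)))))))))))

def LX12 (K : ℕ → ℕ → ℕ → ℕ) (b012 b013 b023 b123 b014 b024 b124 b034 b134 b234 b015 b025 b125 b035 b135 b235 b045 b145 b245 b345 b016 b026 b126 b036 b136 b236 b046 b146 b246 b346 b056 b156 b256 b356 b456 : ℕ) : ℕ :=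
  (Nat.add (K b136 (c9 b013 b016 b036 b123 b126 b236 b012 b023 b026) (c9 b134 b146 b346 b135 b156 b356 b145 b345 b456)) (Nat.add (Nat.add (K b345 (c9 b034 b035 b045 b234 b235 b245 b023 b024 b025) (c9 b134 b135 b145 b346 b356 b456 b136 b146 b156)) (K b145 (c9 b014 b015 b045 b124 b125 b245 b012 b024 b025) (c9 b134 b135 b345 b146 b156 b456 b136 b346 b356))) (Nat.add (K b135 (c9 b013 b015 b035 b123 b125 b235 b012 b023 b025) (c9 b134 b145 b345 b136 b156 b356 b146 b346 b456)) (K b134 (c9 b013 b014 b034 b123 b124 b234 b012 b023 b024) (c9 b135 b145 b345 b136 b146 b346 b156 b356 b456)))))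

theorem x12_pv (R : ℕ → ℕ → ℕ) (h : rowsChk R = true)
    (BK : ℕ → ℕ → ℕ → ℕ → ℕ → ℕ → ℕ → ℕ → ℕ) (hBK : BlkOK R BK) (F : ℕ) (e0 : ℕ → ℕ) :
    PV 11 (x12 R BK F) (5 * 262143) (fun e =>
      LX12 (Kr R) (bt F 0) (bt F 1) (bt F 2) (bt F 3) (bt F 4) (bt F 5) (bt F 6) (bt F 7) (bt F 8) (bt F 9) (bt F 10) (bt F 11) (bt F 12) (bt F 13) (bt F 14) (bt F 15) (bt F 16) (bt F 17) (bt F 18) (bt F 19) (e 10) (e 1) (e 9) (e 3) (e 7) (e 2) 0 (e 0) 0 (e 6) 0 (e 4) 0 (e 8) (e 5)) e0 :=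
  PV.mono ((PV.cast (tB_eq R BK hBK (fun x => (swp 26 11 7 9 (swp 26 11 5 8 (swp 26 11 3 7 (swp 26 11 2 6 (swp 26 11 1 7 (swp 26 11 0 1 x))))))) F 8 3 14 17 0 2 19 1)
      (((((((tB_pv R h F 8 3 14 17 0 2 19 1 e0).swp 0 1 rfl rfl rfl).swp 1 7 rfl rfl rfl).swp 2 6 rfl rfl rfl).swp 3 7 rfl rfl rfl).swp 5 8 rfl rfl rfl).swp 7 9 rfl rfl rfl)).add
      (((((((((((tA_pv R h F 19 7 13 16 9 15 18 2 5 11 8 14 17 e0).swp 0 1 rfl rfl rfl).swp 1 3 rfl rfl rfl).swp 2 4 rfl rfl rfl).add ((tA_pv R h F 17 4 10 16 6 12 18 0 5 11 8 14 19 e0).swp 0 3 rfl rfl rfl)).add (((tA_pv R h F 14 1 10 13 3 12 15 0 2 11 8 17 19 e0).swp 2 5 rfl rfl rfl).add ((((tA_pv R h F 8 1 4 7 3 6 9 0 2 5 14 17 19 e0).swp 0 4 rfl rfl rfl).swp 1 5 rfl rfl rfl).swp 2 5 rfl rfl rfl))).ins 1 rfl rfl).ins 3 rfl rfl).ins 2 rfl rfl).ins 9 rfl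 rfl).ins 10 rfl rfl)) rfl

def x13 (R : ℕ → ℕ → ℕ) (BK : ℕ → ℕ → ℕ → ℕ → ℕ → ℕ → ℕ → ℕ → ℕ) (F : ℕ) : ℕ :=
  tB BK (fun x => (swp 26 11 7 9 (swp 26 11 0 3 x))) F 3 8 14 12 4 7 15 1

def LX13 (K : ℕ → ℕ → ℕ → ℕ) (b012 b013 b023 b123 b014 b024 b124 b034 b134 b234 b015 b025 b125 b035 b135 b235 b045 b145 b245 b345 b016 b026 b126 b036 b136 b236 b046 b146 b246 b346 b056 b156 b256 b356 b456 : ℕ) : ℕ :=
  (K b136 (c9 b013 b016 b036 b134 b146 b346 b014 b034 b046) (c9 b123 b126 b236 b135 b156 b356 b125 b235 b256))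

theorem x13_pv (R : ℕ → ℕ → ℕ) (h : rowsChk R = true)
    (BK : ℕ → ℕ → ℕ → ℕ → ℕ → ℕ → ℕ → ℕ → ℕ) (hBK : BlkOK R BK) (F : ℕ) (e0 : ℕ → ℕ) :
    PV 11 (x13 R BK F) (1 * 262143) (fun e =>
      LX13 (Kr R) (bt F 0) (bt F 1) (bt F 2) (bt F 3) (bt F 4) (bt F 5) (bt F 6) (bt F 7) (bt F 8) (bt F 9) (bt F 10) (bt F 11) (bt F 12) (bt F 13) (bt F 14) (bt F 15) (bt F 16) (bt F 17) (bt F 18) (bt F 19) (e 10) 0 (e 1) (e 3) (e 7) (e 2) (e 9) (e 0) 0 (e 6) 0 (e 4) (e 8) (e 5) 0) e0 :=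
  PV.mono (PV.cast (tB_eq R BK hBK (fun x => (swp 26 11 7 9 (swp 26 11 0 3 x))) F 3 8 14 12 4 7 15 1)
      (((tB_pv R h F 3 8 14 12 4 7 15 1 e0).swp 0 3 rfl rfl rfl).swp 7 9 rfl rfl rfl)) rfl

def x14 (R : ℕ → ℕ → ℕ) (BK : ℕ → ℕ → ℕ → ℕ → ℕ → ℕ → ℕ → ℕ → ℕ) (F : ℕ) : ℕ :=
  Nat.add (tB BK (fun x => (swp 26 11 7 9 (swp 26 11 4 8 (swp 26 11 3 7 (swp 26 11 2 7 (swp 26 11 1 10 (swp 26 11 0 3 x))))))) F 1 8 14 10 6 9 13 3)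
    (ins 26 10 0 (ins 26 9 9 (ins 26 8 2 (ins 26 7 1 (ins 26 6 6 (Nat.add (Nat.add (swp 26 6 2 4 (swp 26 6 1 3 (tA R F 14 3 12 15 8 17 19 6 9 18 1 10 13))) (tA R F 13 2 11 15 7 16 19 5 9 18 1 10 14)) (Nat.add (swp 26 6 2 5 (swp 26 6 0 3 (tA R F 10 0 11 12 4 16 17 5 6 18 1 13 14))) (swp 26 6 3 4 (swp 26 6 2 5 (swp 26 6 1 5 (swp 26 6 0 3 (tA R F 1 0 2 3 4 7 8 5 6 9 10 13 14))))))))))))

def LX14 (K : ℕ → ℕ → ℕ → ℕ) (b012 b013 b023 b123 b014 b024 b124 b034 b134 b234 b015 b025 b125 b035 b135 b235 b045 b145 b245 b345 b016 b026 b126 b036 b136 b236 b046 b146 b246 b346 b056 b156 b256 b356 b456 : ℕ) : ℕ :=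
  (Nat.add (K b136 (c9 b123 b126 b236 b134 b146 b346 b124 b234 b246) (c9 b013 b016 b036 b135 b156 b356 b015 b035 b056)) (Nat.add (Nat.add (K b135 (c9 b123 b125 b235 b134 b145 b345 b124 b234 b245) (c9 b013 b015 b035 b136 b156 b356 b016 b036 b056)) (K b035 (c9 b023 b025 b235 b034 b045 b345 b024 b234 b245) (c9 b013 b015 b135 b036 b056 b356 b016 b136 b156))) (Nat.add (K b015 (c9 b012 b025 b125 b014 b045 b145 b024 b124 b245) (c9 b013 b035 b135 b016 b056 b156 b036 b136 b356)) (K b013 (c9 b012 b023 b123 b014 b034 b134 b024 b124 b234) (c9 b015 b035 b135 b016 b036 b136 b056 b156 b356)))))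

theorem x14_pv (R : ℕ → ℕ → ℕ) (h : rowsChk R = true)
    (BK : ℕ → ℕ → ℕ → ℕ → ℕ → ℕ → ℕ → ℕ → ℕ) (hBK : BlkOK R BK) (F : ℕ) (e0 : ℕ → ℕ) :
    PV 11 (x14 R BK F) (5 * 262143) (fun e =>
      LX14 (Kr R) (bt F 0) (bt F 1) (bt F 2) (bt F 3) (bt F 4) (bt F 5) (bt F 6) (bt F 7) (bt F 8) (bt F 9) (bt F 10) (bt F 11) (bt F 12) (bt F 13) (bt F 14) (bt F 15) (bt F 16) (bt F 17) (bt F 18) (bt F 19) (e 10) 0 (e 1) (e 3) (e 7) (e 9) 0 (e 0) (e 2) (e 6) (e 4) (e 8) 0 (e 5) 0) e0 :=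
  PV.mono ((PV.cast (tB_eq R BK hBK (fun x => (swp 26 11 7 9 (swp 26 11 4 8 (swp 26 11 3 7 (swp 26 11 2 7 (swp 26 11 1 10 (swp 26 11 0 3 x))))))) F 1 8 14 10 6 9 13 3)
      (((((((tB_pv R h F 1 8 14 10 6 9 13 3 e0).swp 0 3 rfl rfl rfl).swp 1 10 rfl rfl rfl).swp 2 7 rfl rfl rfl).swp 3 7 rfl rfl rfl).swp 4 8 rfl rfl rfl).swp 7 9 rfl rfl rfl)).add
      ((((((((((tA_pv R h F 14 3 12 15 8 17 19 6 9 18 1 10 13 e0).swp 1 3 rfl rfl rfl).swp 2 4 rfl rfl rfl).add (tA_pv R h F 13 2 11 15 7 16 19 5 9 18 1 10 14 e0)).add ((((tA_pv R h F 10 0 11 12 4 16 17 5 6 18 1 13 14 e0).swp 0 3 rfl rfl rfl).swp 2 5 rfl rfl rfl).add (((((tA_pv R h F 1 0 2 3 4 7 8 5 6 9 10 13 14 e0).swp 0 3 rfl rfl rfl).swp 1 5 rfl rfl rfl).swp 2 5 rfl rfl rfl).swp 3 4 rfl rfl rfl))).ins 6 rfl rfl).ins 1 rfl rfl).ins 2 rfl rfl).ins 9 rfl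 rfl).ins 0 rfl rfl)) rfl

def x15 (R : ℕ → ℕ → ℕ) (BK : ℕ → ℕ → ℕ → ℕ → ℕ → ℕ → ℕ → ℕ → ℕ) (F : ℕ) : ℕ :=
  Nat.add (tB BK (fun x => (swp 26 11 7 10 (swp 26 11 6 10 (swp 26 11 5 8 (swp 26 11 4 5 (swp 26 11 2 10 (swp 26 11 1 10 (swp 26 11 0 3 x)))))))) F 9 3 15 18 0 1 19 2)
    (ins 26 10 10 (ins 26 9 0 (ins 26 8 3 (ins 26 7 7 (ins 26 6 1 (Nat.add (Nat.add (swp 26 6 2 3 (swp 26 6 1 3 (tA R F 19 7 13 16 8 14 17 1 4 10 9 15 18))) (swp 26 6 3 4 (swp 26 6 2 3 (tA R F 18 5 11 16 6 12 17 0 4 10 9 15 19)))) (Nat.add (swp 26 6 4 5 (swp 26 6 3 4 (swp 26 6 2 3 (swp 26 6 0 3 (tA R F 15 2 11 13 3 12 14 0 1 10 9 18 19))))) (swp 26 6 4 5 (swp 26 6 2 4 (swp 26 6 1 5 (swp 26 6 0 3 (tA R F 9 2 5 7 3 6 8 0 1 4 15 18 19))))))))))))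

def LX15 (K : ℕ → ℕ → ℕ → ℕ) (b012 b013 b023 b123 b014 b024 b124 b034 b134 b234 b015 b025 b125 b035 b135 b235 b045 b145 b245 b345 b016 b026 b126 b036 b136 b236 b046 b146 b246 b346 b056 b156 b256 b356 b456 : ℕ) : ℕ :=
  (Nat.add (K b236 (c9 b023 b026 b036 b123 b126 b136 b012 b013 b016) (c9 b234 b246 b346 b235 b256 b356 b245 b345 b456)) (Nat.add (Nat.add (K b345 (c9 b034 b035 b045 b134 b135 b145 b013 b014 b015) (c9 b234 b235 b245 b346 b356 b456 b236 b246 b256)) (K b245 (c9 b024 b025 b045 b124 b125 b145 b012 b014 b015) (c9 b234 b235 b345 b246 b256 b456 b236 b346 b356))) (Nat.add (K b235 (c9 b023 b025 b035 b123 b125 b135 b012 b013 b015) (c9 b234 b245 b345 b236 b256 b356 b246 b346 b456)) (K b234 (c9 b023 b024 b034 b123 b124 b134 b012 b013 b014) (c9 b235 b245 b345 b236 b246 b346 b256 b356 b456)))))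

theorem x15_pv (R : ℕ → ℕ → ℕ) (h : rowsChk R = true)
    (BK : ℕ → ℕ → ℕ → ℕ → ℕ → ℕ → ℕ → ℕ → ℕ) (hBK : BlkOK R BK) (F : ℕ) (e0 : ℕ → ℕ) :
    PV 11 (x15 R BK F) (5 * 262143) (fun e =>
      LX15 (Kr R) (bt F 0) (bt F 1) (bt F 2) (bt F 3) (bt F 4) (bt F 5) (bt F 6) (bt F 7) (bt F 8) (bt F 9) (bt F 10) (bt F 11) (bt F 12) (bt F 13) (bt F 14) (bt F 15) (bt F 16) (bt F 17) (bt F 18) (bt F 19) (e 10) (e 1) (e 0) (e 3) (e 7) (e 9) 0 0 (e 2) (e 6) 0 0 (e 8) (e 4) (e 5)) e0 :=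
  PV.mono ((PV.cast (tB_eq R BK hBK (fun x => (swp 26 11 7 10 (swp 26 11 6 10 (swp 26 11 5 8 (swp 26 11 4 5 (swp 26 11 2 10 (swp 26 11 1 10 (swp 26 11 0 3 x)))))))) F 9 3 15 18 0 1 19 2)
      ((((((((tB_pv R h F 9 3 15 18 0 1 19 2 e0).swp 0 3 rfl rfl rfl).swp 1 10 rfl rfl rfl).swp 2 10 rfl rfl rfl).swp 4 5 rfl rfl rfl).swp 5 8 rfl rfl rfl).swp 6 10 rfl rfl rfl).swp 7 10 rfl rfl rfl)).add
      ((((((((((tA_pv R h F 19 7 13 16 8 14 17 1 4 10 9 15 18 e0).swp 1 3 rfl rfl rfl).swp 2 3 rfl rfl rfl).add (((tA_pv R h F 18 5 11 16 6 12 17 0 4 10 9 15 19 e0).swp 2 3 rfl rfl rfl).swp 3 4 rfl rfl rfl)).add ((((((tA_pv R h F 15 2 11 13 3 12 14 0 1 10 9 18 19 e0).swp 0 3 rfl rfl rfl).swp 2 3 rfl rfl rfl).swp 3 4 rfl rfl rfl).swp 4 5 rfl rfl rfl).add (((((tA_pv R h F 9 2 5 7 3 6 8 0 1 4 15 18 19 e0).swp 0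 3 rfl rfl rfl).swp 1 5 rfl rfl rfl).swp 2 4 rfl rfl rfl).swp 4 5 rfl rfl rfl))).ins 1 rfl rfl).ins 7 rfl rfl).ins 3 rfl rfl).ins 0 rfl rfl).ins 10 rfl rfl)) rfl

def x16 (R : ℕ → ℕ → ℕ) (BK : ℕ → ℕ → ℕ → ℕ → ℕ → ℕ → ℕ → ℕ → ℕ) (F : ℕ) : ℕ :=
  tB BK (fun x => (swp 26 11 7 9 (swp 26 11 4 8 (swp 26 11 3 9 (swp 26 11 2 3 (swp 26 11 1 10 (swp 26 11 0 9 x))))))) F 3 9 15 12 5 7 14 2

def LX16 (K : ℕ → ℕ → ℕ → ℕ) (b012 b013 b023 b123 b014 b024 b124 b034 b134 b234 b015 b025 b125 b035 b135 b235 b045 b145 b245 b345 b016 b026 b126 b036 b136 b236 b046 b146 b246 b346 b056 b156 b256 b356 b456 : ℕ) : ℕ :=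
  (K b236 (c9 b023 b026 b036 b234 b246 b346 b024 b034 b046) (c9 b123 b126 b136 b235 b256 b356 b125 b135 b156))

theorem x16_pv (R : ℕ → ℕ → ℕ) (h : rowsChk R = true)
    (BK : ℕ → ℕ → ℕ → ℕ → ℕ → ℕ → ℕ → ℕ → ℕ) (hBK : BlkOK R BK) (F : ℕ) (e0 : ℕ → ℕ) :
    PV 11 (x16 R BK F) (1 * 262143) (fun e =>
      LX16 (Kr R) (bt F 0) (bt F 1) (bt F 2) (bt F 3) (bt F 4) (bt F 5) (bt F 6) (bt F 7) (bt F 8) (bt F 9) (bt F 10) (bt F 11) (bt F 12) (bt F 13) (bt F 14) (bt F 15) (bt F 16) (bt F 17) (bt F 18) (bt F 19) 0 (e 1) (e 10) (e 3) (e 7) (e 0) (e 9) 0 (e 2) (e 6) 0 (e 4) (e 8) (e 5) 0) e0 :=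
  PV.mono (PV.cast (tB_eq R BK hBK (fun x => (swp 26 11 7 9 (swp 26 11 4 8 (swp 26 11 3 9 (swp 26 11 2 3 (swp 26 11 1 10 (swp 26 11 0 9 x))))))) F 3 9 15 12 5 7 14 2)
      (((((((tB_pv R h F 3 9 15 12 5 7 14 2 e0).swp 0 9 rfl rfl rfl).swp 1 10 rfl rfl rfl).swp 2 3 rfl rfl rfl).swp 3 9 rfl rfl rfl).swp 4 8 rfl rfl rfl).swp 7 9 rfl rfl rfl)) rfl

def x17 (R : ℕ → ℕ → ℕ) (BK : ℕ → ℕ → ℕ → ℕ → ℕ → ℕ → ℕ → ℕ → ℕ) (F : ℕ) : ℕ :=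
  Nat.add (tB BK (fun x => (swp 26 11 4 8 (swp 26 11 2 3 (swp 26 11 0 7 x)))) F 2 9 15 11 6 8 13 3)
    (ins 26 10 3 (ins 26 9 1 (ins 26 8 8 (ins 26 7 4 (ins 26 6 5 (Nat.add (Nat.add (swp 26 6 3 4 (swp 26 6 2 4 (swp 26 6 1 3 (swp 26 6 0 2 (tA R F 9 2 5 7 15 18 19 11 13 16 3 6 8))))) (swp 26 6 3 4 (swp 26 6 0 4 (tA R F 8 1 4 7 14 17 19 10 13 16 3 6 9)))) (Nat.add (swp 26 6 2 5 (swp 26 6 0 4 (tA R F 6 0 4 5 12 17 18 10 11 16 3 8 9))) (swp 26 6 2 5 (swp 26 6 1 5 (tA R F 3 0 1 2 12 14 15 10 11 13 6 8 9))))))))))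

def LX17 (K : ℕ → ℕ → ℕ → ℕ) (b012 b013 b023 b123 b014 b024 b124 b034 b134 b234 b015 b025 b125 b035 b135 b235 b045 b145 b245 b345 b016 b026 b126 b036 b136 b236 b046 b146 b246 b346 b056 b156 b256 b356 b456 : ℕ) : ℕ :=
  (Nat.add (K b236 (c9 b123 b126 b136 b234 b246 b346 b124 b134 b146) (c9 b023 b026 b036 b235 b256 b356 b025 b035 b056)) (Nat.add (Nat.add (K b234 (c9 b023 b024 b034 b235 b245 b345 b025 b035 b045) (c9 b123 b124 b134 b236 b246 b346 b126 b136 b146)) (K b134 (c9 b013 b014 b034 b135 b145 b345 b015 b035 b045) (c9 b123 b124 b234 b136 b146 b346 b126 b236 b246))) (Nat.add (K b124 (c9 b012 b014 b024 b125 b145 b245 b015 b025 b045) (c9 b123 b134 b234 b126 b146 b246 b136 b236 b346)) (K b123 (c9 b012 b013 b023 b125 b135 b235 b015 b025 b035) (c9 b124 b134 b234 b126 b136 b236 b146 b246 b346)))))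

theorem x17_pv (R : ℕ → ℕ → ℕ) (h : rowsChk R = true)
    (BK : ℕ → ℕ → ℕ → ℕ → ℕ → ℕ → ℕ → ℕ → ℕ) (hBK : BlkOK R BK) (F : ℕ) (e0 : ℕ → ℕ) :
    PV 11 (x17 R BK F) (5 * 262143) (fun e =>
      LX17 (Kr R) (bt F 0) (bt F 1) (bt F 2) (bt F 3) (bt F 4) (bt F 5) (bt F 6) (bt F 7) (bt F 8) (bt F 9) (bt F 10) (bt F 11) (bt F 12) (bt F 13) (bt F 14) (bt F 15) (bt F 16) (bt F 17) (bt F 18) (bt F 19) 0 (e 1) (e 10) (e 3) (e 7) (e 9) 0 (e 0) (e 2) (e 6) (e 4) 0 (e 8) (e 5) 0) e0 :=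
  PV.mono ((PV.cast (tB_eq R BK hBK (fun x => (swp 26 11 4 8 (swp 26 11 2 3 (swp 26 11 0 7 x)))) F 2 9 15 11 6 8 13 3)
      ((((tB_pv R h F 2 9 15 11 6 8 13 3 e0).swp 0 7 rfl rfl rfl).swp 2 3 rfl rfl rfl).swp 4 8 rfl rfl rfl)).add
      ((((((((((((tA_pv R h F 9 2 5 7 15 18 19 11 13 16 3 6 8 e0).swp 0 2 rfl rfl rfl).swp 1 3 rfl rfl rfl).swp 2 4 rfl rfl rfl).swp 3 4 rfl rfl rfl).add (((tA_pv R h F 8 1 4 7 14 17 19 10 13 16 3 6 9 e0).swp 0 4 rfl rfl rfl).swp 3 4 rfl rfl rfl)).add ((((tA_pv R h F 6 0 4 5 12 17 18 10 11 16 3 8 9 e0).swp 0 4 rfl rfl rfl).swp 2 5 rfl rfl rfl).add (((tA_pv R h F 3 0 1 2 12 14 15 10 11 13 6 8 9 e0).swp 1 5 rfl rfl rfl).swp 2 5 rfl rfl rfl))).ins 5 rfl rfl).ins 4 rfl rfl).ins 8 rfl rfl).ins 1 rfl rfl).ins 3 rfl rfl)) rfl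

def x18 (R : ℕ → ℕ → ℕ) (BK : ℕ → ℕ → ℕ → ℕ → ℕ → ℕ → ℕ → ℕ → ℕ) (F : ℕ) : ℕ :=
  tB BK (fun x => (swp 26 11 2 6 (swp 26 11 1 3 x))) F 7 5 16 13 0 6 19 4

def LX18 (K : ℕ → ℕ → ℕ → ℕ) (b012 b013 b023 b123 b014 b024 b124 b034 b134 b234 b015 b025 b125 b035 b135 b235 b045 b145 b245 b345 b016 b026 b126 b036 b136 b236 b046 b146 b246 b346 b056 b156 b256 b356 b456 : ℕ) : ℕ :=
  (K b046 (c9 b014 b016 b146 b024 b026 b246 b012 b124 b126) (c9 b034 b036 b346 b045 b056 b456 b035 b345 b356))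

theorem x18_pv (R : ℕ → ℕ → ℕ) (h : rowsChk R = true)
    (BK : ℕ → ℕ → ℕ → ℕ → ℕ → ℕ → ℕ → ℕ → ℕ) (hBK : BlkOK R BK) (F : ℕ) (e0 : ℕ → ℕ) :
    PV 11 (x18 R BK F) (1 * 262143) (fun e =>
      LX18 (Kr R) (bt F 0) (bt F 1) (bt F 2) (bt F 3) (bt F 4) (bt F 5) (bt F 6) (bt F 7) (bt F 8) (bt F 9) (bt F 10) (bt F 11) (bt F 12) (bt F 13) (bt F 14) (bt F 15) (bt F 16) (bt F 17) (bt F 18) (bt F 19) (e 10) (e 1) (e 7) (e 3) 0 0 (e 9) (e 0) (e 2) (e 6) (e 4) 0 0 (e 8) (e 5)) e0 :=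
  PV.mono (PV.cast (tB_eq R BK hBK (fun x => (swp 26 11 2 6 (swp 26 11 1 3 x))) F 7 5 16 13 0 6 19 4)
      (((tB_pv R h F 7 5 16 13 0 6 19 4 e0).swp 1 3 rfl rfl rfl).swp 2 6 rfl rfl rfl)) rfl

def x19 (R : ℕ → ℕ → ℕ) (BK : ℕ → ℕ → ℕ → ℕ → ℕ → ℕ → ℕ → ℕ → ℕ) (F : ℕ) : ℕ :=
  tB BK (fun x => x) F 5 7 16 11 1 8 18 4

def LX19 (K : ℕ → ℕ → ℕ → ℕ) (b012 b013 b023 b123 b014 b024 b124 b034 b134 b234 b015 b025 b125 b035 b135 b235 b045 b145 b245 b345 b016 b026 b126 b036 b136 b236 b046 b146 b246 b346 b056 b156 b256 b356 b456 : ℕ) : ℕ :=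
  (K b046 (c9 b014 b016 b146 b034 b036 b346 b013 b134 b136) (c9 b024 b026 b246 b045 b056 b456 b025 b245 b256))

theorem x19_pv (R : ℕ → ℕ → ℕ) (h : rowsChk R = true)
    (BK : ℕ → ℕ → ℕ → ℕ → ℕ → ℕ → ℕ → ℕ → ℕ) (hBK : BlkOK R BK) (F : ℕ) (e0 : ℕ → ℕ) :
    PV 11 (x19 R BK F) (1 * 262143) (fun e =>
      LX19 (Kr R) (bt F 0) (bt F 1) (bt F 2) (bt F 3) (bt F 4) (bt F 5) (bt F 6) (bt F 7) (bt F 8) (bt F 9) (bt F 10) (bt F 11) (bt F 12) (bt F 13) (bt F 14) (bt F 15) (bt F 16) (bt F 17) (bt F 18) (bt F 19) (e 10) (e 1) 0 (e 3) (e 7) 0 (e 9) (e 0) (e 2) (e 6) (e 4) 0 (e 8) 0 (e 5)) e0 :=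
  PV.mono (PV.cast (tB_eq R BK hBK (fun x => x) F 5 7 16 11 1 8 18 4)
      (tB_pv R h F 5 7 16 11 1 8 18 4 e0)) rfl

def x20 (R : ℕ → ℕ → ℕ) (BK : ℕ → ℕ → ℕ → ℕ → ℕ → ℕ → ℕ → ℕ → ℕ) (F : ℕ) : ℕ :=
  Nat.add (tB BK (fun x => (swp 26 11 1 10 (swp 26 11 0 2 x))) F 4 7 16 10 2 9 17 5)
    (ins 26 10 3 (ins 26 9 1 (ins 26 8 2 (ins 26 7 7 (ins 26 6 6 (Nat.add (Nat.add (swp 26 6 2 4 (swp 26 6 0 3 (tA R F 17 6 12 18 8 14 19 3 9 15 4 10 16))) (swp 26 6 1 3 (swp 26 6 0 1 (tA R F 16 5 11 18 7 13 19 2 9 15 4 10 17)))) (Nat.add (swp 26 6 2 5 (swp 26 6 0 1 (tA R F 10 0 11 12 1 13 14 2 3 15 4 16 17))) (swp 26 6 4 5 (swp 26 6 2 4 (swp 26 6 1 4 (swp 26 6 0 5 (tA R F 4 0 5 6 1 7 8 2 3 9 10 16 17))))))))))))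

def LX20 (K : ℕ → ℕ → ℕ → ℕ) (b012 b013 b023 b123 b014 b024 b124 b034 b134 b234 b015 b025 b125 b035 b135 b235 b045 b145 b245 b345 b016 b026 b126 b036 b136 b236 b046 b146 b246 b346 b056 b156 b256 b356 b456 : ℕ) : ℕ :=
  (Nat.add (K b046 (c9 b024 b026 b246 b034 b036 b346 b023 b234 b236) (c9 b014 b016 b146 b045 b056 b456 b015 b145 b156)) (Nat.add (Nat.add (K b145 (c9 b124 b125 b245 b134 b135 b345 b123 b234 b235) (c9 b014 b015 b045 b146 b156 b456 b016 b046 b056)) (K b045 (c9 b024 b025 b245 b034 b035 b345 b023 b234 b235) (c9 b014 b015 b145 b046 b056 b456 b016 b146 b156))) (Nat.add (K b015 (c9 b012 b025 b125 b013 b035 b135 b023 b123 b235) (c9 b014 b045 b145 b016 b056 b156 b046 b146 b456)) (K b014 (c9 b012 b024 b124 b013 b034 b134 b023 b123 b234) (c9 b015 b045 b145 b016 b046 b146 b056 b156 b456)))))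

theorem x20_pv (R : ℕ → ℕ → ℕ) (h : rowsChk R = true)
    (BK : ℕ → ℕ → ℕ → ℕ → ℕ → ℕ → ℕ → ℕ → ℕ) (hBK : BlkOK R BK) (F : ℕ) (e0 : ℕ → ℕ) :
    PV 11 (x20 R BK F) (5 * 262143) (fun e =>
      LX20 (Kr R) (bt F 0) (bt F 1) (bt F 2) (bt F 3) (bt F 4) (bt F 5) (bt F 6) (bt F 7) (bt F 8) (bt F 9) (bt F 10) (bt F 11) (bt F 12) (bt F 13) (bt F 14) (bt F 15) (bt F 16) (bt F 17) (bt F 18) (bt F 19) (e 10) (e 1) 0 (e 3) 0 (e 7) (e 9) (e 0) (e 2) (e 6) (e 4) (e 8) 0 0 (e 5)) e0 :=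
  PV.mono ((PV.cast (tB_eq R BK hBK (fun x => (swp 26 11 1 10 (swp 26 11 0 2 x))) F 4 7 16 10 2 9 17 5)
      (((tB_pv R h F 4 7 16 10 2 9 17 5 e0).swp 0 2 rfl rfl rfl).swp 1 10 rfl rfl rfl)).add
      ((((((((((tA_pv R h F 17 6 12 18 8 14 19 3 9 15 4 10 16 e0).swp 0 3 rfl rfl rfl).swp 2 4 rfl rfl rfl).add (((tA_pv R h F 16 5 11 18 7 13 19 2 9 15 4 10 17 e0).swp 0 1 rfl rfl rfl).swp 1 3 rfl rfl rfl)).add ((((tA_pv R h F 10 0 11 12 1 13 14 2 3 15 4 16 17 e0).swp 0 1 rfl rfl rfl).swp 2 5 rfl rfl rfl).add (((((tA_pv R h F 4 0 5 6 1 7 8 2 3 9 10 16 17 e0).swp 0 5 rfl rfl rfl).swp 1 4 rfl rfl rfl).swp 2 4 rfl rfl rfl).swp 4 5 rfl rfl rfl))).ins 6 rfl rfl).ins 7 rfl rfl).ins 2 rfl rfl).ins 1 rfl rfl).ins 3 rfl rfl)) rfl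

def x21 (R : ℕ → ℕ → ℕ) (BK : ℕ → ℕ → ℕ → ℕ → ℕ → ℕ → ℕ → ℕ → ℕ) (F : ℕ) : ℕ :=
  tB BK (fun x => (swp 26 11 2 6 (swp 26 11 1 7 (swp 26 11 0 9 x)))) F 8 6 17 14 0 5 19 4

def LX21 (K : ℕ → ℕ → ℕ → ℕ) (b012 b013 b023 b123 b014 b024 b124 b034 b134 b234 b015 b025 b125 b035 b135 b235 b045 b145 b245 b345 b016 b026 b126 b036 b136 b236 b046 b146 b246 b346 b056 b156 b256 b356 b456 : ℕ) : ℕ :=
  (K b146 (c9 b014 b016 b046 b124 b126 b246 b012 b024 b026) (c9 b134 b136 b346 b145 b156 b456 b135 b345 b356))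

theorem x21_pv (R : ℕ → ℕ → ℕ) (h : rowsChk R = true)
    (BK : ℕ → ℕ → ℕ → ℕ → ℕ → ℕ → ℕ → ℕ → ℕ) (hBK : BlkOK R BK) (F : ℕ) (e0 : ℕ → ℕ) :
    PV 11 (x21 R BK F) (1 * 262143) (fun e =>
      LX21 (Kr R) (bt F 0) (bt F 1) (bt F 2) (bt F 3) (bt F 4) (bt F 5) (bt F 6) (bt F 7) (bt F 8) (bt F 9) (bt F 10) (bt F 11) (bt F 12) (bt F 13) (bt F 14) (bt F 15) (bt F 16) (bt F 17) (bt F 18) (bt F 19) (e 10) (e 1) (e 3) 0 (e 7) 0 (e 9) (e 0) (e 2) (e 6) 0 (e 4) 0 (e 8) (e 5)) e0 :=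
  PV.mono (PV.cast (tB_eq R BK hBK (fun x => (swp 26 11 2 6 (swp 26 11 1 7 (swp 26 11 0 9 x)))) F 8 6 17 14 0 5 19 4)
      ((((tB_pv R h F 8 6 17 14 0 5 19 4 e0).swp 0 9 rfl rfl rfl).swp 1 7 rfl rfl rfl).swp 2 6 rfl rfl rfl)) rfl

def x22 (R : ℕ → ℕ → ℕ) (BK : ℕ → ℕ → ℕ → ℕ → ℕ → ℕ → ℕ → ℕ → ℕ) (F : ℕ) : ℕ :=
  tB BK (fun x => (swp 26 11 3 7 (swp 26 11 0 9 x))) F 6 8 17 12 1 7 18 4

def LX22 (K : ℕ → ℕ → ℕ → ℕ) (b012 b013 b023 b123 b014 b024 b124 b034 b134 b234 b015 b025 b125 b035 b135 b235 b045 b145 b245 b345 b016 b026 b126 b036 b136 b236 b046 b146 b246 b346 b056 b156 b256 b356 b456 : ℕ) : ℕ :=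
  (K b146 (c9 b014 b016 b046 b134 b136 b346 b013 b034 b036) (c9 b124 b126 b246 b145 b156 b456 b125 b245 b256))

theorem x22_pv (R : ℕ → ℕ → ℕ) (h : rowsChk R = true)
    (BK : ℕ → ℕ → ℕ → ℕ → ℕ → ℕ → ℕ → ℕ → ℕ) (hBK : BlkOK R BK) (F : ℕ) (e0 : ℕ → ℕ) :
    PV 11 (x22 R BK F) (1 * 262143) (fun e =>
      LX22 (Kr R) (bt F 0) (bt F 1) (bt F 2) (bt F 3) (bt F 4) (bt F 5) (bt F 6) (bt F 7) (bt F 8) (bt F 9) (bt F 10) (bt F 11) (bt F 12) (bt F 13) (bt F 14) (bt F 15) (bt F 16) (bt F 17) (bt F 18) (bt F 19) (e 10) 0 (e 1) (e 3) (e 7) 0 (e 9) (e 0) (e 2) (e 6) 0 (e 4) (e 8) 0 (e 5)) e0 :=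
  PV.mono (PV.cast (tB_eq R BK hBK (fun x => (swp 26 11 3 7 (swp 26 11 0 9 x))) F 6 8 17 12 1 7 18 4)
      (((tB_pv R h F 6 8 17 12 1 7 18 4 e0).swp 0 9 rfl rfl rfl).swp 3 7 rfl rfl rfl)) rfl

def x23 (R : ℕ → ℕ → ℕ) (BK : ℕ → ℕ → ℕ → ℕ → ℕ → ℕ → ℕ → ℕ → ℕ) (F : ℕ) : ℕ :=
  tB BK (fun x => (swp 26 11 4 8 (swp 26 11 3 7 (swp 26 11 2 9 (swp 26 11 1 10 (swp 26 11 0 9 x)))))) F 4 8 17 10 3 9 16 6

def LX23 (K : ℕ → ℕ → ℕ → ℕ) (b012 b013 b023 b123 b014 b024 b124 b034 b134 b234 b015 b025 b125 b035 b135 b235 b045 b145 b245 b345 b016 b026 b126 b036 b136 b236 b046 b146 b246 b346 b056 b156 b256 b356 b456 : ℕ) : ℕ :=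
  (K b146 (c9 b124 b126 b246 b134 b136 b346 b123 b234 b236) (c9 b014 b016 b046 b145 b156 b456 b015 b045 b056))

theorem x23_pv (R : ℕ → ℕ → ℕ) (h : rowsChk R = true)
    (BK : ℕ → ℕ → ℕ → ℕ → ℕ → ℕ → ℕ → ℕ → ℕ) (hBK : BlkOK R BK) (F : ℕ) (e0 : ℕ → ℕ) :
    PV 11 (x23 R BK F) (1 * 262143) (fun e =>
      LX23 (Kr R) (bt F 0) (bt F 1) (bt F 2) (bt F 3) (bt F 4) (bt F 5) (bt F 6) (bt F 7) (bt F 8) (bt F 9) (bt F 10) (bt F 11) (bt F 12) (bt F 13) (bt F 14) (bt F 15) (bt F 16) (bt F 17) (bt F 18) (bt F 19) (e 10) 0 (e 1) 0 (e 7) (e 3) (e 9) (e 0) (e 2) (e 6) (e 4) (e 8) 0 0 (e 5)) e0 :=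
  PV.mono (PV.cast (tB_eq R BK hBK (fun x => (swp 26 11 4 8 (swp 26 11 3 7 (swp 26 11 2 9 (swp 26 11 1 10 (swp 26 11 0 9 x)))))) F 4 8 17 10 3 9 16 6)
      ((((((tB_pv R h F 4 8 17 10 3 9 16 6 e0).swp 0 9 rfl rfl rfl).swp 1 10 rfl rfl rfl).swp 2 9 rfl rfl rfl).swp 3 7 rfl rfl rfl).swp 4 8 rfl rfl rfl)) rfl

def x24 (R : ℕ → ℕ → ℕ) (BK : ℕ → ℕ → ℕ → ℕ → ℕ → ℕ → ℕ → ℕ → ℕ) (F : ℕ) : ℕ :=
  tB BK (fun x => (swp 26 11 7 10 (swp 26 11 6 9 (swp 26 11 4 8 (swp 26 11 2 9 (swp 26 11 1 10 (swp 26 11 0 6 x))))))) F 9 6 18 15 0 4 19 5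

def LX24 (K : ℕ → ℕ → ℕ → ℕ) (b012 b013 b023 b123 b014 b024 b124 b034 b134 b234 b015 b025 b125 b035 b135 b235 b045 b145 b245 b345 b016 b026 b126 b036 b136 b236 b046 b146 b246 b346 b056 b156 b256 b356 b456 : ℕ) : ℕ :=
  (K b246 (c9 b024 b026 b046 b124 b126 b146 b012 b014 b016) (c9 b234 b236 b346 b245 b256 b456 b235 b345 b356))

theorem x24_pv (R : ℕ → ℕ → ℕ) (h : rowsChk R = true)
    (BK : ℕ → ℕ → ℕ → ℕ → ℕ → ℕ → ℕ → ℕ → ℕ) (hBK : BlkOK R BK) (F : ℕ) (e0 : ℕ → ℕ) :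
    PV 11 (x24 R BK F) (1 * 262143) (fun e =>
      LX24 (Kr R) (bt F 0) (bt F 1) (bt F 2) (bt F 3) (bt F 4) (bt F 5) (bt F 6) (bt F 7) (bt F 8) (bt F 9) (bt F 10) (bt F 11) (bt F 12) (bt F 13) (bt F 14) (bt F 15) (bt F 16) (bt F 17) (bt F 18) (bt F 19) (e 10) (e 1) (e 3) 0 0 (e 7) (e 9) (e 0) (e 2) (e 6) 0 0 (e 8) (e 4) (e 5)) e0 :=
  PV.mono (PV.cast (tB_eq R BK hBK (fun x => (swp 26 11 7 10 (swp 26 11 6 9 (swp 26 11 4 8 (swp 26 11 2 9 (swp 26 11 1 10 (swp 26 11 0 6 x))))))) F 9 6 18 15 0 4 19 5)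
      (((((((tB_pv R h F 9 6 18 15 0 4 19 5 e0).swp 0 6 rfl rfl rfl).swp 1 10 rfl rfl rfl).swp 2 9 rfl rfl rfl).swp 4 8 rfl rfl rfl).swp 6 9 rfl rfl rfl).swp 7 10 rfl rfl rfl)) rfl

def x25 (R : ℕ → ℕ → ℕ) (BK : ℕ → ℕ → ℕ → ℕ → ℕ → ℕ → ℕ → ℕ → ℕ) (F : ℕ) : ℕ :=
  tB BK (fun x => (swp 26 11 4 8 (swp 26 11 3 7 (swp 26 11 2 9 (swp 26 11 1 10 (swp 26 11 0 2 x)))))) F 6 9 18 12 2 7 17 5

def LX25 (K : ℕ → ℕ → ℕ → ℕ) (b012 b013 b023 b123 b014 b024 b124 b034 b134 b234 b015 b025 b125 b035 b135 b235 b045 b145 b245 b345 b016 b026 b126 b036 b136 b236 b046 b146 b246 b346 b056 b156 b256 b356 b456 : ℕ) : ℕ :=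
  (K b246 (c9 b024 b026 b046 b234 b236 b346 b023 b034 b036) (c9 b124 b126 b146 b245 b256 b456 b125 b145 b156))

theorem x25_pv (R : ℕ → ℕ → ℕ) (h : rowsChk R = true)
    (BK : ℕ → ℕ → ℕ → ℕ → ℕ → ℕ → ℕ → ℕ → ℕ) (hBK : BlkOK R BK) (F : ℕ) (e0 : ℕ → ℕ) :
    PV 11 (x25 R BK F) (1 * 262143) (fun e =>
      LX25 (Kr R) (bt F 0) (bt F 1) (bt F 2) (bt F 3) (bt F 4) (bt F 5) (bt F 6) (bt F 7) (bt F 8) (bt F 9) (bt F 10) (bt F 11) (bt F 12) (bt F 13) (bt F 14) (bt F 15) (bt F 16) (bt F 17) (bt F 18) (bt F 19) 0 (e 1) (e 10) (e 3) 0 (e 7) (e 9) (e 0) (e 2) (e 6) 0 (e 4) (e 8) 0 (e 5)) e0 :=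
  PV.mono (PV.cast (tB_eq R BK hBK (fun x => (swp 26 11 4 8 (swp 26 11 3 7 (swp 26 11 2 9 (swp 26 11 1 10 (swp 26 11 0 2 x)))))) F 6 9 18 12 2 7 17 5)
      ((((((tB_pv R h F 6 9 18 12 2 7 17 5 e0).swp 0 2 rfl rfl rfl).swp 1 10 rfl rfl rfl).swp 2 9 rfl rfl rfl).swp 3 7 rfl rfl rfl).swp 4 8 rfl rfl rfl)) rfl

def x26 (R : ℕ → ℕ → ℕ) (BK : ℕ → ℕ → ℕ → ℕ → ℕ → ℕ → ℕ → ℕ → ℕ) (F : ℕ) : ℕ :=
  tB BK (fun x => (swp 26 11 4 8 (swp 26 11 2 9 x))) F 5 9 18 11 3 8 16 6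

def LX26 (K : ℕ → ℕ → ℕ → ℕ) (b012 b013 b023 b123 b014 b024 b124 b034 b134 b234 b015 b025 b125 b035 b135 b235 b045 b145 b245 b345 b016 b026 b126 b036 b136 b236 b046 b146 b246 b346 b056 b156 b256 b356 b456 : ℕ) : ℕ :=
  (K b246 (c9 b124 b126 b146 b234 b236 b346 b123 b134 b136) (c9 b024 b026 b046 b245 b256 b456 b025 b045 b056))

theorem x26_pv (R : ℕ → ℕ → ℕ) (h : rowsChk R = true)
    (BK : ℕ → ℕ → ℕ → ℕ → ℕ → ℕ → ℕ → ℕ → ℕ) (hBK : BlkOK R BK) (F : ℕ) (e0 : ℕ → ℕ) :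
    PV 11 (x26 R BK F) (1 * 262143) (fun e =>
      LX26 (Kr R) (bt F 0) (bt F 1) (bt F 2) (bt F 3) (bt F 4) (bt F 5) (bt F 6) (bt F 7) (bt F 8) (bt F 9) (bt F 10) (bt F 11) (bt F 12) (bt F 13) (bt F 14) (bt F 15) (bt F 16) (bt F 17) (bt F 18) (bt F 19) 0 (e 1) (e 10) 0 (e 7) (e 3) (e 9) (e 0) (e 2) (e 6) (e 4) 0 (e 8) 0 (e 5)) e0 :=
  PV.mono (PV.cast (tB_eq R BK hBK (fun x => (swp 26 11 4 8 (swp 26 11 2 9 x))) F 5 9 18 11 3 8 16 6)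
      (((tB_pv R h F 5 9 18 11 3 8 16 6 e0).swp 2 9 rfl rfl rfl).swp 4 8 rfl rfl rfl)) rfl

def x27 (R : ℕ → ℕ → ℕ) (BK : ℕ → ℕ → ℕ → ℕ → ℕ → ℕ → ℕ → ℕ → ℕ) (F : ℕ) : ℕ :=
  tB BK (fun x => (swp 26 11 7 10 (swp 26 11 6 9 (swp 26 11 3 10 (swp 26 11 0 6 x))))) F 9 8 19 15 1 4 18 7

def LX27 (K : ℕ → ℕ → ℕ → ℕ) (b012 b013 b023 b123 b014 b024 b124 b034 b134 b234 b015 b025 b125 b035 b135 b235 b045 b145 b245 b345 b016 b026 b126 b036 b136 b236 b046 b146 b246 b346 b056 b156 b256 b356 b456 : ℕ) : ℕ :=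
  (K b346 (c9 b034 b036 b046 b134 b136 b146 b013 b014 b016) (c9 b234 b236 b246 b345 b356 b456 b235 b245 b256))

theorem x27_pv (R : ℕ → ℕ → ℕ) (h : rowsChk R = true)
    (BK : ℕ → ℕ → ℕ → ℕ → ℕ → ℕ → ℕ → ℕ → ℕ) (hBK : BlkOK R BK) (F : ℕ) (e0 : ℕ → ℕ) :
    PV 11 (x27 R BK F) (1 * 262143) (fun e =>
      LX27 (Kr R) (bt F 0) (bt F 1) (bt F 2) (bt F 3) (bt F 4) (bt F 5) (bt F 6) (bt F 7) (bt F 8) (bt F 9) (bt F 10) (bt F 11) (bt F 12) (bt F 13) (bt F 14) (bt F 15) (bt F 16) (bt F 17) (bt F 18) (bt F 19) (e 10) 0 0 (e 3) (e 7) (e 1) (e 9) (e 0) (e 2) (e 6) 0 0 (e 8) (e 4) (e 5)) e0 :=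
  PV.mono (PV.cast (tB_eq R BK hBK (fun x => (swp 26 11 7 10 (swp 26 11 6 9 (swp 26 11 3 10 (swp 26 11 0 6 x))))) F 9 8 19 15 1 4 18 7)
      (((((tB_pv R h F 9 8 19 15 1 4 18 7 e0).swp 0 6 rfl rfl rfl).swp 3 10 rfl rfl rfl).swp 6 9 rfl rfl rfl).swp 7 10 rfl rfl rfl)) rfl

def x28 (R : ℕ → ℕ → ℕ) (BK : ℕ → ℕ → ℕ → ℕ → ℕ → ℕ → ℕ → ℕ → ℕ) (F : ℕ) : ℕ :=
  tB BK (fun x => (swp 26 11 6 9 (swp 26 11 4 8 (swp 26 11 3 10 (swp 26 11 2 6 (swp 26 11 1 7 (swp 26 11 0 2 x))))))) F 8 9 19 14 2 5 17 7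

def LX28 (K : ℕ → ℕ → ℕ → ℕ) (b012 b013 b023 b123 b014 b024 b124 b034 b134 b234 b015 b025 b125 b035 b135 b235 b045 b145 b245 b345 b016 b026 b126 b036 b136 b236 b046 b146 b246 b346 b056 b156 b256 b356 b456 : ℕ) : ℕ :=
  (K b346 (c9 b034 b036 b046 b234 b236 b246 b023 b024 b026) (c9 b134 b136 b146 b345 b356 b456 b135 b145 b156))

theorem x28_pv (R : ℕ → ℕ → ℕ) (h : rowsChk R = true)
    (BK : ℕ → ℕ → ℕ → ℕ → ℕ → ℕ → ℕ → ℕ → ℕ) (hBK : BlkOK R BK) (F : ℕ) (e0 : ℕ → ℕ) :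
    PV 11 (x28 R BK F) (1 * 262143) (fun e =>
      LX28 (Kr R) (bt F 0) (bt F 1) (bt F 2) (bt F 3) (bt F 4) (bt F 5) (bt F 6) (bt F 7) (bt F 8) (bt F 9) (bt F 10) (bt F 11) (bt F 12) (bt F 13) (bt F 14) (bt F 15) (bt F 16) (bt F 17) (bt F 18) (bt F 19) 0 (e 1) 0 (e 3) (e 7) (e 10) (e 9) (e 0) (e 2) (e 6) 0 (e 4) 0 (e 8) (e 5)) e0 :=
  PV.mono (PV.cast (tB_eq R BK hBK (fun x => (swp 26 11 6 9 (swp 26 11 4 8 (swp 26 11 3 10 (swp 26 11 2 6 (swp 26 11 1 7 (swp 26 11 0 2 x))))))) F 8 9 19 14 2 5 17 7)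
      (((((((tB_pv R h F 8 9 19 14 2 5 17 7 e0).swp 0 2 rfl rfl rfl).swp 1 7 rfl rfl rfl).swp 2 6 rfl rfl rfl).swp 3 10 rfl rfl rfl).swp 4 8 rfl rfl rfl).swp 6 9 rfl rfl rfl)) rfl

def x29 (R : ℕ → ℕ → ℕ) (BK : ℕ → ℕ → ℕ → ℕ → ℕ → ℕ → ℕ → ℕ → ℕ) (F : ℕ) : ℕ :=
  tB BK (fun x => (swp 26 11 7 10 (swp 26 11 6 9 (swp 26 11 4 8 (swp 26 11 3 7 (swp 26 11 2 6 (swp 26 11 1 7 x))))))) F 7 9 19 13 3 6 16 8

def LX29 (K : ℕ → ℕ → ℕ → ℕ) (b012 b013 b023 b123 b014 b024 b124 b034 b134 b234 b015 b025 b125 b035 b135 b235 b045 b145 b245 b345 b016 b026 b126 b036 b136 b236 b046 b146 b246 b346 b056 b156 b256 b356 b456 : ℕ) : ℕ :=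
  (K b346 (c9 b134 b136 b146 b234 b236 b246 b123 b124 b126) (c9 b034 b036 b046 b345 b356 b456 b035 b045 b056))

theorem x29_pv (R : ℕ → ℕ → ℕ) (h : rowsChk R = true)
    (BK : ℕ → ℕ → ℕ → ℕ → ℕ → ℕ → ℕ → ℕ → ℕ) (hBK : BlkOK R BK) (F : ℕ) (e0 : ℕ → ℕ) :
    PV 11 (x29 R BK F) (1 * 262143) (fun e =>
      LX29 (Kr R) (bt F 0) (bt F 1) (bt F 2) (bt F 3) (bt F 4) (bt F 5) (bt F 6) (bt F 7) (bt F 8) (bt F 9) (bt F 10) (bt F 11) (bt F 12) (bt F 13) (bt F 14) (bt F 15) (bt F 16) (bt F 17) (bt F 18) (bt F 19) 0 0 (e 1) (e 3) (e 7) (e 10) (e 9) (e 0) (e 2) (e 6) (e 4) 0 0 (e 8) (e 5)) e0 :=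
  PV.mono (PV.cast (tB_eq R BK hBK (fun x => (swp 26 11 7 10 (swp 26 11 6 9 (swp 26 11 4 8 (swp 26 11 3 7 (swp 26 11 2 6 (swp 26 11 1 7 x))))))) F 7 9 19 13 3 6 16 8)
      (((((((tB_pv R h F 7 9 19 13 3 6 16 8 e0).swp 1 7 rfl rfl rfl).swp 2 6 rfl rfl rfl).swp 3 7 rfl rfl rfl).swp 4 8 rfl rfl rfl).swp 6 9 rfl rfl rfl).swp 7 10 rfl rfl rfl)) rfl

def x30 (R : ℕ → ℕ → ℕ) (BK : ℕ → ℕ → ℕ → ℕ → ℕ → ℕ → ℕ → ℕ → ℕ) (F : ℕ) : ℕ :=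
  tB BK (fun x => (swp 26 11 6 8 (swp 26 11 4 9 (swp 26 11 1 3 x)))) F 13 11 16 7 0 12 19 10

def LX30 (K : ℕ → ℕ → ℕ → ℕ) (b012 b013 b023 b123 b014 b024 b124 b034 b134 b234 b015 b025 b125 b035 b135 b235 b045 b145 b245 b345 b016 b026 b126 b036 b136 b236 b046 b146 b246 b346 b056 b156 b256 b356 b456 : ℕ) : ℕ :=
  (K b056 (c9 b015 b016 b156 b025 b026 b256 b012 b125 b126) (c9 b035 b036 b356 b045 b046 b456 b034 b345 b346))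

theorem x30_pv (R : ℕ → ℕ → ℕ) (h : rowsChk R = true)
    (BK : ℕ → ℕ → ℕ → ℕ → ℕ → ℕ → ℕ → ℕ → ℕ) (hBK : BlkOK R BK) (F : ℕ) (e0 : ℕ → ℕ) :
    PV 11 (x30 R BK F) (1 * 262143) (fun e =>
      LX30 (Kr R) (bt F 0) (bt F 1) (bt F 2) (bt F 3) (bt F 4) (bt F 5) (bt F 6) (bt F 7) (bt F 8) (bt F 9) (bt F 10) (bt F 11) (bt F 12) (bt F 13) (bt F 14) (bt F 15) (bt F 16) (bt F 17) (bt F 18) (bt F 19) (e 10) (e 1) (e 7) (e 3) 0 0 (e 9) 0 0 (e 6) (e 4) (e 0) (e 8) (e 2) (e 5)) e0 :=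
  PV.mono (PV.cast (tB_eq R BK hBK (fun x => (swp 26 11 6 8 (swp 26 11 4 9 (swp 26 11 1 3 x)))) F 13 11 16 7 0 12 19 10)
      ((((tB_pv R h F 13 11 16 7 0 12 19 10 e0).swp 1 3 rfl rfl rfl).swp 4 9 rfl rfl rfl).swp 6 8 rfl rfl rfl)) rfl

def x31 (R : ℕ → ℕ → ℕ) (BK : ℕ → ℕ → ℕ → ℕ → ℕ → ℕ → ℕ → ℕ → ℕ) (F : ℕ) : ℕ :=
  tB BK (fun x => (swp 26 11 4 9 (swp 26 11 2 8 x))) F 11 13 16 5 1 14 18 10

def LX31 (K : ℕ → ℕ → ℕ → ℕ) (b012 b013 b023 b123 b014 b024 b124 b034 b134 b234 b015 b025 b125 b035 b135 b235 b045 b145 b245 b345 b016 b026 b126 b036 b136 b236 b046 b146 b246 b346 b056 b156 b256 b356 b456 : ℕ) : ℕ :=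
  (K b056 (c9 b015 b016 b156 b035 b036 b356 b013 b135 b136) (c9 b025 b026 b256 b045 b046 b456 b024 b245 b246))

theorem x31_pv (R : ℕ → ℕ → ℕ) (h : rowsChk R = true)
    (BK : ℕ → ℕ → ℕ → ℕ → ℕ → ℕ → ℕ → ℕ → ℕ) (hBK : BlkOK R BK) (F : ℕ) (e0 : ℕ → ℕ) :
    PV 11 (x31 R BK F) (1 * 262143) (fun e =>
      LX31 (Kr R) (bt F 0) (bt F 1) (bt F 2) (bt F 3) (bt F 4) (bt F 5) (bt F 6) (bt F 7) (bt F 8) (bt F 9) (bt F 10) (bt F 11) (bt F 12) (bt F 13) (bt F 14) (bt F 15) (bt F 16) (bt F 17) (bt F 18) (bt F 19) (e 10) (e 1) 0 (e 3) (e 7) 0 (e 9) 0 (e 2) 0 (e 4) (e 0) (e 8) (e 6) (e 5)) e0 :=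
  PV.mono (PV.cast (tB_eq R BK hBK (fun x => (swp 26 11 4 9 (swp 26 11 2 8 x))) F 11 13 16 5 1 14 18 10)
      (((tB_pv R h F 11 13 16 5 1 14 18 10 e0).swp 2 8 rfl rfl rfl).swp 4 9 rfl rfl rfl)) rfl

def x32 (R : ℕ → ℕ → ℕ) (BK : ℕ → ℕ → ℕ → ℕ → ℕ → ℕ → ℕ → ℕ → ℕ) (F : ℕ) : ℕ :=
  tB BK (fun x => (swp 26 11 4 9 (swp 26 11 1 10 (swp 26 11 0 8 x)))) F 10 13 16 4 2 15 17 11

def LX32 (K : ℕ → ℕ → ℕ → ℕ) (b012 b013 b023 b123 b014 b024 b124 b034 b134 b234 b015 b025 b125 b035 b135 b235 b045 b145 b245 b345 b016 b026 b126 b036 b136 b236 b046 b146 b246 b346 b056 b156 b256 b356 b456 : ℕ) : ℕ :=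
  (K b056 (c9 b025 b026 b256 b035 b036 b356 b023 b235 b236) (c9 b015 b016 b156 b045 b046 b456 b014 b145 b146))

theorem x32_pv (R : ℕ → ℕ → ℕ) (h : rowsChk R = true)
    (BK : ℕ → ℕ → ℕ → ℕ → ℕ → ℕ → ℕ → ℕ → ℕ) (hBK : BlkOK R BK) (F : ℕ) (e0 : ℕ → ℕ) :
    PV 11 (x32 R BK F) (1 * 262143) (fun e =>
      LX32 (Kr R) (bt F 0) (bt F 1) (bt F 2) (bt F 3) (bt F 4) (bt F 5) (bt F 6) (bt F 7) (bt F 8) (bt F 9) (bt F 10) (bt F 11) (bt F 12) (bt F 13) (bt F 14) (bt F 15) (bt F 16) (bt F 17) (bt F 18) (bt F 19) (e 10) (e 1) 0 (e 3) 0 (e 7) (e 9) (e 0) 0 0 (e 4) (e 2) (e 8) (e 6) (e 5)) e0 :=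
  PV.mono (PV.cast (tB_eq R BK hBK (fun x => (swp 26 11 4 9 (swp 26 11 1 10 (swp 26 11 0 8 x)))) F 10 13 16 4 2 15 17 11)
      ((((tB_pv R h F 10 13 16 4 2 15 17 11 e0).swp 0 8 rfl rfl rfl).swp 1 10 rfl rfl rfl).swp 4 9 rfl rfl rfl)) rfl

def x33 (R : ℕ → ℕ → ℕ) (BK : ℕ → ℕ → ℕ → ℕ → ℕ → ℕ → ℕ → ℕ → ℕ) (F : ℕ) : ℕ :=
  tB BK (fun x => (swp 26 11 6 8 (swp 26 11 1 7 (swp 26 11 0 4 x)))) F 14 12 17 8 0 11 19 10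

def LX33 (K : ℕ → ℕ → ℕ → ℕ) (b012 b013 b023 b123 b014 b024 b124 b034 b134 b234 b015 b025 b125 b035 b135 b235 b045 b145 b245 b345 b016 b026 b126 b036 b136 b236 b046 b146 b246 b346 b056 b156 b256 b356 b456 : ℕ) : ℕ :=
  (K b156 (c9 b015 b016 b056 b125 b126 b256 b012 b025 b026) (c9 b135 b136 b356 b145 b146 b456 b134 b345 b346))

theorem x33_pv (R : ℕ → ℕ → ℕ) (h : rowsChk R = true)
    (BK : ℕ → ℕ → ℕ → ℕ → ℕ → ℕ → ℕ → ℕ → ℕ) (hBK : BlkOK R BK) (F : ℕ) (e0 : ℕ → ℕ) :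
    PV 11 (x33 R BK F) (1 * 262143) (fun e =>
      LX33 (Kr R) (bt F 0) (bt F 1) (bt F 2) (bt F 3) (bt F 4) (bt F 5) (bt F 6) (bt F 7) (bt F 8) (bt F 9) (bt F 10) (bt F 11) (bt F 12) (bt F 13) (bt F 14) (bt F 15) (bt F 16) (bt F 17) (bt F 18) (bt F 19) (e 10) (e 1) (e 3) 0 (e 7) 0 0 (e 0) 0 (e 6) (e 4) (e 9) (e 8) (e 2) (e 5)) e0 :=
  PV.mono (PV.cast (tB_eq R BK hBK (fun x => (swp 26 11 6 8 (swp 26 11 1 7 (swp 26 11 0 4 x)))) F 14 12 17 8 0 11 19 10)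
      ((((tB_pv R h F 14 12 17 8 0 11 19 10 e0).swp 0 4 rfl rfl rfl).swp 1 7 rfl rfl rfl).swp 6 8 rfl rfl rfl)) rfl

def x34 (R : ℕ → ℕ → ℕ) (BK : ℕ → ℕ → ℕ → ℕ → ℕ → ℕ → ℕ → ℕ → ℕ) (F : ℕ) : ℕ :=
  tB BK (fun x => (swp 26 11 3 7 (swp 26 11 2 8 (swp 26 11 1 6 (swp 26 11 0 4 x))))) F 12 14 17 6 1 13 18 10

def LX34 (K : ℕ → ℕ → ℕ → ℕ) (b012 b013 b023 b123 b014 b024 b124 b034 b134 b234 b015 b025 b125 b035 b135 b235 b045 b145 b245 b345 b016 b026 b126 b036 b136 b236 b046 b146 b246 b346 b056 b156 b256 b356 b456 : ℕ) : ℕ :=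
  (K b156 (c9 b015 b016 b056 b135 b136 b356 b013 b035 b036) (c9 b125 b126 b256 b145 b146 b456 b124 b245 b246))

theorem x34_pv (R : ℕ → ℕ → ℕ) (h : rowsChk R = true)
    (BK : ℕ → ℕ → ℕ → ℕ → ℕ → ℕ → ℕ → ℕ → ℕ) (hBK : BlkOK R BK) (F : ℕ) (e0 : ℕ → ℕ) :
    PV 11 (x34 R BK F) (1 * 262143) (fun e =>
      LX34 (Kr R) (bt F 0) (bt F 1) (bt F 2) (bt F 3) (bt F 4) (bt F 5) (bt F 6) (bt F 7) (bt F 8) (bt F 9) (bt F 10) (bt F 11) (bt F 12) (bt F 13) (bt F 14) (bt F 15) (bt F 16) (bt F 17) (bt F 18) (bt F 19) (e 10) 0 (e 6) (e 3) (e 7) 0 0 (e 0) (e 2) 0 (e 4) (e 9) (e 8) (e 1) (e 5)) e0 :=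
  PV.mono (PV.cast (tB_eq R BK hBK (fun x => (swp 26 11 3 7 (swp 26 11 2 8 (swp 26 11 1 6 (swp 26 11 0 4 x))))) F 12 14 17 6 1 13 18 10)
      (((((tB_pv R h F 12 14 17 6 1 13 18 10 e0).swp 0 4 rfl rfl rfl).swp 1 6 rfl rfl rfl).swp 2 8 rfl rfl rfl).swp 3 7 rfl rfl rfl)) rfl

def x35 (R : ℕ → ℕ → ℕ) (BK : ℕ → ℕ → ℕ → ℕ → ℕ → ℕ → ℕ → ℕ → ℕ) (F : ℕ) : ℕ :=
  tB BK (fun x => (swp 26 11 8 9 (swp 26 11 7 9 (swp 26 11 4 7 (swp 26 11 3 9 (swp 26 11 2 7 (swp 26 11 1 10 (swp 26 11 0 4 x)))))))) F 10 14 17 4 3 15 16 12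

def LX35 (K : ℕ → ℕ → ℕ → ℕ) (b012 b013 b023 b123 b014 b024 b124 b034 b134 b234 b015 b025 b125 b035 b135 b235 b045 b145 b245 b345 b016 b026 b126 b036 b136 b236 b046 b146 b246 b346 b056 b156 b256 b356 b456 : ℕ) : ℕ :=
  (K b156 (c9 b125 b126 b256 b135 b136 b356 b123 b235 b236) (c9 b015 b016 b056 b145 b146 b456 b014 b045 b046))

theorem x35_pv (R : ℕ → ℕ → ℕ) (h : rowsChk R = true)
    (BK : ℕ → ℕ → ℕ → ℕ → ℕ → ℕ → ℕ → ℕ → ℕ) (hBK : BlkOK R BK) (F : ℕ) (e0 : ℕ → ℕ) :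
    PV 11 (x35 R BK F) (1 * 262143) (fun e =>
      LX35 (Kr R) (bt F 0) (bt F 1) (bt F 2) (bt F 3) (bt F 4) (bt F 5) (bt F 6) (bt F 7) (bt F 8) (bt F 9) (bt F 10) (bt F 11) (bt F 12) (bt F 13) (bt F 14) (bt F 15) (bt F 16) (bt F 17) (bt F 18) (bt F 19) (e 10) 0 (e 1) 0 (e 7) (e 2) (e 9) (e 0) 0 0 (e 4) (e 3) (e 8) (e 6) (e 5)) e0 :=
  PV.mono (PV.cast (tB_eq R BK hBK (fun x => (swp 26 11 8 9 (swp 26 11 7 9 (swp 26 11 4 7 (swp 26 11 3 9 (swp 26 11 2 7 (swp 26 11 1 10 (swp 26 11 0 4 x)))))))) F 10 14 17 4 3 15 16 12)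
      ((((((((tB_pv R h F 10 14 17 4 3 15 16 12 e0).swp 0 4 rfl rfl rfl).swp 1 10 rfl rfl rfl).swp 2 7 rfl rfl rfl).swp 3 9 rfl rfl rfl).swp 4 7 rfl rfl rfl).swp 7 9 rfl rfl rfl).swp 8 9 rfl rfl rfl)) rfl

def x36 (R : ℕ → ℕ → ℕ) (BK : ℕ → ℕ → ℕ → ℕ → ℕ → ℕ → ℕ → ℕ → ℕ) (F : ℕ) : ℕ :=
  tB BK (fun x => (swp 26 11 8 9 (swp 26 11 7 10 (swp 26 11 6 8 (swp 26 11 2 4 (swp 26 11 1 10 (swp 26 11 0 2 x))))))) F 15 12 18 9 0 10 19 11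

def LX36 (K : ℕ → ℕ → ℕ → ℕ) (b012 b013 b023 b123 b014 b024 b124 b034 b134 b234 b015 b025 b125 b035 b135 b235 b045 b145 b245 b345 b016 b026 b126 b036 b136 b236 b046 b146 b246 b346 b056 b156 b256 b356 b456 : ℕ) : ℕ :=
  (K b256 (c9 b025 b026 b056 b125 b126 b156 b012 b015 b016) (c9 b235 b236 b356 b245 b246 b456 b234 b345 b346))

theorem x36_pv (R : ℕ → ℕ → ℕ) (h : rowsChk R = true)
    (BK : ℕ → ℕ → ℕ → ℕ → ℕ → ℕ → ℕ → ℕ → ℕ) (hBK : BlkOK R BK) (F : ℕ) (e0 : ℕ → ℕ) :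
    PV 11 (x36 R BK F) (1 * 262143) (fun e =>
      LX36 (Kr R) (bt F 0) (bt F 1) (bt F 2) (bt F 3) (bt F 4) (bt F 5) (bt F 6) (bt F 7) (bt F 8) (bt F 9) (bt F 10) (bt F 11) (bt F 12) (bt F 13) (bt F 14) (bt F 15) (bt F 16) (bt F 17) (bt F 18) (bt F 19) (e 10) (e 1) (e 3) 0 0 (e 7) 0 0 (e 2) (e 6) (e 4) (e 9) (e 8) (e 0) (e 5)) e0 :=
  PV.mono (PV.cast (tB_eq R BK hBK (fun x => (swp 26 11 8 9 (swp 26 11 7 10 (swp 26 11 6 8 (swp 26 11 2 4 (swp 26 11 1 10 (swp 26 11 0 2 x))))))) F 15 12 18 9 0 10 19 11)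
      (((((((tB_pv R h F 15 12 18 9 0 10 19 11 e0).swp 0 2 rfl rfl rfl).swp 1 10 rfl rfl rfl).swp 2 4 rfl rfl rfl).swp 6 8 rfl rfl rfl).swp 7 10 rfl rfl rfl).swp 8 9 rfl rfl rfl)) rfl

def x37 (R : ℕ → ℕ → ℕ) (BK : ℕ → ℕ → ℕ → ℕ → ℕ → ℕ → ℕ → ℕ → ℕ) (F : ℕ) : ℕ :=
  tB BK (fun x => (swp 26 11 8 9 (swp 26 11 4 8 (swp 26 11 3 7 (swp 26 11 2 4 (swp 26 11 1 10 (swp 26 11 0 8 x))))))) F 12 15 18 6 2 13 17 11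

def LX37 (K : ℕ → ℕ → ℕ → ℕ) (b012 b013 b023 b123 b014 b024 b124 b034 b134 b234 b015 b025 b125 b035 b135 b235 b045 b145 b245 b345 b016 b026 b126 b036 b136 b236 b046 b146 b246 b346 b056 b156 b256 b356 b456 : ℕ) : ℕ :=
  (K b256 (c9 b025 b026 b056 b235 b236 b356 b023 b035 b036) (c9 b125 b126 b156 b245 b246 b456 b124 b145 b146))

theorem x37_pv (R : ℕ → ℕ → ℕ) (h : rowsChk R = true)
    (BK : ℕ → ℕ → ℕ → ℕ → ℕ → ℕ → ℕ → ℕ → ℕ) (hBK : BlkOK R BK) (F : ℕ) (e0 : ℕ → ℕ) :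
    PV 11 (x37 R BK F) (1 * 262143) (fun e =>
      LX37 (Kr R) (bt F 0) (bt F 1) (bt F 2) (bt F 3) (bt F 4) (bt F 5) (bt F 6) (bt F 7) (bt F 8) (bt F 9) (bt F 10) (bt F 11) (bt F 12) (bt F 13) (bt F 14) (bt F 15) (bt F 16) (bt F 17) (bt F 18) (bt F 19) 0 (e 1) (e 10) (e 3) 0 (e 7) 0 (e 0) (e 2) 0 (e 4) (e 9) (e 8) (e 6) (e 5)) e0 :=
  PV.mono (PV.cast (tB_eq R BK hBK (fun x => (swp 26 11 8 9 (swp 26 11 4 8 (swp 26 11 3 7 (swp 26 11 2 4 (swp 26 11 1 10 (swp 26 11 0 8 x))))))) F 12 15 18 6 2 13 17 11)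
      (((((((tB_pv R h F 12 15 18 6 2 13 17 11 e0).swp 0 8 rfl rfl rfl).swp 1 10 rfl rfl rfl).swp 2 4 rfl rfl rfl).swp 3 7 rfl rfl rfl).swp 4 8 rfl rfl rfl).swp 8 9 rfl rfl rfl)) rfl

def x38 (R : ℕ → ℕ → ℕ) (BK : ℕ → ℕ → ℕ → ℕ → ℕ → ℕ → ℕ → ℕ → ℕ) (F : ℕ) : ℕ :=
  tB BK (fun x => (swp 26 11 8 9 (swp 26 11 2 4 x))) F 11 15 18 5 3 14 16 12

def LX38 (K : ℕ → ℕ → ℕ → ℕ) (b012 b013 b023 b123 b014 b024 b124 b034 b134 b234 b015 b025 b125 b035 b135 b235 b045 b145 b245 b345 b016 b026 b126 b036 b136 b236 b046 b146 b246 b346 b056 b156 b256 b356 b456 : ℕ) : ℕ :=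
  (K b256 (c9 b125 b126 b156 b235 b236 b356 b123 b135 b136) (c9 b025 b026 b056 b245 b246 b456 b024 b045 b046))

theorem x38_pv (R : ℕ → ℕ → ℕ) (h : rowsChk R = true)
    (BK : ℕ → ℕ → ℕ → ℕ → ℕ → ℕ → ℕ → ℕ → ℕ) (hBK : BlkOK R BK) (F : ℕ) (e0 : ℕ → ℕ) :
    PV 11 (x38 R BK F) (1 * 262143) (fun e =>
      LX38 (Kr R) (bt F 0) (bt F 1) (bt F 2) (bt F 3) (bt F 4) (bt F 5) (bt F 6) (bt F 7) (bt F 8) (bt F 9) (bt F 10) (bt F 11) (bt F 12) (bt F 13) (bt F 14) (bt F 15) (bt F 16) (bt F 17) (bt F 18) (bt F 19) 0 (e 1) (e 10) 0 (e 7) (e 3) (e 9) 0 (e 2) 0 (e 4) (e 0) (e 8) (e 6) (e 5)) e0 :=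
  PV.mono (PV.cast (tB_eq R BK hBK (fun x => (swp 26 11 8 9 (swp 26 11 2 4 x))) F 11 15 18 5 3 14 16 12)
      (((tB_pv R h F 11 15 18 5 3 14 16 12 e0).swp 2 4 rfl rfl rfl).swp 8 9 rfl rfl rfl)) rfl

def x39 (R : ℕ → ℕ → ℕ) (BK : ℕ → ℕ → ℕ → ℕ → ℕ → ℕ → ℕ → ℕ → ℕ) (F : ℕ) : ℕ :=
  tB BK (fun x => (swp 26 11 7 10 (swp 26 11 4 6 (swp 26 11 3 10 (swp 26 11 2 8 (swp 26 11 0 6 x)))))) F 15 14 19 9 1 10 18 13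

def LX39 (K : ℕ → ℕ → ℕ → ℕ) (b012 b013 b023 b123 b014 b024 b124 b034 b134 b234 b015 b025 b125 b035 b135 b235 b045 b145 b245 b345 b016 b026 b126 b036 b136 b236 b046 b146 b246 b346 b056 b156 b256 b356 b456 : ℕ) : ℕ :=
  (K b356 (c9 b035 b036 b056 b135 b136 b156 b013 b015 b016) (c9 b235 b236 b256 b345 b346 b456 b234 b245 b246))

theorem x39_pv (R : ℕ → ℕ → ℕ) (h : rowsChk R = true)
    (BK : ℕ → ℕ → ℕ → ℕ → ℕ → ℕ → ℕ → ℕ → ℕ) (hBK : BlkOK R BK) (F : ℕ) (e0 : ℕ → ℕ) :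
    PV 11 (x39 R BK F) (1 * 262143) (fun e =>
      LX39 (Kr R) (bt F 0) (bt F 1) (bt F 2) (bt F 3) (bt F 4) (bt F 5) (bt F 6) (bt F 7) (bt F 8) (bt F 9) (bt F 10) (bt F 11) (bt F 12) (bt F 13) (bt F 14) (bt F 15) (bt F 16) (bt F 17) (bt F 18) (bt F 19) (e 10) 0 0 (e 3) (e 7) (e 1) 0 0 (e 2) (e 6) (e 4) (e 0) (e 8) (e 9) (e 5)) e0 :=
  PV.mono (PV.cast (tB_eq R BK hBK (fun x => (swp 26 11 7 10 (swp 26 11 4 6 (swp 26 11 3 10 (swp 26 11 2 8 (swp 26 11 0 6 x)))))) F 15 14 19 9 1 10 18 13)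
      ((((((tB_pv R h F 15 14 19 9 1 10 18 13 e0).swp 0 6 rfl rfl rfl).swp 2 8 rfl rfl rfl).swp 3 10 rfl rfl rfl).swp 4 6 rfl rfl rfl).swp 7 10 rfl rfl rfl)) rfl

def x40 (R : ℕ → ℕ → ℕ) (BK : ℕ → ℕ → ℕ → ℕ → ℕ → ℕ → ℕ → ℕ → ℕ) (F : ℕ) : ℕ :=
  tB BK (fun x => (swp 26 11 6 8 (swp 26 11 4 8 (swp 26 11 3 10 (swp 26 11 1 7 (swp 26 11 0 8 x)))))) F 14 15 19 8 2 11 17 13

def LX40 (K : ℕ → ℕ → ℕ → ℕ) (b012 b013 b023 b123 b014 b024 b124 b034 b134 b234 b015 b025 b125 b035 b135 b235 b045 b145 b245 b345 b016 b026 b126 b036 b136 b236 b046 b146 b246 b346 b056 b156 b256 b356 b456 : ℕ) : ℕ :=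
  (K b356 (c9 b035 b036 b056 b235 b236 b256 b023 b025 b026) (c9 b135 b136 b156 b345 b346 b456 b134 b145 b146))

theorem x40_pv (R : ℕ → ℕ → ℕ) (h : rowsChk R = true)
    (BK : ℕ → ℕ → ℕ → ℕ → ℕ → ℕ → ℕ → ℕ → ℕ) (hBK : BlkOK R BK) (F : ℕ) (e0 : ℕ → ℕ) :
    PV 11 (x40 R BK F) (1 * 262143) (fun e =>
      LX40 (Kr R) (bt F 0) (bt F 1) (bt F 2) (bt F 3) (bt F 4) (bt F 5) (bt F 6) (bt F 7) (bt F 8) (bt F 9) (bt F 10) (bt F 11) (bt F 12) (bt F 13) (bt F 14) (bt F 15) (bt F 16) (bt F 17) (bt F 18) (bt F 19) 0 (e 1) 0 (e 3) (e 7) (e 10) 0 (e 0) 0 (e 6) (e 4) (e 2) (e 8) (e 9) (e 5)) e0 :=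
  PV.mono (PV.cast (tB_eq R BK hBK (fun x => (swp 26 11 6 8 (swp 26 11 4 8 (swp 26 11 3 10 (swp 26 11 1 7 (swp 26 11 0 8 x)))))) F 14 15 19 8 2 11 17 13)
      ((((((tB_pv R h F 14 15 19 8 2 11 17 13 e0).swp 0 8 rfl rfl rfl).swp 1 7 rfl rfl rfl).swp 3 10 rfl rfl rfl).swp 4 8 rfl rfl rfl).swp 6 8 rfl rfl rfl)) rfl

def x41 (R : ℕ → ℕ → ℕ) (BK : ℕ → ℕ → ℕ → ℕ → ℕ → ℕ → ℕ → ℕ → ℕ) (F : ℕ) : ℕ :=
  tB BK (fun x => (swp 26 11 8 9 (swp 26 11 7 10 (swp 26 11 6 9 (swp 26 11 4 9 (swp 26 11 2 9 (swp 26 11 1 3 x))))))) F 13 15 19 7 3 12 16 14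

def LX41 (K : ℕ → ℕ → ℕ → ℕ) (b012 b013 b023 b123 b014 b024 b124 b034 b134 b234 b015 b025 b125 b035 b135 b235 b045 b145 b245 b345 b016 b026 b126 b036 b136 b236 b046 b146 b246 b346 b056 b156 b256 b356 b456 : ℕ) : ℕ :=
  (K b356 (c9 b135 b136 b156 b235 b236 b256 b123 b125 b126) (c9 b035 b036 b056 b345 b346 b456 b034 b045 b046))

theorem x41_pv (R : ℕ → ℕ → ℕ) (h : rowsChk R = true)
    (BK : ℕ → ℕ → ℕ → ℕ → ℕ → ℕ → ℕ → ℕ → ℕ) (hBK : BlkOK R BK) (F : ℕ) (e0 : ℕ → ℕ) :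
    PV 11 (x41 R BK F) (1 * 262143) (fun e =>
      LX41 (Kr R) (bt F 0) (bt F 1) (bt F 2) (bt F 3) (bt F 4) (bt F 5) (bt F 6) (bt F 7) (bt F 8) (bt F 9) (bt F 10) (bt F 11) (bt F 12) (bt F 13) (bt F 14) (bt F 15) (bt F 16) (bt F 17) (bt F 18) (bt F 19) 0 0 (e 10) (e 3) (e 7) (e 1) (e 9) 0 0 (e 6) (e 4) (e 0) (e 8) (e 2) (e 5)) e0 :=
  PV.mono (PV.cast (tB_eq R BK hBK (fun x => (swp 26 11 8 9 (swp 26 11 7 10 (swp 26 11 6 9 (swp 26 11 4 9 (swp 26 11 2 9 (swp 26 11 1 3 x))))))) F 13 15 19 7 3 12 16 14)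
      (((((((tB_pv R h F 13 15 19 7 3 12 16 14 e0).swp 1 3 rfl rfl rfl).swp 2 9 rfl rfl rfl).swp 4 9 rfl rfl rfl).swp 6 9 rfl rfl rfl).swp 7 10 rfl rfl rfl).swp 8 9 rfl rfl rfl)) rfl

def x42 (R : ℕ → ℕ → ℕ) (BK : ℕ → ℕ → ℕ → ℕ → ℕ → ℕ → ℕ → ℕ → ℕ) (F : ℕ) : ℕ :=
  tB BK (fun x => (swp 26 11 9 10 (swp 26 11 7 9 (swp 26 11 5 9 (swp 26 11 4 6 (swp 26 11 3 6 (swp 26 11 2 8 (swp 26 11 1 8 (swp 26 11 0 3 x))))))))) F 18 17 19 9 4 10 15 16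

def LX42 (K : ℕ → ℕ → ℕ → ℕ) (b012 b013 b023 b123 b014 b024 b124 b034 b134 b234 b015 b025 b125 b035 b135 b235 b045 b145 b245 b345 b016 b026 b126 b036 b136 b236 b046 b146 b246 b346 b056 b156 b256 b356 b456 : ℕ) : ℕ :=
  (K b456 (c9 b045 b046 b056 b145 b146 b156 b014 b015 b016) (c9 b245 b246 b256 b345 b346 b356 b234 b235 b236))

theorem x42_pv (R : ℕ → ℕ → ℕ) (h : rowsChk R = true)
    (BK : ℕ → ℕ → ℕ → ℕ → ℕ → ℕ → ℕ → ℕ → ℕ) (hBK : BlkOK R BK) (F : ℕ) (e0 : ℕ → ℕ) :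
    PV 11 (x42 R BK F) (1 * 262143) (fun e =>
      LX42 (Kr R) (bt F 0) (bt F 1) (bt F 2) (bt F 3) (bt F 4) (bt F 5) (bt F 6) (bt F 7) (bt F 8) (bt F 9) (bt F 10) (bt F 11) (bt F 12) (bt F 13) (bt F 14) (bt F 15) (bt F 16) (bt F 17) (bt F 18) (bt F 19) (e 10) 0 0 0 0 (e 1) (e 9) (e 0) (e 2) (e 6) (e 4) (e 3) (e 8) (e 7) (e 5)) e0 :=
  PV.mono (PV.cast (tB_eq R BK hBK (fun x => (swp 26 11 9 10 (swp 26 11 7 9 (swp 26 11 5 9 (swp 26 11 4 6 (swp 26 11 3 6 (swp 26 11 2 8 (swp 26 11 1 8 (swp 26 11 0 3 x))))))))) F 18 17 19 9 4 10 15 16)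
      (((((((((tB_pv R h F 18 17 19 9 4 10 15 16 e0).swp 0 3 rfl rfl rfl).swp 1 8 rfl rfl rfl).swp 2 8 rfl rfl rfl).swp 3 6 rfl rfl rfl).swp 4 6 rfl rfl rfl).swp 5 9 rfl rfl rfl).swp 7 9 rfl rfl rfl).swp 9 10 rfl rfl rfl)) rfl

def x43 (R : ℕ → ℕ → ℕ) (BK : ℕ → ℕ → ℕ → ℕ → ℕ → ℕ → ℕ → ℕ → ℕ) (F : ℕ) : ℕ :=
  tB BK (fun x => (swp 26 11 9 10 (swp 26 11 7 8 (swp 26 11 6 7 (swp 26 11 5 9 (swp 26 11 4 7 (swp 26 11 2 3 (swp 26 11 1 7 (swp 26 11 0 1 x))))))))) F 17 18 19 8 5 11 14 16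

def LX43 (K : ℕ → ℕ → ℕ → ℕ) (b012 b013 b023 b123 b014 b024 b124 b034 b134 b234 b015 b025 b125 b035 b135 b235 b045 b145 b245 b345 b016 b026 b126 b036 b136 b236 b046 b146 b246 b346 b056 b156 b256 b356 b456 : ℕ) : ℕ :=
  (K b456 (c9 b045 b046 b056 b245 b246 b256 b024 b025 b026) (c9 b145 b146 b156 b345 b346 b356 b134 b135 b136))

theorem x43_pv (R : ℕ → ℕ → ℕ) (h : rowsChk R = true)
    (BK : ℕ → ℕ → ℕ → ℕ → ℕ → ℕ → ℕ → ℕ → ℕ) (hBK : BlkOK R BK) (F : ℕ) (e0 : ℕ → ℕ) :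
    PV 11 (x43 R BK F) (1 * 262143) (fun e =>
      LX43 (Kr R) (bt F 0) (bt F 1) (bt F 2) (bt F 3) (bt F 4) (bt F 5) (bt F 6) (bt F 7) (bt F 8) (bt F 9) (bt F 10) (bt F 11) (bt F 12) (bt F 13) (bt F 14) (bt F 15) (bt F 16) (bt F 17) (bt F 18) (bt F 19) 0 (e 1) 0 0 (e 7) 0 (e 9) (e 0) (e 2) (e 6) (e 4) (e 3) (e 8) (e 10) (e 5)) e0 :=
  PV.mono (PV.cast (tB_eq R BK hBK (fun x => (swp 26 11 9 10 (swp 26 11 7 8 (swp 26 11 6 7 (swp 26 11 5 9 (swp 26 11 4 7 (swp 26 11 2 3 (swp 26 11 1 7 (swp 26 11 0 1 x))))))))) F 17 18 19 8 5 11 14 16)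
      (((((((((tB_pv R h F 17 18 19 8 5 11 14 16 e0).swp 0 1 rfl rfl rfl).swp 1 7 rfl rfl rfl).swp 2 3 rfl rfl rfl).swp 4 7 rfl rfl rfl).swp 5 9 rfl rfl rfl).swp 6 7 rfl rfl rfl).swp 7 8 rfl rfl rfl).swp 9 10 rfl rfl rfl)) rfl

def x44 (R : ℕ → ℕ → ℕ) (BK : ℕ → ℕ → ℕ → ℕ → ℕ → ℕ → ℕ → ℕ → ℕ) (F : ℕ) : ℕ :=
  tB BK (fun x => (swp 26 11 6 8 (swp 26 11 5 9 (swp 26 11 4 8 (swp 26 11 3 8 (swp 26 11 2 3 (swp 26 11 1 5 (swp 26 11 0 10 x)))))))) F 16 18 19 7 6 12 13 17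

def LX44 (K : ℕ → ℕ → ℕ → ℕ) (b012 b013 b023 b123 b014 b024 b124 b034 b134 b234 b015 b025 b125 b035 b135 b235 b045 b145 b245 b345 b016 b026 b126 b036 b136 b236 b046 b146 b246 b346 b056 b156 b256 b356 b456 : ℕ) : ℕ :=
  (K b456 (c9 b145 b146 b156 b245 b246 b256 b124 b125 b126) (c9 b045 b046 b056 b345 b346 b356 b034 b035 b036))

theorem x44_pv (R : ℕ → ℕ → ℕ) (h : rowsChk R = true)
    (BK : ℕ → ℕ → ℕ → ℕ → ℕ → ℕ → ℕ → ℕ → ℕ) (hBK : BlkOK R BK) (F : ℕ) (e0 : ℕ → ℕ) :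
    PV 11 (x44 R BK F) (1 * 262143) (fun e =>
      LX44 (Kr R) (bt F 0) (bt F 1) (bt F 2) (bt F 3) (bt F 4) (bt F 5) (bt F 6) (bt F 7) (bt F 8) (bt F 9) (bt F 10) (bt F 11) (bt F 12) (bt F 13) (bt F 14) (bt F 15) (bt F 16) (bt F 17) (bt F 18) (bt F 19) 0 0 (e 7) (e 3) 0 0 (e 9) (e 0) (e 2) (e 6) (e 4) (e 10) (e 8) (e 1) (e 5)) e0 :=
  PV.mono (PV.cast (tB_eq R BK hBK (fun x => (swp 26 11 6 8 (swp 26 11 5 9 (swp 26 11 4 8 (swp 26 11 3 8 (swp 26 11 2 3 (swp 26 11 1 5 (swp 26 11 0 10 x)))))))) F 16 18 19 7 6 12 13 17)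
      ((((((((tB_pv R h F 16 18 19 7 6 12 13 17 e0).swp 0 10 rfl rfl rfl).swp 1 5 rfl rfl rfl).swp 2 3 rfl rfl rfl).swp 3 8 rfl rfl rfl).swp 4 8 rfl rfl rfl).swp 5 9 rfl rfl rfl).swp 6 8 rfl rfl rfl)) rfl

def LZ0 (K : ℕ → ℕ → ℕ → ℕ) (b012 b013 b023 b123 b014 b024 b124 b034 b134 b234 b015 b025 b125 b035 b135 b235 b045 b145 b245 b345 b016 b026 b126 b036 b136 b236 b046 b146 b246 b346 b056 b156 b256 b356 b456 : ℕ) : ℕ :=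
  (LX0 K b012 b013 b023 b123 b014 b024 b124 b034 b134 b234 b015 b025 b125 b035 b135 b235 b045 b145 b245 b345 b016 b026 b126 b036 b136 b236 b046 b146 0 0 b056 b156 0 0 b456)

def z0 (R : ℕ → ℕ → ℕ) (BK : ℕ → ℕ → ℕ → ℕ → ℕ → ℕ → ℕ → ℕ → ℕ) (F : ℕ) : ℕ :=
  (ins 26 11 6 (x0 R BK F))

theorem z0_pv (R : ℕ → ℕ → ℕ) (h : rowsChk R = true)
    (BK : ℕ → ℕ → ℕ → ℕ → ℕ → ℕ → ℕ → ℕ → ℕ) (hBK : BlkOK R BK) (F : ℕ) (e0 : ℕ → ℕ) :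
    PV 12 (z0 R BK F) (5 * 262143) (fun e =>
      LZ0 (Kr R) (bt F 0) (bt F 1) (bt F 2) (bt F 3) (bt F 4) (bt F 5) (bt F 6) (bt F 7) (bt F 8) (bt F 9) (bt F 10) (bt F 11) (bt F 12) (bt F 13) (bt F 14) (bt F 15) (bt F 16) (bt F 17) (bt F 18) (bt F 19) (e 10) (e 1) (e 2) (e 3) (e 7) (e 11) (e 9) (e 0) 0 (e 6) (e 4) (e 8) 0 0 (e 5)) e0 :=
  PV.mono (PV.ins 6 rfl rfl (x0_pv R h BK hBK F e0)) rfl

def LZ1 (K : ℕ → ℕ → ℕ → ℕ) (b012 b013 b023 b123 b014 b024 b124 b034 b134 b234 b015 b025 b125 b035 b135 b235 b045 b145 b245 b345 b016 b026 b126 b036 b136 b236 b046 b146 b246 b346 b056 b156 b256 b356 b456 : ℕ) : ℕ :=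
  (LX20 K b012 b013 b023 b123 b014 b024 b124 b034 b134 b234 b015 b025 b125 b035 b135 b235 b045 b145 b245 b345 b016 b026 0 b036 0 b236 b046 b146 b246 b346 b056 b156 0 0 b456)

def z1 (R : ℕ → ℕ → ℕ) (BK : ℕ → ℕ → ℕ → ℕ → ℕ → ℕ → ℕ → ℕ → ℕ) (F : ℕ) : ℕ :=
  (ins 26 11 7 (x20 R BK F))

theorem z1_pv (R : ℕ → ℕ → ℕ) (h : rowsChk R = true)
    (BK : ℕ → ℕ → ℕ → ℕ → ℕ → ℕ → ℕ → ℕ → ℕ) (hBK : BlkOK R BK) (F : ℕ) (e0 : ℕ → ℕ) :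
    PV 12 (z1 R BK F) (5 * 262143) (fun e =>
      LZ1 (Kr R) (bt F 0) (bt F 1) (bt F 2) (bt F 3) (bt F 4) (bt F 5) (bt F 6) (bt F 7) (bt F 8) (bt F 9) (bt F 10) (bt F 11) (bt F 12) (bt F 13) (bt F 14) (bt F 15) (bt F 16) (bt F 17) (bt F 18) (bt F 19) (e 10) (e 1) (e 7) (e 3) 0 (e 11) (e 9) (e 0) (e 2) (e 6) (e 4) (e 8) 0 0 (e 5)) e0 :=
  PV.mono (PV.ins 7 rfl rfl (x20_pv R h BK hBK F e0)) rfl

def LZ2 (K : ℕ → ℕ → ℕ → ℕ) (b012 b013 b023 b123 b014 b024 b124 b034 b134 b234 b015 b025 b125 b035 b135 b235 b045 b145 b245 b345 b016 b026 b126 b036 b136 b236 b046 b146 b246 b346 b056 b156 b256 b356 b456 : ℕ) : ℕ :=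
  (Nat.add (LZ0 K b012 b013 b023 b123 b014 b024 b124 b034 b134 b234 b015 b025 b125 b035 b135 b235 b045 b145 b245 b345 b016 b026 b126 b036 b136 b236 b046 b146 0 b346 b056 b156 0 0 b456)
      (LZ1 K b012 b013 b023 b123 b014 b024 b124 b034 b134 b234 b015 b025 b125 b035 b135 b235 b045 b145 b245 b345 b016 b026 b126 b036 0 b236 b046 b146 b246 b346 b056 b156 0 0 b456))

def z2 (R : ℕ → ℕ → ℕ) (BK : ℕ → ℕ → ℕ → ℕ → ℕ → ℕ → ℕ → ℕ → ℕ) (F : ℕ) : ℕ :=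
  (Nat.add (ins 26 12 2 (z0 R BK F))
      (ins 26 12 7 (z1 R BK F)))

theorem z2_pv (R : ℕ → ℕ → ℕ) (h : rowsChk R = true)
    (BK : ℕ → ℕ → ℕ → ℕ → ℕ → ℕ → ℕ → ℕ → ℕ) (hBK : BlkOK R BK) (F : ℕ) (e0 : ℕ → ℕ) :
    PV 13 (z2 R BK F) (10 * 262143) (fun e =>
      LZ2 (Kr R) (bt F 0) (bt F 1) (bt F 2) (bt F 3) (bt F 4) (bt F 5) (bt F 6) (bt F 7) (bt F 8) (bt F 9) (bt F 10) (bt F 11) (bt F 12) (bt F 13) (bt F 14) (bt F 15) (bt F 16) (bt F 17) (bt F 18) (bt F 19) (e 10) (e 1) (e 12) (e 3) (e 7) (e 11) (e 9) (e 0) (e 2) (e 6) (e 4) (e 8) 0 0 (e 5)) e0 :=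
  PV.mono (PV.add (PV.ins 2 rfl rfl (z0_pv R h BK hBK F e0))
      (PV.ins 7 rfl rfl (z1_pv R h BK hBK F e0))) rfl

def LZ3 (K : ℕ → ℕ → ℕ → ℕ) (b012 b013 b023 b123 b014 b024 b124 b034 b134 b234 b015 b025 b125 b035 b135 b235 b045 b145 b245 b345 b016 b026 b126 b036 b136 b236 b046 b146 b246 b346 b056 b156 b256 b356 b456 : ℕ) : ℕ :=
  (LX14 K b012 b013 b023 b123 b014 b024 b124 b034 b134 b234 b015 b025 b125 b035 b135 b235 b045 b145 b245 b345 b016 0 b126 b036 b136 b236 0 b146 b246 b346 b056 b156 0 b356 0)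

def z3 (R : ℕ → ℕ → ℕ) (BK : ℕ → ℕ → ℕ → ℕ → ℕ → ℕ → ℕ → ℕ → ℕ) (F : ℕ) : ℕ :=
  (ins 26 11 9 (x14 R BK F))

theorem z3_pv (R : ℕ → ℕ → ℕ) (h : rowsChk R = true)
    (BK : ℕ → ℕ → ℕ → ℕ → ℕ → ℕ → ℕ → ℕ → ℕ) (hBK : BlkOK R BK) (F : ℕ) (e0 : ℕ → ℕ) :
    PV 12 (z3 R BK F) (5 * 262143) (fun e =>
      LZ3 (Kr R) (bt F 0) (bt F 1) (bt F 2) (bt F 3) (bt F 4) (bt F 5) (bt F 6) (bt F 7) (bt F 8) (bt F 9) (bt F 10) (bt F 11) (bt F 12) (bt F 13) (bt F 14) (bt F 15) (bt F 16) (bt F 17) (bt F 18) (bt F 19) (e 10) 0 (e 1) (e 3) (e 7) (e 11) (e 9) (e 0) (e 2) (e 6) (e 4) (e 8) 0 (e 5) 0) e0 :=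
  PV.mono (PV.ins 9 rfl rfl (x14_pv R h BK hBK F e0)) rfl

def LZ4 (K : ℕ → ℕ → ℕ → ℕ) (b012 b013 b023 b123 b014 b024 b124 b034 b134 b234 b015 b025 b125 b035 b135 b235 b045 b145 b245 b345 b016 b026 b126 b036 b136 b236 b046 b146 b246 b346 b056 b156 b256 b356 b456 : ℕ) : ℕ :=
  (LX23 K b012 b013 b023 b123 b014 b024 b124 b034 b134 b234 b015 b025 b125 b035 b135 b235 b045 b145 b245 b345 b016 0 b126 0 b136 b236 b046 b146 b246 b346 b056 b156 0 0 b456)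

def z4 (R : ℕ → ℕ → ℕ) (BK : ℕ → ℕ → ℕ → ℕ → ℕ → ℕ → ℕ → ℕ → ℕ) (F : ℕ) : ℕ :=
  (ins 26 11 3 (x23 R BK F))

theorem z4_pv (R : ℕ → ℕ → ℕ) (h : rowsChk R = true)
    (BK : ℕ → ℕ → ℕ → ℕ → ℕ → ℕ → ℕ → ℕ → ℕ) (hBK : BlkOK R BK) (F : ℕ) (e0 : ℕ → ℕ) :
    PV 12 (z4 R BK F) (1 * 262143) (fun e =>
      LZ4 (Kr R) (bt F 0) (bt F 1) (bt F 2) (bt F 3) (bt F 4) (bt F 5) (bt F 6) (bt F 7) (bt F 8) (bt F 9) (bt F 10) (bt F 11) (bt F 12) (bt F 13) (bt F 14) (bt F 15) (bt F 16) (bt F 17) (bt F 18) (bt F 19) (e 10) 0 (e 1) (e 3) (e 7) (e 11) (e 9) (e 0) (e 2) (e 6) (e 4) (e 8) 0 0 (e 5)) e0 :=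
  PV.mono (PV.ins 3 rfl rfl (x23_pv R h BK hBK F e0)) rfl

def LZ5 (K : ℕ → ℕ → ℕ → ℕ) (b012 b013 b023 b123 b014 b024 b124 b034 b134 b234 b015 b025 b125 b035 b135 b235 b045 b145 b245 b345 b016 b026 b126 b036 b136 b236 b046 b146 b246 b346 b056 b156 b256 b356 b456 : ℕ) : ℕ :=
  (LX29 K b012 b013 b023 b123 b014 b024 b124 b034 b134 b234 b015 b025 b125 b035 b135 b235 b045 b145 b245 b345 0 0 b126 b036 b136 b236 b046 b146 b246 b346 b056 0 0 b356 b456)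

def z5 (R : ℕ → ℕ → ℕ) (BK : ℕ → ℕ → ℕ → ℕ → ℕ → ℕ → ℕ → ℕ → ℕ) (F : ℕ) : ℕ :=
  (ins 26 11 10 (x29 R BK F))

theorem z5_pv (R : ℕ → ℕ → ℕ) (h : rowsChk R = true)
    (BK : ℕ → ℕ → ℕ → ℕ → ℕ → ℕ → ℕ → ℕ → ℕ) (hBK : BlkOK R BK) (F : ℕ) (e0 : ℕ → ℕ) :
    PV 12 (z5 R BK F) (1 * 262143) (fun e =>
      LZ5 (Kr R) (bt F 0) (bt F 1) (bt F 2) (bt F 3) (bt F 4) (bt F 5) (bt F 6) (bt F 7) (bt F 8) (bt F 9) (bt F 10) (bt F 11) (bt F 12) (bt F 13) (bt F 14) (bt F 15) (bt F 16) (bt F 17) (bt F 18) (bt F 19) (e 10) 0 (e 1) (e 3) (e 7) (e 11) (e 9) (e 0) (e 2) (e 6) (e 4) 0 0 (e 8) (e 5)) e0 :=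
  PV.mono (PV.ins 10 rfl rfl (x29_pv R h BK hBK F e0)) rfl

def LZ6 (K : ℕ → ℕ → ℕ → ℕ) (b012 b013 b023 b123 b014 b024 b124 b034 b134 b234 b015 b025 b125 b035 b135 b235 b045 b145 b245 b345 b016 b026 b126 b036 b136 b236 b046 b146 b246 b346 b056 b156 b256 b356 b456 : ℕ) : ℕ :=
  (Nat.add (LZ3 K b012 b013 b023 b123 b014 b024 b124 b034 b134 b234 b015 b025 b125 b035 b135 b235 b045 b145 b245 b345 b016 0 b126 b036 b136 b236 b046 b146 b246 b346 b056 b156 0 b356 0)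
      (Nat.add (LZ4 K b012 b013 b023 b123 b014 b024 b124 b034 b134 b234 b015 b025 b125 b035 b135 b235 b045 b145 b245 b345 b016 0 b126 b036 b136 b236 b046 b146 b246 b346 b056 b156 0 0 b456)
      (LZ5 K b012 b013 b023 b123 b014 b024 b124 b034 b134 b234 b015 b025 b125 b035 b135 b235 b045 b145 b245 b345 b016 0 b126 b036 b136 b236 b046 b146 b246 b346 b056 0 0 b356 b456)))

def z6 (R : ℕ → ℕ → ℕ) (BK : ℕ → ℕ → ℕ → ℕ → ℕ → ℕ → ℕ → ℕ → ℕ) (F : ℕ) : ℕ :=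
  (Nat.add (ins 26 12 5 (z3 R BK F))
      (Nat.add (ins 26 12 12 (z4 R BK F))
      (ins 26 12 8 (z5 R BK F))))

theorem z6_pv (R : ℕ → ℕ → ℕ) (h : rowsChk R = true)
    (BK : ℕ → ℕ → ℕ → ℕ → ℕ → ℕ → ℕ → ℕ → ℕ) (hBK : BlkOK R BK) (F : ℕ) (e0 : ℕ → ℕ) :
    PV 13 (z6 R BK F) (7 * 262143) (fun e =>
      LZ6 (Kr R) (bt F 0) (bt F 1) (bt F 2) (bt F 3) (bt F 4) (bt F 5) (bt F 6) (bt F 7) (bt F 8) (bt F 9) (bt F 10) (bt F 11) (bt F 12) (bt F 13) (bt F 14) (bt F 15) (bt F 16) (bt F 17) (bt F 18) (bt F 19) (e 10) 0 (e 1) (e 3) (e 7) (e 11) (e 9) (e 0) (e 2) (e 6) (e 4) (e 8) 0 (e 12) (e 5)) e0 :=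
  PV.mono (PV.add (PV.ins 5 rfl rfl (z3_pv R h BK hBK F e0))
      (PV.add (PV.ins 12 rfl rfl (z4_pv R h BK hBK F e0))
      (PV.ins 8 rfl rfl (z5_pv R h BK hBK F e0)))) rfl

def LZ7 (K : ℕ → ℕ → ℕ → ℕ) (b012 b013 b023 b123 b014 b024 b124 b034 b134 b234 b015 b025 b125 b035 b135 b235 b045 b145 b245 b345 b016 b026 b126 b036 b136 b236 b046 b146 b246 b346 b056 b156 b256 b356 b456 : ℕ) : ℕ :=
  (Nat.add (LZ2 K b012 b013 b023 b123 b014 b024 b124 b034 b134 b234 b015 b025 b125 b035 b135 b235 b045 b145 b245 b345 b016 b026 b126 b036 b136 b236 b046 b146 b246 b346 b056 b156 0 0 b456)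
      (LZ6 K b012 b013 b023 b123 b014 b024 b124 b034 b134 b234 b015 b025 b125 b035 b135 b235 b045 b145 b245 b345 b016 0 b126 b036 b136 b236 b046 b146 b246 b346 b056 b156 0 b356 b456))

def z7 (R : ℕ → ℕ → ℕ) (BK : ℕ → ℕ → ℕ → ℕ → ℕ → ℕ → ℕ → ℕ → ℕ) (F : ℕ) : ℕ :=
  (Nat.add (ins 26 13 12 (z2 R BK F))
      (ins 26 13 1 (z6 R BK F)))

theorem z7_pv (R : ℕ → ℕ → ℕ) (h : rowsChk R = true)
    (BK : ℕ → ℕ → ℕ → ℕ → ℕ → ℕ → ℕ → ℕ → ℕ) (hBK : BlkOK R BK) (F : ℕ) (e0 : ℕ → ℕ) :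
    PV 14 (z7 R BK F) (17 * 262143) (fun e =>
      LZ7 (Kr R) (bt F 0) (bt F 1) (bt F 2) (bt F 3) (bt F 4) (bt F 5) (bt F 6) (bt F 7) (bt F 8) (bt F 9) (bt F 10) (bt F 11) (bt F 12) (bt F 13) (bt F 14) (bt F 15) (bt F 16) (bt F 17) (bt F 18) (bt F 19) (e 10) (e 1) (e 13) (e 3) (e 7) (e 11) (e 9) (e 0) (e 2) (e 6) (e 4) (e 8) 0 (e 12) (e 5)) e0 :=
  PV.mono (PV.add (PV.ins 12 rfl rfl (z2_pv R h BK hBK F e0))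
      (PV.ins 1 rfl rfl (z6_pv R h BK hBK F e0))) rfl

def LZ8 (K : ℕ → ℕ → ℕ → ℕ) (b012 b013 b023 b123 b014 b024 b124 b034 b134 b234 b015 b025 b125 b035 b135 b235 b045 b145 b245 b345 b016 b026 b126 b036 b136 b236 b046 b146 b246 b346 b056 b156 b256 b356 b456 : ℕ) : ℕ :=
  (LX1 K b012 b013 b023 b123 b014 b024 b124 b034 b134 b234 b015 b025 b125 b035 b135 b235 b045 b145 b245 b345 b016 b026 b126 b036 b136 0 b046 b146 b246 0 b056 b156 0 b356 0)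

def z8 (R : ℕ → ℕ → ℕ) (BK : ℕ → ℕ → ℕ → ℕ → ℕ → ℕ → ℕ → ℕ → ℕ) (F : ℕ) : ℕ :=
  (ins 26 11 5 (x1 R BK F))

theorem z8_pv (R : ℕ → ℕ → ℕ) (h : rowsChk R = true)
    (BK : ℕ → ℕ → ℕ → ℕ → ℕ → ℕ → ℕ → ℕ → ℕ) (hBK : BlkOK R BK) (F : ℕ) (e0 : ℕ → ℕ) :
    PV 12 (z8 R BK F) (5 * 262143) (fun e =>
      LZ8 (Kr R) (bt F 0) (bt F 1) (bt F 2) (bt F 3) (bt F 4) (bt F 5) (bt F 6) (bt F 7) (bt F 8) (bt F 9) (bt F 10) (bt F 11) (bt F 12) (bt F 13) (bt F 14) (bt F 15) (bt F 16) (bt F 17) (bt F 18) (bt F 19) (e 10) (e 1) (e 6) (e 3) (e 7) 0 (e 9) (e 0) (e 2) 0 (e 4) (e 11) 0 (e 8) (e 5)) e0 :=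
  PV.mono (PV.ins 5 rfl rfl (x1_pv R h BK hBK F e0)) rfl

def LZ9 (K : ℕ → ℕ → ℕ → ℕ) (b012 b013 b023 b123 b014 b024 b124 b034 b134 b234 b015 b025 b125 b035 b135 b235 b045 b145 b245 b345 b016 b026 b126 b036 b136 b236 b046 b146 b246 b346 b056 b156 b256 b356 b456 : ℕ) : ℕ :=
  (LX34 K b012 b013 b023 b123 b014 b024 b124 b034 b134 b234 b015 b025 b125 b035 b135 b235 b045 b145 b245 b345 b016 0 b126 b036 b136 0 0 b146 b246 0 b056 b156 b256 b356 b456)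

def z9 (R : ℕ → ℕ → ℕ) (BK : ℕ → ℕ → ℕ → ℕ → ℕ → ℕ → ℕ → ℕ → ℕ) (F : ℕ) : ℕ :=
  (ins 26 11 9 (x34 R BK F))

theorem z9_pv (R : ℕ → ℕ → ℕ) (h : rowsChk R = true)
    (BK : ℕ → ℕ → ℕ → ℕ → ℕ → ℕ → ℕ → ℕ → ℕ) (hBK : BlkOK R BK) (F : ℕ) (e0 : ℕ → ℕ) :
    PV 12 (z9 R BK F) (1 * 262143) (fun e =>
      LZ9 (Kr R) (bt F 0) (bt F 1) (bt F 2) (bt F 3) (bt F 4) (bt F 5) (bt F 6) (bt F 7) (bt F 8) (bt F 9) (bt F 10) (bt F 11) (bt F 12) (bt F 13) (bt F 14) (bt F 15) (bt F 16) (bt F 17) (bt F 18) (bt F 19) (e 10) 0 (e 6) (e 3) (e 7) 0 (e 9) (e 0) (e 2) 0 (e 4) (e 11) (e 8) (e 1) (e 5)) e0 :=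
  PV.mono (PV.ins 9 rfl rfl (x34_pv R h BK hBK F e0)) rfl

def LZ10 (K : ℕ → ℕ → ℕ → ℕ) (b012 b013 b023 b123 b014 b024 b124 b034 b134 b234 b015 b025 b125 b035 b135 b235 b045 b145 b245 b345 b016 b026 b126 b036 b136 b236 b046 b146 b246 b346 b056 b156 b256 b356 b456 : ℕ) : ℕ :=
  (Nat.add (LZ8 K b012 b013 b023 b123 b014 b024 b124 b034 b134 b234 b015 b025 b125 b035 b135 b235 b045 b145 b245 b345 b016 b026 b126 b036 b136 0 b046 b146 b246 0 b056 b156 0 b356 b456)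
      (LZ9 K b012 b013 b023 b123 b014 b024 b124 b034 b134 b234 b015 b025 b125 b035 b135 b235 b045 b145 b245 b345 b016 0 b126 b036 b136 0 b046 b146 b246 0 b056 b156 b256 b356 b456))

def z10 (R : ℕ → ℕ → ℕ) (BK : ℕ → ℕ → ℕ → ℕ → ℕ → ℕ → ℕ → ℕ → ℕ) (F : ℕ) : ℕ :=
  (Nat.add (ins 26 12 8 (z8 R BK F))
      (ins 26 12 1 (z9 R BK F)))

theorem z10_pv (R : ℕ → ℕ → ℕ) (h : rowsChk R = true)
    (BK : ℕ → ℕ → ℕ → ℕ → ℕ → ℕ → ℕ → ℕ → ℕ) (hBK : BlkOK R BK) (F : ℕ) (e0 : ℕ → ℕ) :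
    PV 13 (z10 R BK F) (6 * 262143) (fun e =>
      LZ10 (Kr R) (bt F 0) (bt F 1) (bt F 2) (bt F 3) (bt F 4) (bt F 5) (bt F 6) (bt F 7) (bt F 8) (bt F 9) (bt F 10) (bt F 11) (bt F 12) (bt F 13) (bt F 14) (bt F 15) (bt F 16) (bt F 17) (bt F 18) (bt F 19) (e 10) (e 1) (e 6) (e 3) (e 7) 0 (e 9) (e 0) (e 2) 0 (e 4) (e 11) (e 8) (e 12) (e 5)) e0 :=
  PV.mono (PV.add (PV.ins 8 rfl rfl (z8_pv R h BK hBK F e0))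
      (PV.ins 1 rfl rfl (z9_pv R h BK hBK F e0))) rfl

def LZ11 (K : ℕ → ℕ → ℕ → ℕ) (b012 b013 b023 b123 b014 b024 b124 b034 b134 b234 b015 b025 b125 b035 b135 b235 b045 b145 b245 b345 b016 b026 b126 b036 b136 b236 b046 b146 b246 b346 b056 b156 b256 b356 b456 : ℕ) : ℕ :=
  (LX2 K b012 b013 b023 b123 b014 b024 b124 b034 b134 b234 b015 b025 b125 b035 b135 b235 b045 b145 b245 b345 b016 b026 b126 b036 b136 0 b046 b146 0 b346 b056 b156 b256 0 0)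

def z11 (R : ℕ → ℕ → ℕ) (BK : ℕ → ℕ → ℕ → ℕ → ℕ → ℕ → ℕ → ℕ → ℕ) (F : ℕ) : ℕ :=
  (ins 26 11 5 (x2 R BK F))

theorem z11_pv (R : ℕ → ℕ → ℕ) (h : rowsChk R = true)
    (BK : ℕ → ℕ → ℕ → ℕ → ℕ → ℕ → ℕ → ℕ → ℕ) (hBK : BlkOK R BK) (F : ℕ) (e0 : ℕ → ℕ) :
    PV 12 (z11 R BK F) (5 * 262143) (fun e =>
      LZ11 (Kr R) (bt F 0) (bt F 1) (bt F 2) (bt F 3) (bt F 4) (bt F 5) (bt F 6) (bt F 7) (bt F 8) (bt F 9) (bt F 10) (bt F 11) (bt F 12) (bt F 13) (bt F 14) (bt F 15) (bt F 16) (bt F 17) (bt F 18) (bt F 19) (e 10) (e 1) (e 2) (e 3) (e 7) 0 (e 9) (e 0) 0 (e 6) (e 4) (e 11) (e 8) 0 (e 5)) e0 :=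
  PV.mono (PV.ins 5 rfl rfl (x2_pv R h BK hBK F e0)) rfl

def LZ12 (K : ℕ → ℕ → ℕ → ℕ) (b012 b013 b023 b123 b014 b024 b124 b034 b134 b234 b015 b025 b125 b035 b135 b235 b045 b145 b245 b345 b016 b026 b126 b036 b136 b236 b046 b146 b246 b346 b056 b156 b256 b356 b456 : ℕ) : ℕ :=
  (LX19 K b012 b013 b023 b123 b014 b024 b124 b034 b134 b234 b015 b025 b125 b035 b135 b235 b045 b145 b245 b345 b016 b026 0 b036 b136 0 b046 b146 b246 b346 b056 0 b256 0 b456)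

def z12 (R : ℕ → ℕ → ℕ) (BK : ℕ → ℕ → ℕ → ℕ → ℕ → ℕ → ℕ → ℕ → ℕ) (F : ℕ) : ℕ :=
  (ins 26 11 11 (x19 R BK F))

theorem z12_pv (R : ℕ → ℕ → ℕ) (h : rowsChk R = true)
    (BK : ℕ → ℕ → ℕ → ℕ → ℕ → ℕ → ℕ → ℕ → ℕ) (hBK : BlkOK R BK) (F : ℕ) (e0 : ℕ → ℕ) :
    PV 12 (z12 R BK F) (1 * 262143) (fun e =>
      LZ12 (Kr R) (bt F 0) (bt F 1) (bt F 2) (bt F 3) (bt F 4) (bt F 5) (bt F 6) (bt F 7) (bt F 8) (bt F 9) (bt F 10) (bt F 11) (bt F 12) (bt F 13) (bt F 14) (bt F 15) (bt F 16) (bt F 17) (bt F 18) (bt F 19) (e 10) (e 1) 0 (e 3) (e 7) 0 (e 9) (e 0) (e 2) (e 6) (e 4) (e 11) (e 8) 0 (e 5)) e0 :=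
  PV.mono (PV.ins 11 rfl rfl (x19_pv R h BK hBK F e0)) rfl

def LZ13 (K : ℕ → ℕ → ℕ → ℕ) (b012 b013 b023 b123 b014 b024 b124 b034 b134 b234 b015 b025 b125 b035 b135 b235 b045 b145 b245 b345 b016 b026 b126 b036 b136 b236 b046 b146 b246 b346 b056 b156 b256 b356 b456 : ℕ) : ℕ :=
  (Nat.add (LZ11 K b012 b013 b023 b123 b014 b024 b124 b034 b134 b234 b015 b025 b125 b035 b135 b235 b045 b145 b245 b345 b016 b026 b126 b036 b136 0 b046 b146 0 b346 b056 b156 b256 0 b456)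
      (LZ12 K b012 b013 b023 b123 b014 b024 b124 b034 b134 b234 b015 b025 b125 b035 b135 b235 b045 b145 b245 b345 b016 b026 0 b036 b136 0 b046 b146 b246 b346 b056 b156 b256 0 b456))

def z13 (R : ℕ → ℕ → ℕ) (BK : ℕ → ℕ → ℕ → ℕ → ℕ → ℕ → ℕ → ℕ → ℕ) (F : ℕ) : ℕ :=
  (Nat.add (ins 26 12 2 (z11 R BK F))
      (ins 26 12 12 (z12 R BK F)))

theorem z13_pv (R : ℕ → ℕ → ℕ) (h : rowsChk R = true)
    (BK : ℕ → ℕ → ℕ → ℕ → ℕ → ℕ → ℕ → ℕ → ℕ) (hBK : BlkOK R BK) (F : ℕ) (e0 : ℕ → ℕ) :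
    PV 13 (z13 R BK F) (6 * 262143) (fun e =>
      LZ13 (Kr R) (bt F 0) (bt F 1) (bt F 2) (bt F 3) (bt F 4) (bt F 5) (bt F 6) (bt F 7) (bt F 8) (bt F 9) (bt F 10) (bt F 11) (bt F 12) (bt F 13) (bt F 14) (bt F 15) (bt F 16) (bt F 17) (bt F 18) (bt F 19) (e 10) (e 1) (e 12) (e 3) (e 7) 0 (e 9) (e 0) (e 2) (e 6) (e 4) (e 11) (e 8) 0 (e 5)) e0 :=
  PV.mono (PV.add (PV.ins 2 rfl rfl (z11_pv R h BK hBK F e0))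
      (PV.ins 12 rfl rfl (z12_pv R h BK hBK F e0))) rfl

def LZ14 (K : ℕ → ℕ → ℕ → ℕ) (b012 b013 b023 b123 b014 b024 b124 b034 b134 b234 b015 b025 b125 b035 b135 b235 b045 b145 b245 b345 b016 b026 b126 b036 b136 b236 b046 b146 b246 b346 b056 b156 b256 b356 b456 : ℕ) : ℕ :=
  (LX18 K b012 b013 b023 b123 b014 b024 b124 b034 b134 b234 b015 b025 b125 b035 b135 b235 b045 b145 b245 b345 b016 b026 b126 b036 0 0 b046 b146 b246 b346 b056 0 0 b356 b456)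

def z14 (R : ℕ → ℕ → ℕ) (BK : ℕ → ℕ → ℕ → ℕ → ℕ → ℕ → ℕ → ℕ → ℕ) (F : ℕ) : ℕ :=
  (ins 26 11 11 (x18 R BK F))

theorem z14_pv (R : ℕ → ℕ → ℕ) (h : rowsChk R = true)
    (BK : ℕ → ℕ → ℕ → ℕ → ℕ → ℕ → ℕ → ℕ → ℕ) (hBK : BlkOK R BK) (F : ℕ) (e0 : ℕ → ℕ) :
    PV 12 (z14 R BK F) (1 * 262143) (fun e =>
      LZ14 (Kr R) (bt F 0) (bt F 1) (bt F 2) (bt F 3) (bt F 4) (bt F 5) (bt F 6) (bt F 7) (bt F 8) (bt F 9) (bt F 10) (bt F 11) (bt F 12) (bt F 13) (bt F 14) (bt F 15) (bt F 16) (bt F 17) (bt F 18) (bt F 19) (e 10) (e 1) (e 7) (e 3) 0 0 (e 9) (e 0) (e 2) (e 6) (e 4) (e 11) 0 (e 8) (e 5)) e0 :=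
  PV.mono (PV.ins 11 rfl rfl (x18_pv R h BK hBK F e0)) rfl

def LZ15 (K : ℕ → ℕ → ℕ → ℕ) (b012 b013 b023 b123 b014 b024 b124 b034 b134 b234 b015 b025 b125 b035 b135 b235 b045 b145 b245 b345 b016 b026 b126 b036 b136 b236 b046 b146 b246 b346 b056 b156 b256 b356 b456 : ℕ) : ℕ :=
  (LX30 K b012 b013 b023 b123 b014 b024 b124 b034 b134 b234 b015 b025 b125 b035 b135 b235 b045 b145 b245 b345 b016 b026 b126 b036 0 0 b046 0 0 b346 b056 b156 b256 b356 b456)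

def z15 (R : ℕ → ℕ → ℕ) (BK : ℕ → ℕ → ℕ → ℕ → ℕ → ℕ → ℕ → ℕ → ℕ) (F : ℕ) : ℕ :=
  (ins 26 11 0 (x30 R BK F))

theorem z15_pv (R : ℕ → ℕ → ℕ) (h : rowsChk R = true)
    (BK : ℕ → ℕ → ℕ → ℕ → ℕ → ℕ → ℕ → ℕ → ℕ) (hBK : BlkOK R BK) (F : ℕ) (e0 : ℕ → ℕ) :
    PV 12 (z15 R BK F) (1 * 262143) (fun e =>
      LZ15 (Kr R) (bt F 0) (bt F 1) (bt F 2) (bt F 3) (bt F 4) (bt F 5) (bt F 6) (bt F 7) (bt F 8) (bt F 9) (bt F 10) (bt F 11) (bt F 12) (bt F 13) (bt F 14) (bt F 15) (bt F 16) (bt F 17) (bt F 18) (bt F 19) (e 10) (e 1) (e 7) (e 3) 0 0 (e 9) (e 0) 0 (e 6) (e 4) (e 11) (e 8) (e 2) (e 5)) e0 :=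
  PV.mono (PV.ins 0 rfl rfl (x30_pv R h BK hBK F e0)) rfl

def LZ16 (K : ℕ → ℕ → ℕ → ℕ) (b012 b013 b023 b123 b014 b024 b124 b034 b134 b234 b015 b025 b125 b035 b135 b235 b045 b145 b245 b345 b016 b026 b126 b036 b136 b236 b046 b146 b246 b346 b056 b156 b256 b356 b456 : ℕ) : ℕ :=
  (LX44 K b012 b013 b023 b123 b014 b024 b124 b034 b134 b234 b015 b025 b125 b035 b135 b235 b045 b145 b245 b345 0 0 b126 b036 0 0 b046 b146 b246 b346 b056 b156 b256 b356 b456)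

def z16 (R : ℕ → ℕ → ℕ) (BK : ℕ → ℕ → ℕ → ℕ → ℕ → ℕ → ℕ → ℕ → ℕ) (F : ℕ) : ℕ :=
  (ins 26 11 10 (x44 R BK F))

theorem z16_pv (R : ℕ → ℕ → ℕ) (h : rowsChk R = true)
    (BK : ℕ → ℕ → ℕ → ℕ → ℕ → ℕ → ℕ → ℕ → ℕ) (hBK : BlkOK R BK) (F : ℕ) (e0 : ℕ → ℕ) :
    PV 12 (z16 R BK F) (1 * 262143) (fun e =>
      LZ16 (Kr R) (bt F 0) (bt F 1) (bt F 2) (bt F 3) (bt F 4) (bt F 5) (bt F 6) (bt F 7) (bt F 8) (bt F 9) (bt F 10) (bt F 11) (bt F 12) (bt F 13) (bt F 14) (bt F 15) (bt F 16) (bt F 17) (bt F 18) (bt F 19) (e 10) 0 (e 7) (e 3) 0 0 (e 9) (e 0) (e 2) (e 6) (e 4) (e 11) (e 8) (e 1) (e 5)) e0 :=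
  PV.mono (PV.ins 10 rfl rfl (x44_pv R h BK hBK F e0)) rfl

def LZ17 (K : ℕ → ℕ → ℕ → ℕ) (b012 b013 b023 b123 b014 b024 b124 b034 b134 b234 b015 b025 b125 b035 b135 b235 b045 b145 b245 b345 b016 b026 b126 b036 b136 b236 b046 b146 b246 b346 b056 b156 b256 b356 b456 : ℕ) : ℕ :=
  (Nat.add (LZ14 K b012 b013 b023 b123 b014 b024 b124 b034 b134 b234 b015 b025 b125 b035 b135 b235 b045 b145 b245 b345 b016 b026 b126 b036 0 0 b046 b146 b246 b346 b056 b156 0 b356 b456)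
      (Nat.add (LZ15 K b012 b013 b023 b123 b014 b024 b124 b034 b134 b234 b015 b025 b125 b035 b135 b235 b045 b145 b245 b345 b016 b026 b126 b036 0 0 b046 b146 0 b346 b056 b156 b256 b356 b456)
      (LZ16 K b012 b013 b023 b123 b014 b024 b124 b034 b134 b234 b015 b025 b125 b035 b135 b235 b045 b145 b245 b345 b016 0 b126 b036 0 0 b046 b146 b246 b346 b056 b156 b256 b356 b456)))

def z17 (R : ℕ → ℕ → ℕ) (BK : ℕ → ℕ → ℕ → ℕ → ℕ → ℕ → ℕ → ℕ → ℕ) (F : ℕ) : ℕ :=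
  (Nat.add (ins 26 12 8 (z14 R BK F))
      (Nat.add (ins 26 12 2 (z15 R BK F))
      (ins 26 12 1 (z16 R BK F))))

theorem z17_pv (R : ℕ → ℕ → ℕ) (h : rowsChk R = true)
    (BK : ℕ → ℕ → ℕ → ℕ → ℕ → ℕ → ℕ → ℕ → ℕ) (hBK : BlkOK R BK) (F : ℕ) (e0 : ℕ → ℕ) :
    PV 13 (z17 R BK F) (3 * 262143) (fun e =>
      LZ17 (Kr R) (bt F 0) (bt F 1) (bt F 2) (bt F 3) (bt F 4) (bt F 5) (bt F 6) (bt F 7) (bt F 8) (bt F 9) (bt F 10) (bt F 11) (bt F 12) (bt F 13) (bt F 14) (bt F 15) (bt F 16) (bt F 17) (bt F 18) (bt F 19) (e 10) (e 1) (e 7) (e 3) 0 0 (e 9) (e 0) (e 2) (e 6) (e 4) (e 11) (e 8) (e 12) (e 5)) e0 :=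
  PV.mono (PV.add (PV.ins 8 rfl rfl (z14_pv R h BK hBK F e0))
      (PV.add (PV.ins 2 rfl rfl (z15_pv R h BK hBK F e0))
      (PV.ins 1 rfl rfl (z16_pv R h BK hBK F e0)))) rfl

def LZ18 (K : ℕ → ℕ → ℕ → ℕ) (b012 b013 b023 b123 b014 b024 b124 b034 b134 b234 b015 b025 b125 b035 b135 b235 b045 b145 b245 b345 b016 b026 b126 b036 b136 b236 b046 b146 b246 b346 b056 b156 b256 b356 b456 : ℕ) : ℕ :=
  (Nat.add (LZ10 K b012 b013 b023 b123 b014 b024 b124 b034 b134 b234 b015 b025 b125 b035 b135 b235 b045 b145 b245 b345 b016 b026 b126 b036 b136 0 b046 b146 b246 0 b056 b156 b256 b356 b456)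
      (Nat.add (LZ13 K b012 b013 b023 b123 b014 b024 b124 b034 b134 b234 b015 b025 b125 b035 b135 b235 b045 b145 b245 b345 b016 b026 b126 b036 b136 0 b046 b146 b246 b346 b056 b156 b256 0 b456)
      (LZ17 K b012 b013 b023 b123 b014 b024 b124 b034 b134 b234 b015 b025 b125 b035 b135 b235 b045 b145 b245 b345 b016 b026 b126 b036 0 0 b046 b146 b246 b346 b056 b156 b256 b356 b456)))

def z18 (R : ℕ → ℕ → ℕ) (BK : ℕ → ℕ → ℕ → ℕ → ℕ → ℕ → ℕ → ℕ → ℕ) (F : ℕ) : ℕ :=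
  (Nat.add (ins 26 13 6 (z10 R BK F))
      (Nat.add (ins 26 13 12 (z13 R BK F))
      (ins 26 13 7 (z17 R BK F))))

theorem z18_pv (R : ℕ → ℕ → ℕ) (h : rowsChk R = true)
    (BK : ℕ → ℕ → ℕ → ℕ → ℕ → ℕ → ℕ → ℕ → ℕ) (hBK : BlkOK R BK) (F : ℕ) (e0 : ℕ → ℕ) :
    PV 14 (z18 R BK F) (15 * 262143) (fun e =>
      LZ18 (Kr R) (bt F 0) (bt F 1) (bt F 2) (bt F 3) (bt F 4) (bt F 5) (bt F 6) (bt F 7) (bt F 8) (bt F 9) (bt F 10) (bt F 11) (bt F 12) (bt F 13) (bt F 14) (bt F 15) (bt F 16) (bt F 17) (bt F 18) (bt F 19) (e 10) (e 1) (e 13) (e 3) (e 7) 0 (e 9) (e 0) (e 2) (e 6) (e 4) (e 11) (e 8) (e 12) (e 5)) e0 :=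
  PV.mono (PV.add (PV.ins 6 rfl rfl (z10_pv R h BK hBK F e0))
      (PV.add (PV.ins 12 rfl rfl (z13_pv R h BK hBK F e0))
      (PV.ins 7 rfl rfl (z17_pv R h BK hBK F e0)))) rfl

def LZ19 (K : ℕ → ℕ → ℕ → ℕ) (b012 b013 b023 b123 b014 b024 b124 b034 b134 b234 b015 b025 b125 b035 b135 b235 b045 b145 b245 b345 b016 b026 b126 b036 b136 b236 b046 b146 b246 b346 b056 b156 b256 b356 b456 : ℕ) : ℕ :=
  (LX3 K b012 b013 b023 b123 b014 b024 b124 b034 b134 b234 b015 b025 b125 b035 b135 b235 b045 b145 b245 b345 b016 b026 b126 b036 b136 b236 b046 0 b246 0 b056 0 b256 0 b456)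

def z19 (R : ℕ → ℕ → ℕ) (BK : ℕ → ℕ → ℕ → ℕ → ℕ → ℕ → ℕ → ℕ → ℕ) (F : ℕ) : ℕ :=
  (ins 26 11 6 (x3 R BK F))

theorem z19_pv (R : ℕ → ℕ → ℕ) (h : rowsChk R = true)
    (BK : ℕ → ℕ → ℕ → ℕ → ℕ → ℕ → ℕ → ℕ → ℕ) (hBK : BlkOK R BK) (F : ℕ) (e0 : ℕ → ℕ) :
    PV 12 (z19 R BK F) (5 * 262143) (fun e =>
      LZ19 (Kr R) (bt F 0) (bt F 1) (bt F 2) (bt F 3) (bt F 4) (bt F 5) (bt F 6) (bt F 7) (bt F 8) (bt F 9) (bt F 10) (bt F 11) (bt F 12) (bt F 13) (bt F 14) (bt F 15) (bt F 16) (bt F 17) (bt F 18) (bt F 19) (e 10) (e 1) (e 0) (e 3) (e 7) (e 11) (e 9) 0 (e 2) (e 6) (e 4) 0 (e 8) 0 (e 5)) e0 :=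
  PV.mono (PV.ins 6 rfl rfl (x3_pv R h BK hBK F e0)) rfl

def LZ20 (K : ℕ → ℕ → ℕ → ℕ) (b012 b013 b023 b123 b014 b024 b124 b034 b134 b234 b015 b025 b125 b035 b135 b235 b045 b145 b245 b345 b016 b026 b126 b036 b136 b236 b046 b146 b246 b346 b056 b156 b256 b356 b456 : ℕ) : ℕ :=
  (LX9 K b012 b013 b023 b123 b014 b024 b124 b034 b134 b234 b015 b025 b125 b035 b135 b235 b045 b145 b245 b345 b016 b026 b126 b036 b136 b236 b046 0 0 b346 b056 0 0 b356 b456)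

def z20 (R : ℕ → ℕ → ℕ) (BK : ℕ → ℕ → ℕ → ℕ → ℕ → ℕ → ℕ → ℕ → ℕ) (F : ℕ) : ℕ :=
  (ins 26 11 2 (x9 R BK F))

theorem z20_pv (R : ℕ → ℕ → ℕ) (h : rowsChk R = true)
    (BK : ℕ → ℕ → ℕ → ℕ → ℕ → ℕ → ℕ → ℕ → ℕ) (hBK : BlkOK R BK) (F : ℕ) (e0 : ℕ → ℕ) :
    PV 12 (z20 R BK F) (5 * 262143) (fun e =>
      LZ20 (Kr R) (bt F 0) (bt F 1) (bt F 2) (bt F 3) (bt F 4) (bt F 5) (bt F 6) (bt F 7) (bt F 8) (bt F 9) (bt F 10) (bt F 11) (bt F 12) (bt F 13) (bt F 14) (bt F 15) (bt F 16) (bt F 17) (bt F 18) (bt F 19) (e 10) (e 1) (e 0) (e 3) (e 7) (e 11) (e 9) 0 (e 2) (e 6) (e 4) 0 0 (e 8) (e 5)) e0 :=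
  PV.mono (PV.ins 2 rfl rfl (x9_pv R h BK hBK F e0)) rfl

def LZ21 (K : ℕ → ℕ → ℕ → ℕ) (b012 b013 b023 b123 b014 b024 b124 b034 b134 b234 b015 b025 b125 b035 b135 b235 b045 b145 b245 b345 b016 b026 b126 b036 b136 b236 b046 b146 b246 b346 b056 b156 b256 b356 b456 : ℕ) : ℕ :=
  (LX15 K b012 b013 b023 b123 b014 b024 b124 b034 b134 b234 b015 b025 b125 b035 b135 b235 b045 b145 b245 b345 b016 b026 b126 b036 b136 b236 0 0 b246 b346 0 0 b256 b356 b456)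

def z21 (R : ℕ → ℕ → ℕ) (BK : ℕ → ℕ → ℕ → ℕ → ℕ → ℕ → ℕ → ℕ → ℕ) (F : ℕ) : ℕ :=
  (ins 26 11 9 (x15 R BK F))

theorem z21_pv (R : ℕ → ℕ → ℕ) (h : rowsChk R = true)
    (BK : ℕ → ℕ → ℕ → ℕ → ℕ → ℕ → ℕ → ℕ → ℕ) (hBK : BlkOK R BK) (F : ℕ) (e0 : ℕ → ℕ) :
    PV 12 (z21 R BK F) (5 * 262143) (fun e =>
      LZ21 (Kr R) (bt F 0) (bt F 1) (bt F 2) (bt F 3) (bt F 4) (bt F 5) (bt F 6) (bt F 7) (bt F 8) (bt F 9) (bt F 10) (bt F 11) (bt F 12) (bt F 13) (bt F 14) (bt F 15) (bt F 16) (bt F 17) (bt F 18) (bt F 19) (e 10) (e 1) (e 0) (e 3) (e 7) (e 11) (e 9) 0 (e 2) (e 6) 0 0 (e 8) (e 4) (e 5)) e0 :=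
  PV.mono (PV.ins 9 rfl rfl (x15_pv R h BK hBK F e0)) rfl

def LZ22 (K : ℕ → ℕ → ℕ → ℕ) (b012 b013 b023 b123 b014 b024 b124 b034 b134 b234 b015 b025 b125 b035 b135 b235 b045 b145 b245 b345 b016 b026 b126 b036 b136 b236 b046 b146 b246 b346 b056 b156 b256 b356 b456 : ℕ) : ℕ :=
  (Nat.add (LZ19 K b012 b013 b023 b123 b014 b024 b124 b034 b134 b234 b015 b025 b125 b035 b135 b235 b045 b145 b245 b345 b016 b026 b126 b036 b136 b236 b046 0 b246 b346 b056 0 b256 0 b456)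
      (Nat.add (LZ20 K b012 b013 b023 b123 b014 b024 b124 b034 b134 b234 b015 b025 b125 b035 b135 b235 b045 b145 b245 b345 b016 b026 b126 b036 b136 b236 b046 0 b246 b346 b056 0 0 b356 b456)
      (LZ21 K b012 b013 b023 b123 b014 b024 b124 b034 b134 b234 b015 b025 b125 b035 b135 b235 b045 b145 b245 b345 b016 b026 b126 b036 b136 b236 b046 0 b246 b346 0 0 b256 b356 b456)))

def z22 (R : ℕ → ℕ → ℕ) (BK : ℕ → ℕ → ℕ → ℕ → ℕ → ℕ → ℕ → ℕ → ℕ) (F : ℕ) : ℕ :=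
  (Nat.add (ins 26 12 12 (z19 R BK F))
      (Nat.add (ins 26 12 8 (z20 R BK F))
      (ins 26 12 4 (z21 R BK F))))

theorem z22_pv (R : ℕ → ℕ → ℕ) (h : rowsChk R = true)
    (BK : ℕ → ℕ → ℕ → ℕ → ℕ → ℕ → ℕ → ℕ → ℕ) (hBK : BlkOK R BK) (F : ℕ) (e0 : ℕ → ℕ) :
    PV 13 (z22 R BK F) (15 * 262143) (fun e =>
      LZ22 (Kr R) (bt F 0) (bt F 1) (bt F 2) (bt F 3) (bt F 4) (bt F 5) (bt F 6) (bt F 7) (bt F 8) (bt F 9) (bt F 10) (bt F 11) (bt F 12) (bt F 13) (bt F 14) (bt F 15) (bt F 16) (bt F 17) (bt F 18) (bt F 19) (e 10) (e 1) (e 0) (e 3) (e 7) (e 11) (e 9) 0 (e 2) (e 6) (e 4) 0 (e 8) (e 12) (e 5)) e0 :=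
  PV.mono (PV.add (PV.ins 12 rfl rfl (z19_pv R h BK hBK F e0))
      (PV.add (PV.ins 8 rfl rfl (z20_pv R h BK hBK F e0))
      (PV.ins 4 rfl rfl (z21_pv R h BK hBK F e0)))) rfl

def LZ23 (K : ℕ → ℕ → ℕ → ℕ) (b012 b013 b023 b123 b014 b024 b124 b034 b134 b234 b015 b025 b125 b035 b135 b235 b045 b145 b245 b345 b016 b026 b126 b036 b136 b236 b046 b146 b246 b346 b056 b156 b256 b356 b456 : ℕ) : ℕ :=
  (LX11 K b012 b013 b023 b123 b014 b024 b124 b034 b134 b234 b015 b025 b125 b035 b135 b235 b045 b145 b245 b345 b016 b026 0 b036 b136 b236 b046 0 b246 b346 b056 b156 0 b356 0)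

def z23 (R : ℕ → ℕ → ℕ) (BK : ℕ → ℕ → ℕ → ℕ → ℕ → ℕ → ℕ → ℕ → ℕ) (F : ℕ) : ℕ :=
  (ins 26 11 8 (x11 R BK F))

theorem z23_pv (R : ℕ → ℕ → ℕ) (h : rowsChk R = true)
    (BK : ℕ → ℕ → ℕ → ℕ → ℕ → ℕ → ℕ → ℕ → ℕ) (hBK : BlkOK R BK) (F : ℕ) (e0 : ℕ → ℕ) :
    PV 12 (z23 R BK F) (1 * 262143) (fun e =>
      LZ23 (Kr R) (bt F 0) (bt F 1) (bt F 2) (bt F 3) (bt F 4) (bt F 5) (bt F 6) (bt F 7) (bt F 8) (bt F 9) (bt F 10) (bt F 11) (bt F 12) (bt F 13) (bt F 14) (bt F 15) (bt F 16) (bt F 17) (bt F 18) (bt F 19) (e 10) (e 1) 0 (e 3) (e 7) (e 11) (e 9) 0 (e 2) (e 6) (e 4) (e 0) (e 8) (e 5) 0) e0 :=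
  PV.mono (PV.ins 8 rfl rfl (x11_pv R h BK hBK F e0)) rfl

def LZ24 (K : ℕ → ℕ → ℕ → ℕ) (b012 b013 b023 b123 b014 b024 b124 b034 b134 b234 b015 b025 b125 b035 b135 b235 b045 b145 b245 b345 b016 b026 b126 b036 b136 b236 b046 b146 b246 b346 b056 b156 b256 b356 b456 : ℕ) : ℕ :=
  (LX31 K b012 b013 b023 b123 b014 b024 b124 b034 b134 b234 b015 b025 b125 b035 b135 b235 b045 b145 b245 b345 b016 b026 0 b036 b136 0 b046 0 b246 0 b056 b156 b256 b356 b456)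

def z24 (R : ℕ → ℕ → ℕ) (BK : ℕ → ℕ → ℕ → ℕ → ℕ → ℕ → ℕ → ℕ → ℕ) (F : ℕ) : ℕ :=
  (ins 26 11 11 (x31 R BK F))

theorem z24_pv (R : ℕ → ℕ → ℕ) (h : rowsChk R = true)
    (BK : ℕ → ℕ → ℕ → ℕ → ℕ → ℕ → ℕ → ℕ → ℕ) (hBK : BlkOK R BK) (F : ℕ) (e0 : ℕ → ℕ) :
    PV 12 (z24 R BK F) (1 * 262143) (fun e =>
      LZ24 (Kr R) (bt F 0) (bt F 1) (bt F 2) (bt F 3) (bt F 4) (bt F 5) (bt F 6) (bt F 7) (bt F 8) (bt F 9) (bt F 10) (bt F 11) (bt F 12) (bt F 13) (bt F 14) (bt F 15) (bt F 16) (bt F 17) (bt F 18) (bt F 19) (e 10) (e 1) 0 (e 3) (e 7) (e 11) (e 9) 0 (e 2) 0 (e 4) (e 0) (e 8) (e 6) (e 5)) e0 :=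
  PV.mono (PV.ins 11 rfl rfl (x31_pv R h BK hBK F e0)) rfl

def LZ25 (K : ℕ → ℕ → ℕ → ℕ) (b012 b013 b023 b123 b014 b024 b124 b034 b134 b234 b015 b025 b125 b035 b135 b235 b045 b145 b245 b345 b016 b026 b126 b036 b136 b236 b046 b146 b246 b346 b056 b156 b256 b356 b456 : ℕ) : ℕ :=
  (LX39 K b012 b013 b023 b123 b014 b024 b124 b034 b134 b234 b015 b025 b125 b035 b135 b235 b045 b145 b245 b345 b016 0 0 b036 b136 b236 0 0 b246 b346 b056 b156 b256 b356 b456)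

def z25 (R : ℕ → ℕ → ℕ) (BK : ℕ → ℕ → ℕ → ℕ → ℕ → ℕ → ℕ → ℕ → ℕ) (F : ℕ) : ℕ :=
  (ins 26 11 1 (x39 R BK F))

theorem z25_pv (R : ℕ → ℕ → ℕ) (h : rowsChk R = true)
    (BK : ℕ → ℕ → ℕ → ℕ → ℕ → ℕ → ℕ → ℕ → ℕ) (hBK : BlkOK R BK) (F : ℕ) (e0 : ℕ → ℕ) :
    PV 12 (z25 R BK F) (1 * 262143) (fun e =>
      LZ25 (Kr R) (bt F 0) (bt F 1) (bt F 2) (bt F 3) (bt F 4) (bt F 5) (bt F 6) (bt F 7) (bt F 8) (bt F 9) (bt F 10) (bt F 11) (bt F 12) (bt F 13) (bt F 14) (bt F 15) (bt F 16) (bt F 17) (bt F 18) (bt F 19) (e 10) (e 1) 0 (e 3) (e 7) (e 11) 0 0 (e 2) (e 6) (e 4) (e 0) (e 8) (e 9) (e 5)) e0 :=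
  PV.mono (PV.ins 1 rfl rfl (x39_pv R h BK hBK F e0)) rfl

def LZ26 (K : ℕ → ℕ → ℕ → ℕ) (b012 b013 b023 b123 b014 b024 b124 b034 b134 b234 b015 b025 b125 b035 b135 b235 b045 b145 b245 b345 b016 b026 b126 b036 b136 b236 b046 b146 b246 b346 b056 b156 b256 b356 b456 : ℕ) : ℕ :=
  (Nat.add (LZ23 K b012 b013 b023 b123 b014 b024 b124 b034 b134 b234 b015 b025 b125 b035 b135 b235 b045 b145 b245 b345 b016 b026 0 b036 b136 b236 b046 0 b246 b346 b056 b156 b256 b356 0)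
      (Nat.add (LZ24 K b012 b013 b023 b123 b014 b024 b124 b034 b134 b234 b015 b025 b125 b035 b135 b235 b045 b145 b245 b345 b016 b026 0 b036 b136 b236 b046 0 b246 0 b056 b156 b256 b356 b456)
      (LZ25 K b012 b013 b023 b123 b014 b024 b124 b034 b134 b234 b015 b025 b125 b035 b135 b235 b045 b145 b245 b345 b016 b026 0 b036 b136 b236 0 0 b246 b346 b056 b156 b256 b356 b456)))

def z26 (R : ℕ → ℕ → ℕ) (BK : ℕ → ℕ → ℕ → ℕ → ℕ → ℕ → ℕ → ℕ → ℕ) (F : ℕ) : ℕ :=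
  (Nat.add (ins 26 12 5 (z23 R BK F))
      (Nat.add (ins 26 12 6 (z24 R BK F))
      (ins 26 12 9 (z25 R BK F))))

theorem z26_pv (R : ℕ → ℕ → ℕ) (h : rowsChk R = true)
    (BK : ℕ → ℕ → ℕ → ℕ → ℕ → ℕ → ℕ → ℕ → ℕ) (hBK : BlkOK R BK) (F : ℕ) (e0 : ℕ → ℕ) :
    PV 13 (z26 R BK F) (3 * 262143) (fun e =>
      LZ26 (Kr R) (bt F 0) (bt F 1) (bt F 2) (bt F 3) (bt F 4) (bt F 5) (bt F 6) (bt F 7) (bt F 8) (bt F 9) (bt F 10) (bt F 11) (bt F 12) (bt F 13) (bt F 14) (bt F 15) (bt F 16) (bt F 17) (bt F 18) (bt F 19) (e 10) (e 1) 0 (e 3) (e 7) (e 11) (e 9) 0 (e 2) (e 6) (e 4) (e 0) (e 8) (e 12) (e 5)) e0 :=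
  PV.mono (PV.add (PV.ins 5 rfl rfl (z23_pv R h BK hBK F e0))
      (PV.add (PV.ins 6 rfl rfl (z24_pv R h BK hBK F e0))
      (PV.ins 9 rfl rfl (z25_pv R h BK hBK F e0)))) rfl

def LZ27 (K : ℕ → ℕ → ℕ → ℕ) (b012 b013 b023 b123 b014 b024 b124 b034 b134 b234 b015 b025 b125 b035 b135 b235 b045 b145 b245 b345 b016 b026 b126 b036 b136 b236 b046 b146 b246 b346 b056 b156 b256 b356 b456 : ℕ) : ℕ :=
  (LX38 K b012 b013 b023 b123 b014 b024 b124 b034 b134 b234 b015 b025 b125 b035 b135 b235 b045 b145 b245 b345 0 b026 b126 0 b136 b236 b046 0 b246 0 b056 b156 b256 b356 b456)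

def z27 (R : ℕ → ℕ → ℕ) (BK : ℕ → ℕ → ℕ → ℕ → ℕ → ℕ → ℕ → ℕ → ℕ) (F : ℕ) : ℕ :=
  (ins 26 11 3 (x38 R BK F))

theorem z27_pv (R : ℕ → ℕ → ℕ) (h : rowsChk R = true)
    (BK : ℕ → ℕ → ℕ → ℕ → ℕ → ℕ → ℕ → ℕ → ℕ) (hBK : BlkOK R BK) (F : ℕ) (e0 : ℕ → ℕ) :
    PV 12 (z27 R BK F) (1 * 262143) (fun e =>
      LZ27 (Kr R) (bt F 0) (bt F 1) (bt F 2) (bt F 3) (bt F 4) (bt F 5) (bt F 6) (bt F 7) (bt F 8) (bt F 9) (bt F 10) (bt F 11) (bt F 12) (bt F 13) (bt F 14) (bt F 15) (bt F 16) (bt F 17) (bt F 18) (bt F 19) 0 (e 1) (e 10) (e 3) (e 7) (e 11) (e 9) 0 (e 2) 0 (e 4) (e 0) (e 8) (e 6) (e 5)) e0 :=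
  PV.mono (PV.ins 3 rfl rfl (x38_pv R h BK hBK F e0)) rfl

def LZ28 (K : ℕ → ℕ → ℕ → ℕ) (b012 b013 b023 b123 b014 b024 b124 b034 b134 b234 b015 b025 b125 b035 b135 b235 b045 b145 b245 b345 b016 b026 b126 b036 b136 b236 b046 b146 b246 b346 b056 b156 b256 b356 b456 : ℕ) : ℕ :=
  (LX41 K b012 b013 b023 b123 b014 b024 b124 b034 b134 b234 b015 b025 b125 b035 b135 b235 b045 b145 b245 b345 0 0 b126 b036 b136 b236 b046 0 0 b346 b056 b156 b256 b356 b456)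

def z28 (R : ℕ → ℕ → ℕ) (BK : ℕ → ℕ → ℕ → ℕ → ℕ → ℕ → ℕ → ℕ → ℕ) (F : ℕ) : ℕ :=
  (ins 26 11 1 (x41 R BK F))

theorem z28_pv (R : ℕ → ℕ → ℕ) (h : rowsChk R = true)
    (BK : ℕ → ℕ → ℕ → ℕ → ℕ → ℕ → ℕ → ℕ → ℕ) (hBK : BlkOK R BK) (F : ℕ) (e0 : ℕ → ℕ) :
    PV 12 (z28 R BK F) (1 * 262143) (fun e =>
      LZ28 (Kr R) (bt F 0) (bt F 1) (bt F 2) (bt F 3) (bt F 4) (bt F 5) (bt F 6) (bt F 7) (bt F 8) (bt F 9) (bt F 10) (bt F 11) (bt F 12) (bt F 13) (bt F 14) (bt F 15) (bt F 16) (bt F 17) (bt F 18) (bt F 19) 0 (e 1) (e 10) (e 3) (e 7) (e 11) (e 9) 0 0 (e 6) (e 4) (e 0) (e 8) (e 2) (e 5)) e0 :=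
  PV.mono (PV.ins 1 rfl rfl (x41_pv R h BK hBK F e0)) rfl

def LZ29 (K : ℕ → ℕ → ℕ → ℕ) (b012 b013 b023 b123 b014 b024 b124 b034 b134 b234 b015 b025 b125 b035 b135 b235 b045 b145 b245 b345 b016 b026 b126 b036 b136 b236 b046 b146 b246 b346 b056 b156 b256 b356 b456 : ℕ) : ℕ :=
  (Nat.add (LZ27 K b012 b013 b023 b123 b014 b024 b124 b034 b134 b234 b015 b025 b125 b035 b135 b235 b045 b145 b245 b345 0 b026 b126 b036 b136 b236 b046 0 b246 0 b056 b156 b256 b356 b456)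
      (LZ28 K b012 b013 b023 b123 b014 b024 b124 b034 b134 b234 b015 b025 b125 b035 b135 b235 b045 b145 b245 b345 0 b026 b126 b036 b136 b236 b046 0 0 b346 b056 b156 b256 b356 b456))

def z29 (R : ℕ → ℕ → ℕ) (BK : ℕ → ℕ → ℕ → ℕ → ℕ → ℕ → ℕ → ℕ → ℕ) (F : ℕ) : ℕ :=
  (Nat.add (ins 26 12 6 (z27 R BK F))
      (ins 26 12 2 (z28 R BK F)))

theorem z29_pv (R : ℕ → ℕ → ℕ) (h : rowsChk R = true)
    (BK : ℕ → ℕ → ℕ → ℕ → ℕ → ℕ → ℕ → ℕ → ℕ) (hBK : BlkOK R BK) (F : ℕ) (e0 : ℕ → ℕ) :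
    PV 13 (z29 R BK F) (2 * 262143) (fun e =>
      LZ29 (Kr R) (bt F 0) (bt F 1) (bt F 2) (bt F 3) (bt F 4) (bt F 5) (bt F 6) (bt F 7) (bt F 8) (bt F 9) (bt F 10) (bt F 11) (bt F 12) (bt F 13) (bt F 14) (bt F 15) (bt F 16) (bt F 17) (bt F 18) (bt F 19) 0 (e 1) (e 10) (e 3) (e 7) (e 11) (e 9) 0 (e 2) (e 6) (e 4) (e 0) (e 8) (e 12) (e 5)) e0 :=
  PV.mono (PV.add (PV.ins 6 rfl rfl (z27_pv R h BK hBK F e0))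
      (PV.ins 2 rfl rfl (z28_pv R h BK hBK F e0))) rfl

def LZ30 (K : ℕ → ℕ → ℕ → ℕ) (b012 b013 b023 b123 b014 b024 b124 b034 b134 b234 b015 b025 b125 b035 b135 b235 b045 b145 b245 b345 b016 b026 b126 b036 b136 b236 b046 b146 b246 b346 b056 b156 b256 b356 b456 : ℕ) : ℕ :=
  (Nat.add (LZ22 K b012 b013 b023 b123 b014 b024 b124 b034 b134 b234 b015 b025 b125 b035 b135 b235 b045 b145 b245 b345 b016 b026 b126 b036 b136 b236 b046 0 b246 b346 b056 0 b256 b356 b456)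
      (Nat.add (LZ26 K b012 b013 b023 b123 b014 b024 b124 b034 b134 b234 b015 b025 b125 b035 b135 b235 b045 b145 b245 b345 b016 b026 0 b036 b136 b236 b046 0 b246 b346 b056 b156 b256 b356 b456)
      (LZ29 K b012 b013 b023 b123 b014 b024 b124 b034 b134 b234 b015 b025 b125 b035 b135 b235 b045 b145 b245 b345 0 b026 b126 b036 b136 b236 b046 0 b246 b346 b056 b156 b256 b356 b456)))

def z30 (R : ℕ → ℕ → ℕ) (BK : ℕ → ℕ → ℕ → ℕ → ℕ → ℕ → ℕ → ℕ → ℕ) (F : ℕ) : ℕ :=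
  (Nat.add (ins 26 13 0 (z22 R BK F))
      (Nat.add (ins 26 13 13 (z26 R BK F))
      (ins 26 13 10 (z29 R BK F))))

theorem z30_pv (R : ℕ → ℕ → ℕ) (h : rowsChk R = true)
    (BK : ℕ → ℕ → ℕ → ℕ → ℕ → ℕ → ℕ → ℕ → ℕ) (hBK : BlkOK R BK) (F : ℕ) (e0 : ℕ → ℕ) :
    PV 14 (z30 R BK F) (20 * 262143) (fun e =>
      LZ30 (Kr R) (bt F 0) (bt F 1) (bt F 2) (bt F 3) (bt F 4) (bt F 5) (bt F 6) (bt F 7) (bt F 8) (bt F 9) (bt F 10) (bt F 11) (bt F 12) (bt F 13) (bt F 14) (bt F 15) (bt F 16) (bt F 17) (bt F 18) (bt F 19) (e 10) (e 1) (e 13) (e 3) (e 7) (e 11) (e 9) 0 (e 2) (e 6) (e 4) (e 0) (e 8) (e 12) (e 5)) e0 :=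
  PV.mono (PV.add (PV.ins 0 rfl rfl (z22_pv R h BK hBK F e0))
      (PV.add (PV.ins 13 rfl rfl (z26_pv R h BK hBK F e0))
      (PV.ins 10 rfl rfl (z29_pv R h BK hBK F e0)))) rfl

def LZ31 (K : ℕ → ℕ → ℕ → ℕ) (b012 b013 b023 b123 b014 b024 b124 b034 b134 b234 b015 b025 b125 b035 b135 b235 b045 b145 b245 b345 b016 b026 b126 b036 b136 b236 b046 b146 b246 b346 b056 b156 b256 b356 b456 : ℕ) : ℕ :=
  (LX4 K b012 b013 b023 b123 b014 b024 b124 b034 b134 b234 b015 b025 b125 b035 b135 b235 b045 b145 b245 b345 b016 b026 b126 b036 0 b236 b046 b146 b246 0 b056 0 b256 b356 0)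

def z31 (R : ℕ → ℕ → ℕ) (BK : ℕ → ℕ → ℕ → ℕ → ℕ → ℕ → ℕ → ℕ → ℕ) (F : ℕ) : ℕ :=
  (ins 26 11 6 (x4 R BK F))

theorem z31_pv (R : ℕ → ℕ → ℕ) (h : rowsChk R = true)
    (BK : ℕ → ℕ → ℕ → ℕ → ℕ → ℕ → ℕ → ℕ → ℕ) (hBK : BlkOK R BK) (F : ℕ) (e0 : ℕ → ℕ) :
    PV 12 (z31 R BK F) (5 * 262143) (fun e =>
      LZ31 (Kr R) (bt F 0) (bt F 1) (bt F 2) (bt F 3) (bt F 4) (bt F 5) (bt F 6) (bt F 7) (bt F 8) (bt F 9) (bt F 10) (bt F 11) (bt F 12) (bt F 13) (bt F 14) (bt F 15) (bt F 16) (bt F 17) (bt F 18) (bt F 19) (e 10) (e 1) (e 7) (e 3) 0 (e 11) (e 9) (e 0) (e 2) (e 6) (e 4) 0 (e 8) (e 5) 0) e0 :=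
  PV.mono (PV.ins 6 rfl rfl (x4_pv R h BK hBK F e0)) rfl

def LZ32 (K : ℕ → ℕ → ℕ → ℕ) (b012 b013 b023 b123 b014 b024 b124 b034 b134 b234 b015 b025 b125 b035 b135 b235 b045 b145 b245 b345 b016 b026 b126 b036 b136 b236 b046 b146 b246 b346 b056 b156 b256 b356 b456 : ℕ) : ℕ :=
  (LX5 K b012 b013 b023 b123 b014 b024 b124 b034 b134 b234 b015 b025 b125 b035 b135 b235 b045 b145 b245 b345 b016 b026 b126 b036 0 b236 b046 0 b246 b346 b056 b156 b256 0 0)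

def z32 (R : ℕ → ℕ → ℕ) (BK : ℕ → ℕ → ℕ → ℕ → ℕ → ℕ → ℕ → ℕ → ℕ) (F : ℕ) : ℕ :=
  (ins 26 11 0 (x5 R BK F))

theorem z32_pv (R : ℕ → ℕ → ℕ) (h : rowsChk R = true)
    (BK : ℕ → ℕ → ℕ → ℕ → ℕ → ℕ → ℕ → ℕ → ℕ) (hBK : BlkOK R BK) (F : ℕ) (e0 : ℕ → ℕ) :
    PV 12 (z32 R BK F) (5 * 262143) (fun e =>
      LZ32 (Kr R) (bt F 0) (bt F 1) (bt F 2) (bt F 3) (bt F 4) (bt F 5) (bt F 6) (bt F 7) (bt F 8) (bt F 9) (bt F 10) (bt F 11) (bt F 12) (bt F 13) (bt F 14) (bt F 15) (bt F 16) (bt F 17) (bt F 18) (bt F 19) (e 10) (e 1) (e 7) (e 3) 0 (e 11) (e 9) (e 0) (e 2) (e 6) (e 4) (e 5) (e 8) 0 0) e0 :=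
  PV.mono (PV.ins 0 rfl rfl (x5_pv R h BK hBK F e0)) rfl

def LZ33 (K : ℕ → ℕ → ℕ → ℕ) (b012 b013 b023 b123 b014 b024 b124 b034 b134 b234 b015 b025 b125 b035 b135 b235 b045 b145 b245 b345 b016 b026 b126 b036 b136 b236 b046 b146 b246 b346 b056 b156 b256 b356 b456 : ℕ) : ℕ :=
  (Nat.add (LZ31 K b012 b013 b023 b123 b014 b024 b124 b034 b134 b234 b015 b025 b125 b035 b135 b235 b045 b145 b245 b345 b016 b026 b126 b036 0 b236 b046 b146 b246 b346 b056 0 b256 b356 0)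
      (LZ32 K b012 b013 b023 b123 b014 b024 b124 b034 b134 b234 b015 b025 b125 b035 b135 b235 b045 b145 b245 b345 b016 b026 b126 b036 0 b236 b046 b146 b246 b346 b056 b156 b256 0 0))

def z33 (R : ℕ → ℕ → ℕ) (BK : ℕ → ℕ → ℕ → ℕ → ℕ → ℕ → ℕ → ℕ → ℕ) (F : ℕ) : ℕ :=
  (Nat.add (ins 26 12 5 (z31 R BK F))
      (ins 26 12 12 (z32 R BK F)))

theorem z33_pv (R : ℕ → ℕ → ℕ) (h : rowsChk R = true)
    (BK : ℕ → ℕ → ℕ → ℕ → ℕ → ℕ → ℕ → ℕ → ℕ) (hBK : BlkOK R BK) (F : ℕ) (e0 : ℕ → ℕ) :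
    PV 13 (z33 R BK F) (10 * 262143) (fun e =>
      LZ33 (Kr R) (bt F 0) (bt F 1) (bt F 2) (bt F 3) (bt F 4) (bt F 5) (bt F 6) (bt F 7) (bt F 8) (bt F 9) (bt F 10) (bt F 11) (bt F 12) (bt F 13) (bt F 14) (bt F 15) (bt F 16) (bt F 17) (bt F 18) (bt F 19) (e 10) (e 1) (e 7) (e 3) 0 (e 11) (e 9) (e 0) (e 2) (e 6) (e 4) (e 5) (e 8) (e 12) 0) e0 :=
  PV.mono (PV.add (PV.ins 5 rfl rfl (z31_pv R h BK hBK F e0))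
      (PV.ins 12 rfl rfl (z32_pv R h BK hBK F e0))) rfl

def LZ34 (K : ℕ → ℕ → ℕ → ℕ) (b012 b013 b023 b123 b014 b024 b124 b034 b134 b234 b015 b025 b125 b035 b135 b235 b045 b145 b245 b345 b016 b026 b126 b036 b136 b236 b046 b146 b246 b346 b056 b156 b256 b356 b456 : ℕ) : ℕ :=
  (LZ33 K b012 b013 b023 b123 b014 b024 b124 b034 b134 b234 b015 b025 b125 b035 b135 b235 b045 b145 b245 b345 b016 b026 b126 b036 0 b236 b046 b146 b246 b346 b056 b156 b256 b356 0)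

def z34 (R : ℕ → ℕ → ℕ) (BK : ℕ → ℕ → ℕ → ℕ → ℕ → ℕ → ℕ → ℕ → ℕ) (F : ℕ) : ℕ :=
  (ins 26 13 7 (z33 R BK F))

theorem z34_pv (R : ℕ → ℕ → ℕ) (h : rowsChk R = true)
    (BK : ℕ → ℕ → ℕ → ℕ → ℕ → ℕ → ℕ → ℕ → ℕ) (hBK : BlkOK R BK) (F : ℕ) (e0 : ℕ → ℕ) :
    PV 14 (z34 R BK F) (10 * 262143) (fun e =>
      LZ34 (Kr R) (bt F 0) (bt F 1) (bt F 2) (bt F 3) (bt F 4) (bt F 5) (bt F 6) (bt F 7) (bt F 8) (bt F 9) (bt F 10) (bt F 11) (bt F 12) (bt F 13) (bt F 14) (bt F 15) (bt F 16) (bt F 17) (bt F 18) (bt F 19) (e 10) (e 1) (e 13) (e 3) (e 7) (e 11) (e 9) (e 0) (e 2) (e 6) (e 4) (e 5) (e 8) (e 12) 0) e0 :=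
  PV.mono (PV.ins 7 rfl rfl (z33_pv R h BK hBK F e0)) rfl

def LZ35 (K : ℕ → ℕ → ℕ → ℕ) (b012 b013 b023 b123 b014 b024 b124 b034 b134 b234 b015 b025 b125 b035 b135 b235 b045 b145 b245 b345 b016 b026 b126 b036 b136 b236 b046 b146 b246 b346 b056 b156 b256 b356 b456 : ℕ) : ℕ :=
  (LX6 K b012 b013 b023 b123 b014 b024 b124 b034 b134 b234 b015 b025 b125 b035 b135 b235 b045 b145 b245 b345 b016 b026 b126 b036 b136 b236 0 b146 b246 0 0 b156 b256 0 b456)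

def z35 (R : ℕ → ℕ → ℕ) (BK : ℕ → ℕ → ℕ → ℕ → ℕ → ℕ → ℕ → ℕ → ℕ) (F : ℕ) : ℕ :=
  (ins 26 11 6 (x6 R BK F))

theorem z35_pv (R : ℕ → ℕ → ℕ) (h : rowsChk R = true)
    (BK : ℕ → ℕ → ℕ → ℕ → ℕ → ℕ → ℕ → ℕ → ℕ) (hBK : BlkOK R BK) (F : ℕ) (e0 : ℕ → ℕ) :
    PV 12 (z35 R BK F) (5 * 262143) (fun e =>
      LZ35 (Kr R) (bt F 0) (bt F 1) (bt F 2) (bt F 3) (bt F 4) (bt F 5) (bt F 6) (bt F 7) (bt F 8) (bt F 9) (bt F 10) (bt F 11) (bt F 12) (bt F 13) (bt F 14) (bt F 15) (bt F 16) (bt F 17) (bt F 18) (bt F 19) (e 10) (e 1) (e 9) (e 3) (e 7) (e 11) 0 (e 0) (e 2) 0 0 (e 4) (e 8) (e 6) (e 5)) e0 :=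
  PV.mono (PV.ins 6 rfl rfl (x6_pv R h BK hBK F e0)) rfl

def LZ36 (K : ℕ → ℕ → ℕ → ℕ) (b012 b013 b023 b123 b014 b024 b124 b034 b134 b234 b015 b025 b125 b035 b135 b235 b045 b145 b245 b345 b016 b026 b126 b036 b136 b236 b046 b146 b246 b346 b056 b156 b256 b356 b456 : ℕ) : ℕ :=
  (LX12 K b012 b013 b023 b123 b014 b024 b124 b034 b134 b234 b015 b025 b125 b035 b135 b235 b045 b145 b245 b345 b016 b026 b126 b036 b136 b236 0 b146 0 b346 0 b156 0 b356 b456)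

def z36 (R : ℕ → ℕ → ℕ) (BK : ℕ → ℕ → ℕ → ℕ → ℕ → ℕ → ℕ → ℕ → ℕ) (F : ℕ) : ℕ :=
  (ins 26 11 2 (x12 R BK F))

theorem z36_pv (R : ℕ → ℕ → ℕ) (h : rowsChk R = true)
    (BK : ℕ → ℕ → ℕ → ℕ → ℕ → ℕ → ℕ → ℕ → ℕ) (hBK : BlkOK R BK) (F : ℕ) (e0 : ℕ → ℕ) :
    PV 12 (z36 R BK F) (5 * 262143) (fun e =>
      LZ36 (Kr R) (bt F 0) (bt F 1) (bt F 2) (bt F 3) (bt F 4) (bt F 5) (bt F 6) (bt F 7) (bt F 8) (bt F 9) (bt F 10) (bt F 11) (bt F 12) (bt F 13) (bt F 14) (bt F 15) (bt F 16) (bt F 17) (bt F 18) (bt F 19) (e 10) (e 1) (e 9) (e 3) (e 7) (e 11) 0 (e 0) (e 2) (e 6) 0 (e 4) 0 (e 8) (e 5)) e0 :=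
  PV.mono (PV.ins 2 rfl rfl (x12_pv R h BK hBK F e0)) rfl

def LZ37 (K : ℕ → ℕ → ℕ → ℕ) (b012 b013 b023 b123 b014 b024 b124 b034 b134 b234 b015 b025 b125 b035 b135 b235 b045 b145 b245 b345 b016 b026 b126 b036 b136 b236 b046 b146 b246 b346 b056 b156 b256 b356 b456 : ℕ) : ℕ :=
  (Nat.add (LZ35 K b012 b013 b023 b123 b014 b024 b124 b034 b134 b234 b015 b025 b125 b035 b135 b235 b045 b145 b245 b345 b016 b026 b126 b036 b136 b236 0 b146 b246 0 0 b156 b256 b356 b456)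
      (LZ36 K b012 b013 b023 b123 b014 b024 b124 b034 b134 b234 b015 b025 b125 b035 b135 b235 b045 b145 b245 b345 b016 b026 b126 b036 b136 b236 0 b146 b246 b346 0 b156 0 b356 b456))

def z37 (R : ℕ → ℕ → ℕ) (BK : ℕ → ℕ → ℕ → ℕ → ℕ → ℕ → ℕ → ℕ → ℕ) (F : ℕ) : ℕ :=
  (Nat.add (ins 26 12 6 (z35 R BK F))
      (ins 26 12 8 (z36 R BK F)))

theorem z37_pv (R : ℕ → ℕ → ℕ) (h : rowsChk R = true)
    (BK : ℕ → ℕ → ℕ → ℕ → ℕ → ℕ → ℕ → ℕ → ℕ) (hBK : BlkOK R BK) (F : ℕ) (e0 : ℕ → ℕ) :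
    PV 13 (z37 R BK F) (10 * 262143) (fun e =>
      LZ37 (Kr R) (bt F 0) (bt F 1) (bt F 2) (bt F 3) (bt F 4) (bt F 5) (bt F 6) (bt F 7) (bt F 8) (bt F 9) (bt F 10) (bt F 11) (bt F 12) (bt F 13) (bt F 14) (bt F 15) (bt F 16) (bt F 17) (bt F 18) (bt F 19) (e 10) (e 1) (e 9) (e 3) (e 7) (e 11) 0 (e 0) (e 2) (e 6) 0 (e 4) (e 8) (e 12) (e 5)) e0 :=
  PV.mono (PV.add (PV.ins 6 rfl rfl (z35_pv R h BK hBK F e0))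
      (PV.ins 8 rfl rfl (z36_pv R h BK hBK F e0))) rfl

def LZ38 (K : ℕ → ℕ → ℕ → ℕ) (b012 b013 b023 b123 b014 b024 b124 b034 b134 b234 b015 b025 b125 b035 b135 b235 b045 b145 b245 b345 b016 b026 b126 b036 b136 b236 b046 b146 b246 b346 b056 b156 b256 b356 b456 : ℕ) : ℕ :=
  (LX7 K b012 b013 b023 b123 b014 b024 b124 b034 b134 b234 b015 b025 b125 b035 b135 b235 b045 b145 b245 b345 b016 b026 b126 0 b136 b236 b046 b146 b246 0 0 b156 b256 b356 0)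

def z38 (R : ℕ → ℕ → ℕ) (BK : ℕ → ℕ → ℕ → ℕ → ℕ → ℕ → ℕ → ℕ → ℕ) (F : ℕ) : ℕ :=
  (ins 26 11 6 (x7 R BK F))

theorem z38_pv (R : ℕ → ℕ → ℕ) (h : rowsChk R = true)
    (BK : ℕ → ℕ → ℕ → ℕ → ℕ → ℕ → ℕ → ℕ → ℕ) (hBK : BlkOK R BK) (F : ℕ) (e0 : ℕ → ℕ) :
    PV 12 (z38 R BK F) (5 * 262143) (fun e =>
      LZ38 (Kr R) (bt F 0) (bt F 1) (bt F 2) (bt F 3) (bt F 4) (bt F 5) (bt F 6) (bt F 7) (bt F 8) (bt F 9) (bt F 10) (bt F 11) (bt F 12) (bt F 13) (bt F 14) (bt F 15) (bt F 16) (bt F 17) (bt F 18) (bt F 19) (e 10) (e 1) (e 3) 0 (e 7) (e 11) (e 9) (e 0) (e 2) (e 6) 0 (e 4) (e 8) (e 5) 0) e0 :=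
  PV.mono (PV.ins 6 rfl rfl (x7_pv R h BK hBK F e0)) rfl

def LZ39 (K : ℕ → ℕ → ℕ → ℕ) (b012 b013 b023 b123 b014 b024 b124 b034 b134 b234 b015 b025 b125 b035 b135 b235 b045 b145 b245 b345 b016 b026 b126 b036 b136 b236 b046 b146 b246 b346 b056 b156 b256 b356 b456 : ℕ) : ℕ :=
  (LX21 K b012 b013 b023 b123 b014 b024 b124 b034 b134 b234 b015 b025 b125 b035 b135 b235 b045 b145 b245 b345 b016 b026 b126 0 b136 0 b046 b146 b246 b346 0 b156 0 b356 b456)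

def z39 (R : ℕ → ℕ → ℕ) (BK : ℕ → ℕ → ℕ → ℕ → ℕ → ℕ → ℕ → ℕ → ℕ) (F : ℕ) : ℕ :=
  (ins 26 11 11 (x21 R BK F))

theorem z39_pv (R : ℕ → ℕ → ℕ) (h : rowsChk R = true)
    (BK : ℕ → ℕ → ℕ → ℕ → ℕ → ℕ → ℕ → ℕ → ℕ) (hBK : BlkOK R BK) (F : ℕ) (e0 : ℕ → ℕ) :
    PV 12 (z39 R BK F) (1 * 262143) (fun e =>
      LZ39 (Kr R) (bt F 0) (bt F 1) (bt F 2) (bt F 3) (bt F 4) (bt F 5) (bt F 6) (bt F 7) (bt F 8) (bt F 9) (bt F 10) (bt F 11) (bt F 12) (bt F 13) (bt F 14) (bt F 15) (bt F 16) (bt F 17) (bt F 18) (bt F 19) (e 10) (e 1) (e 3) 0 (e 7) (e 11) (e 9) (e 0) (e 2) (e 6) 0 (e 4) 0 (e 8) (e 5)) e0 :=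
  PV.mono (PV.ins 11 rfl rfl (x21_pv R h BK hBK F e0)) rfl

def LZ40 (K : ℕ → ℕ → ℕ → ℕ) (b012 b013 b023 b123 b014 b024 b124 b034 b134 b234 b015 b025 b125 b035 b135 b235 b045 b145 b245 b345 b016 b026 b126 b036 b136 b236 b046 b146 b246 b346 b056 b156 b256 b356 b456 : ℕ) : ℕ :=
  (LX24 K b012 b013 b023 b123 b014 b024 b124 b034 b134 b234 b015 b025 b125 b035 b135 b235 b045 b145 b245 b345 b016 b026 b126 0 0 b236 b046 b146 b246 b346 0 0 b256 b356 b456)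

def z40 (R : ℕ → ℕ → ℕ) (BK : ℕ → ℕ → ℕ → ℕ → ℕ → ℕ → ℕ → ℕ → ℕ) (F : ℕ) : ℕ :=
  (ins 26 11 7 (x24 R BK F))

theorem z40_pv (R : ℕ → ℕ → ℕ) (h : rowsChk R = true)
    (BK : ℕ → ℕ → ℕ → ℕ → ℕ → ℕ → ℕ → ℕ → ℕ) (hBK : BlkOK R BK) (F : ℕ) (e0 : ℕ → ℕ) :
    PV 12 (z40 R BK F) (1 * 262143) (fun e =>
      LZ40 (Kr R) (bt F 0) (bt F 1) (bt F 2) (bt F 3) (bt F 4) (bt F 5) (bt F 6) (bt F 7) (bt F 8) (bt F 9) (bt F 10) (bt F 11) (bt F 12) (bt F 13) (bt F 14) (bt F 15) (bt F 16) (bt F 17) (bt F 18) (bt F 19) (e 10) (e 1) (e 3) 0 (e 7) (e 11) (e 9) (e 0) (e 2) (e 6) 0 0 (e 8) (e 4) (e 5)) e0 :=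
  PV.mono (PV.ins 7 rfl rfl (x24_pv R h BK hBK F e0)) rfl

def LZ41 (K : ℕ → ℕ → ℕ → ℕ) (b012 b013 b023 b123 b014 b024 b124 b034 b134 b234 b015 b025 b125 b035 b135 b235 b045 b145 b245 b345 b016 b026 b126 b036 b136 b236 b046 b146 b246 b346 b056 b156 b256 b356 b456 : ℕ) : ℕ :=
  (Nat.add (LZ38 K b012 b013 b023 b123 b014 b024 b124 b034 b134 b234 b015 b025 b125 b035 b135 b235 b045 b145 b245 b345 b016 b026 b126 0 b136 b236 b046 b146 b246 b346 0 b156 b256 b356 0)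
      (Nat.add (LZ39 K b012 b013 b023 b123 b014 b024 b124 b034 b134 b234 b015 b025 b125 b035 b135 b235 b045 b145 b245 b345 b016 b026 b126 0 b136 b236 b046 b146 b246 b346 0 b156 0 b356 b456)
      (LZ40 K b012 b013 b023 b123 b014 b024 b124 b034 b134 b234 b015 b025 b125 b035 b135 b235 b045 b145 b245 b345 b016 b026 b126 0 b136 b236 b046 b146 b246 b346 0 0 b256 b356 b456)))

def z41 (R : ℕ → ℕ → ℕ) (BK : ℕ → ℕ → ℕ → ℕ → ℕ → ℕ → ℕ → ℕ → ℕ) (F : ℕ) : ℕ :=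
  (Nat.add (ins 26 12 5 (z38 R BK F))
      (Nat.add (ins 26 12 8 (z39 R BK F))
      (ins 26 12 4 (z40 R BK F))))

theorem z41_pv (R : ℕ → ℕ → ℕ) (h : rowsChk R = true)
    (BK : ℕ → ℕ → ℕ → ℕ → ℕ → ℕ → ℕ → ℕ → ℕ) (hBK : BlkOK R BK) (F : ℕ) (e0 : ℕ → ℕ) :
    PV 13 (z41 R BK F) (7 * 262143) (fun e =>
      LZ41 (Kr R) (bt F 0) (bt F 1) (bt F 2) (bt F 3) (bt F 4) (bt F 5) (bt F 6) (bt F 7) (bt F 8) (bt F 9) (bt F 10) (bt F 11) (bt F 12) (bt F 13) (bt F 14) (bt F 15) (bt F 16) (bt F 17) (bt F 18) (bt F 19) (e 10) (e 1) (e 3) 0 (e 7) (e 11) (e 9) (e 0) (e 2) (e 6) 0 (e 4) (e 8) (e 12) (e 5)) e0 :=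
  PV.mono (PV.add (PV.ins 5 rfl rfl (z38_pv R h BK hBK F e0))
      (PV.add (PV.ins 8 rfl rfl (z39_pv R h BK hBK F e0))
      (PV.ins 4 rfl rfl (z40_pv R h BK hBK F e0)))) rfl

def LZ42 (K : ℕ → ℕ → ℕ → ℕ) (b012 b013 b023 b123 b014 b024 b124 b034 b134 b234 b015 b025 b125 b035 b135 b235 b045 b145 b245 b345 b016 b026 b126 b036 b136 b236 b046 b146 b246 b346 b056 b156 b256 b356 b456 : ℕ) : ℕ :=
  (LX13 K b012 b013 b023 b123 b014 b024 b124 b034 b134 b234 b015 b025 b125 b035 b135 b235 b045 b145 b245 b345 b016 0 b126 b036 b136 b236 b046 b146 0 b346 0 b156 b256 b356 0)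

def z42 (R : ℕ → ℕ → ℕ) (BK : ℕ → ℕ → ℕ → ℕ → ℕ → ℕ → ℕ → ℕ → ℕ) (F : ℕ) : ℕ :=
  (ins 26 11 2 (x13 R BK F))

theorem z42_pv (R : ℕ → ℕ → ℕ) (h : rowsChk R = true)
    (BK : ℕ → ℕ → ℕ → ℕ → ℕ → ℕ → ℕ → ℕ → ℕ) (hBK : BlkOK R BK) (F : ℕ) (e0 : ℕ → ℕ) :
    PV 12 (z42 R BK F) (1 * 262143) (fun e =>
      LZ42 (Kr R) (bt F 0) (bt F 1) (bt F 2) (bt F 3) (bt F 4) (bt F 5) (bt F 6) (bt F 7) (bt F 8) (bt F 9) (bt F 10) (bt F 11) (bt F 12) (bt F 13) (bt F 14) (bt F 15) (bt F 16) (bt F 17) (bt F 18) (bt F 19) (e 10) 0 (e 1) (e 3) (e 7) (e 11) (e 9) (e 0) (e 2) (e 6) 0 (e 4) (e 8) (e 5) 0) e0 :=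
  PV.mono (PV.ins 2 rfl rfl (x13_pv R h BK hBK F e0)) rfl

def LZ43 (K : ℕ → ℕ → ℕ → ℕ) (b012 b013 b023 b123 b014 b024 b124 b034 b134 b234 b015 b025 b125 b035 b135 b235 b045 b145 b245 b345 b016 b026 b126 b036 b136 b236 b046 b146 b246 b346 b056 b156 b256 b356 b456 : ℕ) : ℕ :=
  (LX22 K b012 b013 b023 b123 b014 b024 b124 b034 b134 b234 b015 b025 b125 b035 b135 b235 b045 b145 b245 b345 b016 0 b126 b036 b136 0 b046 b146 b246 b346 0 b156 b256 0 b456)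

def z43 (R : ℕ → ℕ → ℕ) (BK : ℕ → ℕ → ℕ → ℕ → ℕ → ℕ → ℕ → ℕ → ℕ) (F : ℕ) : ℕ :=
  (ins 26 11 11 (x22 R BK F))

theorem z43_pv (R : ℕ → ℕ → ℕ) (h : rowsChk R = true)
    (BK : ℕ → ℕ → ℕ → ℕ → ℕ → ℕ → ℕ → ℕ → ℕ) (hBK : BlkOK R BK) (F : ℕ) (e0 : ℕ → ℕ) :
    PV 12 (z43 R BK F) (1 * 262143) (fun e =>
      LZ43 (Kr R) (bt F 0) (bt F 1) (bt F 2) (bt F 3) (bt F 4) (bt F 5) (bt F 6) (bt F 7) (bt F 8) (bt F 9) (bt F 10) (bt F 11) (bt F 12) (bt F 13) (bt F 14) (bt F 15) (bt F 16) (bt F 17) (bt F 18) (bt F 19) (e 10) 0 (e 1) (e 3) (e 7) 0 (e 9) (e 0) (e 2) (e 6) 0 (e 4) (e 8) (e 11) (e 5)) e0 :=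
  PV.mono (PV.ins 11 rfl rfl (x22_pv R h BK hBK F e0)) rfl

def LZ44 (K : ℕ → ℕ → ℕ → ℕ) (b012 b013 b023 b123 b014 b024 b124 b034 b134 b234 b015 b025 b125 b035 b135 b235 b045 b145 b245 b345 b016 b026 b126 b036 b136 b236 b046 b146 b246 b346 b056 b156 b256 b356 b456 : ℕ) : ℕ :=
  (LX27 K b012 b013 b023 b123 b014 b024 b124 b034 b134 b234 b015 b025 b125 b035 b135 b235 b045 b145 b245 b345 b016 0 0 b036 b136 b236 b046 b146 b246 b346 0 0 b256 b356 b456)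

def z44 (R : ℕ → ℕ → ℕ) (BK : ℕ → ℕ → ℕ → ℕ → ℕ → ℕ → ℕ → ℕ → ℕ) (F : ℕ) : ℕ :=
  (ins 26 11 1 (x27 R BK F))

theorem z44_pv (R : ℕ → ℕ → ℕ) (h : rowsChk R = true)
    (BK : ℕ → ℕ → ℕ → ℕ → ℕ → ℕ → ℕ → ℕ → ℕ) (hBK : BlkOK R BK) (F : ℕ) (e0 : ℕ → ℕ) :
    PV 12 (z44 R BK F) (1 * 262143) (fun e =>
      LZ44 (Kr R) (bt F 0) (bt F 1) (bt F 2) (bt F 3) (bt F 4) (bt F 5) (bt F 6) (bt F 7) (bt F 8) (bt F 9) (bt F 10) (bt F 11) (bt F 12) (bt F 13) (bt F 14) (bt F 15) (bt F 16) (bt F 17) (bt F 18) (bt F 19) (e 10) 0 (e 1) (e 3) (e 7) (e 11) (e 9) (e 0) (e 2) (e 6) 0 0 (e 8) (e 4) (e 5)) e0 :=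
  PV.mono (PV.ins 1 rfl rfl (x27_pv R h BK hBK F e0)) rfl

def LZ45 (K : ℕ → ℕ → ℕ → ℕ) (b012 b013 b023 b123 b014 b024 b124 b034 b134 b234 b015 b025 b125 b035 b135 b235 b045 b145 b245 b345 b016 b026 b126 b036 b136 b236 b046 b146 b246 b346 b056 b156 b256 b356 b456 : ℕ) : ℕ :=
  (Nat.add (LZ42 K b012 b013 b023 b123 b014 b024 b124 b034 b134 b234 b015 b025 b125 b035 b135 b235 b045 b145 b245 b345 b016 0 b126 b036 b136 b236 b046 b146 b246 b346 0 b156 b256 b356 0)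
      (Nat.add (LZ43 K b012 b013 b023 b123 b014 b024 b124 b034 b134 b234 b015 b025 b125 b035 b135 b235 b045 b145 b245 b345 b016 0 b126 b036 b136 0 b046 b146 b246 b346 0 b156 b256 b356 b456)
      (LZ44 K b012 b013 b023 b123 b014 b024 b124 b034 b134 b234 b015 b025 b125 b035 b135 b235 b045 b145 b245 b345 b016 0 b126 b036 b136 b236 b046 b146 b246 b346 0 0 b256 b356 b456)))

def z45 (R : ℕ → ℕ → ℕ) (BK : ℕ → ℕ → ℕ → ℕ → ℕ → ℕ → ℕ → ℕ → ℕ) (F : ℕ) : ℕ :=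
  (Nat.add (ins 26 12 5 (z42 R BK F))
      (Nat.add (ins 26 12 11 (z43 R BK F))
      (ins 26 12 4 (z44 R BK F))))

theorem z45_pv (R : ℕ → ℕ → ℕ) (h : rowsChk R = true)
    (BK : ℕ → ℕ → ℕ → ℕ → ℕ → ℕ → ℕ → ℕ → ℕ) (hBK : BlkOK R BK) (F : ℕ) (e0 : ℕ → ℕ) :
    PV 13 (z45 R BK F) (3 * 262143) (fun e =>
      LZ45 (Kr R) (bt F 0) (bt F 1) (bt F 2) (bt F 3) (bt F 4) (bt F 5) (bt F 6) (bt F 7) (bt F 8) (bt F 9) (bt F 10) (bt F 11) (bt F 12) (bt F 13) (bt F 14) (bt F 15) (bt F 16) (bt F 17) (bt F 18) (bt F 19) (e 10) 0 (e 1) (e 3) (e 7) (e 11) (e 9) (e 0) (e 2) (e 6) 0 (e 4) (e 8) (e 12) (e 5)) e0 :=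
  PV.mono (PV.add (PV.ins 5 rfl rfl (z42_pv R h BK hBK F e0))
      (PV.add (PV.ins 11 rfl rfl (z43_pv R h BK hBK F e0))
      (PV.ins 4 rfl rfl (z44_pv R h BK hBK F e0)))) rfl

def LZ46 (K : ℕ → ℕ → ℕ → ℕ) (b012 b013 b023 b123 b014 b024 b124 b034 b134 b234 b015 b025 b125 b035 b135 b235 b045 b145 b245 b345 b016 b026 b126 b036 b136 b236 b046 b146 b246 b346 b056 b156 b256 b356 b456 : ℕ) : ℕ :=
  (LX16 K b012 b013 b023 b123 b014 b024 b124 b034 b134 b234 b015 b025 b125 b035 b135 b235 b045 b145 b245 b345 0 b026 b126 b036 b136 b236 b046 0 b246 b346 0 b156 b256 b356 0)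

def z46 (R : ℕ → ℕ → ℕ) (BK : ℕ → ℕ → ℕ → ℕ → ℕ → ℕ → ℕ → ℕ → ℕ) (F : ℕ) : ℕ :=
  (ins 26 11 0 (x16 R BK F))

theorem z46_pv (R : ℕ → ℕ → ℕ) (h : rowsChk R = true)
    (BK : ℕ → ℕ → ℕ → ℕ → ℕ → ℕ → ℕ → ℕ → ℕ) (hBK : BlkOK R BK) (F : ℕ) (e0 : ℕ → ℕ) :
    PV 12 (z46 R BK F) (1 * 262143) (fun e =>
      LZ46 (Kr R) (bt F 0) (bt F 1) (bt F 2) (bt F 3) (bt F 4) (bt F 5) (bt F 6) (bt F 7) (bt F 8) (bt F 9) (bt F 10) (bt F 11) (bt F 12) (bt F 13) (bt F 14) (bt F 15) (bt F 16) (bt F 17) (bt F 18) (bt F 19) 0 (e 1) (e 10) (e 3) (e 7) (e 11) (e 9) (e 0) (e 2) (e 6) 0 (e 4) (e 8) (e 5) 0) e0 :=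
  PV.mono (PV.ins 0 rfl rfl (x16_pv R h BK hBK F e0)) rfl

def LZ47 (K : ℕ → ℕ → ℕ → ℕ) (b012 b013 b023 b123 b014 b024 b124 b034 b134 b234 b015 b025 b125 b035 b135 b235 b045 b145 b245 b345 b016 b026 b126 b036 b136 b236 b046 b146 b246 b346 b056 b156 b256 b356 b456 : ℕ) : ℕ :=
  (LX25 K b012 b013 b023 b123 b014 b024 b124 b034 b134 b234 b015 b025 b125 b035 b135 b235 b045 b145 b245 b345 0 b026 b126 b036 0 b236 b046 b146 b246 b346 0 b156 b256 0 b456)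

def z47 (R : ℕ → ℕ → ℕ) (BK : ℕ → ℕ → ℕ → ℕ → ℕ → ℕ → ℕ → ℕ → ℕ) (F : ℕ) : ℕ :=
  (ins 26 11 7 (x25 R BK F))

theorem z47_pv (R : ℕ → ℕ → ℕ) (h : rowsChk R = true)
    (BK : ℕ → ℕ → ℕ → ℕ → ℕ → ℕ → ℕ → ℕ → ℕ) (hBK : BlkOK R BK) (F : ℕ) (e0 : ℕ → ℕ) :
    PV 12 (z47 R BK F) (1 * 262143) (fun e =>
      LZ47 (Kr R) (bt F 0) (bt F 1) (bt F 2) (bt F 3) (bt F 4) (bt F 5) (bt F 6) (bt F 7) (bt F 8) (bt F 9) (bt F 10) (bt F 11) (bt F 12) (bt F 13) (bt F 14) (bt F 15) (bt F 16) (bt F 17) (bt F 18) (bt F 19) 0 (e 1) (e 10) (e 3) (e 7) (e 11) (e 9) (e 0) (e 2) (e 6) 0 (e 4) (e 8) 0 (e 5)) e0 :=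
  PV.mono (PV.ins 7 rfl rfl (x25_pv R h BK hBK F e0)) rfl

def LZ48 (K : ℕ → ℕ → ℕ → ℕ) (b012 b013 b023 b123 b014 b024 b124 b034 b134 b234 b015 b025 b125 b035 b135 b235 b045 b145 b245 b345 b016 b026 b126 b036 b136 b236 b046 b146 b246 b346 b056 b156 b256 b356 b456 : ℕ) : ℕ :=
  (LX28 K b012 b013 b023 b123 b014 b024 b124 b034 b134 b234 b015 b025 b125 b035 b135 b235 b045 b145 b245 b345 0 b026 0 b036 b136 b236 b046 b146 b246 b346 0 b156 0 b356 b456)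

def z48 (R : ℕ → ℕ → ℕ) (BK : ℕ → ℕ → ℕ → ℕ → ℕ → ℕ → ℕ → ℕ → ℕ) (F : ℕ) : ℕ :=
  (ins 26 11 10 (x28 R BK F))

theorem z48_pv (R : ℕ → ℕ → ℕ) (h : rowsChk R = true)
    (BK : ℕ → ℕ → ℕ → ℕ → ℕ → ℕ → ℕ → ℕ → ℕ) (hBK : BlkOK R BK) (F : ℕ) (e0 : ℕ → ℕ) :
    PV 12 (z48 R BK F) (1 * 262143) (fun e =>
      LZ48 (Kr R) (bt F 0) (bt F 1) (bt F 2) (bt F 3) (bt F 4) (bt F 5) (bt F 6) (bt F 7) (bt F 8) (bt F 9) (bt F 10) (bt F 11) (bt F 12) (bt F 13) (bt F 14) (bt F 15) (bt F 16) (bt F 17) (bt F 18) (bt F 19) 0 (e 1) (e 10) (e 3) (e 7) (e 11) (e 9) (e 0) (e 2) (e 6) 0 (e 4) 0 (e 8) (e 5)) e0 :=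
  PV.mono (PV.ins 10 rfl rfl (x28_pv R h BK hBK F e0)) rfl

def LZ49 (K : ℕ → ℕ → ℕ → ℕ) (b012 b013 b023 b123 b014 b024 b124 b034 b134 b234 b015 b025 b125 b035 b135 b235 b045 b145 b245 b345 b016 b026 b126 b036 b136 b236 b046 b146 b246 b346 b056 b156 b256 b356 b456 : ℕ) : ℕ :=
  (Nat.add (LZ46 K b012 b013 b023 b123 b014 b024 b124 b034 b134 b234 b015 b025 b125 b035 b135 b235 b045 b145 b245 b345 0 b026 b126 b036 b136 b236 b046 b146 b246 b346 0 b156 b256 b356 0)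
      (Nat.add (LZ47 K b012 b013 b023 b123 b014 b024 b124 b034 b134 b234 b015 b025 b125 b035 b135 b235 b045 b145 b245 b345 0 b026 b126 b036 b136 b236 b046 b146 b246 b346 0 b156 b256 0 b456)
      (LZ48 K b012 b013 b023 b123 b014 b024 b124 b034 b134 b234 b015 b025 b125 b035 b135 b235 b045 b145 b245 b345 0 b026 b126 b036 b136 b236 b046 b146 b246 b346 0 b156 0 b356 b456)))

def z49 (R : ℕ → ℕ → ℕ) (BK : ℕ → ℕ → ℕ → ℕ → ℕ → ℕ → ℕ → ℕ → ℕ) (F : ℕ) : ℕ :=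
  (Nat.add (ins 26 12 5 (z46 R BK F))
      (Nat.add (ins 26 12 12 (z47 R BK F))
      (ins 26 12 8 (z48 R BK F))))

theorem z49_pv (R : ℕ → ℕ → ℕ) (h : rowsChk R = true)
    (BK : ℕ → ℕ → ℕ → ℕ → ℕ → ℕ → ℕ → ℕ → ℕ) (hBK : BlkOK R BK) (F : ℕ) (e0 : ℕ → ℕ) :
    PV 13 (z49 R BK F) (3 * 262143) (fun e =>
      LZ49 (Kr R) (bt F 0) (bt F 1) (bt F 2) (bt F 3) (bt F 4) (bt F 5) (bt F 6) (bt F 7) (bt F 8) (bt F 9) (bt F 10) (bt F 11) (bt F 12) (bt F 13) (bt F 14) (bt F 15) (bt F 16) (bt F 17) (bt F 18) (bt F 19) 0 (e 1) (e 10) (e 3) (e 7) (e 11) (e 9) (e 0) (e 2) (e 6) 0 (e 4) (e 8) (e 12) (e 5)) e0 :=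
  PV.mono (PV.add (PV.ins 5 rfl rfl (z46_pv R h BK hBK F e0))
      (PV.add (PV.ins 12 rfl rfl (z47_pv R h BK hBK F e0))
      (PV.ins 8 rfl rfl (z48_pv R h BK hBK F e0)))) rfl

def LZ50 (K : ℕ → ℕ → ℕ → ℕ) (b012 b013 b023 b123 b014 b024 b124 b034 b134 b234 b015 b025 b125 b035 b135 b235 b045 b145 b245 b345 b016 b026 b126 b036 b136 b236 b046 b146 b246 b346 b056 b156 b256 b356 b456 : ℕ) : ℕ :=
  (Nat.add (Nat.add (LZ37 K b012 b013 b023 b123 b014 b024 b124 b034 b134 b234 b015 b025 b125 b035 b135 b235 b045 b145 b245 b345 b016 b026 b126 b036 b136 b236 0 b146 b246 b346 0 b156 b256 b356 b456)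
      (LZ41 K b012 b013 b023 b123 b014 b024 b124 b034 b134 b234 b015 b025 b125 b035 b135 b235 b045 b145 b245 b345 b016 b026 b126 0 b136 b236 b046 b146 b246 b346 0 b156 b256 b356 b456))
      (Nat.add (LZ45 K b012 b013 b023 b123 b014 b024 b124 b034 b134 b234 b015 b025 b125 b035 b135 b235 b045 b145 b245 b345 b016 0 b126 b036 b136 b236 b046 b146 b246 b346 0 b156 b256 b356 b456)
      (LZ49 K b012 b013 b023 b123 b014 b024 b124 b034 b134 b234 b015 b025 b125 b035 b135 b235 b045 b145 b245 b345 0 b026 b126 b036 b136 b236 b046 b146 b246 b346 0 b156 b256 b356 b456)))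

def z50 (R : ℕ → ℕ → ℕ) (BK : ℕ → ℕ → ℕ → ℕ → ℕ → ℕ → ℕ → ℕ → ℕ) (F : ℕ) : ℕ :=
  (Nat.add (Nat.add (ins 26 13 9 (z37 R BK F))
      (ins 26 13 3 (z41 R BK F)))
      (Nat.add (ins 26 13 1 (z45 R BK F))
      (ins 26 13 10 (z49 R BK F))))

theorem z50_pv (R : ℕ → ℕ → ℕ) (h : rowsChk R = true)
    (BK : ℕ → ℕ → ℕ → ℕ → ℕ → ℕ → ℕ → ℕ → ℕ) (hBK : BlkOK R BK) (F : ℕ) (e0 : ℕ → ℕ) :
    PV 14 (z50 R BK F) (23 * 262143) (fun e =>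
      LZ50 (Kr R) (bt F 0) (bt F 1) (bt F 2) (bt F 3) (bt F 4) (bt F 5) (bt F 6) (bt F 7) (bt F 8) (bt F 9) (bt F 10) (bt F 11) (bt F 12) (bt F 13) (bt F 14) (bt F 15) (bt F 16) (bt F 17) (bt F 18) (bt F 19) (e 10) (e 1) (e 13) (e 3) (e 7) (e 11) (e 9) (e 0) (e 2) (e 6) 0 (e 4) (e 8) (e 12) (e 5)) e0 :=
  PV.mono (PV.add (PV.add (PV.ins 9 rfl rfl (z37_pv R h BK hBK F e0))
      (PV.ins 3 rfl rfl (z41_pv R h BK hBK F e0)))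
      (PV.add (PV.ins 1 rfl rfl (z45_pv R h BK hBK F e0))
      (PV.ins 10 rfl rfl (z49_pv R h BK hBK F e0)))) rfl

def LZ51 (K : ℕ → ℕ → ℕ → ℕ) (b012 b013 b023 b123 b014 b024 b124 b034 b134 b234 b015 b025 b125 b035 b135 b235 b045 b145 b245 b345 b016 b026 b126 b036 b136 b236 b046 b146 b246 b346 b056 b156 b256 b356 b456 : ℕ) : ℕ :=
  (LX8 K b012 b013 b023 b123 b014 b024 b124 b034 b134 b234 b015 b025 b125 b035 b135 b235 b045 b145 b245 b345 b016 b026 b126 0 b136 b236 0 b146 b246 b346 b056 b156 b256 0 0)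

def z51 (R : ℕ → ℕ → ℕ) (BK : ℕ → ℕ → ℕ → ℕ → ℕ → ℕ → ℕ → ℕ → ℕ) (F : ℕ) : ℕ :=
  (ins 26 11 5 (x8 R BK F))

theorem z51_pv (R : ℕ → ℕ → ℕ) (h : rowsChk R = true)
    (BK : ℕ → ℕ → ℕ → ℕ → ℕ → ℕ → ℕ → ℕ → ℕ) (hBK : BlkOK R BK) (F : ℕ) (e0 : ℕ → ℕ) :
    PV 12 (z51 R BK F) (5 * 262143) (fun e =>
      LZ51 (Kr R) (bt F 0) (bt F 1) (bt F 2) (bt F 3) (bt F 4) (bt F 5) (bt F 6) (bt F 7) (bt F 8) (bt F 9) (bt F 10) (bt F 11) (bt F 12) (bt F 13) (bt F 14) (bt F 15) (bt F 16) (bt F 17) (bt F 18) (bt F 19) (e 10) (e 1) (e 3) 0 (e 7) (e 11) 0 (e 0) (e 2) (e 6) (e 4) (e 9) (e 8) 0 (e 5)) e0 :=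
  PV.mono (PV.ins 5 rfl rfl (x8_pv R h BK hBK F e0)) rfl

def LZ52 (K : ℕ → ℕ → ℕ → ℕ) (b012 b013 b023 b123 b014 b024 b124 b034 b134 b234 b015 b025 b125 b035 b135 b235 b045 b145 b245 b345 b016 b026 b126 b036 b136 b236 b046 b146 b246 b346 b056 b156 b256 b356 b456 : ℕ) : ℕ :=
  (LX33 K b012 b013 b023 b123 b014 b024 b124 b034 b134 b234 b015 b025 b125 b035 b135 b235 b045 b145 b245 b345 b016 b026 b126 0 b136 0 0 b146 0 b346 b056 b156 b256 b356 b456)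

def z52 (R : ℕ → ℕ → ℕ) (BK : ℕ → ℕ → ℕ → ℕ → ℕ → ℕ → ℕ → ℕ → ℕ) (F : ℕ) : ℕ :=
  (ins 26 11 2 (x33 R BK F))

theorem z52_pv (R : ℕ → ℕ → ℕ) (h : rowsChk R = true)
    (BK : ℕ → ℕ → ℕ → ℕ → ℕ → ℕ → ℕ → ℕ → ℕ) (hBK : BlkOK R BK) (F : ℕ) (e0 : ℕ → ℕ) :
    PV 12 (z52 R BK F) (1 * 262143) (fun e =>
      LZ52 (Kr R) (bt F 0) (bt F 1) (bt F 2) (bt F 3) (bt F 4) (bt F 5) (bt F 6) (bt F 7) (bt F 8) (bt F 9) (bt F 10) (bt F 11) (bt F 12) (bt F 13) (bt F 14) (bt F 15) (bt F 16) (bt F 17) (bt F 18) (bt F 19) (e 10) (e 1) (e 3) 0 (e 7) 0 0 (e 0) (e 2) (e 6) (e 4) (e 9) (e 8) (e 11) (e 5)) e0 :=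
  PV.mono (PV.ins 2 rfl rfl (x33_pv R h BK hBK F e0)) rfl

def LZ53 (K : ℕ → ℕ → ℕ → ℕ) (b012 b013 b023 b123 b014 b024 b124 b034 b134 b234 b015 b025 b125 b035 b135 b235 b045 b145 b245 b345 b016 b026 b126 b036 b136 b236 b046 b146 b246 b346 b056 b156 b256 b356 b456 : ℕ) : ℕ :=
  (LX36 K b012 b013 b023 b123 b014 b024 b124 b034 b134 b234 b015 b025 b125 b035 b135 b235 b045 b145 b245 b345 b016 b026 b126 0 0 b236 0 0 b246 b346 b056 b156 b256 b356 b456)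

def z53 (R : ℕ → ℕ → ℕ) (BK : ℕ → ℕ → ℕ → ℕ → ℕ → ℕ → ℕ → ℕ → ℕ) (F : ℕ) : ℕ :=
  (ins 26 11 7 (x36 R BK F))

theorem z53_pv (R : ℕ → ℕ → ℕ) (h : rowsChk R = true)
    (BK : ℕ → ℕ → ℕ → ℕ → ℕ → ℕ → ℕ → ℕ → ℕ) (hBK : BlkOK R BK) (F : ℕ) (e0 : ℕ → ℕ) :
    PV 12 (z53 R BK F) (1 * 262143) (fun e =>
      LZ53 (Kr R) (bt F 0) (bt F 1) (bt F 2) (bt F 3) (bt F 4) (bt F 5) (bt F 6) (bt F 7) (bt F 8) (bt F 9) (bt F 10) (bt F 11) (bt F 12) (bt F 13) (bt F 14) (bt F 15) (bt F 16) (bt F 17) (bt F 18) (bt F 19) (e 10) (e 1) (e 3) 0 (e 7) (e 11) 0 0 (e 2) (e 6) (e 4) (e 9) (e 8) (e 0) (e 5)) e0 :=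
  PV.mono (PV.ins 7 rfl rfl (x36_pv R h BK hBK F e0)) rfl

def LZ54 (K : ℕ → ℕ → ℕ → ℕ) (b012 b013 b023 b123 b014 b024 b124 b034 b134 b234 b015 b025 b125 b035 b135 b235 b045 b145 b245 b345 b016 b026 b126 b036 b136 b236 b046 b146 b246 b346 b056 b156 b256 b356 b456 : ℕ) : ℕ :=
  (Nat.add (LZ51 K b012 b013 b023 b123 b014 b024 b124 b034 b134 b234 b015 b025 b125 b035 b135 b235 b045 b145 b245 b345 b016 b026 b126 0 b136 b236 0 b146 b246 b346 b056 b156 b256 0 b456)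
      (Nat.add (LZ52 K b012 b013 b023 b123 b014 b024 b124 b034 b134 b234 b015 b025 b125 b035 b135 b235 b045 b145 b245 b345 b016 b026 b126 0 b136 0 0 b146 b246 b346 b056 b156 b256 b356 b456)
      (LZ53 K b012 b013 b023 b123 b014 b024 b124 b034 b134 b234 b015 b025 b125 b035 b135 b235 b045 b145 b245 b345 b016 b026 b126 0 b136 b236 0 0 b246 b346 b056 b156 b256 b356 b456)))

def z54 (R : ℕ → ℕ → ℕ) (BK : ℕ → ℕ → ℕ → ℕ → ℕ → ℕ → ℕ → ℕ → ℕ) (F : ℕ) : ℕ :=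
  (Nat.add (ins 26 12 12 (z51 R BK F))
      (Nat.add (ins 26 12 11 (z52 R BK F))
      (ins 26 12 0 (z53 R BK F))))

theorem z54_pv (R : ℕ → ℕ → ℕ) (h : rowsChk R = true)
    (BK : ℕ → ℕ → ℕ → ℕ → ℕ → ℕ → ℕ → ℕ → ℕ) (hBK : BlkOK R BK) (F : ℕ) (e0 : ℕ → ℕ) :
    PV 13 (z54 R BK F) (7 * 262143) (fun e =>
      LZ54 (Kr R) (bt F 0) (bt F 1) (bt F 2) (bt F 3) (bt F 4) (bt F 5) (bt F 6) (bt F 7) (bt F 8) (bt F 9) (bt F 10) (bt F 11) (bt F 12) (bt F 13) (bt F 14) (bt F 15) (bt F 16) (bt F 17) (bt F 18) (bt F 19) (e 10) (e 1) (e 3) 0 (e 7) (e 11) 0 (e 0) (e 2) (e 6) (e 4) (e 9) (e 8) (e 12) (e 5)) e0 :=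
  PV.mono (PV.add (PV.ins 12 rfl rfl (z51_pv R h BK hBK F e0))
      (PV.add (PV.ins 11 rfl rfl (z52_pv R h BK hBK F e0))
      (PV.ins 0 rfl rfl (z53_pv R h BK hBK F e0)))) rfl

def LZ55 (K : ℕ → ℕ → ℕ → ℕ) (b012 b013 b023 b123 b014 b024 b124 b034 b134 b234 b015 b025 b125 b035 b135 b235 b045 b145 b245 b345 b016 b026 b126 b036 b136 b236 b046 b146 b246 b346 b056 b156 b256 b356 b456 : ℕ) : ℕ :=
  (LX17 K b012 b013 b023 b123 b014 b024 b124 b034 b134 b234 b015 b025 b125 b035 b135 b235 b045 b145 b245 b345 0 b026 b126 b036 b136 b236 0 b146 b246 b346 b056 0 b256 b356 0)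

def z55 (R : ℕ → ℕ → ℕ) (BK : ℕ → ℕ → ℕ → ℕ → ℕ → ℕ → ℕ → ℕ → ℕ) (F : ℕ) : ℕ :=
  (ins 26 11 9 (x17 R BK F))

theorem z55_pv (R : ℕ → ℕ → ℕ) (h : rowsChk R = true)
    (BK : ℕ → ℕ → ℕ → ℕ → ℕ → ℕ → ℕ → ℕ → ℕ) (hBK : BlkOK R BK) (F : ℕ) (e0 : ℕ → ℕ) :
    PV 12 (z55 R BK F) (5 * 262143) (fun e =>
      LZ55 (Kr R) (bt F 0) (bt F 1) (bt F 2) (bt F 3) (bt F 4) (bt F 5) (bt F 6) (bt F 7) (bt F 8) (bt F 9) (bt F 10) (bt F 11) (bt F 12) (bt F 13) (bt F 14) (bt F 15) (bt F 16) (bt F 17) (bt F 18) (bt F 19) 0 (e 1) (e 10) (e 3) (e 7) (e 11) 0 (e 0) (e 2) (e 6) (e 4) (e 9) (e 8) (e 5) 0) e0 :=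
  PV.mono (PV.ins 9 rfl rfl (x17_pv R h BK hBK F e0)) rfl

def LZ56 (K : ℕ → ℕ → ℕ → ℕ) (b012 b013 b023 b123 b014 b024 b124 b034 b134 b234 b015 b025 b125 b035 b135 b235 b045 b145 b245 b345 b016 b026 b126 b036 b136 b236 b046 b146 b246 b346 b056 b156 b256 b356 b456 : ℕ) : ℕ :=
  (LX37 K b012 b013 b023 b123 b014 b024 b124 b034 b134 b234 b015 b025 b125 b035 b135 b235 b045 b145 b245 b345 0 b026 b126 b036 0 b236 0 b146 b246 0 b056 b156 b256 b356 b456)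

def z56 (R : ℕ → ℕ → ℕ) (BK : ℕ → ℕ → ℕ → ℕ → ℕ → ℕ → ℕ → ℕ → ℕ) (F : ℕ) : ℕ :=
  (ins 26 11 7 (x37 R BK F))

theorem z56_pv (R : ℕ → ℕ → ℕ) (h : rowsChk R = true)
    (BK : ℕ → ℕ → ℕ → ℕ → ℕ → ℕ → ℕ → ℕ → ℕ) (hBK : BlkOK R BK) (F : ℕ) (e0 : ℕ → ℕ) :
    PV 12 (z56 R BK F) (1 * 262143) (fun e =>
      LZ56 (Kr R) (bt F 0) (bt F 1) (bt F 2) (bt F 3) (bt F 4) (bt F 5) (bt F 6) (bt F 7) (bt F 8) (bt F 9) (bt F 10) (bt F 11) (bt F 12) (bt F 13) (bt F 14) (bt F 15) (bt F 16) (bt F 17) (bt F 18) (bt F 19) 0 (e 1) (e 10) (e 3) (e 7) (e 11) 0 (e 0) (e 2) 0 (e 4) (e 9) (e 8) (e 6) (e 5)) e0 :=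
  PV.mono (PV.ins 7 rfl rfl (x37_pv R h BK hBK F e0)) rfl

def LZ57 (K : ℕ → ℕ → ℕ → ℕ) (b012 b013 b023 b123 b014 b024 b124 b034 b134 b234 b015 b025 b125 b035 b135 b235 b045 b145 b245 b345 b016 b026 b126 b036 b136 b236 b046 b146 b246 b346 b056 b156 b256 b356 b456 : ℕ) : ℕ :=
  (Nat.add (LZ55 K b012 b013 b023 b123 b014 b024 b124 b034 b134 b234 b015 b025 b125 b035 b135 b235 b045 b145 b245 b345 0 b026 b126 b036 b136 b236 0 b146 b246 b346 b056 b156 b256 b356 0)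
      (LZ56 K b012 b013 b023 b123 b014 b024 b124 b034 b134 b234 b015 b025 b125 b035 b135 b235 b045 b145 b245 b345 0 b026 b126 b036 b136 b236 0 b146 b246 0 b056 b156 b256 b356 b456))

def z57 (R : ℕ → ℕ → ℕ) (BK : ℕ → ℕ → ℕ → ℕ → ℕ → ℕ → ℕ → ℕ → ℕ) (F : ℕ) : ℕ :=
  (Nat.add (ins 26 12 5 (z55 R BK F))
      (ins 26 12 6 (z56 R BK F)))

theorem z57_pv (R : ℕ → ℕ → ℕ) (h : rowsChk R = true)
    (BK : ℕ → ℕ → ℕ → ℕ → ℕ → ℕ → ℕ → ℕ → ℕ) (hBK : BlkOK R BK) (F : ℕ) (e0 : ℕ → ℕ) :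
    PV 13 (z57 R BK F) (6 * 262143) (fun e =>
      LZ57 (Kr R) (bt F 0) (bt F 1) (bt F 2) (bt F 3) (bt F 4) (bt F 5) (bt F 6) (bt F 7) (bt F 8) (bt F 9) (bt F 10) (bt F 11) (bt F 12) (bt F 13) (bt F 14) (bt F 15) (bt F 16) (bt F 17) (bt F 18) (bt F 19) 0 (e 1) (e 10) (e 3) (e 7) (e 11) 0 (e 0) (e 2) (e 6) (e 4) (e 9) (e 8) (e 12) (e 5)) e0 :=
  PV.mono (PV.add (PV.ins 5 rfl rfl (z55_pv R h BK hBK F e0))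
      (PV.ins 6 rfl rfl (z56_pv R h BK hBK F e0))) rfl

def LZ58 (K : ℕ → ℕ → ℕ → ℕ) (b012 b013 b023 b123 b014 b024 b124 b034 b134 b234 b015 b025 b125 b035 b135 b235 b045 b145 b245 b345 b016 b026 b126 b036 b136 b236 b046 b146 b246 b346 b056 b156 b256 b356 b456 : ℕ) : ℕ :=
  (Nat.add (LZ54 K b012 b013 b023 b123 b014 b024 b124 b034 b134 b234 b015 b025 b125 b035 b135 b235 b045 b145 b245 b345 b016 b026 b126 0 b136 b236 0 b146 b246 b346 b056 b156 b256 b356 b456)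
      (LZ57 K b012 b013 b023 b123 b014 b024 b124 b034 b134 b234 b015 b025 b125 b035 b135 b235 b045 b145 b245 b345 0 b026 b126 b036 b136 b236 0 b146 b246 b346 b056 b156 b256 b356 b456))

def z58 (R : ℕ → ℕ → ℕ) (BK : ℕ → ℕ → ℕ → ℕ → ℕ → ℕ → ℕ → ℕ → ℕ) (F : ℕ) : ℕ :=
  (Nat.add (ins 26 13 3 (z54 R BK F))
      (ins 26 13 10 (z57 R BK F)))

theorem z58_pv (R : ℕ → ℕ → ℕ) (h : rowsChk R = true)
    (BK : ℕ → ℕ → ℕ → ℕ → ℕ → ℕ → ℕ → ℕ → ℕ) (hBK : BlkOK R BK) (F : ℕ) (e0 : ℕ → ℕ) :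
    PV 14 (z58 R BK F) (13 * 262143) (fun e =>
      LZ58 (Kr R) (bt F 0) (bt F 1) (bt F 2) (bt F 3) (bt F 4) (bt F 5) (bt F 6) (bt F 7) (bt F 8) (bt F 9) (bt F 10) (bt F 11) (bt F 12) (bt F 13) (bt F 14) (bt F 15) (bt F 16) (bt F 17) (bt F 18) (bt F 19) (e 10) (e 1) (e 13) (e 3) (e 7) (e 11) 0 (e 0) (e 2) (e 6) (e 4) (e 9) (e 8) (e 12) (e 5)) e0 :=
  PV.mono (PV.add (PV.ins 3 rfl rfl (z54_pv R h BK hBK F e0))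
      (PV.ins 10 rfl rfl (z57_pv R h BK hBK F e0))) rfl

def LZ59 (K : ℕ → ℕ → ℕ → ℕ) (b012 b013 b023 b123 b014 b024 b124 b034 b134 b234 b015 b025 b125 b035 b135 b235 b045 b145 b245 b345 b016 b026 b126 b036 b136 b236 b046 b146 b246 b346 b056 b156 b256 b356 b456 : ℕ) : ℕ :=
  (LX10 K b012 b013 b023 b123 b014 b024 b124 b034 b134 b234 b015 b025 b125 b035 b135 b235 b045 b145 b245 b345 b016 b026 0 b036 b136 b236 b046 b146 0 b346 b056 0 b256 b356 0)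

def z59 (R : ℕ → ℕ → ℕ) (BK : ℕ → ℕ → ℕ → ℕ → ℕ → ℕ → ℕ → ℕ → ℕ) (F : ℕ) : ℕ :=
  (ins 26 11 2 (x10 R BK F))

theorem z59_pv (R : ℕ → ℕ → ℕ) (h : rowsChk R = true)
    (BK : ℕ → ℕ → ℕ → ℕ → ℕ → ℕ → ℕ → ℕ → ℕ) (hBK : BlkOK R BK) (F : ℕ) (e0 : ℕ → ℕ) :
    PV 12 (z59 R BK F) (1 * 262143) (fun e =>
      LZ59 (Kr R) (bt F 0) (bt F 1) (bt F 2) (bt F 3) (bt F 4) (bt F 5) (bt F 6) (bt F 7) (bt F 8) (bt F 9) (bt F 10) (bt F 11) (bt F 12) (bt F 13) (bt F 14) (bt F 15) (bt F 16) (bt F 17) (bt F 18) (bt F 19) (e 10) (e 1) 0 (e 3) (e 7) (e 11) (e 9) (e 0) 0 (e 6) (e 4) (e 2) (e 8) (e 5) 0) e0 :=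
  PV.mono (PV.ins 2 rfl rfl (x10_pv R h BK hBK F e0)) rfl

def LZ60 (K : ℕ → ℕ → ℕ → ℕ) (b012 b013 b023 b123 b014 b024 b124 b034 b134 b234 b015 b025 b125 b035 b135 b235 b045 b145 b245 b345 b016 b026 b126 b036 b136 b236 b046 b146 b246 b346 b056 b156 b256 b356 b456 : ℕ) : ℕ :=
  (LX32 K b012 b013 b023 b123 b014 b024 b124 b034 b134 b234 b015 b025 b125 b035 b135 b235 b045 b145 b245 b345 b016 b026 0 b036 0 b236 b046 b146 0 0 b056 b156 b256 b356 b456)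

def z60 (R : ℕ → ℕ → ℕ) (BK : ℕ → ℕ → ℕ → ℕ → ℕ → ℕ → ℕ → ℕ → ℕ) (F : ℕ) : ℕ :=
  (ins 26 11 7 (x32 R BK F))

theorem z60_pv (R : ℕ → ℕ → ℕ) (h : rowsChk R = true)
    (BK : ℕ → ℕ → ℕ → ℕ → ℕ → ℕ → ℕ → ℕ → ℕ) (hBK : BlkOK R BK) (F : ℕ) (e0 : ℕ → ℕ) :
    PV 12 (z60 R BK F) (1 * 262143) (fun e =>
      LZ60 (Kr R) (bt F 0) (bt F 1) (bt F 2) (bt F 3) (bt F 4) (bt F 5) (bt F 6) (bt F 7) (bt F 8) (bt F 9) (bt F 10) (bt F 11) (bt F 12) (bt F 13) (bt F 14) (bt F 15) (bt F 16) (bt F 17) (bt F 18) (bt F 19) (e 10) (e 1) 0 (e 3) (e 7) (e 11) (e 9) (e 0) 0 0 (e 4) (e 2) (e 8) (e 6) (e 5)) e0 :=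
  PV.mono (PV.ins 7 rfl rfl (x32_pv R h BK hBK F e0)) rfl

def LZ61 (K : ℕ → ℕ → ℕ → ℕ) (b012 b013 b023 b123 b014 b024 b124 b034 b134 b234 b015 b025 b125 b035 b135 b235 b045 b145 b245 b345 b016 b026 b126 b036 b136 b236 b046 b146 b246 b346 b056 b156 b256 b356 b456 : ℕ) : ℕ :=
  (LX40 K b012 b013 b023 b123 b014 b024 b124 b034 b134 b234 b015 b025 b125 b035 b135 b235 b045 b145 b245 b345 0 b026 0 b036 b136 b236 0 b146 0 b346 b056 b156 b256 b356 b456)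

def z61 (R : ℕ → ℕ → ℕ) (BK : ℕ → ℕ → ℕ → ℕ → ℕ → ℕ → ℕ → ℕ → ℕ) (F : ℕ) : ℕ :=
  (ins 26 11 10 (x40 R BK F))

theorem z61_pv (R : ℕ → ℕ → ℕ) (h : rowsChk R = true)
    (BK : ℕ → ℕ → ℕ → ℕ → ℕ → ℕ → ℕ → ℕ → ℕ) (hBK : BlkOK R BK) (F : ℕ) (e0 : ℕ → ℕ) :
    PV 12 (z61 R BK F) (1 * 262143) (fun e =>
      LZ61 (Kr R) (bt F 0) (bt F 1) (bt F 2) (bt F 3) (bt F 4) (bt F 5) (bt F 6) (bt F 7) (bt F 8) (bt F 9) (bt F 10) (bt F 11) (bt F 12) (bt F 13) (bt F 14) (bt F 15) (bt F 16) (bt F 17) (bt F 18) (bt F 19) (e 10) (e 1) 0 (e 3) (e 7) (e 11) 0 (e 0) 0 (e 6) (e 4) (e 2) (e 8) (e 9) (e 5)) e0 :=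
  PV.mono (PV.ins 10 rfl rfl (x40_pv R h BK hBK F e0)) rfl

def LZ62 (K : ℕ → ℕ → ℕ → ℕ) (b012 b013 b023 b123 b014 b024 b124 b034 b134 b234 b015 b025 b125 b035 b135 b235 b045 b145 b245 b345 b016 b026 b126 b036 b136 b236 b046 b146 b246 b346 b056 b156 b256 b356 b456 : ℕ) : ℕ :=
  (Nat.add (LZ59 K b012 b013 b023 b123 b014 b024 b124 b034 b134 b234 b015 b025 b125 b035 b135 b235 b045 b145 b245 b345 b016 b026 0 b036 b136 b236 b046 b146 0 b346 b056 b156 b256 b356 0)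
      (Nat.add (LZ60 K b012 b013 b023 b123 b014 b024 b124 b034 b134 b234 b015 b025 b125 b035 b135 b235 b045 b145 b245 b345 b016 b026 0 b036 b136 b236 b046 b146 0 0 b056 b156 b256 b356 b456)
      (LZ61 K b012 b013 b023 b123 b014 b024 b124 b034 b134 b234 b015 b025 b125 b035 b135 b235 b045 b145 b245 b345 b016 b026 0 b036 b136 b236 0 b146 0 b346 b056 b156 b256 b356 b456)))

def z62 (R : ℕ → ℕ → ℕ) (BK : ℕ → ℕ → ℕ → ℕ → ℕ → ℕ → ℕ → ℕ → ℕ) (F : ℕ) : ℕ :=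
  (Nat.add (ins 26 12 5 (z59 R BK F))
      (Nat.add (ins 26 12 6 (z60 R BK F))
      (ins 26 12 9 (z61 R BK F))))

theorem z62_pv (R : ℕ → ℕ → ℕ) (h : rowsChk R = true)
    (BK : ℕ → ℕ → ℕ → ℕ → ℕ → ℕ → ℕ → ℕ → ℕ) (hBK : BlkOK R BK) (F : ℕ) (e0 : ℕ → ℕ) :
    PV 13 (z62 R BK F) (3 * 262143) (fun e =>
      LZ62 (Kr R) (bt F 0) (bt F 1) (bt F 2) (bt F 3) (bt F 4) (bt F 5) (bt F 6) (bt F 7) (bt F 8) (bt F 9) (bt F 10) (bt F 11) (bt F 12) (bt F 13) (bt F 14) (bt F 15) (bt F 16) (bt F 17) (bt F 18) (bt F 19) (e 10) (e 1) 0 (e 3) (e 7) (e 11) (e 9) (e 0) 0 (e 6) (e 4) (e 2) (e 8) (e 12) (e 5)) e0 :=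
  PV.mono (PV.add (PV.ins 5 rfl rfl (z59_pv R h BK hBK F e0))
      (PV.add (PV.ins 6 rfl rfl (z60_pv R h BK hBK F e0))
      (PV.ins 9 rfl rfl (z61_pv R h BK hBK F e0)))) rfl

def LZ63 (K : ℕ → ℕ → ℕ → ℕ) (b012 b013 b023 b123 b014 b024 b124 b034 b134 b234 b015 b025 b125 b035 b135 b235 b045 b145 b245 b345 b016 b026 b126 b036 b136 b236 b046 b146 b246 b346 b056 b156 b256 b356 b456 : ℕ) : ℕ :=
  (LZ62 K b012 b013 b023 b123 b014 b024 b124 b034 b134 b234 b015 b025 b125 b035 b135 b235 b045 b145 b245 b345 b016 b026 0 b036 b136 b236 b046 b146 0 b346 b056 b156 b256 b356 b456)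

def z63 (R : ℕ → ℕ → ℕ) (BK : ℕ → ℕ → ℕ → ℕ → ℕ → ℕ → ℕ → ℕ → ℕ) (F : ℕ) : ℕ :=
  (ins 26 13 2 (z62 R BK F))

theorem z63_pv (R : ℕ → ℕ → ℕ) (h : rowsChk R = true)
    (BK : ℕ → ℕ → ℕ → ℕ → ℕ → ℕ → ℕ → ℕ → ℕ) (hBK : BlkOK R BK) (F : ℕ) (e0 : ℕ → ℕ) :
    PV 14 (z63 R BK F) (3 * 262143) (fun e =>
      LZ63 (Kr R) (bt F 0) (bt F 1) (bt F 2) (bt F 3) (bt F 4) (bt F 5) (bt F 6) (bt F 7) (bt F 8) (bt F 9) (bt F 10) (bt F 11) (bt F 12) (bt F 13) (bt F 14) (bt F 15) (bt F 16) (bt F 17) (bt F 18) (bt F 19) (e 10) (e 1) 0 (e 3) (e 7) (e 11) (e 9) (e 0) (e 2) (e 6) (e 4) (e 13) (e 8) (e 12) (e 5)) e0 :=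
  PV.mono (PV.ins 2 rfl rfl (z62_pv R h BK hBK F e0)) rfl

def LZ64 (K : ℕ → ℕ → ℕ → ℕ) (b012 b013 b023 b123 b014 b024 b124 b034 b134 b234 b015 b025 b125 b035 b135 b235 b045 b145 b245 b345 b016 b026 b126 b036 b136 b236 b046 b146 b246 b346 b056 b156 b256 b356 b456 : ℕ) : ℕ :=
  (LX26 K b012 b013 b023 b123 b014 b024 b124 b034 b134 b234 b015 b025 b125 b035 b135 b235 b045 b145 b245 b345 0 b026 b126 0 b136 b236 b046 b146 b246 b346 b056 0 b256 0 b456)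

def z64 (R : ℕ → ℕ → ℕ) (BK : ℕ → ℕ → ℕ → ℕ → ℕ → ℕ → ℕ → ℕ → ℕ) (F : ℕ) : ℕ :=
  (ins 26 11 3 (x26 R BK F))

theorem z64_pv (R : ℕ → ℕ → ℕ) (h : rowsChk R = true)
    (BK : ℕ → ℕ → ℕ → ℕ → ℕ → ℕ → ℕ → ℕ → ℕ) (hBK : BlkOK R BK) (F : ℕ) (e0 : ℕ → ℕ) :
    PV 12 (z64 R BK F) (1 * 262143) (fun e =>
      LZ64 (Kr R) (bt F 0) (bt F 1) (bt F 2) (bt F 3) (bt F 4) (bt F 5) (bt F 6) (bt F 7) (bt F 8) (bt F 9) (bt F 10) (bt F 11) (bt F 12) (bt F 13) (bt F 14) (bt F 15) (bt F 16) (bt F 17) (bt F 18) (bt F 19) 0 (e 1) (e 10) 0 (e 7) (e 11) (e 9) (e 0) (e 2) (e 6) (e 4) (e 3) (e 8) 0 (e 5)) e0 :=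
  PV.mono (PV.ins 3 rfl rfl (x26_pv R h BK hBK F e0)) rfl

def LZ65 (K : ℕ → ℕ → ℕ → ℕ) (b012 b013 b023 b123 b014 b024 b124 b034 b134 b234 b015 b025 b125 b035 b135 b235 b045 b145 b245 b345 b016 b026 b126 b036 b136 b236 b046 b146 b246 b346 b056 b156 b256 b356 b456 : ℕ) : ℕ :=
  (LX43 K b012 b013 b023 b123 b014 b024 b124 b034 b134 b234 b015 b025 b125 b035 b135 b235 b045 b145 b245 b345 0 b026 0 0 b136 0 b046 b146 b246 b346 b056 b156 b256 b356 b456)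

def z65 (R : ℕ → ℕ → ℕ) (BK : ℕ → ℕ → ℕ → ℕ → ℕ → ℕ → ℕ → ℕ → ℕ) (F : ℕ) : ℕ :=
  (ins 26 11 11 (x43 R BK F))

theorem z65_pv (R : ℕ → ℕ → ℕ) (h : rowsChk R = true)
    (BK : ℕ → ℕ → ℕ → ℕ → ℕ → ℕ → ℕ → ℕ → ℕ) (hBK : BlkOK R BK) (F : ℕ) (e0 : ℕ → ℕ) :
    PV 12 (z65 R BK F) (1 * 262143) (fun e =>
      LZ65 (Kr R) (bt F 0) (bt F 1) (bt F 2) (bt F 3) (bt F 4) (bt F 5) (bt F 6) (bt F 7) (bt F 8) (bt F 9) (bt F 10) (bt F 11) (bt F 12) (bt F 13) (bt F 14) (bt F 15) (bt F 16) (bt F 17) (bt F 18) (bt F 19) 0 (e 1) 0 0 (e 7) (e 11) (e 9) (e 0) (e 2) (e 6) (e 4) (e 3) (e 8) (e 10) (e 5)) e0 :=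
  PV.mono (PV.ins 11 rfl rfl (x43_pv R h BK hBK F e0)) rfl

def LZ66 (K : ℕ → ℕ → ℕ → ℕ) (b012 b013 b023 b123 b014 b024 b124 b034 b134 b234 b015 b025 b125 b035 b135 b235 b045 b145 b245 b345 b016 b026 b126 b036 b136 b236 b046 b146 b246 b346 b056 b156 b256 b356 b456 : ℕ) : ℕ :=
  (Nat.add (LZ64 K b012 b013 b023 b123 b014 b024 b124 b034 b134 b234 b015 b025 b125 b035 b135 b235 b045 b145 b245 b345 0 b026 b126 0 b136 b236 b046 b146 b246 b346 b056 b156 b256 0 b456)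
      (LZ65 K b012 b013 b023 b123 b014 b024 b124 b034 b134 b234 b015 b025 b125 b035 b135 b235 b045 b145 b245 b345 0 b026 0 0 b136 b236 b046 b146 b246 b346 b056 b156 b256 b356 b456))

def z66 (R : ℕ → ℕ → ℕ) (BK : ℕ → ℕ → ℕ → ℕ → ℕ → ℕ → ℕ → ℕ → ℕ) (F : ℕ) : ℕ :=
  (Nat.add (ins 26 12 12 (z64 R BK F))
      (ins 26 12 10 (z65 R BK F)))

theorem z66_pv (R : ℕ → ℕ → ℕ) (h : rowsChk R = true)
    (BK : ℕ → ℕ → ℕ → ℕ → ℕ → ℕ → ℕ → ℕ → ℕ) (hBK : BlkOK R BK) (F : ℕ) (e0 : ℕ → ℕ) :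
    PV 13 (z66 R BK F) (2 * 262143) (fun e =>
      LZ66 (Kr R) (bt F 0) (bt F 1) (bt F 2) (bt F 3) (bt F 4) (bt F 5) (bt F 6) (bt F 7) (bt F 8) (bt F 9) (bt F 10) (bt F 11) (bt F 12) (bt F 13) (bt F 14) (bt F 15) (bt F 16) (bt F 17) (bt F 18) (bt F 19) 0 (e 1) (e 10) 0 (e 7) (e 11) (e 9) (e 0) (e 2) (e 6) (e 4) (e 3) (e 8) (e 12) (e 5)) e0 :=
  PV.mono (PV.add (PV.ins 12 rfl rfl (z64_pv R h BK hBK F e0))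
      (PV.ins 10 rfl rfl (z65_pv R h BK hBK F e0))) rfl

def LZ67 (K : ℕ → ℕ → ℕ → ℕ) (b012 b013 b023 b123 b014 b024 b124 b034 b134 b234 b015 b025 b125 b035 b135 b235 b045 b145 b245 b345 b016 b026 b126 b036 b136 b236 b046 b146 b246 b346 b056 b156 b256 b356 b456 : ℕ) : ℕ :=
  (LX35 K b012 b013 b023 b123 b014 b024 b124 b034 b134 b234 b015 b025 b125 b035 b135 b235 b045 b145 b245 b345 b016 0 b126 0 b136 b236 b046 b146 0 0 b056 b156 b256 b356 b456)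

def z67 (R : ℕ → ℕ → ℕ) (BK : ℕ → ℕ → ℕ → ℕ → ℕ → ℕ → ℕ → ℕ → ℕ) (F : ℕ) : ℕ :=
  (ins 26 11 2 (x35 R BK F))

theorem z67_pv (R : ℕ → ℕ → ℕ) (h : rowsChk R = true)
    (BK : ℕ → ℕ → ℕ → ℕ → ℕ → ℕ → ℕ → ℕ → ℕ) (hBK : BlkOK R BK) (F : ℕ) (e0 : ℕ → ℕ) :
    PV 12 (z67 R BK F) (1 * 262143) (fun e =>
      LZ67 (Kr R) (bt F 0) (bt F 1) (bt F 2) (bt F 3) (bt F 4) (bt F 5) (bt F 6) (bt F 7) (bt F 8) (bt F 9) (bt F 10) (bt F 11) (bt F 12) (bt F 13) (bt F 14) (bt F 15) (bt F 16) (bt F 17) (bt F 18) (bt F 19) (e 10) 0 (e 1) 0 (e 7) (e 11) (e 9) (e 0) (e 2) 0 (e 4) (e 3) (e 8) (e 6) (e 5)) e0 :=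
  PV.mono (PV.ins 2 rfl rfl (x35_pv R h BK hBK F e0)) rfl

def LZ68 (K : ℕ → ℕ → ℕ → ℕ) (b012 b013 b023 b123 b014 b024 b124 b034 b134 b234 b015 b025 b125 b035 b135 b235 b045 b145 b245 b345 b016 b026 b126 b036 b136 b236 b046 b146 b246 b346 b056 b156 b256 b356 b456 : ℕ) : ℕ :=
  (LX42 K b012 b013 b023 b123 b014 b024 b124 b034 b134 b234 b015 b025 b125 b035 b135 b235 b045 b145 b245 b345 b016 0 0 0 0 b236 b046 b146 b246 b346 b056 b156 b256 b356 b456)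

def z68 (R : ℕ → ℕ → ℕ) (BK : ℕ → ℕ → ℕ → ℕ → ℕ → ℕ → ℕ → ℕ → ℕ) (F : ℕ) : ℕ :=
  (ins 26 11 1 (x42 R BK F))

theorem z68_pv (R : ℕ → ℕ → ℕ) (h : rowsChk R = true)
    (BK : ℕ → ℕ → ℕ → ℕ → ℕ → ℕ → ℕ → ℕ → ℕ) (hBK : BlkOK R BK) (F : ℕ) (e0 : ℕ → ℕ) :
    PV 12 (z68 R BK F) (1 * 262143) (fun e =>
      LZ68 (Kr R) (bt F 0) (bt F 1) (bt F 2) (bt F 3) (bt F 4) (bt F 5) (bt F 6) (bt F 7) (bt F 8) (bt F 9) (bt F 10) (bt F 11) (bt F 12) (bt F 13) (bt F 14) (bt F 15) (bt F 16) (bt F 17) (bt F 18) (bt F 19) (e 10) 0 (e 1) 0 0 (e 11) (e 9) (e 0) (e 2) (e 6) (e 4) (e 3) (e 8) (e 7) (e 5)) e0 :=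
  PV.mono (PV.ins 1 rfl rfl (x42_pv R h BK hBK F e0)) rfl

def LZ69 (K : ℕ → ℕ → ℕ → ℕ) (b012 b013 b023 b123 b014 b024 b124 b034 b134 b234 b015 b025 b125 b035 b135 b235 b045 b145 b245 b345 b016 b026 b126 b036 b136 b236 b046 b146 b246 b346 b056 b156 b256 b356 b456 : ℕ) : ℕ :=
  (Nat.add (LZ67 K b012 b013 b023 b123 b014 b024 b124 b034 b134 b234 b015 b025 b125 b035 b135 b235 b045 b145 b245 b345 b016 0 b126 0 b136 b236 b046 b146 b246 0 b056 b156 b256 b356 b456)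
      (LZ68 K b012 b013 b023 b123 b014 b024 b124 b034 b134 b234 b015 b025 b125 b035 b135 b235 b045 b145 b245 b345 b016 0 b126 0 0 b236 b046 b146 b246 b346 b056 b156 b256 b356 b456))

def z69 (R : ℕ → ℕ → ℕ) (BK : ℕ → ℕ → ℕ → ℕ → ℕ → ℕ → ℕ → ℕ → ℕ) (F : ℕ) : ℕ :=
  (Nat.add (ins 26 12 6 (z67 R BK F))
      (ins 26 12 7 (z68 R BK F)))

theorem z69_pv (R : ℕ → ℕ → ℕ) (h : rowsChk R = true)
    (BK : ℕ → ℕ → ℕ → ℕ → ℕ → ℕ → ℕ → ℕ → ℕ) (hBK : BlkOK R BK) (F : ℕ) (e0 : ℕ → ℕ) :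
    PV 13 (z69 R BK F) (2 * 262143) (fun e =>
      LZ69 (Kr R) (bt F 0) (bt F 1) (bt F 2) (bt F 3) (bt F 4) (bt F 5) (bt F 6) (bt F 7) (bt F 8) (bt F 9) (bt F 10) (bt F 11) (bt F 12) (bt F 13) (bt F 14) (bt F 15) (bt F 16) (bt F 17) (bt F 18) (bt F 19) (e 10) 0 (e 1) 0 (e 7) (e 11) (e 9) (e 0) (e 2) (e 6) (e 4) (e 3) (e 8) (e 12) (e 5)) e0 :=
  PV.mono (PV.add (PV.ins 6 rfl rfl (z67_pv R h BK hBK F e0))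
      (PV.ins 7 rfl rfl (z68_pv R h BK hBK F e0))) rfl

def LZ70 (K : ℕ → ℕ → ℕ → ℕ) (b012 b013 b023 b123 b014 b024 b124 b034 b134 b234 b015 b025 b125 b035 b135 b235 b045 b145 b245 b345 b016 b026 b126 b036 b136 b236 b046 b146 b246 b346 b056 b156 b256 b356 b456 : ℕ) : ℕ :=
  (Nat.add (LZ66 K b012 b013 b023 b123 b014 b024 b124 b034 b134 b234 b015 b025 b125 b035 b135 b235 b045 b145 b245 b345 0 b026 b126 0 b136 b236 b046 b146 b246 b346 b056 b156 b256 b356 b456)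
      (LZ69 K b012 b013 b023 b123 b014 b024 b124 b034 b134 b234 b015 b025 b125 b035 b135 b235 b045 b145 b245 b345 b016 0 b126 0 b136 b236 b046 b146 b246 b346 b056 b156 b256 b356 b456))

def z70 (R : ℕ → ℕ → ℕ) (BK : ℕ → ℕ → ℕ → ℕ → ℕ → ℕ → ℕ → ℕ → ℕ) (F : ℕ) : ℕ :=
  (Nat.add (ins 26 13 10 (z66 R BK F))
      (ins 26 13 1 (z69 R BK F)))

theorem z70_pv (R : ℕ → ℕ → ℕ) (h : rowsChk R = true)
    (BK : ℕ → ℕ → ℕ → ℕ → ℕ → ℕ → ℕ → ℕ → ℕ) (hBK : BlkOK R BK) (F : ℕ) (e0 : ℕ → ℕ) :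
    PV 14 (z70 R BK F) (4 * 262143) (fun e =>
      LZ70 (Kr R) (bt F 0) (bt F 1) (bt F 2) (bt F 3) (bt F 4) (bt F 5) (bt F 6) (bt F 7) (bt F 8) (bt F 9) (bt F 10) (bt F 11) (bt F 12) (bt F 13) (bt F 14) (bt F 15) (bt F 16) (bt F 17) (bt F 18) (bt F 19) (e 10) (e 1) (e 13) 0 (e 7) (e 11) (e 9) (e 0) (e 2) (e 6) (e 4) (e 3) (e 8) (e 12) (e 5)) e0 :=
  PV.mono (PV.add (PV.ins 10 rfl rfl (z66_pv R h BK hBK F e0))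
      (PV.ins 1 rfl rfl (z69_pv R h BK hBK F e0))) rfl

def LS (K : ℕ → ℕ → ℕ → ℕ) (b012 b013 b023 b123 b014 b024 b124 b034 b134 b234 b015 b025 b125 b035 b135 b235 b045 b145 b245 b345 b016 b026 b126 b036 b136 b236 b046 b146 b246 b346 b056 b156 b256 b356 b456 : ℕ) : ℕ :=
  (Nat.add (Nat.add (Nat.add (LZ7 K b012 b013 b023 b123 b014 b024 b124 b034 b134 b234 b015 b025 b125 b035 b135 b235 b045 b145 b245 b345 b016 b026 b126 b036 b136 b236 b046 b146 b246 b346 b056 b156 0 b356 b456)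
      (LZ18 K b012 b013 b023 b123 b014 b024 b124 b034 b134 b234 b015 b025 b125 b035 b135 b235 b045 b145 b245 b345 b016 b026 b126 b036 b136 0 b046 b146 b246 b346 b056 b156 b256 b356 b456))
      (Nat.add (LZ30 K b012 b013 b023 b123 b014 b024 b124 b034 b134 b234 b015 b025 b125 b035 b135 b235 b045 b145 b245 b345 b016 b026 b126 b036 b136 b236 b046 0 b246 b346 b056 b156 b256 b356 b456)
      (LZ34 K b012 b013 b023 b123 b014 b024 b124 b034 b134 b234 b015 b025 b125 b035 b135 b235 b045 b145 b245 b345 b016 b026 b126 b036 b136 b236 b046 b146 b246 b346 b056 b156 b256 b356 0)))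
      (Nat.add (Nat.add (LZ50 K b012 b013 b023 b123 b014 b024 b124 b034 b134 b234 b015 b025 b125 b035 b135 b235 b045 b145 b245 b345 b016 b026 b126 b036 b136 b236 b046 b146 b246 b346 0 b156 b256 b356 b456)
      (LZ58 K b012 b013 b023 b123 b014 b024 b124 b034 b134 b234 b015 b025 b125 b035 b135 b235 b045 b145 b245 b345 b016 b026 b126 b036 b136 b236 0 b146 b246 b346 b056 b156 b256 b356 b456))
      (Nat.add (LZ63 K b012 b013 b023 b123 b014 b024 b124 b034 b134 b234 b015 b025 b125 b035 b135 b235 b045 b145 b245 b345 b016 b026 0 b036 b136 b236 b046 b146 b246 b346 b056 b156 b256 b356 b456)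
      (LZ70 K b012 b013 b023 b123 b014 b024 b124 b034 b134 b234 b015 b025 b125 b035 b135 b235 b045 b145 b245 b345 b016 b026 b126 0 b136 b236 b046 b146 b246 b346 b056 b156 b256 b356 b456))))

def tot (R : ℕ → ℕ → ℕ) (BK : ℕ → ℕ → ℕ → ℕ → ℕ → ℕ → ℕ → ℕ → ℕ) (F : ℕ) : ℕ :=
  (Nat.add (Nat.add (Nat.add (ins 26 14 8 (z7 R BK F))
      (ins 26 14 11 (z18 R BK F)))
      (Nat.add (ins 26 14 0 (z30 R BK F))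
      (ins 26 14 5 (z34 R BK F))))
      (Nat.add (Nat.add (ins 26 14 4 (z50 R BK F))
      (ins 26 14 9 (z58 R BK F)))
      (Nat.add (ins 26 14 13 (z63 R BK F))
      (ins 26 14 3 (z70 R BK F)))))

theorem tot_pv (R : ℕ → ℕ → ℕ) (h : rowsChk R = true)
    (BK : ℕ → ℕ → ℕ → ℕ → ℕ → ℕ → ℕ → ℕ → ℕ) (hBK : BlkOK R BK) (F : ℕ) (e0 : ℕ → ℕ) :
    PV 15 (tot R BK F) (105 * 262143) (fun e =>
      LS (Kr R) (bt F 0) (bt F 1) (bt F 2) (bt F 3) (bt F 4) (bt F 5) (bt F 6) (bt F 7) (bt F 8) (bt F 9) (bt F 10) (bt F 11) (bt F 12) (bt F 13) (bt F 14) (bt F 15) (bt F 16) (bt F 17) (bt F 18) (bt F 19) (e 10) (e 1) (e 13) (e 3) (e 7) (e 11) (e 9) (e 0) (e 2) (e 6) (e 4) (e 14) (e 8) (e 12) (e 5)) e0 :=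
  PV.mono (PV.add (PV.add (PV.add (PV.ins 8 rfl rfl (z7_pv R h BK hBK F e0))
      (PV.ins 11 rfl rfl (z18_pv R h BK hBK F e0)))
      (PV.add (PV.ins 0 rfl rfl (z30_pv R h BK hBK F e0))
      (PV.ins 5 rfl rfl (z34_pv R h BK hBK F e0))))
      (PV.add (PV.add (PV.ins 4 rfl rfl (z50_pv R h BK hBK F e0))
      (PV.ins 9 rfl rfl (z58_pv R h BK hBK F e0)))
      (PV.add (PV.ins 13 rfl rfl (z63_pv R h BK hBK F e0))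
      (PV.ins 3 rfl rfl (z70_pv R h BK hBK F e0))))) rfl

theorem LS_eq (K : ℕ → ℕ → ℕ → ℕ) (b012 b013 b023 b123 b014 b024 b124 b034 b134 b234 b015 b025 b125 b035 b135 b235 b045 b145 b245 b345 b016 b026 b126 b036 b136 b236 b046 b146 b246 b346 b056 b156 b256 b356 b456 : ℕ) :
    LS K b012 b013 b023 b123 b014 b024 b124 b034 b134 b234 b015 b025 b125 b035 b135 b235 b045 b145 b245 b345 b016 b026 b126 b036 b136 b236 b046 b146 b246 b346 b056 b156 b256 b356 b456 = S7B K b012 b013 b023 b123 b014 b024 b124 b034 b134 b234 b015 b025 b125 b035 b135 b235 b045 b145 b245 b345 b016 b026 b126 b036 b136 b236 b046 b146 b246 b346 b056 b156 b256 b356 b456 := by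
  unfold S7B
  simp only [LZ0, LZ1, LZ2, LZ3, LZ4, LZ5, LZ6, LZ7, LZ8, LZ9, LZ10, LZ11, LZ12, LZ13, LZ14, LZ15, LZ16, LZ17, LZ18, LZ19, LZ20, LZ21, LZ22, LZ23, LZ24, LZ25, LZ26, LZ27, LZ28, LZ29, LZ30, LZ31, LZ32, LZ33, LZ34, LZ35, LZ36, LZ37, LZ38, LZ39, LZ40, LZ41, LZ42, LZ43, LZ44, LZ45, LZ46, LZ47, LZ48, LZ49, LZ50, LZ51, LZ52, LZ53, LZ54, LZ55, LZ56, LZ57, LZ58, LZ59, LZ60, LZ61, LZ62, LZ63, LZ64, LZ65, LZ66, LZ67, LZ68, LZ69, LZ70, LS, LX0, LX1, LX2, LX3, LX4, LX5, LX6, LX7, LX8, LX9, LX10, LX11, LX12, LX13, LX14, LX15, LX16, LX17, LX18, LX19, LX20, LX21, LX22, LX23, LX24, LX25, LX26, LX27, LX28, LX29, LX30, LX31, LX32, LX33, LX34, LX35, LX36, LX37, LX38, LX39, LX40, LX41, LX42, LX43, LX44, Nat.add_eq]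
  ring

end Pool.Agent.H6N7
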