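import Mathlib

set_option autoImplicit false

/-!
# Packed vectors

A function of `k` bits is packed into one natural number with `2 ^ k` lanes of width `w`.
-/

namespace Pool.Agent.H6N7

/-- change of the environment: bit number `k` becomes `b` -/
def upd (e : ℕ → ℕ) (k b : ℕ) : ℕ → ℕ := fun p => if p = k then b else e p

theorem upd_same (e : ℕ → ℕ) (k b : ℕ) : upd e k b k = b := if_pos rfl

theorem upd_ne (e : ℕ → ℕ) {k p : ℕ} (b : ℕ) (h : p ≠ k) : upd e k b p = e p := if_neg h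

theorem upd_upd_same (e : ℕ → ℕ) (k b c : ℕ) : upd (upd e k b) k c = upd e k c := by
  funext p
  unfold upd
  split_ifs <;> rfl

theorem upd_comm (e : ℕ → ℕ) {k l : ℕ} (b c : ℕ) (h : k ≠ l) :
    upd (upd e k b) l c = upd (upd e l c) k b := by
  funext p
  unfold upd
  split_ifs with h1 h2
  · subst h1
    exact absurd h2.symm h
  · rfl
  · rfl
  · rfl

/-- packed vector with `2 ^ k` lanes of width `w` -/
def pk (w : ℕ) : ℕ → ((ℕ → ℕ) → ℕ) → (ℕ → ℕ) → ℕ
  | 0, h, e => h e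
  | k + 1, h, e => pk w k h (upd e k 0) + 2 ^ (w * 2 ^ k) * pk w k h (upd e k 1)

/-- `e'` is obtained from `e` by changing the bits below `k` to `0` or `1` -/
def Reach (k : ℕ) (e e' : ℕ → ℕ) : Prop :=
  (∀ p, k ≤ p → e' p = e p) ∧ ∀ p, p < k → e' p = 0 ∨ e' p = 1

theorem reach_zero (e : ℕ → ℕ) : Reach 0 e e := ⟨fun _ _ => rfl, fun p hp => absurd hp (by omega)⟩

theorem reach_succ {k b : ℕ} {e e' : ℕ → ℕ} (hb : b = 0 ∨ b = 1) (h : Reach k (upd e k b) e') :
    Reach (k + 1) e e' := by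
  constructor
  · intro p hp
    rw [h.1 p (by omega), upd_ne _ _ (by omega)]
  · intro p hp
    rcases Nat.lt_succ_iff_lt_or_eq.mp hp with h1 | h1
    · exact h.2 p h1
    · subst h1
      rw [h.1 p le_rfl, upd_same]
      exact hb

theorem reach_of_succ {k : ℕ} {e e' : ℕ → ℕ} (h : Reach (k + 1) e e') :
    Reach k (upd e k (e' k)) e' := by
  constructor
  · intro p hp
    rcases Nat.eq_or_lt_of_le hp with h1 | h1
    · subst h1
      rw [upd_same]
    · rw [upd_ne _ _ (by omega)]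
      exact h.1 p h1
  · intro p hp
    exact h.2 p (by omega)

theorem pk_congr (w k : ℕ) (h h' : (ℕ → ℕ) → ℕ) (e : ℕ → ℕ)
    (H : ∀ e', Reach k e e' → h e' = h' e') : pk w k h e = pk w k h' e := by
  induction k generalizing e with
  | zero => exact H e (reach_zero e)
  | succ k ih =>
    rw [pk, pk, ih (upd e k 0) (fun e' he => H e' (reach_succ (Or.inl rfl) he)),
      ih (upd e k 1) (fun e' he => H e' (reach_succ (Or.inr rfl) he))]

theorem pk_congr_env (w k : ℕ) (h h' : (ℕ → ℕ) → ℕ) (e1 e2 : ℕ → ℕ)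
    (H : ∀ a b, Reach k e1 a → Reach k e2 b → (∀ p, p < k → a p = b p) → h a = h' b) :
    pk w k h e1 = pk w k h' e2 := by
  induction k generalizing e1 e2 with
  | zero => exact H e1 e2 (reach_zero _) (reach_zero _) (fun p hp => absurd hp (by omega))
  | succ k ih =>
    rw [pk, pk]
    have key : ∀ c, c = 0 ∨ c = 1 → pk w k h (upd e1 k c) = pk w k h' (upd e2 k c) := by
      intro c hc
      refine ih _ _ (fun a b ha hb hab => H a b (reach_succ hc ha) (reach_succ hc hb) ?_)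
      intro p hp
      rcases Nat.lt_succ_iff_lt_or_eq.mp hp with h1 | h1
      · exact hab p h1
      · subst h1
        rw [ha.1 p le_rfl, hb.1 p le_rfl, upd_same, upd_same]
    rw [key 0 (Or.inl rfl), key 1 (Or.inr rfl)]

theorem pk_add (w k : ℕ) (h h' : (ℕ → ℕ) → ℕ) (e : ℕ → ℕ) :
    pk w k (fun e => h e + h' e) e = pk w k h e + pk w k h' e := by
  induction k generalizing e with
  | zero => rfl
  | succ k ih =>
    rw [pk, pk, pk, ih, ih]
    ring

theorem pk_mul (w k c : ℕ) (h : (ℕ → ℕ) → ℕ) (e : ℕ → ℕ) :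
    pk w k (fun e => c * h e) e = c * pk w k h e := by
  induction k generalizing e with
  | zero => rfl
  | succ k ih =>
    rw [pk, pk, ih, ih]
    ring

theorem pk_lt (w k : ℕ) (h : (ℕ → ℕ) → ℕ) (e : ℕ → ℕ) (H : ∀ e', h e' < 2 ^ w) :
    pk w k h e < 2 ^ (w * 2 ^ k) := by
  induction k generalizing e with
  | zero => simpa [pk] using H e
  | succ k ih =>
    rw [pk]
    have h0 := ih (upd e k 0)
    have h1 := ih (upd e k 1)
    have e2 : 2 ^ (w * 2 ^ (k + 1)) = 2 ^ (w * 2 ^ k) * 2 ^ (w * 2 ^ k) := by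
      rw [← pow_add]
      congr 1
      ring
    rw [e2]
    nlinarith

/-! ### Low and high parts -/

theorem land_mask (x n : ℕ) : Nat.land x (2 ^ n - 1) = x % 2 ^ n := Nat.and_two_pow_sub_one_eq_mod x n

/-- the half of the vector where the top bit is `b` -/
def sel (w k b x : ℕ) : ℕ :=
  cond (Nat.beq b 0) (Nat.land x (Nat.sub (Nat.pow 2 (Nat.mul w (Nat.pow 2 k))) 1))
    (Nat.shiftRight x (Nat.mul w (Nat.pow 2 k)))

theorem sel_pk (w k b : ℕ) (h : (ℕ → ℕ) → ℕ) (e : ℕ → ℕ) (H : ∀ e', h e' < 2 ^ w)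
    (hb : b = 0 ∨ b = 1) : sel w k b (pk w (k + 1) h e) = pk w k h (upd e k b) := by
  have h0 := pk_lt w k h (upd e k 0) H
  have h1 := pk_lt w k h (upd e k 1) H
  have hpos : 0 < 2 ^ (w * 2 ^ k) := Nat.two_pow_pos _
  rcases hb with rfl | rfl
  · show Nat.land (pk w (k + 1) h e) (2 ^ (w * 2 ^ k) - 1) = _
    rw [land_mask, pk, Nat.add_mul_mod_self_left, Nat.mod_eq_of_lt h0]
  · show (pk w (k + 1) h e) >>> (w * 2 ^ k) = _
    rw [Nat.shiftRight_eq_div_pow, pk, Nat.add_mul_div_left _ _ hpos, Nat.div_eq_of_lt h0, zero_add]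

/-! ### Masks -/

theorem land_split (n a b c d : ℕ) (ha : a < 2 ^ n) (hc : c < 2 ^ n) :
    Nat.land (a + 2 ^ n * b) (c + 2 ^ n * d) = Nat.land a c + 2 ^ n * Nat.land b d := by
  apply Nat.eq_of_testBit_eq
  intro i
  show ((a + 2 ^ n * b) &&& (c + 2 ^ n * d)).testBit i = ((a &&& c) + 2 ^ n * (b &&& d)).testBit i
  rw [Nat.testBit_and, add_comm a, add_comm c, add_comm (a &&& c),
    Nat.testBit_two_pow_mul_add _ ha, Nat.testBit_two_pow_mul_add _ hc,
    Nat.testBit_two_pow_mul_add _ (lt_of_le_of_lt Nat.and_le_left ha)]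
  split_ifs
  · rw [Nat.testBit_and]
  · rw [Nat.testBit_and]

/-- masks: lanes where `P` holds have all bits set -/
theorem land_pk (w k : ℕ) (h : (ℕ → ℕ) → ℕ) (P : (ℕ → ℕ) → Bool) (e : ℕ → ℕ)
    (H : ∀ e', h e' < 2 ^ w) :
    Nat.land (pk w k h e) (pk w k (fun e => cond (P e) (2 ^ w - 1) 0) e)
      = pk w k (fun e => cond (P e) (h e) 0) e := by
  have hw : 0 < 2 ^ w := Nat.two_pow_pos _
  have hM : ∀ e', (fun e => cond (P e) (2 ^ w - 1) 0) e' < 2 ^ w := by
    intro e'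
    show cond (P e') (2 ^ w - 1) 0 < 2 ^ w
    cases P e'
    · exact hw
    · exact Nat.sub_lt hw one_pos
  induction k generalizing e with
  | zero =>
    show Nat.land (h e) (cond (P e) (2 ^ w - 1) 0) = cond (P e) (h e) 0
    cases P e
    · exact Nat.and_zero _
    · show Nat.land (h e) (2 ^ w - 1) = h e
      rw [land_mask, Nat.mod_eq_of_lt (H e)]
  | succ k ih =>
    rw [pk, pk, pk, land_split _ _ _ _ _ (pk_lt w k h _ H) (pk_lt w k _ _ hM), ih, ih]

/-- all lanes equal to one -/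
def ones (w : ℕ) : ℕ → ℕ
  | 0 => 1
  | k + 1 => Nat.add (ones w k) (Nat.shiftLeft (ones w k) (Nat.mul w (Nat.pow 2 k)))

theorem shl (x n : ℕ) : Nat.shiftLeft x n = 2 ^ n * x := by
  show x <<< n = _
  rw [Nat.shiftLeft_eq, mul_comm]

theorem ones_eq (w k : ℕ) (e : ℕ → ℕ) : ones w k = pk w k (fun _ => 1) e := by
  induction k generalizing e with
  | zero => rfl
  | succ k ih =>
    rw [ones, pk, ← ih, ← ih, shl]
    rfl

end Pool.Agent.H6N7
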