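import Pool.Agent.H6N7.Pk

set_option autoImplicit false

/-!
# Packed vectors: exchange and insertion of index bits, comparison
-/

namespace Pool.Agent.H6N7

theorem pk_zero (w k : ℕ) (e : ℕ → ℕ) : pk w k (fun _ => 0) e = 0 := by
  induction k generalizing e with
  | zero => rfl
  | succ k ih => rw [pk, ih, ih]; simp

theorem xpow (w k : ℕ) : 2 ^ (w * 2 ^ (k + 1)) = 2 ^ (w * 2 ^ k) * 2 ^ (w * 2 ^ k) := by
  rw [← pow_add]
  congr 1
  ring

theorem land_pk2 (w k : ℕ) (h h' : (ℕ → ℕ) → ℕ) (e : ℕ → ℕ)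
    (H : ∀ e', h e' < 2 ^ w) (H' : ∀ e', h' e' < 2 ^ w) :
    Nat.land (pk w k h e) (pk w k h' e) = pk w k (fun e => Nat.land (h e) (h' e)) e := by
  induction k generalizing e with
  | zero => rfl
  | succ k ih =>
    rw [pk, pk, pk, land_split _ _ _ _ _ (pk_lt w k h _ H) (pk_lt w k _ _ H'), ih, ih]

/-- comparison of two packed vectors -/
theorem pk_inj (w k : ℕ) (h h' : (ℕ → ℕ) → ℕ) (e : ℕ → ℕ)
    (H : ∀ e', h e' < 2 ^ w) (H' : ∀ e', h' e' < 2 ^ w) (heq : pk w k h e = pk w k h' e) :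
    ∀ e', Reach k e e' → h e' = h' e' := by
  induction k generalizing e with
  | zero =>
    intro e' he
    have : e' = e := funext (fun p => he.1 p (Nat.zero_le p))
    rw [this]
    exact heq
  | succ k ih =>
    intro e' he
    rw [pk, pk] at heq
    have a0 := pk_lt w k h (upd e k 0) H
    have b0 := pk_lt w k h' (upd e k 0) H'
    have hpos : 0 < 2 ^ (w * 2 ^ k) := Nat.two_pow_pos _
    have e0 : pk w k h (upd e k 0) = pk w k h' (upd e k 0) := by
      have := congrArg (· % 2 ^ (w * 2 ^ k)) heq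
      simpa [Nat.add_mul_mod_self_left, Nat.mod_eq_of_lt a0, Nat.mod_eq_of_lt b0] using this
    have e1 : pk w k h (upd e k 1) = pk w k h' (upd e k 1) := by
      rw [e0] at heq
      have := Nat.add_left_cancel heq
      exact Nat.eq_of_mul_eq_mul_left hpos this
    rcases he.2 k (Nat.lt_succ_self k) with h2 | h2
    · refine ih (upd e k 0) e0 e' ?_
      rw [← h2]
      exact reach_of_succ he
    · refine ih (upd e k 1) e1 e' ?_
      rw [← h2]
      exact reach_of_succ he

/-! ### Masks for one index bit -/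

def full (w k : ℕ) : ℕ := Nat.sub (Nat.pow 2 (Nat.mul w (Nat.pow 2 k))) 1

theorem full_eq (w k : ℕ) (e : ℕ → ℕ) : full w k = pk w k (fun _ => 2 ^ w - 1) e := by
  have hw : ∀ m, 0 < 2 ^ m := fun m => Nat.two_pow_pos m
  have key : ∀ e, pk w k (fun _ => 2 ^ w - 1) e + 1 = 2 ^ (w * 2 ^ k) := by
    induction k with
    | zero =>
      intro e
      show 2 ^ w - 1 + 1 = _
      rw [Nat.sub_add_cancel (hw w)]
      simp
    | succ k ih =>
      intro e
      rw [pk, xpow]
      have h0 := ih (upd e k 0)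
      have h1 := ih (upd e k 1)
      nlinarith
  have := key e
  show 2 ^ (w * 2 ^ k) - 1 = _
  omega

def dbl (w k x : ℕ) : ℕ := Nat.add x (Nat.shiftLeft x (Nat.mul w (Nat.pow 2 k)))

def mask1 (w p : ℕ) : ℕ → ℕ
  | 0 => 0
  | k + 1 => cond (Nat.beq p k) (Nat.shiftLeft (full w k) (Nat.mul w (Nat.pow 2 k)))
      (dbl w k (mask1 w p k))

def mask0 (w p : ℕ) : ℕ → ℕ
  | 0 => 0
  | k + 1 => cond (Nat.beq p k) (full w k) (dbl w k (mask0 w p k))

theorem beq_self (n : ℕ) : Nat.beq n n = true := Nat.beq_refl n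

theorem beq_ne {m n : ℕ} (h : m ≠ n) : Nat.beq m n = false := by
  rw [Bool.eq_false_iff]
  intro h'
  exact h (Nat.eq_of_beq_eq_true h')

theorem mask1_eq (w p k : ℕ) (hp : p < k) (e : ℕ → ℕ) :
    mask1 w p k = pk w k (fun e => cond (Nat.beq (e p) 1) (2 ^ w - 1) 0) e := by
  induction k generalizing e with
  | zero => omega
  | succ k ih =>
    rw [mask1, pk]
    by_cases h : p = k
    · subst h
      rw [beq_self, cond_true, shl]
      have h0 : pk w p (fun e => cond (Nat.beq (e p) 1) (2 ^ w - 1) 0) (upd e p 0) = 0 := by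
        refine (pk_congr _ _ _ (fun _ => 0) _ (fun e' he => ?_)).trans (pk_zero w p (upd e p 0))
        have : e' p = 0 := by rw [he.1 p le_rfl, upd_same]
        show cond (Nat.beq (e' p) 1) (2 ^ w - 1) 0 = 0
        rw [this]
        rfl
      have h1 : pk w p (fun e => cond (Nat.beq (e p) 1) (2 ^ w - 1) 0) (upd e p 1) = full w p := by
        rw [full_eq w p (upd e p 1)]
        refine pk_congr _ _ _ _ _ (fun e' he => ?_)
        have : e' p = 1 := by rw [he.1 p le_rfl, upd_same]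
        show cond (Nat.beq (e' p) 1) (2 ^ w - 1) 0 = 2 ^ w - 1
        rw [this]
        rfl
      rw [h0, h1, zero_add]
      rfl
    · rw [beq_ne h, cond_false, dbl, shl]
      have hp' : p < k := by omega
      rw [← ih hp' (upd e k 0), ← ih hp' (upd e k 1)]
      rfl

theorem mask0_eq (w p k : ℕ) (hp : p < k) (e : ℕ → ℕ) :
    mask0 w p k = pk w k (fun e => cond (Nat.beq (e p) 0) (2 ^ w - 1) 0) e := by
  induction k generalizing e with
  | zero => omega
  | succ k ih =>
    rw [mask0, pk]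
    by_cases h : p = k
    · subst h
      rw [beq_self, cond_true]
      have h0 : pk w p (fun e => cond (Nat.beq (e p) 0) (2 ^ w - 1) 0) (upd e p 0) = full w p := by
        rw [full_eq w p (upd e p 0)]
        refine pk_congr _ _ _ _ _ (fun e' he => ?_)
        have : e' p = 0 := by rw [he.1 p le_rfl, upd_same]
        show cond (Nat.beq (e' p) 0) (2 ^ w - 1) 0 = 2 ^ w - 1
        rw [this]
        rfl
      have h1 : pk w p (fun e => cond (Nat.beq (e p) 0) (2 ^ w - 1) 0) (upd e p 1) = 0 := by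
        refine (pk_congr _ _ _ (fun _ => 0) _ (fun e' he => ?_)).trans (pk_zero w p (upd e p 1))
        have : e' p = 1 := by rw [he.1 p le_rfl, upd_same]
        show cond (Nat.beq (e' p) 0) (2 ^ w - 1) 0 = 0
        rw [this]
        rfl
      rw [h0, h1]
      simp
    · rw [beq_ne h, cond_false, dbl, shl]
      have hp' : p < k := by omega
      rw [← ih hp' (upd e k 0), ← ih hp' (upd e k 1)]
      rfl

/-! ### Moving lanes -/

/-- lanes with bit `p` set are the lanes with bit `p` zero, shifted -/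
theorem move_bit (w p k : ℕ) (hp : p < k) (φ : (ℕ → ℕ) → ℕ) (e : ℕ → ℕ) :
    pk w k (fun e => cond (Nat.beq (e p) 1) (φ e) 0) e
      = 2 ^ (w * 2 ^ p) * pk w k (fun e => cond (Nat.beq (e p) 0) (φ (upd e p 1)) 0) e := by
  induction k generalizing e with
  | zero => omega
  | succ k ih =>
    rw [pk, pk]
    by_cases h : p = k
    · subst h
      have h0 : pk w p (fun e => cond (Nat.beq (e p) 1) (φ e) 0) (upd e p 0) = 0 := by
        refine (pk_congr _ _ _ (fun _ => 0) _ (fun e' he => ?_)).trans (pk_zero w p (upd e p 0))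
        have : e' p = 0 := by rw [he.1 p le_rfl, upd_same]
        show cond (Nat.beq (e' p) 1) (φ e') 0 = 0
        rw [this]
        rfl
      have h1 : pk w p (fun e => cond (Nat.beq (e p) 0) (φ (upd e p 1)) 0) (upd e p 1) = 0 := by
        refine (pk_congr _ _ _ (fun _ => 0) _ (fun e' he => ?_)).trans (pk_zero w p (upd e p 1))
        have : e' p = 1 := by rw [he.1 p le_rfl, upd_same]
        show cond (Nat.beq (e' p) 0) (φ (upd e' p 1)) 0 = 0
        rw [this]
        rfl
      have h2 : pk w p (fun e => cond (Nat.beq (e p) 1) (φ e) 0) (upd e p 1)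
          = pk w p (fun e => cond (Nat.beq (e p) 0) (φ (upd e p 1)) 0) (upd e p 0) := by
        refine pk_congr_env _ _ _ _ _ _ (fun a b ha hb hab => ?_)
        have ha' : a p = 1 := by rw [ha.1 p le_rfl, upd_same]
        have hb' : b p = 0 := by rw [hb.1 p le_rfl, upd_same]
        show cond (Nat.beq (a p) 1) (φ a) 0 = cond (Nat.beq (b p) 0) (φ (upd b p 1)) 0
        rw [ha', hb', beq_self, beq_self, cond_true, cond_true]
        congr 1
        funext r
        by_cases hr : r = p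
        · subst hr
          rw [ha', upd_same]
        · rw [upd_ne _ _ hr]
          rcases Nat.lt_or_ge r p with h3 | h3
          · exact hab r h3
          · rw [ha.1 r h3, hb.1 r h3, upd_ne _ _ hr, upd_ne _ _ hr]
      rw [h0, h1, h2, zero_add, mul_zero, add_zero]
    · have hp' : p < k := by omega
      rw [ih hp', ih hp']
      ring

theorem pow_split (w : ℕ) {p q : ℕ} (hpq : p < q) :
    2 ^ (w * 2 ^ q) = 2 ^ (w * (2 ^ q - 2 ^ p)) * 2 ^ (w * 2 ^ p) := by
  rw [← pow_add, ← mul_add]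
  congr 2
  have : 2 ^ p ≤ 2 ^ q := Nat.pow_le_pow_right (by norm_num) hpq.le
  omega

/-- the index bits `p` and `q` are exchanged -/
def swe (e : ℕ → ℕ) (p q : ℕ) : ℕ → ℕ := upd (upd e p (e q)) q (e p)

theorem move_bits (w p q k : ℕ) (hpq : p < q) (hq : q < k) (φ : (ℕ → ℕ) → ℕ) (e : ℕ → ℕ) :
    pk w k (fun e => cond (Nat.beq (e p) 0 && Nat.beq (e q) 1) (φ e) 0) e
      = 2 ^ (w * (2 ^ q - 2 ^ p)) * pk w k
          (fun e => cond (Nat.beq (e p) 1 && Nat.beq (e q) 0) (φ (swe e p q)) 0) e := by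
  have e1 : pk w k (fun e => cond (Nat.beq (e p) 0 && Nat.beq (e q) 1) (φ e) 0) e
      = pk w k (fun e => cond (Nat.beq (e q) 1) (cond (Nat.beq (e p) 0) (φ e) 0) 0) e := by
    refine pk_congr _ _ _ _ _ (fun e' _ => ?_)
    show cond (Nat.beq (e' p) 0 && Nat.beq (e' q) 1) (φ e') 0
      = cond (Nat.beq (e' q) 1) (cond (Nat.beq (e' p) 0) (φ e') 0) 0
    cases Nat.beq (e' p) 0 <;> cases Nat.beq (e' q) 1 <;> rfl
  have e2 : pk w k (fun e => cond (Nat.beq (e p) 1 && Nat.beq (e q) 0) (φ (swe e p q)) 0) e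
      = pk w k (fun e => cond (Nat.beq (e p) 1) (cond (Nat.beq (e q) 0) (φ (swe e p q)) 0) 0) e := by
    refine pk_congr _ _ _ _ _ (fun e' _ => ?_)
    show cond (Nat.beq (e' p) 1 && Nat.beq (e' q) 0) (φ (swe e' p q)) 0
      = cond (Nat.beq (e' p) 1) (cond (Nat.beq (e' q) 0) (φ (swe e' p q)) 0) 0
    cases Nat.beq (e' p) 1 <;> cases Nat.beq (e' q) 0 <;> rfl
  rw [e1, e2, move_bit w q k hq (fun e => cond (Nat.beq (e p) 0) (φ e) 0) e,
    move_bit w p k (by omega) (fun e => cond (Nat.beq (e q) 0) (φ (swe e p q)) 0) e,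
    pow_split w hpq, mul_assoc]
  congr 2
  refine pk_congr _ _ _ _ _ (fun e' _ => ?_)
  show cond (Nat.beq (e' q) 0) (cond (Nat.beq (upd e' q 1 p) 0) (φ (upd e' q 1)) 0) 0
    = cond (Nat.beq (e' p) 0) (cond (Nat.beq (upd e' p 1 q) 0) (φ (swe (upd e' p 1) p q)) 0) 0
  rw [upd_ne _ _ (by omega : p ≠ q), upd_ne _ _ (by omega : q ≠ p)]
  by_cases hq0 : e' q = 0
  · by_cases hp0 : e' p = 0
    · rw [hq0, hp0, beq_self, cond_true, cond_true, cond_true, cond_true]
      congr 1
      funext r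
      unfold swe
      by_cases hrq : r = q
      · subst hrq
        rw [upd_same, upd_same, upd_same]
      · rw [upd_ne _ _ hrq, upd_ne _ _ hrq]
        by_cases hrp : r = p
        · subst hrp
          rw [upd_same, hp0, upd_ne _ _ (by omega), hq0]
        · rw [upd_ne _ _ hrp, upd_ne _ _ hrp]
    · rw [beq_ne hp0]
      cases Nat.beq (e' q) 0 <;> rfl
  · rw [beq_ne hq0]
    cases Nat.beq (e' p) 0 <;> rfl

/-! ### Exchange of two index bits -/

def mB (w k p q : ℕ) : ℕ := Nat.land (mask1 w p k) (mask0 w q k)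
def mC (w k p q : ℕ) : ℕ := Nat.land (mask0 w p k) (mask1 w q k)
def mA (w k p q : ℕ) : ℕ := Nat.sub (full w k) (Nat.add (mB w k p q) (mC w k p q))

def swp (w k p q x : ℕ) : ℕ :=
  Nat.add (Nat.land x (mA w k p q))
    (Nat.add (Nat.shiftLeft (Nat.land x (mB w k p q)) (Nat.mul w (Nat.sub (Nat.pow 2 q) (Nat.pow 2 p))))
      (Nat.shiftRight (Nat.land x (mC w k p q)) (Nat.mul w (Nat.sub (Nat.pow 2 q) (Nat.pow 2 p)))))

theorem msk_lt (w : ℕ) (b : Bool) : cond b (2 ^ w - 1) 0 < 2 ^ w := by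
  have : 0 < 2 ^ w := Nat.two_pow_pos _
  cases b
  · exact this
  · exact Nat.sub_lt this one_pos

theorem cond_and (P Q : Bool) (a : ℕ) : cond Q (cond P a 0) 0 = cond (P && Q) a 0 := by
  cases P <;> cases Q <;> rfl

theorem mB_eq (w k p q : ℕ) (hp : p < k) (hq : q < k) (e : ℕ → ℕ) :
    mB w k p q = pk w k (fun e => cond (Nat.beq (e p) 1 && Nat.beq (e q) 0) (2 ^ w - 1) 0) e := by
  rw [mB, mask1_eq w p k hp e, mask0_eq w q k hq e,
    land_pk w k _ (fun e => Nat.beq (e q) 0) e (fun e' => msk_lt w _)]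
  refine pk_congr _ _ _ _ _ (fun e' _ => ?_)
  exact cond_and _ _ _

theorem mC_eq (w k p q : ℕ) (hp : p < k) (hq : q < k) (e : ℕ → ℕ) :
    mC w k p q = pk w k (fun e => cond (Nat.beq (e p) 0 && Nat.beq (e q) 1) (2 ^ w - 1) 0) e := by
  rw [mC, mask0_eq w p k hp e, mask1_eq w q k hq e,
    land_pk w k _ (fun e => Nat.beq (e q) 1) e (fun e' => msk_lt w _)]
  refine pk_congr _ _ _ _ _ (fun e' _ => ?_)
  exact cond_and _ _ _

theorem mA_eq (w k p q : ℕ) (hp : p < k) (hq : q < k) (e : ℕ → ℕ) :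
    mA w k p q = pk w k (fun e => cond (Nat.beq (e p) (e q)) (2 ^ w - 1) 0) e := by
  have h : full w k = pk w k (fun e => cond (Nat.beq (e p) (e q)) (2 ^ w - 1) 0) e
      + (mB w k p q + mC w k p q) := by
    rw [full_eq w k e, mB_eq w k p q hp hq e, mC_eq w k p q hp hq e, ← pk_add, ← pk_add]
    refine pk_congr _ _ _ _ _ (fun e' he => ?_)
    show 2 ^ w - 1 = cond (Nat.beq (e' p) (e' q)) (2 ^ w - 1) 0
      + (cond (Nat.beq (e' p) 1 && Nat.beq (e' q) 0) (2 ^ w - 1) 0
        + cond (Nat.beq (e' p) 0 && Nat.beq (e' q) 1) (2 ^ w - 1) 0)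
    rcases he.2 p hp with h1 | h1 <;> rcases he.2 q hq with h2 | h2 <;> rw [h1, h2]
    · show 2 ^ w - 1 = 2 ^ w - 1 + (0 + 0)
      omega
    · show 2 ^ w - 1 = 0 + (0 + (2 ^ w - 1))
      omega
    · show 2 ^ w - 1 = 0 + (2 ^ w - 1 + 0)
      omega
    · show 2 ^ w - 1 = 2 ^ w - 1 + (0 + 0)
      omega
  show full w k - (mB w k p q + mC w k p q) = _
  rw [h, Nat.add_sub_cancel]

theorem swe_of_eq (e : ℕ → ℕ) (p q : ℕ) (h : e p = e q) : swe e p q = e := by
  funext r
  unfold swe upd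
  split_ifs with h1 h2
  · subst h1; exact h
  · subst h2; exact h.symm
  · rfl

theorem swe_swe (e : ℕ → ℕ) {p q : ℕ} (h : p ≠ q) : swe (swe e p q) p q = e := by
  have hp : swe e p q p = e q := by
    unfold swe
    rw [upd_ne _ _ h, upd_same]
  have hq : swe e p q q = e p := by
    unfold swe
    rw [upd_same]
  funext r
  show upd (upd (swe e p q) p (swe e p q q)) q (swe e p q p) r = e r
  rw [hp, hq]
  by_cases h1 : r = q
  · subst h1
    rw [upd_same]
  · rw [upd_ne _ _ h1]
    by_cases h2 : r = p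
    · subst h2
      rw [upd_same]
    · rw [upd_ne _ _ h2]
      unfold swe
      rw [upd_ne _ _ h1, upd_ne _ _ h2]

theorem shr_mul (n x : ℕ) : Nat.shiftRight (2 ^ n * x) n = x := by
  show (2 ^ n * x) >>> n = x
  rw [Nat.shiftRight_eq_div_pow, Nat.mul_div_cancel_left _ (Nat.two_pow_pos n)]

theorem swp_pk (w k p q : ℕ) (hpq : p < q) (hq : q < k) (h : (ℕ → ℕ) → ℕ) (e : ℕ → ℕ)
    (H : ∀ e', h e' < 2 ^ w) :
    swp w k p q (pk w k h e) = pk w k (fun e => h (swe e p q)) e := by
  have hp : p < k := by omega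
  have hne : p ≠ q := by omega
  unfold swp
  rw [mA_eq w k p q hp hq e, mB_eq w k p q hp hq e, mC_eq w k p q hp hq e,
    land_pk w k h (fun e => Nat.beq (e p) (e q)) e H,
    land_pk w k h (fun e => Nat.beq (e p) 1 && Nat.beq (e q) 0) e H,
    land_pk w k h (fun e => Nat.beq (e p) 0 && Nat.beq (e q) 1) e H, shl]
  have eD : Nat.mul w (Nat.sub (Nat.pow 2 q) (Nat.pow 2 p)) = w * (2 ^ q - 2 ^ p) := rfl
  rw [eD, move_bits w p q k hpq hq h e, shr_mul]
  have hB : 2 ^ (w * (2 ^ q - 2 ^ p))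
        * pk w k (fun e => cond (Nat.beq (e p) 1 && Nat.beq (e q) 0) (h e) 0) e
      = pk w k (fun e => cond (Nat.beq (e p) 0 && Nat.beq (e q) 1) (h (swe e p q)) 0) e := by
    rw [move_bits w p q k hpq hq (fun e => h (swe e p q)) e]
    congr 1
    refine pk_congr _ _ _ _ _ (fun e' _ => ?_)
    show cond (Nat.beq (e' p) 1 && Nat.beq (e' q) 0) (h e') 0
      = cond (Nat.beq (e' p) 1 && Nat.beq (e' q) 0) (h (swe (swe e' p q) p q)) 0
    rw [swe_swe e' hne]
  rw [hB, Nat.add_eq, Nat.add_eq, ← pk_add, ← pk_add]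
  refine pk_congr _ _ _ _ _ (fun e' he => ?_)
  show cond (Nat.beq (e' p) (e' q)) (h e') 0
      + (cond (Nat.beq (e' p) 0 && Nat.beq (e' q) 1) (h (swe e' p q)) 0
        + cond (Nat.beq (e' p) 1 && Nat.beq (e' q) 0) (h (swe e' p q)) 0) = h (swe e' p q)
  rcases he.2 p hp with h1 | h1 <;> rcases he.2 q hq with h2 | h2
  · rw [swe_of_eq e' p q (by rw [h1, h2]), h1, h2]
    show h e' + (0 + 0) = h e'
    omega
  · rw [h1, h2]
    show 0 + (h (swe e' p q) + 0) = h (swe e' p q)
    omega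
  · rw [h1, h2]
    show 0 + (0 + h (swe e' p q)) = h (swe e' p q)
    omega
  · rw [swe_of_eq e' p q (by rw [h1, h2]), h1, h2]
    show h e' + (0 + 0) = h e'
    omega

/-! ### Insertion of a free index bit -/

/-- a free index bit is put at position `p`; the old index bit `p` moves to the top -/
def ins (w k p x : ℕ) : ℕ :=
  cond (Nat.beq p k) (dbl w k x)
    (dbl w p (Nat.add (Nat.land x (mask0 w p k))
      (Nat.shiftLeft (Nat.land x (mask1 w p k))
        (Nat.mul w (Nat.sub (Nat.pow 2 k) (Nat.pow 2 p))))))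

theorem pk_indep (w k : ℕ) (h : (ℕ → ℕ) → ℕ) (e : ℕ → ℕ) (b : ℕ)
    (hi : ∀ e b, h (upd e k b) = h e) : pk w k h (upd e k b) = pk w k h e := by
  refine pk_congr_env _ _ _ _ _ _ (fun a c ha hc hac => ?_)
  have : a = upd c k b := by
    funext r
    by_cases hr : r = k
    · subst hr
      rw [upd_same, ha.1 r le_rfl, upd_same]
    · rw [upd_ne _ _ hr]
      rcases Nat.lt_or_ge r k with h3 | h3
      · exact hac r h3
      · rw [ha.1 r h3, hc.1 r h3, upd_ne _ _ hr]
  rw [this, hi]

theorem ins_pk (w k p : ℕ) (hp : p ≤ k) (h : (ℕ → ℕ) → ℕ) (e : ℕ → ℕ)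
    (H : ∀ e', h e' < 2 ^ w) (hi : ∀ e b, h (upd e k b) = h e) :
    ins w k p (pk w k h e) = pk w (k + 1) (fun e => h (upd e p (e k))) e := by
  unfold ins
  by_cases hpk : p = k
  · subst hpk
    rw [beq_self, cond_true, pk, dbl, shl]
    have h0 : ∀ b, pk w p (fun e => h (upd e p (e p))) (upd e p b) = pk w p h e := by
      intro b
      rw [← pk_indep w p h e b hi]
      refine pk_congr _ _ _ _ _ (fun e' _ => ?_)
      exact hi _ _
    rw [h0, h0]
    rfl
  · have hp' : p < k := by omega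
    rw [beq_ne hpk, cond_false, mask0_eq w p k hp' e, mask1_eq w p k hp' e,
      land_pk w k h (fun e => Nat.beq (e p) 0) e H, land_pk w k h (fun e => Nat.beq (e p) 1) e H,
      dbl, shl, shl]
    set U : ℕ := pk w k (fun e => cond (Nat.beq (e p) 0) (h (upd e p 1)) 0) e with hU
    set Z : ℕ := pk w k (fun e => cond (Nat.beq (e p) 0) (h e) 0) e with hZ
    have hU' : pk w k (fun e => cond (Nat.beq (e p) 1) (h e) 0) e = 2 ^ (w * 2 ^ p) * U :=
      move_bit w p k hp' h e
    rw [hU', pk]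
    have eD : Nat.mul w (Nat.sub (Nat.pow 2 k) (Nat.pow 2 p)) = w * (2 ^ k - 2 ^ p) := rfl
    have eP : Nat.mul w (Nat.pow 2 p) = w * 2 ^ p := rfl
    rw [eD, eP]
    -- the half where the top bit is zero
    have ind0 : ∀ (φ : (ℕ → ℕ) → ℕ), (∀ e b, φ (upd e k b) = φ e) → ∀ b,
        pk w k φ (upd e k b) = pk w k φ e := fun φ hφ b => pk_indep w k φ e b hφ
    have hne : p ≠ k := by omega
    have half0 : pk w k (fun e => h (upd e p (e k))) (upd e k 0) = Z + 2 ^ (w * 2 ^ p) * Z := by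
      have a1 : pk w k (fun e => h (upd e p (e k))) (upd e k 0)
          = pk w k (fun e => h (upd e p 0)) (upd e k 0) := by
        refine pk_congr _ _ _ _ _ (fun e' he => ?_)
        have : e' k = 0 := by rw [he.1 k le_rfl, upd_same]
        show h (upd e' p (e' k)) = h (upd e' p 0)
        rw [this]
      have a2 : pk w k (fun e => h (upd e p 0)) (upd e k 0) = pk w k (fun e => h (upd e p 0)) e := by
        refine ind0 _ (fun e b => ?_) 0
        rw [upd_comm _ _ _ (fun h => hne h.symm), hi]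
      have a3 : pk w k (fun e => h (upd e p 0)) e
          = Z + pk w k (fun e => cond (Nat.beq (e p) 1) (h (upd e p 0)) 0) e := by
        rw [hZ, ← pk_add]
        refine pk_congr _ _ _ _ _ (fun e' he => ?_)
        show h (upd e' p 0) = cond (Nat.beq (e' p) 0) (h e') 0
          + cond (Nat.beq (e' p) 1) (h (upd e' p 0)) 0
        rcases he.2 p hp' with h1 | h1
        · have : upd e' p 0 = e' := by
            funext r
            by_cases hr : r = p
            · subst hr; rw [upd_same, h1]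
            · rw [upd_ne _ _ hr]
          rw [this, h1]
          show h e' = h e' + 0
          omega
        · rw [h1]
          show h (upd e' p 0) = 0 + h (upd e' p 0)
          omega
      have a4 : pk w k (fun e => cond (Nat.beq (e p) 1) (h (upd e p 0)) 0) e
          = 2 ^ (w * 2 ^ p) * Z := by
        rw [move_bit w p k hp' (fun e => h (upd e p 0)) e, hZ]
        congr 1
        refine pk_congr _ _ _ _ _ (fun e' he => ?_)
        show cond (Nat.beq (e' p) 0) (h (upd (upd e' p 1) p 0)) 0 = cond (Nat.beq (e' p) 0) (h e') 0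
        rcases he.2 p hp' with h1 | h1
        · have : upd (upd e' p 1) p 0 = e' := by
            rw [upd_upd_same]
            funext r
            by_cases hr : r = p
            · subst hr; rw [upd_same, h1]
            · rw [upd_ne _ _ hr]
          rw [this]
        · rw [h1]
          rfl
      rw [a1, a2, a3, a4]
    have half1 : pk w k (fun e => h (upd e p (e k))) (upd e k 1) = U + 2 ^ (w * 2 ^ p) * U := by
      have a1 : pk w k (fun e => h (upd e p (e k))) (upd e k 1)
          = pk w k (fun e => h (upd e p 1)) (upd e k 1) := by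
        refine pk_congr _ _ _ _ _ (fun e' he => ?_)
        have : e' k = 1 := by rw [he.1 k le_rfl, upd_same]
        show h (upd e' p (e' k)) = h (upd e' p 1)
        rw [this]
      have a2 : pk w k (fun e => h (upd e p 1)) (upd e k 1) = pk w k (fun e => h (upd e p 1)) e := by
        refine ind0 _ (fun e b => ?_) 1
        rw [upd_comm _ _ _ (fun h => hne h.symm), hi]
      have a3 : pk w k (fun e => h (upd e p 1)) e
          = U + pk w k (fun e => cond (Nat.beq (e p) 1) (h e) 0) e := by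
        rw [hU, ← pk_add]
        refine pk_congr _ _ _ _ _ (fun e' he => ?_)
        show h (upd e' p 1) = cond (Nat.beq (e' p) 0) (h (upd e' p 1)) 0
          + cond (Nat.beq (e' p) 1) (h e') 0
        rcases he.2 p hp' with h1 | h1
        · rw [h1]
          show h (upd e' p 1) = h (upd e' p 1) + 0
          omega
        · have : upd e' p 1 = e' := by
            funext r
            by_cases hr : r = p
            · subst hr; rw [upd_same, h1]
            · rw [upd_ne _ _ hr]
          rw [this, h1]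
          show h e' = 0 + h e'
          omega
      rw [a1, a2, a3, hU']
    rw [half0, half1, pow_split w hp']
    show (Z + 2 ^ (w * (2 ^ k - 2 ^ p)) * (2 ^ (w * 2 ^ p) * U))
        + 2 ^ (w * 2 ^ p) * (Z + 2 ^ (w * (2 ^ k - 2 ^ p)) * (2 ^ (w * 2 ^ p) * U)) = _
    ring

/-! ### Comparison with a constant -/

def leAll (w k C x : ℕ) : Bool :=
  Nat.beq (Nat.land (Nat.sub (Nat.mul (Nat.add C (Nat.pow 2 (Nat.sub w 1))) (ones w k)) x)
    (Nat.mul (Nat.pow 2 (Nat.sub w 1)) (ones w k))) (Nat.mul (Nat.pow 2 (Nat.sub w 1)) (ones w k))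

theorem leAll_sound (w k C : ℕ) (hw : 0 < w) (h : (ℕ → ℕ) → ℕ) (e : ℕ → ℕ)
    (H : ∀ e', h e' < 2 ^ (w - 1)) (hC : C < 2 ^ (w - 1))
    (hchk : leAll w k C (pk w k h e) = true) : ∀ e', Reach k e e' → h e' ≤ C := by
  have hchk := Nat.eq_of_beq_eq_true hchk
  have h2w : 2 ^ w = 2 ^ (w - 1) + 2 ^ (w - 1) := by
    obtain ⟨v, rfl⟩ : ∃ v, w = v + 1 := ⟨w - 1, by omega⟩
    rw [Nat.add_sub_cancel, pow_succ]
    ring
  have e1 : Nat.mul (Nat.add C (Nat.pow 2 (Nat.sub w 1))) (ones w k)
      = pk w k (fun _ => C + 2 ^ (w - 1)) e := by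
    rw [ones_eq w k e]
    show (C + 2 ^ (w - 1)) * pk w k (fun _ => 1) e = _
    rw [← pk_mul]
    simp
  have e2 : Nat.mul (Nat.pow 2 (Nat.sub w 1)) (ones w k) = pk w k (fun _ => 2 ^ (w - 1)) e := by
    rw [ones_eq w k e]
    show 2 ^ (w - 1) * pk w k (fun _ => 1) e = _
    rw [← pk_mul]
    simp
  have e3 : Nat.sub (pk w k (fun _ => C + 2 ^ (w - 1)) e) (pk w k h e)
      = pk w k (fun e => C + 2 ^ (w - 1) - h e) e := by
    have : pk w k (fun _ => C + 2 ^ (w - 1)) e
        = pk w k (fun e => C + 2 ^ (w - 1) - h e) e + pk w k h e := by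
      rw [← pk_add]
      refine pk_congr _ _ _ _ _ (fun e' _ => ?_)
      have := H e'
      show C + 2 ^ (w - 1) = C + 2 ^ (w - 1) - h e' + h e'
      omega
    rw [this]
    exact Nat.add_sub_cancel _ _
  rw [e1, e2, e3, land_pk2 w k _ _ e (fun e' => by show C + 2 ^ (w - 1) - h e' < 2 ^ w; omega)
    (fun e' => by show 2 ^ (w - 1) < 2 ^ w; omega)] at hchk
  intro e' he
  have hpt := pk_inj w k _ _ e (fun e' => lt_of_le_of_lt Nat.and_le_right
    (by show 2 ^ (w - 1) < 2 ^ w; omega)) (fun e' => by show 2 ^ (w - 1) < 2 ^ w; omega) hchk e' he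
  have h3 : 2 ^ (w - 1) ≤ C + 2 ^ (w - 1) - h e' := by
    have h4 : Nat.land (C + 2 ^ (w - 1) - h e') (2 ^ (w - 1)) = 2 ^ (w - 1) := hpt
    calc 2 ^ (w - 1) = Nat.land (C + 2 ^ (w - 1) - h e') (2 ^ (w - 1)) := h4.symm
      _ ≤ C + 2 ^ (w - 1) - h e' := Nat.and_le_left
  have := H e'
  omega

/-! ### Lanes of a number -/

def lane (w x i : ℕ) : ℕ :=
  Nat.land (Nat.shiftRight x (Nat.mul w i)) (Nat.sub (Nat.pow 2 w) 1)

theorem lane_eq (w x i : ℕ) : lane w x i = x / 2 ^ (w * i) % 2 ^ w := by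
  show Nat.land (x >>> (w * i)) (2 ^ w - 1) = _
  rw [land_mask, Nat.shiftRight_eq_div_pow]

theorem lane_lt (w x i : ℕ) : lane w x i < 2 ^ w := by
  rw [lane_eq]
  exact Nat.mod_lt _ (Nat.two_pow_pos w)

/-- the number of the lane given by the environment -/
def idx (e : ℕ → ℕ) : ℕ → ℕ
  | 0 => 0
  | k + 1 => idx e k + 2 ^ k * e k

theorem idx_congr (e e' : ℕ → ℕ) (k : ℕ) (h : ∀ p, p < k → e p = e' p) : idx e k = idx e' k := by
  induction k with
  | zero => rfl
  | succ k ih => rw [idx, idx, ih (fun p hp => h p (by omega)), h k (by omega)]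

theorem pk_lanes_aux (w k x o : ℕ) (e : ℕ → ℕ) :
    pk w k (fun e => lane w x (o + idx e k)) e = x / 2 ^ (w * o) % 2 ^ (w * 2 ^ k) := by
  induction k generalizing o e with
  | zero =>
    show lane w x (o + 0) = _
    rw [lane_eq, add_zero, pow_zero, mul_one]
  | succ k ih =>
    rw [pk]
    have a0 : pk w k (fun e => lane w x (o + idx e (k + 1))) (upd e k 0)
        = pk w k (fun e => lane w x (o + idx e k)) (upd e k 0) := by
      refine pk_congr _ _ _ _ _ (fun e' he => ?_)
      have : e' k = 0 := by rw [he.1 k le_rfl, upd_same]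
      show lane w x (o + (idx e' k + 2 ^ k * e' k)) = _
      rw [this, mul_zero, add_zero]
    have a1 : pk w k (fun e => lane w x (o + idx e (k + 1))) (upd e k 1)
        = pk w k (fun e => lane w x ((o + 2 ^ k) + idx e k)) (upd e k 1) := by
      refine pk_congr _ _ _ _ _ (fun e' he => ?_)
      have : e' k = 1 := by rw [he.1 k le_rfl, upd_same]
      show lane w x (o + (idx e' k + 2 ^ k * e' k)) = _
      rw [this, mul_one]
      congr 1
      ring
    rw [a0, a1, ih, ih, xpow, Nat.mod_mul, Nat.div_div_eq_div_mul, ← pow_add, mul_add]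

theorem pk_lanes (w k x : ℕ) (e : ℕ → ℕ) (hx : x < 2 ^ (w * 2 ^ k)) :
    pk w k (fun e => lane w x (idx e k)) e = x := by
  have h := pk_lanes_aux w k x 0 e
  simp only [zero_add, mul_zero, pow_zero, Nat.div_one] at h
  rw [h, Nat.mod_eq_of_lt hx]

end Pool.Agent.H6N7
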