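import Pool.Agent.H6Turan.Sums

set_option autoImplicit false
set_option linter.unusedSimpArgs false
set_option linter.unusedVariables false
set_option maxHeartbeats 4000000

/-!
# Symmetric sums over the 105 patterns `(triple; pair, pair)` of a seven-tuple
(generated file)
-/

namespace Pool.Agent.H6N7

open Pool.Agent.H6Turan

def c9 (b0 b1 b2 b3 b4 b5 b6 b7 b8 : ℕ) : ℕ :=
  Nat.add (Nat.add (Nat.add b0 (Nat.mul 2 b1)) (Nat.add (Nat.mul 4 b2) (Nat.mul 8 b3)))
    (Nat.add (Nat.add (Nat.mul 16 b4) (Nat.mul 32 b5))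
      (Nat.add (Nat.mul 64 b6) (Nat.add (Nat.mul 128 b7) (Nat.mul 256 b8))))

variable {V : Type*}

/-- code of the flag `(a, b, c; u, v)` -/
def fl (g : V → V → V → ℕ) (a b c u v : V) : ℕ :=
  c9 (g a b u) (g a c u) (g b c u) (g a b v) (g a c v) (g b c v) (g a u v) (g b u v) (g c u v)

/-- value of the table `K` at `(a, b, c; u, v; w, x)` -/
def K3 (K : ℕ → ℕ → ℕ → ℕ) (g : V → V → V → ℕ) (a b c u v w x : V) : ℕ :=
  K (g a b c) (fl g a b c u v) (fl g a b c w x)

/-- sum over the three splittings of the last four vertices into pairs -/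
def P3 (K : ℕ → ℕ → ℕ → ℕ) (g : V → V → V → ℕ) (a b c d e f h : V) : ℕ :=
  Nat.add (K3 K g a b c d e f h) (Nat.add (K3 K g a b c d f e h) (K3 K g a b c e f d h))

/-- sum over the 35 triples of the seven-tuple -/
def S7 (K : ℕ → ℕ → ℕ → ℕ) (g : V → V → V → ℕ) (a b c d e f h : V) : ℕ :=
  Nat.add (Nat.add (Nat.add (Nat.add (Nat.add (P3 K g a b c d e f h) (P3 K g a b d c e f h)) (Nat.add (P3 K g a c d b e f h) (P3 K g b c d a e f h))) (Nat.add (Nat.add (P3 K g a b e c d f h) (P3 K g a c e b d f h)) (Nat.add (P3 K g b c e a d f h) (P3 K g a d e b c f h)))) (Nat.add (Nat.add (Nat.add (P3 K g b d e a c f h) (P3 K g c d e a b f h)) (Nat.add (P3 K g a b f c d e h) (P3 K g a c f b d e h))) (Nat.add (Nat.add (P3 K g b c f a d e h) (P3 K g a d f b c e h)) (Nat.add (P3 K g b d f a c e h) (Nat.add (P3 K g c d f a b e h) (P3 K g a e f b c d h)))))) (Nat.add (Nat.add (Nat.add (Nat.add (P3 K g b e f a c d h) (P3 K g c e f a b d h)) (Nat.add (P3 K g d e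 f a b c h) (P3 K g a b h c d e f))) (Nat.add (Nat.add (P3 K g a c h b d e f) (P3 K g b c h a d e f)) (Nat.add (P3 K g a d h b c e f) (Nat.add (P3 K g b d h a c e f) (P3 K g c d h a b e f))))) (Nat.add (Nat.add (Nat.add (P3 K g a e h b c d f) (P3 K g b e h a c d f)) (Nat.add (P3 K g c e h a b d f) (P3 K g d e h a b c f))) (Nat.add (Nat.add (P3 K g a f h b c d e) (P3 K g b f h a c d e)) (Nat.add (P3 K g c f h a b d e) (Nat.add (P3 K g d f h a b c e) (P3 K g e f h a b c d))))))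

/-- number of edges inside the seven-tuple -/
def E7 (g : V → V → V → ℕ) (a b c d e f h : V) : ℕ :=
  Nat.add (Nat.add (Nat.add (Nat.add (Nat.add (g a b c) (g a b d)) (Nat.add (g a c d) (g b c d))) (Nat.add (Nat.add (g a b e) (g a c e)) (Nat.add (g b c e) (g a d e)))) (Nat.add (Nat.add (Nat.add (g b d e) (g c d e)) (Nat.add (g a b f) (g a c f))) (Nat.add (Nat.add (g b c f) (g a d f)) (Nat.add (g b d f) (Nat.add (g c d f) (g a e f)))))) (Nat.add (Nat.add (Nat.add (Nat.add (g b e f) (g c e f)) (Nat.add (g d e f) (g a b h))) (Nat.add (Nat.add (g a c h) (g b c h)) (Nat.add (g a d h) (Nat.add (g b d h) (g c d h))))) (Nat.add (Nat.add (Nat.add (g a e h) (g b e h)) (Nat.add (g c e h) (g d e h))) (Nat.add (Nat.add (g a f h) (g b f h)) (Nat.add (g c f h) (Nat.add (g d f h) (g e f h))))))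

/-- the symmetries of the table at `g` -/
structure KSym (K : ℕ → ℕ → ℕ → ℕ) (g : V → V → V → ℕ) : Prop where
  k01 : ∀ a b c u v w x, K3 K g b a c u v w x = K3 K g a b c u v w x
  k12 : ∀ a b c u v w x, K3 K g a c b u v w x = K3 K g a b c u v w x
  k34 : ∀ a b c u v w x, K3 K g a b c v u w x = K3 K g a b c u v w x
  k56 : ∀ a b c u v w x, K3 K g a b c u v x w = K3 K g a b c u v w x
  kpp : ∀ a b c u v w x, K3 K g a b c w x u v = K3 K g a b c u v w x

theorem p01 (K : ℕ → ℕ → ℕ → ℕ) (g : V → V → V → ℕ) (h : KSym K g) (a b c d e f k : V) :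
    P3 K g b a c d e f k = P3 K g a b c d e f k := by
  unfold P3
  rw [h.k01 a b c d e f k, h.k01 a b c d f e k, h.k01 a b c e f d k]

theorem p12 (K : ℕ → ℕ → ℕ → ℕ) (g : V → V → V → ℕ) (h : KSym K g) (a b c d e f k : V) :
    P3 K g a c b d e f k = P3 K g a b c d e f k := by
  unfold P3
  rw [h.k12 a b c d e f k, h.k12 a b c d f e k, h.k12 a b c e f d k]

theorem p34 (K : ℕ → ℕ → ℕ → ℕ) (g : V → V → V → ℕ) (h : KSym K g) (a b c d e f k : V) :
    P3 K g a b c e d f k = P3 K g a b c d e f k := by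
  unfold P3
  rw [h.k34 a b c d e f k]
  simp only [Nat.add_eq]
  omega

theorem p45 (K : ℕ → ℕ → ℕ → ℕ) (g : V → V → V → ℕ) (h : KSym K g) (a b c d e f k : V) :
    P3 K g a b c d f e k = P3 K g a b c d e f k := by
  unfold P3
  rw [h.k34 a b c e f d k]
  simp only [Nat.add_eq]
  omega

theorem p56 (K : ℕ → ℕ → ℕ → ℕ) (g : V → V → V → ℕ) (h : KSym K g) (a b c d e f k : V) :
    P3 K g a b c d e k f = P3 K g a b c d e f k := by
  unfold P3
  rw [h.k56 a b c d e f k, h.kpp a b c e f d k, h.kpp a b c d f e k]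
  simp only [Nat.add_eq]
  omega

theorem S7_swap0 (K : ℕ → ℕ → ℕ → ℕ) (g : V → V → V → ℕ) (hk : KSym K g)
    (a b c d e f h : V) : S7 K g b a c d e f h = S7 K g a b c d e f h := by
  have r1 : ∀ z1 z2 z3 z4 z5, P3 K g b a z1 z2 z3 z4 z5 = P3 K g a b z1 z2 z3 z4 z5 := fun _ _ _ _ _ => p01 K g hk _ _ _ _ _ _ _
  have r2 : ∀ z1 z2 z3 z4 z5, P3 K g z1 b a z2 z3 z4 z5 = P3 K g z1 a b z2 z3 z4 z5 := fun _ _ _ _ _ => p12 K g hk _ _ _ _ _ _ _
  have r3 : ∀ z1 z2 z3 z4 z5, P3 K g z1 z2 z3 b a z4 z5 = P3 K g z1 z2 z3 a b z4 z5 := fun _ _ _ _ _ => p34 K g hk _ _ _ _ _ _ _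
  have r4 : ∀ z1 z2 z3 z4 z5, P3 K g z1 z2 z3 z4 b a z5 = P3 K g z1 z2 z3 z4 a b z5 := fun _ _ _ _ _ => p45 K g hk _ _ _ _ _ _ _
  have r5 : ∀ z1 z2 z3 z4 z5, P3 K g z1 z2 z3 z4 z5 b a = P3 K g z1 z2 z3 z4 z5 a b := fun _ _ _ _ _ => p56 K g hk _ _ _ _ _ _ _
  simp only [S7, r1, r2, r3, r4, r5, Nat.add_eq]
  ring

theorem E7_swap0 (g : V → V → V → ℕ) (hg : Symm3 g) (a b c d e f h : V) :
    E7 g b a c d e f h = E7 g a b c d e f h := by
  have r1 : ∀ z, g b a z = g a b z := fun _ => hg.s12 _ _ _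
  have r2 : ∀ z, g z b a = g z a b := fun _ => hg.s23 _ _ _
  simp only [E7, r1, r2, Nat.add_eq]
  ring

theorem S7_swap1 (K : ℕ → ℕ → ℕ → ℕ) (g : V → V → V → ℕ) (hk : KSym K g)
    (a b c d e f h : V) : S7 K g a c b d e f h = S7 K g a b c d e f h := by
  have r1 : ∀ z1 z2 z3 z4 z5, P3 K g c b z1 z2 z3 z4 z5 = P3 K g b c z1 z2 z3 z4 z5 := fun _ _ _ _ _ => p01 K g hk _ _ _ _ _ _ _
  have r2 : ∀ z1 z2 z3 z4 z5, P3 K g z1 c b z2 z3 z4 z5 = P3 K g z1 b c z2 z3 z4 z5 := fun _ _ _ _ _ => p12 K g hk _ _ _ _ _ _ _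
  have r3 : ∀ z1 z2 z3 z4 z5, P3 K g z1 z2 z3 c b z4 z5 = P3 K g z1 z2 z3 b c z4 z5 := fun _ _ _ _ _ => p34 K g hk _ _ _ _ _ _ _
  have r4 : ∀ z1 z2 z3 z4 z5, P3 K g z1 z2 z3 z4 c b z5 = P3 K g z1 z2 z3 z4 b c z5 := fun _ _ _ _ _ => p45 K g hk _ _ _ _ _ _ _
  have r5 : ∀ z1 z2 z3 z4 z5, P3 K g z1 z2 z3 z4 z5 c b = P3 K g z1 z2 z3 z4 z5 b c := fun _ _ _ _ _ => p56 K g hk _ _ _ _ _ _ _
  simp only [S7, r1, r2, r3, r4, r5, Nat.add_eq]
  ring

theorem E7_swap1 (g : V → V → V → ℕ) (hg : Symm3 g) (a b c d e f h : V) :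
    E7 g a c b d e f h = E7 g a b c d e f h := by
  have r1 : ∀ z, g c b z = g b c z := fun _ => hg.s12 _ _ _
  have r2 : ∀ z, g z c b = g z b c := fun _ => hg.s23 _ _ _
  simp only [E7, r1, r2, Nat.add_eq]
  ring

theorem S7_swap2 (K : ℕ → ℕ → ℕ → ℕ) (g : V → V → V → ℕ) (hk : KSym K g)
    (a b c d e f h : V) : S7 K g a b d c e f h = S7 K g a b c d e f h := by
  have r1 : ∀ z1 z2 z3 z4 z5, P3 K g d c z1 z2 z3 z4 z5 = P3 K g c d z1 z2 z3 z4 z5 := fun _ _ _ _ _ => p01 K g hk _ _ _ _ _ _ _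
  have r2 : ∀ z1 z2 z3 z4 z5, P3 K g z1 d c z2 z3 z4 z5 = P3 K g z1 c d z2 z3 z4 z5 := fun _ _ _ _ _ => p12 K g hk _ _ _ _ _ _ _
  have r3 : ∀ z1 z2 z3 z4 z5, P3 K g z1 z2 z3 d c z4 z5 = P3 K g z1 z2 z3 c d z4 z5 := fun _ _ _ _ _ => p34 K g hk _ _ _ _ _ _ _
  have r4 : ∀ z1 z2 z3 z4 z5, P3 K g z1 z2 z3 z4 d c z5 = P3 K g z1 z2 z3 z4 c d z5 := fun _ _ _ _ _ => p45 K g hk _ _ _ _ _ _ _
  have r5 : ∀ z1 z2 z3 z4 z5, P3 K g z1 z2 z3 z4 z5 d c = P3 K g z1 z2 z3 z4 z5 c d := fun _ _ _ _ _ => p56 K g hk _ _ _ _ _ _ _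
  simp only [S7, r1, r2, r3, r4, r5, Nat.add_eq]
  ring

theorem E7_swap2 (g : V → V → V → ℕ) (hg : Symm3 g) (a b c d e f h : V) :
    E7 g a b d c e f h = E7 g a b c d e f h := by
  have r1 : ∀ z, g d c z = g c d z := fun _ => hg.s12 _ _ _
  have r2 : ∀ z, g z d c = g z c d := fun _ => hg.s23 _ _ _
  simp only [E7, r1, r2, Nat.add_eq]
  ring

theorem S7_swap3 (K : ℕ → ℕ → ℕ → ℕ) (g : V → V → V → ℕ) (hk : KSym K g)
    (a b c d e f h : V) : S7 K g a b c e d f h = S7 K g a b c d e f h := by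
  have r1 : ∀ z1 z2 z3 z4 z5, P3 K g e d z1 z2 z3 z4 z5 = P3 K g d e z1 z2 z3 z4 z5 := fun _ _ _ _ _ => p01 K g hk _ _ _ _ _ _ _
  have r2 : ∀ z1 z2 z3 z4 z5, P3 K g z1 e d z2 z3 z4 z5 = P3 K g z1 d e z2 z3 z4 z5 := fun _ _ _ _ _ => p12 K g hk _ _ _ _ _ _ _
  have r3 : ∀ z1 z2 z3 z4 z5, P3 K g z1 z2 z3 e d z4 z5 = P3 K g z1 z2 z3 d e z4 z5 := fun _ _ _ _ _ => p34 K g hk _ _ _ _ _ _ _
  have r4 : ∀ z1 z2 z3 z4 z5, P3 K g z1 z2 z3 z4 e d z5 = P3 K g z1 z2 z3 z4 d e z5 := fun _ _ _ _ _ => p45 K g hk _ _ _ _ _ _ _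
  have r5 : ∀ z1 z2 z3 z4 z5, P3 K g z1 z2 z3 z4 z5 e d = P3 K g z1 z2 z3 z4 z5 d e := fun _ _ _ _ _ => p56 K g hk _ _ _ _ _ _ _
  simp only [S7, r1, r2, r3, r4, r5, Nat.add_eq]
  ring

theorem E7_swap3 (g : V → V → V → ℕ) (hg : Symm3 g) (a b c d e f h : V) :
    E7 g a b c e d f h = E7 g a b c d e f h := by
  have r1 : ∀ z, g e d z = g d e z := fun _ => hg.s12 _ _ _
  have r2 : ∀ z, g z e d = g z d e := fun _ => hg.s23 _ _ _
  simp only [E7, r1, r2, Nat.add_eq]
  ring

theorem S7_swap4 (K : ℕ → ℕ → ℕ → ℕ) (g : V → V → V → ℕ) (hk : KSym K g)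
    (a b c d e f h : V) : S7 K g a b c d f e h = S7 K g a b c d e f h := by
  have r1 : ∀ z1 z2 z3 z4 z5, P3 K g f e z1 z2 z3 z4 z5 = P3 K g e f z1 z2 z3 z4 z5 := fun _ _ _ _ _ => p01 K g hk _ _ _ _ _ _ _
  have r2 : ∀ z1 z2 z3 z4 z5, P3 K g z1 f e z2 z3 z4 z5 = P3 K g z1 e f z2 z3 z4 z5 := fun _ _ _ _ _ => p12 K g hk _ _ _ _ _ _ _
  have r3 : ∀ z1 z2 z3 z4 z5, P3 K g z1 z2 z3 f e z4 z5 = P3 K g z1 z2 z3 e f z4 z5 := fun _ _ _ _ _ => p34 K g hk _ _ _ _ _ _ _
  have r4 : ∀ z1 z2 z3 z4 z5, P3 K g z1 z2 z3 z4 f e z5 = P3 K g z1 z2 z3 z4 e f z5 := fun _ _ _ _ _ => p45 K g hk _ _ _ _ _ _ _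
  have r5 : ∀ z1 z2 z3 z4 z5, P3 K g z1 z2 z3 z4 z5 f e = P3 K g z1 z2 z3 z4 z5 e f := fun _ _ _ _ _ => p56 K g hk _ _ _ _ _ _ _
  simp only [S7, r1, r2, r3, r4, r5, Nat.add_eq]
  ring

theorem E7_swap4 (g : V → V → V → ℕ) (hg : Symm3 g) (a b c d e f h : V) :
    E7 g a b c d f e h = E7 g a b c d e f h := by
  have r1 : ∀ z, g f e z = g e f z := fun _ => hg.s12 _ _ _
  have r2 : ∀ z, g z f e = g z e f := fun _ => hg.s23 _ _ _
  simp only [E7, r1, r2, Nat.add_eq]
  ring

def P3B (K : ℕ → ℕ → ℕ → ℕ) (t f1 g1 f2 g2 f3 g3 : ℕ) : ℕ :=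
  Nat.add (K t f1 g1) (Nat.add (K t f2 g2) (K t f3 g3))

def S7B (K : ℕ → ℕ → ℕ → ℕ) (b012 b013 b023 b123 b014 b024 b124 b034 b134 b234 b015 b025 b125 b035 b135 b235 b045 b145 b245 b345 b016 b026 b126 b036 b136 b236 b046 b146 b246 b346 b056 b156 b256 b356 b456 : ℕ) : ℕ :=
  Nat.add (Nat.add (Nat.add (Nat.add (Nat.add (Nat.add (K b012 (c9 b013 b023 b123 b014 b024 b124 b034 b134 b234) (c9 b015 b025 b125 b016 b026 b126 b056 b156 b256)) (Nat.add (K b012 (c9 b013 b023 b123 b015 b025 b125 b035 b135 b235) (c9 b014 b024 b124 b016 b026 b126 b046 b146 b246)) (K b012 (c9 b014 b024 b124 b015 b025 b125 b045 b145 b245) (c9 b013 b023 b123 b016 b026 b126 b036 b136 b236)))) (Nat.add (K b013 (c9 b012 b023 b123 b014 b034 b134 b024 b124 b234) (c9 b015 b035 b135 b016 b036 b136 b056 b156 b356)) (Nat.add (K b013 (c9 b012 b023 b123 b015 b035 b135 b025 b125 b235) (c9 b014 b034 b134 b016 b036 b136 b046 b146 b346)) (K b013 (c9 b014 b034 b134 b015 b035 b135 b045 b145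 b345) (c9 b012 b023 b123 b016 b036 b136 b026 b126 b236))))) (Nat.add (Nat.add (K b023 (c9 b012 b013 b123 b024 b034 b234 b014 b124 b134) (c9 b025 b035 b235 b026 b036 b236 b056 b256 b356)) (Nat.add (K b023 (c9 b012 b013 b123 b025 b035 b235 b015 b125 b135) (c9 b024 b034 b234 b026 b036 b236 b046 b246 b346)) (K b023 (c9 b024 b034 b234 b025 b035 b235 b045 b245 b345) (c9 b012 b013 b123 b026 b036 b236 b016 b126 b136)))) (Nat.add (K b123 (c9 b012 b013 b023 b124 b134 b234 b014 b024 b034) (c9 b125 b135 b235 b126 b136 b236 b156 b256 b356)) (Nat.add (K b123 (c9 b012 b013 b023 b125 b135 b235 b015 b025 b035) (c9 b124 b134 b234 b126 b136 b236 b146 b246 b346)) (K b123 (c9 b124 b134 b234 b125 b135 b235 b145 b245 b345) (c9 b012 b013 b023 b126 b136 b236 b016 b026 b036)))))) (Nat.add (Nat.add (Nat.add (K b014 (c9 b012 b024 b124 b013 b034 b134 b023 b123 b234) (c9 b015 b045 b145 b016 b046 b146 b056 b156 b456)) (Nat.add (K b014 (c9 b012 b024 b124 b015 b045 b145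 b025 b125 b245) (c9 b013 b034 b134 b016 b046 b146 b036 b136 b346)) (K b014 (c9 b013 b034 b134 b015 b045 b145 b035 b135 b345) (c9 b012 b024 b124 b016 b046 b146 b026 b126 b246)))) (Nat.add (K b024 (c9 b012 b014 b124 b023 b034 b234 b013 b123 b134) (c9 b025 b045 b245 b026 b046 b246 b056 b256 b456)) (Nat.add (K b024 (c9 b012 b014 b124 b025 b045 b245 b015 b125 b145) (c9 b023 b034 b234 b026 b046 b246 b036 b236 b346)) (K b024 (c9 b023 b034 b234 b025 b045 b245 b035 b235 b345) (c9 b012 b014 b124 b026 b046 b246 b016 b126 b146))))) (Nat.add (Nat.add (K b124 (c9 b012 b014 b024 b123 b134 b234 b013 b023 b034) (c9 b125 b145 b245 b126 b146 b246 b156 b256 b456)) (Nat.add (K b124 (c9 b012 b014 b024 b125 b145 b245 b015 b025 b045) (c9 b123 b134 b234 b126 b146 b246 b136 b236 b346)) (K b124 (c9 b123 b134 b234 b125 b145 b245 b135 b235 b345) (c9 b012 b014 b024 b126 b146 b246 b016 b026 b046)))) (Nat.add (K b034 (c9 b013 b014 b134 b023 b024 b234 b012 b123 b124) (c9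 b035 b045 b345 b036 b046 b346 b056 b356 b456)) (Nat.add (K b034 (c9 b013 b014 b134 b035 b045 b345 b015 b135 b145) (c9 b023 b024 b234 b036 b046 b346 b026 b236 b246)) (K b034 (c9 b023 b024 b234 b035 b045 b345 b025 b235 b245) (c9 b013 b014 b134 b036 b046 b346 b016 b136 b146))))))) (Nat.add (Nat.add (Nat.add (Nat.add (K b134 (c9 b013 b014 b034 b123 b124 b234 b012 b023 b024) (c9 b135 b145 b345 b136 b146 b346 b156 b356 b456)) (Nat.add (K b134 (c9 b013 b014 b034 b135 b145 b345 b015 b035 b045) (c9 b123 b124 b234 b136 b146 b346 b126 b236 b246)) (K b134 (c9 b123 b124 b234 b135 b145 b345 b125 b235 b245) (c9 b013 b014 b034 b136 b146 b346 b016 b036 b046)))) (Nat.add (K b234 (c9 b023 b024 b034 b123 b124 b134 b012 b013 b014) (c9 b235 b245 b345 b236 b246 b346 b256 b356 b456)) (Nat.add (K b234 (c9 b023 b024 b034 b235 b245 b345 b025 b035 b045) (c9 b123 b124 b134 b236 b246 b346 b126 b136 b146)) (K b234 (c9 b123 b124 b134 b235 b245 b345 b125 b135 b145) (c9 b023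 b024 b034 b236 b246 b346 b026 b036 b046))))) (Nat.add (Nat.add (K b015 (c9 b012 b025 b125 b013 b035 b135 b023 b123 b235) (c9 b014 b045 b145 b016 b056 b156 b046 b146 b456)) (Nat.add (K b015 (c9 b012 b025 b125 b014 b045 b145 b024 b124 b245) (c9 b013 b035 b135 b016 b056 b156 b036 b136 b356)) (K b015 (c9 b013 b035 b135 b014 b045 b145 b034 b134 b345) (c9 b012 b025 b125 b016 b056 b156 b026 b126 b256)))) (Nat.add (K b025 (c9 b012 b015 b125 b023 b035 b235 b013 b123 b135) (c9 b024 b045 b245 b026 b056 b256 b046 b246 b456)) (Nat.add (K b025 (c9 b012 b015 b125 b024 b045 b245 b014 b124 b145) (c9 b023 b035 b235 b026 b056 b256 b036 b236 b356)) (K b025 (c9 b023 b035 b235 b024 b045 b245 b034 b234 b345) (c9 b012 b015 b125 b026 b056 b256 b016 b126 b156)))))) (Nat.add (Nat.add (Nat.add (K b125 (c9 b012 b015 b025 b123 b135 b235 b013 b023 b035) (c9 b124 b145 b245 b126 b156 b256 b146 b246 b456)) (Nat.add (K b125 (c9 b012 b015 b025 b124 b145 b245 b014 b024 b045)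 (c9 b123 b135 b235 b126 b156 b256 b136 b236 b356)) (K b125 (c9 b123 b135 b235 b124 b145 b245 b134 b234 b345) (c9 b012 b015 b025 b126 b156 b256 b016 b026 b056)))) (Nat.add (K b035 (c9 b013 b015 b135 b023 b025 b235 b012 b123 b125) (c9 b034 b045 b345 b036 b056 b356 b046 b346 b456)) (Nat.add (K b035 (c9 b013 b015 b135 b034 b045 b345 b014 b134 b145) (c9 b023 b025 b235 b036 b056 b356 b026 b236 b256)) (K b035 (c9 b023 b025 b235 b034 b045 b345 b024 b234 b245) (c9 b013 b015 b135 b036 b056 b356 b016 b136 b156))))) (Nat.add (Nat.add (K b135 (c9 b013 b015 b035 b123 b125 b235 b012 b023 b025) (c9 b134 b145 b345 b136 b156 b356 b146 b346 b456)) (Nat.add (K b135 (c9 b013 b015 b035 b134 b145 b345 b014 b034 b045) (c9 b123 b125 b235 b136 b156 b356 b126 b236 b256)) (K b135 (c9 b123 b125 b235 b134 b145 b345 b124 b234 b245) (c9 b013 b015 b035 b136 b156 b356 b016 b036 b056)))) (Nat.add (Nat.add (K b235 (c9 b023 b025 b035 b123 b125 b135 b012 b013 b015) (c9 b234 b245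 b345 b236 b256 b356 b246 b346 b456)) (Nat.add (K b235 (c9 b023 b025 b035 b234 b245 b345 b024 b034 b045) (c9 b123 b125 b135 b236 b256 b356 b126 b136 b156)) (K b235 (c9 b123 b125 b135 b234 b245 b345 b124 b134 b145) (c9 b023 b025 b035 b236 b256 b356 b026 b036 b056)))) (Nat.add (K b045 (c9 b014 b015 b145 b024 b025 b245 b012 b124 b125) (c9 b034 b035 b345 b046 b056 b456 b036 b346 b356)) (Nat.add (K b045 (c9 b014 b015 b145 b034 b035 b345 b013 b134 b135) (c9 b024 b025 b245 b046 b056 b456 b026 b246 b256)) (K b045 (c9 b024 b025 b245 b034 b035 b345 b023 b234 b235) (c9 b014 b015 b145 b046 b056 b456 b016 b146 b156))))))))) (Nat.add (Nat.add (Nat.add (Nat.add (Nat.add (K b145 (c9 b014 b015 b045 b124 b125 b245 b012 b024 b025) (c9 b134 b135 b345 b146 b156 b456 b136 b346 b356)) (Nat.add (K b145 (c9 b014 b015 b045 b134 b135 b345 b013 b034 b035) (c9 b124 b125 b245 b146 b156 b456 b126 b246 b256)) (K b145 (c9 b124 b125 b245 b134 b135 b345 b123 b234 b235) (c9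 b014 b015 b045 b146 b156 b456 b016 b046 b056)))) (Nat.add (K b245 (c9 b024 b025 b045 b124 b125 b145 b012 b014 b015) (c9 b234 b235 b345 b246 b256 b456 b236 b346 b356)) (Nat.add (K b245 (c9 b024 b025 b045 b234 b235 b345 b023 b034 b035) (c9 b124 b125 b145 b246 b256 b456 b126 b146 b156)) (K b245 (c9 b124 b125 b145 b234 b235 b345 b123 b134 b135) (c9 b024 b025 b045 b246 b256 b456 b026 b046 b056))))) (Nat.add (Nat.add (K b345 (c9 b034 b035 b045 b134 b135 b145 b013 b014 b015) (c9 b234 b235 b245 b346 b356 b456 b236 b246 b256)) (Nat.add (K b345 (c9 b034 b035 b045 b234 b235 b245 b023 b024 b025) (c9 b134 b135 b145 b346 b356 b456 b136 b146 b156)) (K b345 (c9 b134 b135 b145 b234 b235 b245 b123 b124 b125) (c9 b034 b035 b045 b346 b356 b456 b036 b046 b056)))) (Nat.add (K b016 (c9 b012 b026 b126 b013 b036 b136 b023 b123 b236) (c9 b014 b046 b146 b015 b056 b156 b045 b145 b456)) (Nat.add (K b016 (c9 b012 b026 b126 b014 b046 b146 b024 b124 b246) (c9 b013 b036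 b136 b015 b056 b156 b035 b135 b356)) (K b016 (c9 b013 b036 b136 b014 b046 b146 b034 b134 b346) (c9 b012 b026 b126 b015 b056 b156 b025 b125 b256)))))) (Nat.add (Nat.add (Nat.add (K b026 (c9 b012 b016 b126 b023 b036 b236 b013 b123 b136) (c9 b024 b046 b246 b025 b056 b256 b045 b245 b456)) (Nat.add (K b026 (c9 b012 b016 b126 b024 b046 b246 b014 b124 b146) (c9 b023 b036 b236 b025 b056 b256 b035 b235 b356)) (K b026 (c9 b023 b036 b236 b024 b046 b246 b034 b234 b346) (c9 b012 b016 b126 b025 b056 b256 b015 b125 b156)))) (Nat.add (K b126 (c9 b012 b016 b026 b123 b136 b236 b013 b023 b036) (c9 b124 b146 b246 b125 b156 b256 b145 b245 b456)) (Nat.add (K b126 (c9 b012 b016 b026 b124 b146 b246 b014 b024 b046) (c9 b123 b136 b236 b125 b156 b256 b135 b235 b356)) (K b126 (c9 b123 b136 b236 b124 b146 b246 b134 b234 b346) (c9 b012 b016 b026 b125 b156 b256 b015 b025 b056))))) (Nat.add (Nat.add (K b036 (c9 b013 b016 b136 b023 b026 b236 b012 b123 b126) (c9 b034 b046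 b346 b035 b056 b356 b045 b345 b456)) (Nat.add (K b036 (c9 b013 b016 b136 b034 b046 b346 b014 b134 b146) (c9 b023 b026 b236 b035 b056 b356 b025 b235 b256)) (K b036 (c9 b023 b026 b236 b034 b046 b346 b024 b234 b246) (c9 b013 b016 b136 b035 b056 b356 b015 b135 b156)))) (Nat.add (Nat.add (K b136 (c9 b013 b016 b036 b123 b126 b236 b012 b023 b026) (c9 b134 b146 b346 b135 b156 b356 b145 b345 b456)) (Nat.add (K b136 (c9 b013 b016 b036 b134 b146 b346 b014 b034 b046) (c9 b123 b126 b236 b135 b156 b356 b125 b235 b256)) (K b136 (c9 b123 b126 b236 b134 b146 b346 b124 b234 b246) (c9 b013 b016 b036 b135 b156 b356 b015 b035 b056)))) (Nat.add (K b236 (c9 b023 b026 b036 b123 b126 b136 b012 b013 b016) (c9 b234 b246 b346 b235 b256 b356 b245 b345 b456)) (Nat.add (K b236 (c9 b023 b026 b036 b234 b246 b346 b024 b034 b046) (c9 b123 b126 b136 b235 b256 b356 b125 b135 b156)) (K b236 (c9 b123 b126 b136 b234 b246 b346 b124 b134 b146) (c9 b023 b026 b036 b235 b256 b356 b025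 b035 b056)))))))) (Nat.add (Nat.add (Nat.add (Nat.add (K b046 (c9 b014 b016 b146 b024 b026 b246 b012 b124 b126) (c9 b034 b036 b346 b045 b056 b456 b035 b345 b356)) (Nat.add (K b046 (c9 b014 b016 b146 b034 b036 b346 b013 b134 b136) (c9 b024 b026 b246 b045 b056 b456 b025 b245 b256)) (K b046 (c9 b024 b026 b246 b034 b036 b346 b023 b234 b236) (c9 b014 b016 b146 b045 b056 b456 b015 b145 b156)))) (Nat.add (K b146 (c9 b014 b016 b046 b124 b126 b246 b012 b024 b026) (c9 b134 b136 b346 b145 b156 b456 b135 b345 b356)) (Nat.add (K b146 (c9 b014 b016 b046 b134 b136 b346 b013 b034 b036) (c9 b124 b126 b246 b145 b156 b456 b125 b245 b256)) (K b146 (c9 b124 b126 b246 b134 b136 b346 b123 b234 b236) (c9 b014 b016 b046 b145 b156 b456 b015 b045 b056))))) (Nat.add (Nat.add (K b246 (c9 b024 b026 b046 b124 b126 b146 b012 b014 b016) (c9 b234 b236 b346 b245 b256 b456 b235 b345 b356)) (Nat.add (K b246 (c9 b024 b026 b046 b234 b236 b346 b023 b034 b036) (c9 b124 b126 b146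 b245 b256 b456 b125 b145 b156)) (K b246 (c9 b124 b126 b146 b234 b236 b346 b123 b134 b136) (c9 b024 b026 b046 b245 b256 b456 b025 b045 b056)))) (Nat.add (K b346 (c9 b034 b036 b046 b134 b136 b146 b013 b014 b016) (c9 b234 b236 b246 b345 b356 b456 b235 b245 b256)) (Nat.add (K b346 (c9 b034 b036 b046 b234 b236 b246 b023 b024 b026) (c9 b134 b136 b146 b345 b356 b456 b135 b145 b156)) (K b346 (c9 b134 b136 b146 b234 b236 b246 b123 b124 b126) (c9 b034 b036 b046 b345 b356 b456 b035 b045 b056)))))) (Nat.add (Nat.add (Nat.add (K b056 (c9 b015 b016 b156 b025 b026 b256 b012 b125 b126) (c9 b035 b036 b356 b045 b046 b456 b034 b345 b346)) (Nat.add (K b056 (c9 b015 b016 b156 b035 b036 b356 b013 b135 b136) (c9 b025 b026 b256 b045 b046 b456 b024 b245 b246)) (K b056 (c9 b025 b026 b256 b035 b036 b356 b023 b235 b236) (c9 b015 b016 b156 b045 b046 b456 b014 b145 b146)))) (Nat.add (K b156 (c9 b015 b016 b056 b125 b126 b256 b012 b025 b026) (c9 b135 b136 b356 b145 b146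 b456 b134 b345 b346)) (Nat.add (K b156 (c9 b015 b016 b056 b135 b136 b356 b013 b035 b036) (c9 b125 b126 b256 b145 b146 b456 b124 b245 b246)) (K b156 (c9 b125 b126 b256 b135 b136 b356 b123 b235 b236) (c9 b015 b016 b056 b145 b146 b456 b014 b045 b046))))) (Nat.add (Nat.add (K b256 (c9 b025 b026 b056 b125 b126 b156 b012 b015 b016) (c9 b235 b236 b356 b245 b246 b456 b234 b345 b346)) (Nat.add (K b256 (c9 b025 b026 b056 b235 b236 b356 b023 b035 b036) (c9 b125 b126 b156 b245 b246 b456 b124 b145 b146)) (K b256 (c9 b125 b126 b156 b235 b236 b356 b123 b135 b136) (c9 b025 b026 b056 b245 b246 b456 b024 b045 b046)))) (Nat.add (Nat.add (K b356 (c9 b035 b036 b056 b135 b136 b156 b013 b015 b016) (c9 b235 b236 b256 b345 b346 b456 b234 b245 b246)) (Nat.add (K b356 (c9 b035 b036 b056 b235 b236 b256 b023 b025 b026) (c9 b135 b136 b156 b345 b346 b456 b134 b145 b146)) (K b356 (c9 b135 b136 b156 b235 b236 b256 b123 b125 b126) (c9 b035 b036 b056 b345 b346 b456 b034 b045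 b046)))) (Nat.add (K b456 (c9 b045 b046 b056 b145 b146 b156 b014 b015 b016) (c9 b245 b246 b256 b345 b346 b356 b234 b235 b236)) (Nat.add (K b456 (c9 b045 b046 b056 b245 b246 b256 b024 b025 b026) (c9 b145 b146 b156 b345 b346 b356 b134 b135 b136)) (K b456 (c9 b145 b146 b156 b245 b246 b256 b124 b125 b126) (c9 b045 b046 b056 b345 b346 b356 b034 b035 b036)))))))))

def E7B (b012 b013 b023 b123 b014 b024 b124 b034 b134 b234 b015 b025 b125 b035 b135 b235 b045 b145 b245 b345 b016 b026 b126 b036 b136 b236 b046 b146 b246 b346 b056 b156 b256 b356 b456 : ℕ) : ℕ :=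
  Nat.add (Nat.add (Nat.add (Nat.add (Nat.add (b012) (b013)) (Nat.add (b023) (b123))) (Nat.add (Nat.add (b014) (b024)) (Nat.add (b124) (b034)))) (Nat.add (Nat.add (Nat.add (b134) (b234)) (Nat.add (b015) (b025))) (Nat.add (Nat.add (b125) (b035)) (Nat.add (b135) (Nat.add (b235) (b045)))))) (Nat.add (Nat.add (Nat.add (Nat.add (b145) (b245)) (Nat.add (b345) (b016))) (Nat.add (Nat.add (b026) (b126)) (Nat.add (b036) (Nat.add (b136) (b236))))) (Nat.add (Nat.add (Nat.add (b046) (b146)) (Nat.add (b246) (b346))) (Nat.add (Nat.add (b056) (b156)) (Nat.add (b256) (Nat.add (b356) (b456))))))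

theorem S7_eq_S7B (K : ℕ → ℕ → ℕ → ℕ) (g : V → V → V → ℕ) (hg : Symm3 g) (a b c d e f h : V) :
    S7 K g a b c d e f h = S7B K (g a b c) (g a b d) (g a c d) (g b c d) (g a b e) (g a c e) (g b c e) (g a d e) (g b d e) (g c d e) (g a b f) (g a c f) (g b c f) (g a d f) (g b d f) (g c d f) (g a e f) (g b e f) (g c e f) (g d e f) (g a b h) (g a c h) (g b c h) (g a d h) (g b d h) (g c d h) (g a e h) (g b e h) (g c e h) (g d e h) (g a f h) (g b f h) (g c f h) (g d f h) (g e f h) := by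
  have r0 : g a c b = g a b c := hg.s23 a b c
  have r1 : g b a c = g a b c := hg.s12 a b c
  have r2 : g b c a = g a b c := (hg.s23 b a c).trans (hg.s12 a b c)
  have r3 : g c a b = g a b c := (hg.s12 a c b).trans (hg.s23 a b c)
  have r5 : g a d b = g a b d := hg.s23 a b d
  have r6 : g b a d = g a b d := hg.s12 a b d
  have r7 : g b d a = g a b d := (hg.s23 b a d).trans (hg.s12 a b d)
  have r8 : g d a b = g a b d := (hg.s12 a d b).trans (hg.s23 a b d)
  have r10 : g a d c = g a c d := hg.s23 a c d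
  have r11 : g c a d = g a c d := hg.s12 a c d
  have r12 : g c d a = g a c d := (hg.s23 c a d).trans (hg.s12 a c d)
  have r13 : g d a c = g a c d := (hg.s12 a d c).trans (hg.s23 a c d)
  have r15 : g b d c = g b c d := hg.s23 b c d
  have r16 : g c b d = g b c d := hg.s12 b c d
  have r17 : g c d b = g b c d := (hg.s23 c b d).trans (hg.s12 b c d)
  have r18 : g d b c = g b c d := (hg.s12 b d c).trans (hg.s23 b c d)
  have r20 : g a e b = g a b e := hg.s23 a b e
  have r21 : g b a e = g a b e := hg.s12 a b e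
  have r22 : g b e a = g a b e := (hg.s23 b a e).trans (hg.s12 a b e)
  have r23 : g e a b = g a b e := (hg.s12 a e b).trans (hg.s23 a b e)
  have r25 : g a e c = g a c e := hg.s23 a c e
  have r26 : g c a e = g a c e := hg.s12 a c e
  have r27 : g c e a = g a c e := (hg.s23 c a e).trans (hg.s12 a c e)
  have r28 : g e a c = g a c e := (hg.s12 a e c).trans (hg.s23 a c e)
  have r30 : g b e c = g b c e := hg.s23 b c e
  have r31 : g c b e = g b c e := hg.s12 b c e
  have r32 : g c e b = g b c e := (hg.s23 c b e).trans (hg.s12 b c e)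
  have r33 : g e b c = g b c e := (hg.s12 b e c).trans (hg.s23 b c e)
  have r35 : g a e d = g a d e := hg.s23 a d e
  have r36 : g d a e = g a d e := hg.s12 a d e
  have r37 : g d e a = g a d e := (hg.s23 d a e).trans (hg.s12 a d e)
  have r38 : g e a d = g a d e := (hg.s12 a e d).trans (hg.s23 a d e)
  have r40 : g b e d = g b d e := hg.s23 b d e
  have r41 : g d b e = g b d e := hg.s12 b d e
  have r42 : g d e b = g b d e := (hg.s23 d b e).trans (hg.s12 b d e)
  have r43 : g e b d = g b d e := (hg.s12 b e d).trans (hg.s23 b d e)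
  have r45 : g c e d = g c d e := hg.s23 c d e
  have r46 : g d c e = g c d e := hg.s12 c d e
  have r47 : g d e c = g c d e := (hg.s23 d c e).trans (hg.s12 c d e)
  have r48 : g e c d = g c d e := (hg.s12 c e d).trans (hg.s23 c d e)
  have r50 : g a f b = g a b f := hg.s23 a b f
  have r51 : g b a f = g a b f := hg.s12 a b f
  have r52 : g b f a = g a b f := (hg.s23 b a f).trans (hg.s12 a b f)
  have r53 : g f a b = g a b f := (hg.s12 a f b).trans (hg.s23 a b f)
  have r55 : g a f c = g a c f := hg.s23 a c f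
  have r56 : g c a f = g a c f := hg.s12 a c f
  have r57 : g c f a = g a c f := (hg.s23 c a f).trans (hg.s12 a c f)
  have r58 : g f a c = g a c f := (hg.s12 a f c).trans (hg.s23 a c f)
  have r60 : g b f c = g b c f := hg.s23 b c f
  have r61 : g c b f = g b c f := hg.s12 b c f
  have r62 : g c f b = g b c f := (hg.s23 c b f).trans (hg.s12 b c f)
  have r63 : g f b c = g b c f := (hg.s12 b f c).trans (hg.s23 b c f)
  have r65 : g a f d = g a d f := hg.s23 a d f
  have r66 : g d a f = g a d f := hg.s12 a d f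
  have r67 : g d f a = g a d f := (hg.s23 d a f).trans (hg.s12 a d f)
  have r68 : g f a d = g a d f := (hg.s12 a f d).trans (hg.s23 a d f)
  have r70 : g b f d = g b d f := hg.s23 b d f
  have r71 : g d b f = g b d f := hg.s12 b d f
  have r72 : g d f b = g b d f := (hg.s23 d b f).trans (hg.s12 b d f)
  have r73 : g f b d = g b d f := (hg.s12 b f d).trans (hg.s23 b d f)
  have r75 : g c f d = g c d f := hg.s23 c d f
  have r76 : g d c f = g c d f := hg.s12 c d f
  have r77 : g d f c = g c d f := (hg.s23 d c f).trans (hg.s12 c d f)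
  have r78 : g f c d = g c d f := (hg.s12 c f d).trans (hg.s23 c d f)
  have r80 : g a f e = g a e f := hg.s23 a e f
  have r81 : g e a f = g a e f := hg.s12 a e f
  have r82 : g e f a = g a e f := (hg.s23 e a f).trans (hg.s12 a e f)
  have r83 : g f a e = g a e f := (hg.s12 a f e).trans (hg.s23 a e f)
  have r85 : g b f e = g b e f := hg.s23 b e f
  have r86 : g e b f = g b e f := hg.s12 b e f
  have r87 : g e f b = g b e f := (hg.s23 e b f).trans (hg.s12 b e f)
  have r88 : g f b e = g b e f := (hg.s12 b f e).trans (hg.s23 b e f)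
  have r90 : g c f e = g c e f := hg.s23 c e f
  have r91 : g e c f = g c e f := hg.s12 c e f
  have r92 : g e f c = g c e f := (hg.s23 e c f).trans (hg.s12 c e f)
  have r93 : g f c e = g c e f := (hg.s12 c f e).trans (hg.s23 c e f)
  have r95 : g d f e = g d e f := hg.s23 d e f
  have r96 : g e d f = g d e f := hg.s12 d e f
  have r97 : g e f d = g d e f := (hg.s23 e d f).trans (hg.s12 d e f)
  have r98 : g f d e = g d e f := (hg.s12 d f e).trans (hg.s23 d e f)
  have r100 : g a h b = g a b h := hg.s23 a b h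
  have r101 : g b a h = g a b h := hg.s12 a b h
  have r102 : g b h a = g a b h := (hg.s23 b a h).trans (hg.s12 a b h)
  have r103 : g h a b = g a b h := (hg.s12 a h b).trans (hg.s23 a b h)
  have r105 : g a h c = g a c h := hg.s23 a c h
  have r106 : g c a h = g a c h := hg.s12 a c h
  have r107 : g c h a = g a c h := (hg.s23 c a h).trans (hg.s12 a c h)
  have r108 : g h a c = g a c h := (hg.s12 a h c).trans (hg.s23 a c h)
  have r110 : g b h c = g b c h := hg.s23 b c h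
  have r111 : g c b h = g b c h := hg.s12 b c h
  have r112 : g c h b = g b c h := (hg.s23 c b h).trans (hg.s12 b c h)
  have r113 : g h b c = g b c h := (hg.s12 b h c).trans (hg.s23 b c h)
  have r115 : g a h d = g a d h := hg.s23 a d h
  have r116 : g d a h = g a d h := hg.s12 a d h
  have r117 : g d h a = g a d h := (hg.s23 d a h).trans (hg.s12 a d h)
  have r118 : g h a d = g a d h := (hg.s12 a h d).trans (hg.s23 a d h)
  have r120 : g b h d = g b d h := hg.s23 b d h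
  have r121 : g d b h = g b d h := hg.s12 b d h
  have r122 : g d h b = g b d h := (hg.s23 d b h).trans (hg.s12 b d h)
  have r123 : g h b d = g b d h := (hg.s12 b h d).trans (hg.s23 b d h)
  have r125 : g c h d = g c d h := hg.s23 c d h
  have r126 : g d c h = g c d h := hg.s12 c d h
  have r127 : g d h c = g c d h := (hg.s23 d c h).trans (hg.s12 c d h)
  have r128 : g h c d = g c d h := (hg.s12 c h d).trans (hg.s23 c d h)
  have r130 : g a h e = g a e h := hg.s23 a e h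
  have r131 : g e a h = g a e h := hg.s12 a e h
  have r132 : g e h a = g a e h := (hg.s23 e a h).trans (hg.s12 a e h)
  have r133 : g h a e = g a e h := (hg.s12 a h e).trans (hg.s23 a e h)
  have r135 : g b h e = g b e h := hg.s23 b e h
  have r136 : g e b h = g b e h := hg.s12 b e h
  have r137 : g e h b = g b e h := (hg.s23 e b h).trans (hg.s12 b e h)
  have r138 : g h b e = g b e h := (hg.s12 b h e).trans (hg.s23 b e h)
  have r140 : g c h e = g c e h := hg.s23 c e h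
  have r141 : g e c h = g c e h := hg.s12 c e h
  have r142 : g e h c = g c e h := (hg.s23 e c h).trans (hg.s12 c e h)
  have r143 : g h c e = g c e h := (hg.s12 c h e).trans (hg.s23 c e h)
  have r145 : g d h e = g d e h := hg.s23 d e h
  have r146 : g e d h = g d e h := hg.s12 d e h
  have r147 : g e h d = g d e h := (hg.s23 e d h).trans (hg.s12 d e h)
  have r148 : g h d e = g d e h := (hg.s12 d h e).trans (hg.s23 d e h)
  have r150 : g a h f = g a f h := hg.s23 a f h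
  have r151 : g f a h = g a f h := hg.s12 a f h
  have r152 : g f h a = g a f h := (hg.s23 f a h).trans (hg.s12 a f h)
  have r153 : g h a f = g a f h := (hg.s12 a h f).trans (hg.s23 a f h)
  have r155 : g b h f = g b f h := hg.s23 b f h
  have r156 : g f b h = g b f h := hg.s12 b f h
  have r157 : g f h b = g b f h := (hg.s23 f b h).trans (hg.s12 b f h)
  have r158 : g h b f = g b f h := (hg.s12 b h f).trans (hg.s23 b f h)
  have r160 : g c h f = g c f h := hg.s23 c f h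
  have r161 : g f c h = g c f h := hg.s12 c f h
  have r162 : g f h c = g c f h := (hg.s23 f c h).trans (hg.s12 c f h)
  have r163 : g h c f = g c f h := (hg.s12 c h f).trans (hg.s23 c f h)
  have r165 : g d h f = g d f h := hg.s23 d f h
  have r166 : g f d h = g d f h := hg.s12 d f h
  have r167 : g f h d = g d f h := (hg.s23 f d h).trans (hg.s12 d f h)
  have r168 : g h d f = g d f h := (hg.s12 d h f).trans (hg.s23 d f h)
  have r170 : g e h f = g e f h := hg.s23 e f h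
  have r171 : g f e h = g e f h := hg.s12 e f h
  have r172 : g f h e = g e f h := (hg.s23 f e h).trans (hg.s12 e f h)
  have r173 : g h e f = g e f h := (hg.s12 e h f).trans (hg.s23 e f h)
  simp only [S7, S7B, P3, K3, fl, r0, r1, r2, r3, r5, r6, r7, r8, r10, r11, r12, r13, r15, r16, r17, r18, r20, r21, r22, r23, r25, r26, r27, r28, r30, r31, r32, r33, r35, r36, r37, r38, r40, r41, r42, r43, r45, r46, r47, r48, r50, r51, r52, r53, r55, r56, r57, r58, r60, r61, r62, r63, r65, r66, r67, r68, r70, r71, r72, r73, r75, r76, r77, r78, r80, r81, r82, r83, r85, r86, r87, r88, r90, r91, r92, r93, r95, r96, r97, r98, r100, r101, r102, r103, r105, r106, r107, r108, r110, r111, r112, r113, r115, r116, r117, r118, r120, r121, r122, r123, r125, r126, r127, r128, r130, r131, r132, r133, r135, r136, r137, r138, r140, r141, r142, r143, r145, r146, r147, r148, r150, r151, r152, r153, r155, r156, r157, r158, r160, r161, r162, r163, r165, r166, r167, r168,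 r170, r171, r172, r173]

theorem E7_eq_E7B (g : V → V → V → ℕ) (a b c d e f h : V) :
    E7 g a b c d e f h = E7B (g a b c) (g a b d) (g a c d) (g b c d) (g a b e) (g a c e) (g b c e) (g a d e) (g b d e) (g c d e) (g a b f) (g a c f) (g b c f) (g a d f) (g b d f) (g c d f) (g a e f) (g b e f) (g c e f) (g d e f) (g a b h) (g a c h) (g b c h) (g a d h) (g b d h) (g c d h) (g a e h) (g b e h) (g c e h) (g d e h) (g a f h) (g b f h) (g c f h) (g d f h) (g e f h) := rfl

end Pool.Agent.H6N7
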