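import Pool.Agent.H6N7.Pk2
import Pool.Agent.H6N7.Sym7

set_option autoImplicit false

/-!
# The table as a packed vector (generic part)
-/

namespace Pool.Agent.H6N7

open Pool.Agent.H6Turan

/-- the table with rows `R` -/
def Kr (R : ℕ → ℕ → ℕ) (t f f' : ℕ) : ℕ :=
  Nat.land (Nat.shiftRight (R t f) (Nat.mul 26 f')) 262143

theorem Kr_lt (R : ℕ → ℕ → ℕ) (t f f' : ℕ) : Kr R t f f' < 2 ^ 18 := by
  show Nat.land _ 262143 < 2 ^ 18
  exact lt_of_le_of_lt Nat.and_le_right (by norm_num)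

/-- rows glued together -/
def build (w m : ℕ) (r : ℕ → ℕ) : ℕ → ℕ → ℕ
  | 0, o => r o
  | k + 1, o => Nat.add (build w m r k o)
      (Nat.shiftLeft (build w m r k (Nat.add o (Nat.pow 2 k)))
        (Nat.mul w (Nat.pow 2 (Nat.add m k))))

theorem build_eq (w m : ℕ) (r : ℕ → ℕ) (B : ℕ) (hr : ∀ n < B, r n < 2 ^ (w * 2 ^ m)) (k o : ℕ)
    (ho : o + 2 ^ k ≤ B) (e : ℕ → ℕ) :
    build w m r k o = pk w (m + k)
      (fun e => lane w (r (o + idx (fun i => e (m + i)) k)) (idx e m)) e := by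
  induction k generalizing o e with
  | zero =>
    show r o = pk w m (fun e => lane w (r (o + 0)) (idx e m)) e
    rw [add_zero, pk_lanes w m (r o) e (hr o (by simpa using ho))]
  | succ k ih =>
    have h2 : 2 ^ (k + 1) = 2 ^ k + 2 ^ k := by ring
    have e1 : Nat.add m k = m + k := rfl
    have e2 : Nat.add o (Nat.pow 2 k) = o + 2 ^ k := rfl
    have e3 : Nat.mul w (Nat.pow 2 (m + k)) = w * 2 ^ (m + k) := rfl
    have e4 : m + (k + 1) = (m + k) + 1 := rfl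
    have hk := Nat.two_pow_pos k
    have i0 := ih o (by omega) (upd e (m + k) 0)
    have i1 := ih (o + 2 ^ k) (by omega) (upd e (m + k) 1)
    rw [build, e1, e2, e3, e4, pk, i0, i1, shl]
    have a0 : pk w (m + k) (fun e => lane w (r (o + idx (fun i => e (m + i)) k)) (idx e m))
        (upd e (m + k) 0) = pk w (m + k)
        (fun e => lane w (r (o + idx (fun i => e (m + i)) (k + 1))) (idx e m))
        (upd e (m + k) 0) := by
      refine pk_congr _ _ _ _ _ (fun e' he => ?_)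
      have : e' (m + k) = 0 := by rw [he.1 _ le_rfl, upd_same]
      show _ = lane w (r (o + (idx (fun i => e' (m + i)) k + 2 ^ k * e' (m + k)))) (idx e' m)
      rw [this, mul_zero, add_zero]
    have a1 : pk w (m + k) (fun e => lane w (r (o + 2 ^ k + idx (fun i => e (m + i)) k)) (idx e m))
        (upd e (m + k) 1) = pk w (m + k)
        (fun e => lane w (r (o + idx (fun i => e (m + i)) (k + 1))) (idx e m))
        (upd e (m + k) 1) := by
      refine pk_congr _ _ _ _ _ (fun e' he => ?_)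
      have : e' (m + k) = 1 := by rw [he.1 _ le_rfl, upd_same]
      show _ = lane w (r (o + (idx (fun i => e' (m + i)) k + 2 ^ k * e' (m + k)))) (idx e' m)
      rw [this, mul_one]
      congr 2
      ring
    rw [a0, a1]
    rfl

theorem bit_cases (n p : ℕ) : n / 2 ^ p % 2 = 0 ∨ n / 2 ^ p % 2 = 1 := by omega

theorem idx_bits (n : ℕ) (k : ℕ) : idx (fun p => n / 2 ^ p % 2) k = n % 2 ^ k := by
  induction k with
  | zero => simp [idx, Nat.mod_one]
  | succ k ih => rw [idx, ih, pow_succ, Nat.mod_mul]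

theorem hi_zero (w v y : ℕ) (hv : v ≤ w) (hy : y < 2 ^ w)
    (h : Nat.land y (2 ^ v * (2 ^ (w - v) - 1)) = 0) : y < 2 ^ v := by
  have h1 := land_split v (y % 2 ^ v) (y / 2 ^ v) 0 (2 ^ (w - v) - 1)
    (Nat.mod_lt _ (Nat.two_pow_pos v)) (Nat.two_pow_pos v)
  rw [Nat.mod_add_div, zero_add, h, land_mask] at h1
  have h4 : y / 2 ^ v < 2 ^ (w - v) := by
    rw [Nat.div_lt_iff_lt_mul (Nat.two_pow_pos v), ← pow_add, Nat.sub_add_cancel hv]
    exact hy
  rw [Nat.mod_eq_of_lt h4] at h1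
  have h5 : y / 2 ^ v = 0 := by
    rcases Nat.eq_zero_or_pos (y / 2 ^ v) with h6 | h6
    · exact h6
    · exfalso
      have : 0 < 2 ^ v * (y / 2 ^ v) := Nat.mul_pos (Nat.two_pow_pos v) h6
      omega
  rwa [Nat.div_eq_zero_iff_lt (Nat.two_pow_pos v)] at h5

theorem lanes_small (w v k x : ℕ) (hv : v ≤ w) (hx : x < 2 ^ (w * 2 ^ k))
    (hz : Nat.land x (Nat.mul (2 ^ v * (2 ^ (w - v) - 1)) (ones w k)) = 0) (j : ℕ)
    (hj : j < 2 ^ k) :
    lane w x j = Nat.land (Nat.shiftRight x (Nat.mul w j)) (2 ^ v - 1) := by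
  have hlt : 2 ^ v * (2 ^ (w - v) - 1) < 2 ^ w := by
    have : 2 ^ w = 2 ^ v * 2 ^ (w - v) := by rw [← pow_add, Nat.add_sub_cancel' hv]
    rw [this]
    exact Nat.mul_lt_mul_of_pos_left (Nat.sub_lt (Nat.two_pow_pos _) one_pos) (Nat.two_pow_pos v)
  have hHI : Nat.mul (2 ^ v * (2 ^ (w - v) - 1)) (ones w k)
      = pk w k (fun _ => 2 ^ v * (2 ^ (w - v) - 1)) (fun _ => 0) := by
    rw [ones_eq w k (fun _ => 0)]
    show (2 ^ v * (2 ^ (w - v) - 1)) * pk w k (fun _ => 1) (fun _ => 0) = _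
    rw [← pk_mul]
    simp only [mul_one]
  rw [hHI] at hz
  nth_rewrite 1 [← pk_lanes w k x (fun _ => 0) hx] at hz
  rw [land_pk2 w k _ _ _ (fun e' => lane_lt w _ _) (fun _ => hlt)] at hz
  have h1 := pk_inj w k _ (fun _ => 0) (fun _ => 0)
    (fun e' => lt_of_le_of_lt Nat.and_le_left (lane_lt w _ _)) (fun _ => Nat.two_pow_pos w)
    (hz.trans (pk_zero w k _).symm)
    (fun p => if p < k then j / 2 ^ p % 2 else 0)
    ⟨fun p hp => if_neg (by omega), fun p hp => by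
      show (if p < k then j / 2 ^ p % 2 else 0) = 0 ∨ (if p < k then j / 2 ^ p % 2 else 0) = 1
      rw [if_pos hp]; exact bit_cases j p⟩
  have h2 : idx (fun p => if p < k then j / 2 ^ p % 2 else 0) k = j := by
    rw [idx_congr _ (fun p => j / 2 ^ p % 2) k (fun p hp => if_pos hp), idx_bits]
    exact Nat.mod_eq_of_lt hj
  have h3 : Nat.land (lane w x (idx (fun p => if p < k then j / 2 ^ p % 2 else 0) k))
    (2 ^ v * (2 ^ (w - v) - 1)) = 0 := h1
  rw [h2] at h3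
  have h4 := hi_zero w v _ hv (lane_lt w _ _) h3
  have h5 : Nat.land (Nat.shiftRight x (Nat.mul w j)) (2 ^ v - 1)
      = x / 2 ^ (w * j) % 2 ^ v := by
    rw [land_mask]
    show (x >>> (w * j)) % 2 ^ v = _
    rw [Nat.shiftRight_eq_div_pow]
  rw [h5]
  rw [lane_eq] at h4 ⊢
  rw [← Nat.mod_eq_of_lt h4]
  exact Nat.mod_mod_of_dvd _ (pow_dvd_pow 2 hv)

def rowN (R : ℕ → ℕ → ℕ) (n : ℕ) : ℕ := R (Nat.shiftRight n 9) (Nat.land n 511)

/-- the table as a packed vector with `2 ^ 19` lanes -/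
def KTg (R : ℕ → ℕ → ℕ) : ℕ := build 26 9 (rowN R) 10 0

/-- the rows fit -/
def rowsChk (R : ℕ → ℕ → ℕ) : Bool :=
  allLt (fun n => Nat.ble (Nat.succ (rowN R n)) (Nat.pow 2 13312) &&
    Nat.beq (Nat.land (rowN R n) (Nat.mul 66846720 (ones 26 9))) 0) 1024

theorem land511 (x : ℕ) : Nat.land x 511 = x % 512 := Nat.and_two_pow_sub_one_eq_mod x 9

theorem shr9 (x : ℕ) : Nat.shiftRight x 9 = x / 512 := Nat.shiftRight_eq_div_pow x 9

theorem c9_lt (b0 b1 b2 b3 b4 b5 b6 b7 b8 : ℕ) (h0 : b0 = 0 ∨ b0 = 1) (h1 : b1 = 0 ∨ b1 = 1)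
    (h2 : b2 = 0 ∨ b2 = 1) (h3 : b3 = 0 ∨ b3 = 1) (h4 : b4 = 0 ∨ b4 = 1) (h5 : b5 = 0 ∨ b5 = 1)
    (h6 : b6 = 0 ∨ b6 = 1) (h7 : b7 = 0 ∨ b7 = 1) (h8 : b8 = 0 ∨ b8 = 1) :
    c9 b0 b1 b2 b3 b4 b5 b6 b7 b8 < 512 := by
  simp only [c9, Nat.add_eq, Nat.mul_eq]
  omega

theorem idx9 (e : ℕ → ℕ) :
    idx e 9 = c9 (e 0) (e 1) (e 2) (e 3) (e 4) (e 5) (e 6) (e 7) (e 8) := by
  simp only [idx, c9, Nat.add_eq, Nat.mul_eq]
  ring

theorem KTg_pt (R : ℕ → ℕ → ℕ) (h : rowsChk R = true) (f t f' : ℕ) (ht : t = 0 ∨ t = 1)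
    (hf : f < 512) (hf' : f' < 512) : lane 26 (rowN R (f + 512 * t)) f' = Kr R t f f' := by
  have hn : f + 512 * t < 1024 := by omega
  have h1 := allLt_spec h (f + 512 * t) hn
  rw [Bool.and_eq_true] at h1
  have h2 := Nat.le_of_ble_eq_true h1.1
  have h3 := Nat.eq_of_beq_eq_true h1.2
  have h4 : rowN R (f + 512 * t) = R t f := by
    have a1 : Nat.shiftRight (f + 512 * t) 9 = t := by
      rw [shr9]
      omega
    have a2 : Nat.land (f + 512 * t) 511 = f := by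
      rw [land511]
      omega
    unfold rowN
    rw [a1, a2]
  have e1 : (66846720 : ℕ) = 2 ^ 18 * (2 ^ (26 - 18) - 1) := by norm_num
  have e2 : (13312 : ℕ) = 26 * 2 ^ 9 := by norm_num
  rw [e2] at h2
  rw [e1] at h3
  rw [lanes_small 26 18 9 _ (by norm_num) h2 h3 f' (by omega), h4]
  have e3 : (2 ^ 18 - 1 : ℕ) = 262143 := by norm_num
  rw [e3]
  rfl

theorem KTg_eq (R : ℕ → ℕ → ℕ) (h : rowsChk R = true) (e0 : ℕ → ℕ) :
    KTg R = pk 26 19 (fun e =>
      Kr R (e 18) (c9 (e 9) (e 10) (e 11) (e 12) (e 13) (e 14) (e 15) (e 16) (e 17))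
      (c9 (e 0) (e 1) (e 2) (e 3) (e 4) (e 5) (e 6) (e 7) (e 8))) e0 := by
  have hrow : ∀ n < 1024, rowN R n < 2 ^ (26 * 2 ^ 9) := by
    intro n hn
    have h1 := allLt_spec h n hn
    rw [Bool.and_eq_true] at h1
    have h2 := Nat.le_of_ble_eq_true h1.1
    have e2 : (13312 : ℕ) = 26 * 2 ^ 9 := by norm_num
    rw [e2] at h2
    exact h2
  have h1 := build_eq 26 9 (rowN R) 1024 hrow 10 0 (by norm_num) e0
  unfold KTg
  rw [h1]
  refine pk_congr _ _ _ _ _ (fun e he => ?_)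
  have hb : ∀ p, p < 19 → e p = 0 ∨ e p = 1 := he.2
  have hn : 0 + idx (fun i => e (9 + i)) 10
      = c9 (e 9) (e 10) (e 11) (e 12) (e 13) (e 14) (e 15) (e 16) (e 17) + 512 * e 18 := by
    simp only [idx, c9, Nat.add_eq, Nat.mul_eq]
    ring
  rw [hn, idx9]
  exact KTg_pt R h _ _ _ (hb 18 (by norm_num))
    (c9_lt _ _ _ _ _ _ _ _ _ (hb 9 (by norm_num)) (hb 10 (by norm_num)) (hb 11 (by norm_num))
      (hb 12 (by norm_num)) (hb 13 (by norm_num)) (hb 14 (by norm_num)) (hb 15 (by norm_num))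
      (hb 16 (by norm_num)) (hb 17 (by norm_num)))
    (c9_lt _ _ _ _ _ _ _ _ _ (hb 0 (by norm_num)) (hb 1 (by norm_num)) (hb 2 (by norm_num))
      (hb 3 (by norm_num)) (hb 4 (by norm_num)) (hb 5 (by norm_num)) (hb 6 (by norm_num))
      (hb 7 (by norm_num)) (hb 8 (by norm_num)))

end Pool.Agent.H6N7
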