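import Pool.Agent.H5N7.Psd
import Pool.Agent.H6N7.Table
import Pool.Agent.H6N7.Row
import Pool.Agent.H6N7.Cols1

set_option autoImplicit false
set_option maxRecDepth 100000

/-!
# Kernel check: the matrix of type 1 is positive semidefinite
-/

namespace Pool.Agent.H6N7

open Pool.Agent.H5N7

/-- expansion of lanes of 22 bits to 56 bits -/
def expd1 (x : ℕ) : ℕ → ℕ
  | 0 => 0
  | j + 1 => Nat.add (expd1 x j)
      (Nat.shiftLeft (Nat.land (Nat.shiftRight x (Nat.mul 22 j)) 4194303) (Nat.mul 56 j))

theorem psd1 : psdFast 56 72057594037927935 4194303 191 4194304 2097152 840354039332864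
    (fun i j => Kr row 1 (rp 1 i) (rp 1 j)) (fun k => expd1 (colT1 k) 191) = true := by
  decide +kernel

end Pool.Agent.H6N7
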