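import Pool.Agent.H6N7.TabSym
import Pool.Agent.H6N7.Row

set_option autoImplicit false

/-!
# Kernel checks for the table
-/

namespace Pool.Agent.H6N7

theorem tab_chk : rowsChk row = true ∧ symChk row l34 = true ∧ symChk row l01 = true ∧
    symChk row l12 = true ∧ symChk row lpp = true := by
  refine ⟨?_, ?_, ?_, ?_, ?_⟩ <;> decide +kernel

theorem rows_ok : rowsChk row = true := tab_chk.1

theorem s34 : symChk row l34 = true := tab_chk.2.1

theorem s01 : symChk row l01 = true := tab_chk.2.2.1

theorem s12 : symChk row l12 = true := tab_chk.2.2.2.1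

theorem spp : symChk row lpp = true := tab_chk.2.2.2.2

end Pool.Agent.H6N7
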