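import Pool.Agent.H6N7.PsdLift
import Pool.Agent.H6N7.PsdChk0
import Pool.Agent.H6N7.PsdChk1
import Pool.Agent.H6N7.TabChk

set_option autoImplicit false
set_option maxRecDepth 100000

/-!
# The sums over flags for the table
-/

namespace Pool.Agent.H6N7

open Pool.Agent.H6Turan Pool.Agent.H5N7

theorem rp0_chk : allLt (fun i => Nat.blt (rp 0 i) 512) 236 = true := by decide +kernel

theorem rp1_chk : allLt (fun i => Nat.blt (rp 1 i) 512) 191 = true := by decide +kernel

theorem pos0_chk : posChk row 0 236 (rp 0) (pos 0) = true := by decide +kernel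

theorem pos1_chk : posChk row 1 191 (rp 1) (pos 1) = true := by decide +kernel

theorem psd_gen (R : ℕ → ℕ → ℕ) (h : rowsChk R = true) (hpp : symChk R lpp = true) (t m : ℕ)
    (ht : Bit t) (rpf : ℕ → ℕ) (hrp : ∀ i < m, rpf i < 512) (hm : m * 2 ^ (2 * 22) ≤ 2 ^ 56)
    (B : ℕ) (hB : B = m * 2097152 ^ 2 + 4194304 * 78000) (C : ℕ → ℕ)
    (hchk : psdFast 56 72057594037927935 4194303 m 4194304 2097152 B
      (fun i j => Kr R t (rpf i) (rpf j)) C = true) (y : ℕ → ℤ) :
    0 ≤ ∑ i ∈ Finset.range m, ∑ j ∈ Finset.range m,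
      ((Kr R t (rpf i) (rpf j) : ℤ) - (78000 : ℕ)) * y i * y j :=
  psdFast_sound 56 22 m 4194304 78000 2097152 72057594037927935 4194303 B (by norm_num)
    (by norm_num) hm (by norm_num) (by norm_num) hB (fun i j => Kr R t (rpf i) (rpf j))
    (fun i hi j hj => Kr_symm R h hpp ht (hrp i hi) (hrp j hj)) C hchk y

theorem sum_flags0 {V : Type*} [Fintype V] (g : V → V → V → ℕ)
    (hb : ∀ a b c, g a b c = 0 ∨ g a b c = 1)
    (hfree : ∀ a b c d, g a b c * g a b d * g a c d * g b c d = 0) (a b c : V) :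
    ((78000 : ℕ) : ℤ) * (Fintype.card V : ℤ) ^ 4 ≤ ∑ u : V × V, ∑ v : V × V,
      (Kr row (g a b c) (fl g a b c u.1 u.2) (fl g a b c v.1 v.2) : ℤ) := by
  rcases hb a b c with ht | ht
  · have hrp : ∀ i < 236, rp 0 i < 512 :=
      fun i hi => Nat.le_of_ble_eq_true (allLt_spec rp0_chk i hi)
    exact sum_flags row rows_ok spp 236 (rp 0) (pos 0) 78000 g hb hfree a b c 0 ht hrp
      (psd_gen row rows_ok spp 0 236 (Or.inl rfl) (rp 0) hrp (by norm_num) _ (by norm_num) _ psd0)
      pos0_chk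
  · have hrp : ∀ i < 191, rp 1 i < 512 :=
      fun i hi => Nat.le_of_ble_eq_true (allLt_spec rp1_chk i hi)
    exact sum_flags row rows_ok spp 191 (rp 1) (pos 1) 78000 g hb hfree a b c 1 ht hrp
      (psd_gen row rows_ok spp 1 191 (Or.inr rfl) (rp 1) hrp (by norm_num) _ (by norm_num) _ psd1)
      pos1_chk

end Pool.Agent.H6N7
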