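import Pool.Agent.H6N7.Sym7

set_option autoImplicit false
set_option linter.unusedSimpArgs false
set_option maxHeartbeats 4000000

/-!
# Sums over all seven-tuples
(generated file)
-/

namespace Pool.Agent.H6N7

open Pool.Agent.H6Turan

variable {V : Type*} [Fintype V]

theorem sum_perm7 {α : Type*} [AddCommMonoid α] (Φ : (Fin 7 → V) → α) (p : Fin 7 → Fin 7)
    (hp : Function.Bijective p) : ∑ x : Fin 7 → V, Φ (fun i => x (p i)) = ∑ x, Φ x := by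
  let e : Fin 7 ≃ Fin 7 := Equiv.ofBijective p hp
  exact Fintype.sum_equiv (Equiv.arrowCongr e.symm (Equiv.refl V)) _ _ (fun x => rfl)

theorem sum_fin7 {α : Type*} [AddCommMonoid α] (Φ : V → V → V → V → V → V → V → α) :
    ∑ x : Fin 7 → V, Φ (x 0) (x 1) (x 2) (x 3) (x 4) (x 5) (x 6)
      = ∑ a, ∑ b, ∑ c, ∑ d, ∑ e, ∑ f, ∑ h, Φ a b c d e f h := by
  rw [sum_cons]
  refine Finset.sum_congr rfl (fun a _ => ?_)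
  exact sum_fin6 (fun b c d e f h => Φ a b c d e f h)

theorem sum_K3_perm (K : ℕ → ℕ → ℕ → ℕ) (g : V → V → V → ℕ) (p : Fin 7 → Fin 7)
    (hp : Function.Bijective p) :
    ∑ x : Fin 7 → V, K3 K g (x (p 0)) (x (p 1)) (x (p 2)) (x (p 3)) (x (p 4)) (x (p 5)) (x (p 6))
      = ∑ x : Fin 7 → V, K3 K g (x 0) (x 1) (x 2) (x 3) (x 4) (x 5) (x 6) :=
  sum_perm7 (fun x => K3 K g (x 0) (x 1) (x 2) (x 3) (x 4) (x 5) (x 6)) p hp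

theorem sum_P3 (K : ℕ → ℕ → ℕ → ℕ) (g : V → V → V → ℕ) (p : Fin 7 → Fin 7)
    (hp : Function.Bijective p) :
    ∑ x : Fin 7 → V, P3 K g (x (p 0)) (x (p 1)) (x (p 2)) (x (p 3)) (x (p 4)) (x (p 5)) (x (p 6))
      = 3 * ∑ x : Fin 7 → V, K3 K g (x 0) (x 1) (x 2) (x 3) (x 4) (x 5) (x 6) := by
  have h1 := sum_K3_perm K g p hp
  have h2 := sum_K3_perm K g (fun i => p (![0, 1, 2, 3, 5, 4, 6] i))
    (hp.comp (by decide : Function.Bijective (![0, 1, 2, 3, 5, 4, 6] : Fin 7 → Fin 7)))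
  have h3 := sum_K3_perm K g (fun i => p (![0, 1, 2, 4, 5, 3, 6] i))
    (hp.comp (by decide : Function.Bijective (![0, 1, 2, 4, 5, 3, 6] : Fin 7 → Fin 7)))
  have h2' : ∑ x : Fin 7 → V, K3 K g (x (p 0)) (x (p 1)) (x (p 2)) (x (p 3)) (x (p 5)) (x (p 4)) (x (p 6))
      = ∑ x : Fin 7 → V, K3 K g (x 0) (x 1) (x 2) (x 3) (x 4) (x 5) (x 6) := h2
  have h3' : ∑ x : Fin 7 → V, K3 K g (x (p 0)) (x (p 1)) (x (p 2)) (x (p 4)) (x (p 5)) (x (p 3)) (x (p 6))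
      = ∑ x : Fin 7 → V, K3 K g (x 0) (x 1) (x 2) (x 3) (x 4) (x 5) (x 6) := h3
  simp only [P3, Nat.add_eq, Finset.sum_add_distrib]
  rw [h1, h2', h3']
  ring

theorem sum_S7 (K : ℕ → ℕ → ℕ → ℕ) (g : V → V → V → ℕ) :
    ∑ x : Fin 7 → V, S7 K g (x 0) (x 1) (x 2) (x 3) (x 4) (x 5) (x 6)
      = 105 * ∑ x : Fin 7 → V, K3 K g (x 0) (x 1) (x 2) (x 3) (x 4) (x 5) (x 6) := by
  have h0 : ∑ x : Fin 7 → V, P3 K g (x 0) (x 1) (x 2) (x 3) (x 4) (x 5) (x 6) = 3 * ∑ x : Fin 7 → V, K3 K g (x 0) (x 1) (x 2) (x 3) (x 4) (x 5) (x 6) :=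
    sum_P3 K g ![0, 1, 2, 3, 4, 5, 6] (by decide)
  have h1 : ∑ x : Fin 7 → V, P3 K g (x 0) (x 1) (x 3) (x 2) (x 4) (x 5) (x 6) = 3 * ∑ x : Fin 7 → V, K3 K g (x 0) (x 1) (x 2) (x 3) (x 4) (x 5) (x 6) :=
    sum_P3 K g ![0, 1, 3, 2, 4, 5, 6] (by decide)
  have h2 : ∑ x : Fin 7 → V, P3 K g (x 0) (x 2) (x 3) (x 1) (x 4) (x 5) (x 6) = 3 * ∑ x : Fin 7 → V, K3 K g (x 0) (x 1) (x 2) (x 3) (x 4) (x 5) (x 6) :=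
    sum_P3 K g ![0, 2, 3, 1, 4, 5, 6] (by decide)
  have h3 : ∑ x : Fin 7 → V, P3 K g (x 1) (x 2) (x 3) (x 0) (x 4) (x 5) (x 6) = 3 * ∑ x : Fin 7 → V, K3 K g (x 0) (x 1) (x 2) (x 3) (x 4) (x 5) (x 6) :=
    sum_P3 K g ![1, 2, 3, 0, 4, 5, 6] (by decide)
  have h4 : ∑ x : Fin 7 → V, P3 K g (x 0) (x 1) (x 4) (x 2) (x 3) (x 5) (x 6) = 3 * ∑ x : Fin 7 → V, K3 K g (x 0) (x 1) (x 2) (x 3) (x 4) (x 5) (x 6) :=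
    sum_P3 K g ![0, 1, 4, 2, 3, 5, 6] (by decide)
  have h5 : ∑ x : Fin 7 → V, P3 K g (x 0) (x 2) (x 4) (x 1) (x 3) (x 5) (x 6) = 3 * ∑ x : Fin 7 → V, K3 K g (x 0) (x 1) (x 2) (x 3) (x 4) (x 5) (x 6) :=
    sum_P3 K g ![0, 2, 4, 1, 3, 5, 6] (by decide)
  have h6 : ∑ x : Fin 7 → V, P3 K g (x 1) (x 2) (x 4) (x 0) (x 3) (x 5) (x 6) = 3 * ∑ x : Fin 7 → V, K3 K g (x 0) (x 1) (x 2) (x 3) (x 4) (x 5) (x 6) :=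
    sum_P3 K g ![1, 2, 4, 0, 3, 5, 6] (by decide)
  have h7 : ∑ x : Fin 7 → V, P3 K g (x 0) (x 3) (x 4) (x 1) (x 2) (x 5) (x 6) = 3 * ∑ x : Fin 7 → V, K3 K g (x 0) (x 1) (x 2) (x 3) (x 4) (x 5) (x 6) :=
    sum_P3 K g ![0, 3, 4, 1, 2, 5, 6] (by decide)
  have h8 : ∑ x : Fin 7 → V, P3 K g (x 1) (x 3) (x 4) (x 0) (x 2) (x 5) (x 6) = 3 * ∑ x : Fin 7 → V, K3 K g (x 0) (x 1) (x 2) (x 3) (x 4) (x 5) (x 6) :=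
    sum_P3 K g ![1, 3, 4, 0, 2, 5, 6] (by decide)
  have h9 : ∑ x : Fin 7 → V, P3 K g (x 2) (x 3) (x 4) (x 0) (x 1) (x 5) (x 6) = 3 * ∑ x : Fin 7 → V, K3 K g (x 0) (x 1) (x 2) (x 3) (x 4) (x 5) (x 6) :=
    sum_P3 K g ![2, 3, 4, 0, 1, 5, 6] (by decide)
  have h10 : ∑ x : Fin 7 → V, P3 K g (x 0) (x 1) (x 5) (x 2) (x 3) (x 4) (x 6) = 3 * ∑ x : Fin 7 → V, K3 K g (x 0) (x 1) (x 2) (x 3) (x 4) (x 5) (x 6) :=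
    sum_P3 K g ![0, 1, 5, 2, 3, 4, 6] (by decide)
  have h11 : ∑ x : Fin 7 → V, P3 K g (x 0) (x 2) (x 5) (x 1) (x 3) (x 4) (x 6) = 3 * ∑ x : Fin 7 → V, K3 K g (x 0) (x 1) (x 2) (x 3) (x 4) (x 5) (x 6) :=
    sum_P3 K g ![0, 2, 5, 1, 3, 4, 6] (by decide)
  have h12 : ∑ x : Fin 7 → V, P3 K g (x 1) (x 2) (x 5) (x 0) (x 3) (x 4) (x 6) = 3 * ∑ x : Fin 7 → V, K3 K g (x 0) (x 1) (x 2) (x 3) (x 4) (x 5) (x 6) :=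
    sum_P3 K g ![1, 2, 5, 0, 3, 4, 6] (by decide)
  have h13 : ∑ x : Fin 7 → V, P3 K g (x 0) (x 3) (x 5) (x 1) (x 2) (x 4) (x 6) = 3 * ∑ x : Fin 7 → V, K3 K g (x 0) (x 1) (x 2) (x 3) (x 4) (x 5) (x 6) :=
    sum_P3 K g ![0, 3, 5, 1, 2, 4, 6] (by decide)
  have h14 : ∑ x : Fin 7 → V, P3 K g (x 1) (x 3) (x 5) (x 0) (x 2) (x 4) (x 6) = 3 * ∑ x : Fin 7 → V, K3 K g (x 0) (x 1) (x 2) (x 3) (x 4) (x 5) (x 6) :=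
    sum_P3 K g ![1, 3, 5, 0, 2, 4, 6] (by decide)
  have h15 : ∑ x : Fin 7 → V, P3 K g (x 2) (x 3) (x 5) (x 0) (x 1) (x 4) (x 6) = 3 * ∑ x : Fin 7 → V, K3 K g (x 0) (x 1) (x 2) (x 3) (x 4) (x 5) (x 6) :=
    sum_P3 K g ![2, 3, 5, 0, 1, 4, 6] (by decide)
  have h16 : ∑ x : Fin 7 → V, P3 K g (x 0) (x 4) (x 5) (x 1) (x 2) (x 3) (x 6) = 3 * ∑ x : Fin 7 → V, K3 K g (x 0) (x 1) (x 2) (x 3) (x 4) (x 5) (x 6) :=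
    sum_P3 K g ![0, 4, 5, 1, 2, 3, 6] (by decide)
  have h17 : ∑ x : Fin 7 → V, P3 K g (x 1) (x 4) (x 5) (x 0) (x 2) (x 3) (x 6) = 3 * ∑ x : Fin 7 → V, K3 K g (x 0) (x 1) (x 2) (x 3) (x 4) (x 5) (x 6) :=
    sum_P3 K g ![1, 4, 5, 0, 2, 3, 6] (by decide)
  have h18 : ∑ x : Fin 7 → V, P3 K g (x 2) (x 4) (x 5) (x 0) (x 1) (x 3) (x 6) = 3 * ∑ x : Fin 7 → V, K3 K g (x 0) (x 1) (x 2) (x 3) (x 4) (x 5) (x 6) :=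
    sum_P3 K g ![2, 4, 5, 0, 1, 3, 6] (by decide)
  have h19 : ∑ x : Fin 7 → V, P3 K g (x 3) (x 4) (x 5) (x 0) (x 1) (x 2) (x 6) = 3 * ∑ x : Fin 7 → V, K3 K g (x 0) (x 1) (x 2) (x 3) (x 4) (x 5) (x 6) :=
    sum_P3 K g ![3, 4, 5, 0, 1, 2, 6] (by decide)
  have h20 : ∑ x : Fin 7 → V, P3 K g (x 0) (x 1) (x 6) (x 2) (x 3) (x 4) (x 5) = 3 * ∑ x : Fin 7 → V, K3 K g (x 0) (x 1) (x 2) (x 3) (x 4) (x 5) (x 6) :=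
    sum_P3 K g ![0, 1, 6, 2, 3, 4, 5] (by decide)
  have h21 : ∑ x : Fin 7 → V, P3 K g (x 0) (x 2) (x 6) (x 1) (x 3) (x 4) (x 5) = 3 * ∑ x : Fin 7 → V, K3 K g (x 0) (x 1) (x 2) (x 3) (x 4) (x 5) (x 6) :=
    sum_P3 K g ![0, 2, 6, 1, 3, 4, 5] (by decide)
  have h22 : ∑ x : Fin 7 → V, P3 K g (x 1) (x 2) (x 6) (x 0) (x 3) (x 4) (x 5) = 3 * ∑ x : Fin 7 → V, K3 K g (x 0) (x 1) (x 2) (x 3) (x 4) (x 5) (x 6) :=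
    sum_P3 K g ![1, 2, 6, 0, 3, 4, 5] (by decide)
  have h23 : ∑ x : Fin 7 → V, P3 K g (x 0) (x 3) (x 6) (x 1) (x 2) (x 4) (x 5) = 3 * ∑ x : Fin 7 → V, K3 K g (x 0) (x 1) (x 2) (x 3) (x 4) (x 5) (x 6) :=
    sum_P3 K g ![0, 3, 6, 1, 2, 4, 5] (by decide)
  have h24 : ∑ x : Fin 7 → V, P3 K g (x 1) (x 3) (x 6) (x 0) (x 2) (x 4) (x 5) = 3 * ∑ x : Fin 7 → V, K3 K g (x 0) (x 1) (x 2) (x 3) (x 4) (x 5) (x 6) :=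
    sum_P3 K g ![1, 3, 6, 0, 2, 4, 5] (by decide)
  have h25 : ∑ x : Fin 7 → V, P3 K g (x 2) (x 3) (x 6) (x 0) (x 1) (x 4) (x 5) = 3 * ∑ x : Fin 7 → V, K3 K g (x 0) (x 1) (x 2) (x 3) (x 4) (x 5) (x 6) :=
    sum_P3 K g ![2, 3, 6, 0, 1, 4, 5] (by decide)
  have h26 : ∑ x : Fin 7 → V, P3 K g (x 0) (x 4) (x 6) (x 1) (x 2) (x 3) (x 5) = 3 * ∑ x : Fin 7 → V, K3 K g (x 0) (x 1) (x 2) (x 3) (x 4) (x 5) (x 6) :=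
    sum_P3 K g ![0, 4, 6, 1, 2, 3, 5] (by decide)
  have h27 : ∑ x : Fin 7 → V, P3 K g (x 1) (x 4) (x 6) (x 0) (x 2) (x 3) (x 5) = 3 * ∑ x : Fin 7 → V, K3 K g (x 0) (x 1) (x 2) (x 3) (x 4) (x 5) (x 6) :=
    sum_P3 K g ![1, 4, 6, 0, 2, 3, 5] (by decide)
  have h28 : ∑ x : Fin 7 → V, P3 K g (x 2) (x 4) (x 6) (x 0) (x 1) (x 3) (x 5) = 3 * ∑ x : Fin 7 → V, K3 K g (x 0) (x 1) (x 2) (x 3) (x 4) (x 5) (x 6) :=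
    sum_P3 K g ![2, 4, 6, 0, 1, 3, 5] (by decide)
  have h29 : ∑ x : Fin 7 → V, P3 K g (x 3) (x 4) (x 6) (x 0) (x 1) (x 2) (x 5) = 3 * ∑ x : Fin 7 → V, K3 K g (x 0) (x 1) (x 2) (x 3) (x 4) (x 5) (x 6) :=
    sum_P3 K g ![3, 4, 6, 0, 1, 2, 5] (by decide)
  have h30 : ∑ x : Fin 7 → V, P3 K g (x 0) (x 5) (x 6) (x 1) (x 2) (x 3) (x 4) = 3 * ∑ x : Fin 7 → V, K3 K g (x 0) (x 1) (x 2) (x 3) (x 4) (x 5) (x 6) :=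
    sum_P3 K g ![0, 5, 6, 1, 2, 3, 4] (by decide)
  have h31 : ∑ x : Fin 7 → V, P3 K g (x 1) (x 5) (x 6) (x 0) (x 2) (x 3) (x 4) = 3 * ∑ x : Fin 7 → V, K3 K g (x 0) (x 1) (x 2) (x 3) (x 4) (x 5) (x 6) :=
    sum_P3 K g ![1, 5, 6, 0, 2, 3, 4] (by decide)
  have h32 : ∑ x : Fin 7 → V, P3 K g (x 2) (x 5) (x 6) (x 0) (x 1) (x 3) (x 4) = 3 * ∑ x : Fin 7 → V, K3 K g (x 0) (x 1) (x 2) (x 3) (x 4) (x 5) (x 6) :=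
    sum_P3 K g ![2, 5, 6, 0, 1, 3, 4] (by decide)
  have h33 : ∑ x : Fin 7 → V, P3 K g (x 3) (x 5) (x 6) (x 0) (x 1) (x 2) (x 4) = 3 * ∑ x : Fin 7 → V, K3 K g (x 0) (x 1) (x 2) (x 3) (x 4) (x 5) (x 6) :=
    sum_P3 K g ![3, 5, 6, 0, 1, 2, 4] (by decide)
  have h34 : ∑ x : Fin 7 → V, P3 K g (x 4) (x 5) (x 6) (x 0) (x 1) (x 2) (x 3) = 3 * ∑ x : Fin 7 → V, K3 K g (x 0) (x 1) (x 2) (x 3) (x 4) (x 5) (x 6) :=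
    sum_P3 K g ![4, 5, 6, 0, 1, 2, 3] (by decide)
  simp only [S7, Nat.add_eq, Finset.sum_add_distrib, h0, h1, h2, h3, h4, h5, h6, h7, h8, h9, h10, h11, h12, h13, h14, h15, h16, h17, h18, h19, h20, h21, h22, h23, h24, h25, h26, h27, h28, h29, h30, h31, h32, h33, h34]
  ring

theorem sum_g_perm (g : V → V → V → ℕ) (p : Fin 7 → Fin 7) (hp : Function.Bijective p) :
    ∑ x : Fin 7 → V, g (x (p 0)) (x (p 1)) (x (p 2)) = ∑ x : Fin 7 → V, g (x 0) (x 1) (x 2) :=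
  sum_perm7 (fun x => g (x 0) (x 1) (x 2)) p hp

theorem sum_E7 (g : V → V → V → ℕ) :
    ∑ x : Fin 7 → V, E7 g (x 0) (x 1) (x 2) (x 3) (x 4) (x 5) (x 6)
      = 35 * (Fintype.card V ^ 4 * EE g) := by
  have h0 : ∑ x : Fin 7 → V, g (x 0) (x 1) (x 2) = ∑ x : Fin 7 → V, g (x 0) (x 1) (x 2) :=
    sum_g_perm g ![0, 1, 2, 3, 4, 5, 6] (by decide)
  have h1 : ∑ x : Fin 7 → V, g (x 0) (x 1) (x 3) = ∑ x : Fin 7 → V, g (x 0) (x 1) (x 2) :=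
    sum_g_perm g ![0, 1, 3, 2, 4, 5, 6] (by decide)
  have h2 : ∑ x : Fin 7 → V, g (x 0) (x 2) (x 3) = ∑ x : Fin 7 → V, g (x 0) (x 1) (x 2) :=
    sum_g_perm g ![0, 2, 3, 1, 4, 5, 6] (by decide)
  have h3 : ∑ x : Fin 7 → V, g (x 1) (x 2) (x 3) = ∑ x : Fin 7 → V, g (x 0) (x 1) (x 2) :=
    sum_g_perm g ![1, 2, 3, 0, 4, 5, 6] (by decide)
  have h4 : ∑ x : Fin 7 → V, g (x 0) (x 1) (x 4) = ∑ x : Fin 7 → V, g (x 0) (x 1) (x 2) :=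
    sum_g_perm g ![0, 1, 4, 2, 3, 5, 6] (by decide)
  have h5 : ∑ x : Fin 7 → V, g (x 0) (x 2) (x 4) = ∑ x : Fin 7 → V, g (x 0) (x 1) (x 2) :=
    sum_g_perm g ![0, 2, 4, 1, 3, 5, 6] (by decide)
  have h6 : ∑ x : Fin 7 → V, g (x 1) (x 2) (x 4) = ∑ x : Fin 7 → V, g (x 0) (x 1) (x 2) :=
    sum_g_perm g ![1, 2, 4, 0, 3, 5, 6] (by decide)
  have h7 : ∑ x : Fin 7 → V, g (x 0) (x 3) (x 4) = ∑ x : Fin 7 → V, g (x 0) (x 1) (x 2) :=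
    sum_g_perm g ![0, 3, 4, 1, 2, 5, 6] (by decide)
  have h8 : ∑ x : Fin 7 → V, g (x 1) (x 3) (x 4) = ∑ x : Fin 7 → V, g (x 0) (x 1) (x 2) :=
    sum_g_perm g ![1, 3, 4, 0, 2, 5, 6] (by decide)
  have h9 : ∑ x : Fin 7 → V, g (x 2) (x 3) (x 4) = ∑ x : Fin 7 → V, g (x 0) (x 1) (x 2) :=
    sum_g_perm g ![2, 3, 4, 0, 1, 5, 6] (by decide)
  have h10 : ∑ x : Fin 7 → V, g (x 0) (x 1) (x 5) = ∑ x : Fin 7 → V, g (x 0) (x 1) (x 2) :=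
    sum_g_perm g ![0, 1, 5, 2, 3, 4, 6] (by decide)
  have h11 : ∑ x : Fin 7 → V, g (x 0) (x 2) (x 5) = ∑ x : Fin 7 → V, g (x 0) (x 1) (x 2) :=
    sum_g_perm g ![0, 2, 5, 1, 3, 4, 6] (by decide)
  have h12 : ∑ x : Fin 7 → V, g (x 1) (x 2) (x 5) = ∑ x : Fin 7 → V, g (x 0) (x 1) (x 2) :=
    sum_g_perm g ![1, 2, 5, 0, 3, 4, 6] (by decide)
  have h13 : ∑ x : Fin 7 → V, g (x 0) (x 3) (x 5) = ∑ x : Fin 7 → V, g (x 0) (x 1) (x 2) :=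
    sum_g_perm g ![0, 3, 5, 1, 2, 4, 6] (by decide)
  have h14 : ∑ x : Fin 7 → V, g (x 1) (x 3) (x 5) = ∑ x : Fin 7 → V, g (x 0) (x 1) (x 2) :=
    sum_g_perm g ![1, 3, 5, 0, 2, 4, 6] (by decide)
  have h15 : ∑ x : Fin 7 → V, g (x 2) (x 3) (x 5) = ∑ x : Fin 7 → V, g (x 0) (x 1) (x 2) :=
    sum_g_perm g ![2, 3, 5, 0, 1, 4, 6] (by decide)
  have h16 : ∑ x : Fin 7 → V, g (x 0) (x 4) (x 5) = ∑ x : Fin 7 → V, g (x 0) (x 1) (x 2) :=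
    sum_g_perm g ![0, 4, 5, 1, 2, 3, 6] (by decide)
  have h17 : ∑ x : Fin 7 → V, g (x 1) (x 4) (x 5) = ∑ x : Fin 7 → V, g (x 0) (x 1) (x 2) :=
    sum_g_perm g ![1, 4, 5, 0, 2, 3, 6] (by decide)
  have h18 : ∑ x : Fin 7 → V, g (x 2) (x 4) (x 5) = ∑ x : Fin 7 → V, g (x 0) (x 1) (x 2) :=
    sum_g_perm g ![2, 4, 5, 0, 1, 3, 6] (by decide)
  have h19 : ∑ x : Fin 7 → V, g (x 3) (x 4) (x 5) = ∑ x : Fin 7 → V, g (x 0) (x 1) (x 2) :=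
    sum_g_perm g ![3, 4, 5, 0, 1, 2, 6] (by decide)
  have h20 : ∑ x : Fin 7 → V, g (x 0) (x 1) (x 6) = ∑ x : Fin 7 → V, g (x 0) (x 1) (x 2) :=
    sum_g_perm g ![0, 1, 6, 2, 3, 4, 5] (by decide)
  have h21 : ∑ x : Fin 7 → V, g (x 0) (x 2) (x 6) = ∑ x : Fin 7 → V, g (x 0) (x 1) (x 2) :=
    sum_g_perm g ![0, 2, 6, 1, 3, 4, 5] (by decide)
  have h22 : ∑ x : Fin 7 → V, g (x 1) (x 2) (x 6) = ∑ x : Fin 7 → V, g (x 0) (x 1) (x 2) :=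
    sum_g_perm g ![1, 2, 6, 0, 3, 4, 5] (by decide)
  have h23 : ∑ x : Fin 7 → V, g (x 0) (x 3) (x 6) = ∑ x : Fin 7 → V, g (x 0) (x 1) (x 2) :=
    sum_g_perm g ![0, 3, 6, 1, 2, 4, 5] (by decide)
  have h24 : ∑ x : Fin 7 → V, g (x 1) (x 3) (x 6) = ∑ x : Fin 7 → V, g (x 0) (x 1) (x 2) :=
    sum_g_perm g ![1, 3, 6, 0, 2, 4, 5] (by decide)
  have h25 : ∑ x : Fin 7 → V, g (x 2) (x 3) (x 6) = ∑ x : Fin 7 → V, g (x 0) (x 1) (x 2) :=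
    sum_g_perm g ![2, 3, 6, 0, 1, 4, 5] (by decide)
  have h26 : ∑ x : Fin 7 → V, g (x 0) (x 4) (x 6) = ∑ x : Fin 7 → V, g (x 0) (x 1) (x 2) :=
    sum_g_perm g ![0, 4, 6, 1, 2, 3, 5] (by decide)
  have h27 : ∑ x : Fin 7 → V, g (x 1) (x 4) (x 6) = ∑ x : Fin 7 → V, g (x 0) (x 1) (x 2) :=
    sum_g_perm g ![1, 4, 6, 0, 2, 3, 5] (by decide)
  have h28 : ∑ x : Fin 7 → V, g (x 2) (x 4) (x 6) = ∑ x : Fin 7 → V, g (x 0) (x 1) (x 2) :=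
    sum_g_perm g ![2, 4, 6, 0, 1, 3, 5] (by decide)
  have h29 : ∑ x : Fin 7 → V, g (x 3) (x 4) (x 6) = ∑ x : Fin 7 → V, g (x 0) (x 1) (x 2) :=
    sum_g_perm g ![3, 4, 6, 0, 1, 2, 5] (by decide)
  have h30 : ∑ x : Fin 7 → V, g (x 0) (x 5) (x 6) = ∑ x : Fin 7 → V, g (x 0) (x 1) (x 2) :=
    sum_g_perm g ![0, 5, 6, 1, 2, 3, 4] (by decide)
  have h31 : ∑ x : Fin 7 → V, g (x 1) (x 5) (x 6) = ∑ x : Fin 7 → V, g (x 0) (x 1) (x 2) :=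
    sum_g_perm g ![1, 5, 6, 0, 2, 3, 4] (by decide)
  have h32 : ∑ x : Fin 7 → V, g (x 2) (x 5) (x 6) = ∑ x : Fin 7 → V, g (x 0) (x 1) (x 2) :=
    sum_g_perm g ![2, 5, 6, 0, 1, 3, 4] (by decide)
  have h33 : ∑ x : Fin 7 → V, g (x 3) (x 5) (x 6) = ∑ x : Fin 7 → V, g (x 0) (x 1) (x 2) :=
    sum_g_perm g ![3, 5, 6, 0, 1, 2, 4] (by decide)
  have h34 : ∑ x : Fin 7 → V, g (x 4) (x 5) (x 6) = ∑ x : Fin 7 → V, g (x 0) (x 1) (x 2) :=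
    sum_g_perm g ![4, 5, 6, 0, 1, 2, 3] (by decide)
  have hE : ∑ x : Fin 7 → V, g (x 0) (x 1) (x 2) = Fintype.card V ^ 4 * EE g := by
    rw [sum_fin7 (fun a b c _ _ _ _ => g a b c)]
    simp only [Finset.sum_const, Finset.card_univ, smul_eq_mul, EE]
    simp only [← Finset.mul_sum]
    ring
  simp only [E7, Nat.add_eq, Finset.sum_add_distrib, h0, h1, h2, h3, h4, h5, h6, h7, h8, h9, h10, h11, h12, h13, h14, h15, h16, h17, h18, h19, h20, h21, h22, h23, h24, h25, h26, h27, h28, h29, h30, h31, h32, h33, h34, hE]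
  ring

theorem sum_K3_ge (K : ℕ → ℕ → ℕ → ℕ) (g : V → V → V → ℕ) (off : ℕ)
    (hK : ∀ a b c : V, (off : ℤ) * (Fintype.card V : ℤ) ^ 4
      ≤ ∑ u : V × V, ∑ v : V × V, (K (g a b c) (fl g a b c u.1 u.2) (fl g a b c v.1 v.2) : ℤ)) :
    (off : ℤ) * (Fintype.card V : ℤ) ^ 7
      ≤ ((∑ x : Fin 7 → V, K3 K g (x 0) (x 1) (x 2) (x 3) (x 4) (x 5) (x 6) : ℕ) : ℤ) := by
  rw [sum_fin7 (fun a b c d e f h => K3 K g a b c d e f h)]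
  push_cast
  have h1 : ∀ a b c : V, (off : ℤ) * (Fintype.card V : ℤ) ^ 4
      ≤ ∑ d, ∑ e, ∑ f, ∑ h, (K3 K g a b c d e f h : ℤ) := by
    intro a b c
    have := hK a b c
    rw [Fintype.sum_prod_type] at this
    refine le_trans this (le_of_eq ?_)
    refine Finset.sum_congr rfl (fun d _ => Finset.sum_congr rfl (fun e _ => ?_))
    rw [Fintype.sum_prod_type]
    rfl
  have h2 : ∑ _a : V, ∑ _b : V, ∑ _c : V, (off : ℤ) * (Fintype.card V : ℤ) ^ 4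
      ≤ ∑ a, ∑ b, ∑ c, ∑ d, ∑ e, ∑ f, ∑ h, (K3 K g a b c d e f h : ℤ) :=
    Finset.sum_le_sum (fun a _ => Finset.sum_le_sum (fun b _ => Finset.sum_le_sum
      (fun c _ => h1 a b c)))
  refine le_trans (le_of_eq ?_) h2
  simp only [Finset.sum_const, Finset.card_univ, nsmul_eq_mul]
  ring

end Pool.Agent.H6N7
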