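import Pool.Agent.H6N7.TabSym
import Pool.Agent.H6N7.Sums7

set_option autoImplicit false

/-!
# From the matrices to sums over flags (generic part)
-/

namespace Pool.Agent.H6N7

open Pool.Agent.H6Turan

theorem c9_bits (f : ℕ) (hf : f < 512) :
    f = c9 (f % 2) (f / 2 % 2) (f / 4 % 2) (f / 8 % 2) (f / 16 % 2) (f / 32 % 2) (f / 64 % 2)
      (f / 128 % 2) (f / 256 % 2) := by
  simp only [c9, Nat.add_eq, Nat.mul_eq]
  omega

theorem Kr_symm (R : ℕ → ℕ → ℕ) (h : rowsChk R = true) (hpp : symChk R lpp = true) {t f f' : ℕ}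
    (ht : Bit t) (hf : f < 512) (hf' : f' < 512) : Kr R t f f' = Kr R t f' f := by
  have B : ∀ x : ℕ, Bit (x % 2) := by
    intro x
    unfold Bit
    omega
  rw [c9_bits f hf, c9_bits f' hf']
  exact krpp R h (B _) (B _) (B _) (B _) (B _) (B _) (B _) (B _) (B _) (B _) (B _) (B _) (B _)
    (B _) (B _) (B _) (B _) (B _) ht hpp

theorem lift_psd {ι : Type*} [Fintype ι] (R : ℕ → ℕ → ℕ) (h : rowsChk R = true)
    (hpp : symChk R lpp = true) (t : ℕ) (ht : Bit t) (m : ℕ) (rpf posf : ℕ → ℕ) (o : ℕ)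
    (hrp : ∀ i < m, rpf i < 512)
    (hpsd : ∀ y : ℕ → ℤ, 0 ≤ ∑ i ∈ Finset.range m, ∑ j ∈ Finset.range m,
      ((Kr R t (rpf i) (rpf j) : ℤ) - o) * y i * y j)
    (F : ι → ℕ)
    (hF : ∀ u, F u < 512 ∧ posf (F u) < m ∧ R t (F u) = R t (rpf (posf (F u)))) :
    (o : ℤ) * (Fintype.card ι : ℤ) ^ 2 ≤ ∑ u : ι, ∑ v : ι, (Kr R t (F u) (F v) : ℤ) := by
  have row : ∀ (u : ι) (f' : ℕ), Kr R t (F u) f' = Kr R t (rpf (posf (F u))) f' := by
    intro u f'
    unfold Kr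
    rw [(hF u).2.2]
  have key : ∀ u v : ι, Kr R t (F u) (F v) = Kr R t (rpf (posf (F u))) (rpf (posf (F v))) := by
    intro u v
    rw [row u (F v), Kr_symm R h hpp ht (hrp _ (hF u).2.1) (hF v).1, row v,
      Kr_symm R h hpp ht (hrp _ (hF v).2.1) (hrp _ (hF u).2.1)]
  have hs := sum_psd m (fun i j => (Kr R t (rpf i) (rpf j) : ℤ) - o) hpsd
    (fun f k => if k = posf f then 1 else 0) (fun f f' => (Kr R t f f' : ℤ) - o) F (fun u v => by
      show (Kr R t (F u) (F v) : ℤ) - o = _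
      rw [key u v]
      have e1 : ∀ k ∈ Finset.range m, (∑ l ∈ Finset.range m,
          ((Kr R t (rpf k) (rpf l) : ℤ) - o) * (if k = posf (F u) then 1 else 0)
            * (if l = posf (F v) then 1 else 0))
          = if k = posf (F u) then ((Kr R t (rpf (posf (F u))) (rpf (posf (F v))) : ℤ) - o)
            else 0 := by
        intro k _
        by_cases hk : k = posf (F u)
        · subst hk
          rw [if_pos rfl, if_pos rfl]
          rw [Finset.sum_eq_single (posf (F v))]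
          · rw [if_pos rfl]
            ring
          · intro b _ hb
            rw [if_neg hb, mul_zero]
          · intro hnm
            exact absurd (Finset.mem_range.mpr (hF v).2.1) hnm
        · rw [if_neg hk, if_neg hk]
          apply Finset.sum_eq_zero
          intro l _
          rw [mul_zero, zero_mul]
      rw [Finset.sum_congr rfl e1, Finset.sum_ite_eq' (Finset.range m) (posf (F u)),
        if_pos (Finset.mem_range.mpr (hF u).2.1)])
  simp only [Finset.sum_sub_distrib] at hs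
  have hconst : ∑ _u : ι, ∑ _v : ι, (o : ℤ) = (o : ℤ) * (Fintype.card ι : ℤ) ^ 2 := by
    simp only [Finset.sum_const, Finset.card_univ, nsmul_eq_mul]
    ring
  rw [hconst] at hs
  linarith

/-- zero if and only if the flag with type `t` has no complete 4-set -/
def badN (t b0 b1 b2 b3 b4 b5 b6 b7 b8 : ℕ) : ℕ :=
  Nat.add (Nat.add (Nat.mul (Nat.mul t b0) (Nat.mul b1 b2)) (Nat.mul (Nat.mul t b3) (Nat.mul b4 b5)))
    (Nat.add (Nat.mul (Nat.mul b0 b3) (Nat.mul b6 b7))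
      (Nat.add (Nat.mul (Nat.mul b1 b4) (Nat.mul b6 b8)) (Nat.mul (Nat.mul b2 b5) (Nat.mul b7 b8))))

/-- every admissible code has the row of its representative -/
def posChk (R : ℕ → ℕ → ℕ) (t m : ℕ) (rpf posf : ℕ → ℕ) : Bool :=
  all2 fun b0 => all2 fun b1 => all2 fun b2 => all2 fun b3 => all2 fun b4 => all2 fun b5 =>
  all2 fun b6 => all2 fun b7 => all2 fun b8 =>
    cond (Nat.beq (badN t b0 b1 b2 b3 b4 b5 b6 b7 b8) 0)
      (Nat.blt (posf (c9 b0 b1 b2 b3 b4 b5 b6 b7 b8)) m &&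
        Nat.beq (R t (c9 b0 b1 b2 b3 b4 b5 b6 b7 b8))
          (R t (rpf (posf (c9 b0 b1 b2 b3 b4 b5 b6 b7 b8))))) true

theorem posChk_spec {R : ℕ → ℕ → ℕ} {t m : ℕ} {rpf posf : ℕ → ℕ}
    (h : posChk R t m rpf posf = true) {b0 b1 b2 b3 b4 b5 b6 b7 b8 : ℕ}
    (h0 : Bit b0) (h1 : Bit b1) (h2 : Bit b2) (h3 : Bit b3) (h4 : Bit b4) (h5 : Bit b5)
    (h6 : Bit b6) (h7 : Bit b7) (h8 : Bit b8) (hbad : badN t b0 b1 b2 b3 b4 b5 b6 b7 b8 = 0) :
    posf (c9 b0 b1 b2 b3 b4 b5 b6 b7 b8) < m ∧ R t (c9 b0 b1 b2 b3 b4 b5 b6 b7 b8)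
      = R t (rpf (posf (c9 b0 b1 b2 b3 b4 b5 b6 b7 b8))) := by
  unfold posChk at h
  have g := all2_spec (all2_spec (all2_spec (all2_spec (all2_spec (all2_spec (all2_spec
    (all2_spec (all2_spec h h0) h1) h2) h3) h4) h5) h6) h7) h8
  rw [hbad] at g
  have g' : (Nat.blt (posf (c9 b0 b1 b2 b3 b4 b5 b6 b7 b8)) m &&
        Nat.beq (R t (c9 b0 b1 b2 b3 b4 b5 b6 b7 b8))
          (R t (rpf (posf (c9 b0 b1 b2 b3 b4 b5 b6 b7 b8))))) = true := g
  rw [Bool.and_eq_true] at g'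
  exact ⟨Nat.le_of_ble_eq_true g'.1, Nat.eq_of_beq_eq_true g'.2⟩

theorem sum_flags {V : Type*} [Fintype V] (R : ℕ → ℕ → ℕ) (h : rowsChk R = true)
    (hpp : symChk R lpp = true) (m : ℕ) (rpf posf : ℕ → ℕ) (o : ℕ)
    (g : V → V → V → ℕ) (hb : ∀ a b c, g a b c = 0 ∨ g a b c = 1)
    (hfree : ∀ a b c d, g a b c * g a b d * g a c d * g b c d = 0) (a b c : V) (t : ℕ)
    (ht : g a b c = t)
    (hrp : ∀ i < m, rpf i < 512)
    (hpsd : ∀ y : ℕ → ℤ, 0 ≤ ∑ i ∈ Finset.range m, ∑ j ∈ Finset.range m,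
      ((Kr R t (rpf i) (rpf j) : ℤ) - o) * y i * y j)
    (hpos : posChk R t m rpf posf = true) :
    (o : ℤ) * (Fintype.card V : ℤ) ^ 4 ≤ ∑ u : V × V, ∑ v : V × V,
      (Kr R (g a b c) (fl g a b c u.1 u.2) (fl g a b c v.1 v.2) : ℤ) := by
  have B : ∀ a b c, Bit (g a b c) := hb
  have hF : ∀ u : V × V, fl g a b c u.1 u.2 < 512 ∧ posf (fl g a b c u.1 u.2) < m ∧
      R t (fl g a b c u.1 u.2) = R t (rpf (posf (fl g a b c u.1 u.2))) := by
    intro u
    refine ⟨c9_lt _ _ _ _ _ _ _ _ _ (B _ _ _) (B _ _ _) (B _ _ _) (B _ _ _) (B _ _ _) (B _ _ _)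
      (B _ _ _) (B _ _ _) (B _ _ _), ?_⟩
    refine posChk_spec hpos (B _ _ _) (B _ _ _) (B _ _ _) (B _ _ _) (B _ _ _) (B _ _ _)
      (B _ _ _) (B _ _ _) (B _ _ _) ?_
    rw [← ht]
    have f1 := hfree a b c u.1
    have f2 := hfree a b c u.2
    have f3 := hfree a b u.1 u.2
    have f4 := hfree a c u.1 u.2
    have f5 := hfree b c u.1 u.2
    show g a b c * g a b u.1 * (g a c u.1 * g b c u.1)
      + g a b c * g a b u.2 * (g a c u.2 * g b c u.2)
      + (g a b u.1 * g a b u.2 * (g a u.1 u.2 * g b u.1 u.2)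
      + (g a c u.1 * g a c u.2 * (g a u.1 u.2 * g c u.1 u.2)
      + g b c u.1 * g b c u.2 * (g b u.1 u.2 * g c u.1 u.2))) = 0
    rw [← mul_assoc, ← mul_assoc, ← mul_assoc, ← mul_assoc, ← mul_assoc, f1, f2, f3, f4, f5]
  have hl := lift_psd R h hpp t (by rw [← ht]; exact hb a b c) m rpf posf o hrp hpsd
    (fun u : V × V => fl g a b c u.1 u.2) hF
  have hcard : (Fintype.card (V × V) : ℤ) ^ 2 = (Fintype.card V : ℤ) ^ 4 := by
    rw [Fintype.card_prod]
    push_cast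
    ring
  rw [hcard] at hl
  rw [ht]
  exact hl

end Pool.Agent.H6N7
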