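import Pool.Agent.H6N7.Table

set_option autoImplicit false

/-!
# Symmetries of the table (generic part)
-/

namespace Pool.Agent.H6N7

open Pool.Agent.H6Turan

/-- several exchanges of index bits -/
def swps (w k : ℕ) : List (ℕ × ℕ) → ℕ → ℕ
  | [], x => x
  | a :: l, x => swp w k a.1 a.2 (swps w k l x)

def swes : List (ℕ × ℕ) → (ℕ → ℕ) → (ℕ → ℕ)
  | [], e => e
  | a :: l, e => swes l (swe e a.1 a.2)

theorem swps_pk (w k : ℕ) (l : List (ℕ × ℕ)) (hl : ∀ a ∈ l, a.1 < a.2 ∧ a.2 < k)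
    (h : (ℕ → ℕ) → ℕ) (e : ℕ → ℕ) (H : ∀ e', h e' < 2 ^ w) :
    swps w k l (pk w k h e) = pk w k (fun e => h (swes l e)) e := by
  induction l with
  | nil => rfl
  | cons a l ih =>
    rw [swps, ih (fun b hb => hl b (List.mem_cons_of_mem _ hb)),
      swp_pk w k a.1 a.2 (hl a List.mem_cons_self).1 (hl a List.mem_cons_self).2 _ e
        (fun e' => H _)]
    rfl

def okl (k : ℕ) (l : List (ℕ × ℕ)) : Bool :=
  l.all (fun a => Nat.blt a.1 a.2 && Nat.blt a.2 k)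

theorem okl_spec {k : ℕ} {l : List (ℕ × ℕ)} (h : okl k l = true) :
    ∀ a ∈ l, a.1 < a.2 ∧ a.2 < k := by
  intro a ha
  have := List.all_eq_true.mp h a ha
  rw [Bool.and_eq_true] at this
  exact ⟨Nat.le_of_ble_eq_true this.1, Nat.le_of_ble_eq_true this.2⟩

/-- the function packed by the table -/
def HT (R : ℕ → ℕ → ℕ) (e : ℕ → ℕ) : ℕ :=
  Kr R (e 18) (c9 (e 9) (e 10) (e 11) (e 12) (e 13) (e 14) (e 15) (e 16) (e 17))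
    (c9 (e 0) (e 1) (e 2) (e 3) (e 4) (e 5) (e 6) (e 7) (e 8))

theorem HT_lt (R : ℕ → ℕ → ℕ) (e : ℕ → ℕ) : HT R e < 2 ^ 26 :=
  lt_trans (Kr_lt R _ _ _) (by norm_num)

def symChk (R : ℕ → ℕ → ℕ) (l : List (ℕ × ℕ)) : Bool :=
  Nat.beq (swps 26 19 l (KTg R)) (KTg R)

theorem sym_of (R : ℕ → ℕ → ℕ) (h : rowsChk R = true) (l : List (ℕ × ℕ)) (hl : okl 19 l = true)
    (hs : symChk R l = true) (e : ℕ → ℕ) (he : ∀ p, p < 19 → e p = 0 ∨ e p = 1) :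
    HT R (swes l e) = HT R e := by
  have h1 := Nat.eq_of_beq_eq_true hs
  have h2 : KTg R = pk 26 19 (HT R) e := KTg_eq R h e
  rw [h2, swps_pk 26 19 l (okl_spec hl) (HT R) e (HT_lt R)] at h1
  exact pk_inj 26 19 _ _ e (fun e' => HT_lt R _) (HT_lt R) h1 e ⟨fun _ _ => rfl, he⟩

/-- environment given by nineteen bits -/
def env19 (y0 y1 y2 y3 y4 y5 y6 y7 y8 x0 x1 x2 x3 x4 x5 x6 x7 x8 t : ℕ) : ℕ → ℕ
  | 0 => y0 | 1 => y1 | 2 => y2 | 3 => y3 | 4 => y4 | 5 => y5 | 6 => y6 | 7 => y7 | 8 => y8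
  | 9 => x0 | 10 => x1 | 11 => x2 | 12 => x3 | 13 => x4 | 14 => x5 | 15 => x6 | 16 => x7
  | 17 => x8 | 18 => t | _ => 0

def Bit (b : ℕ) : Prop := b = 0 ∨ b = 1

theorem env19_bit {y0 y1 y2 y3 y4 y5 y6 y7 y8 x0 x1 x2 x3 x4 x5 x6 x7 x8 t : ℕ}
    (hy0 : Bit y0) (hy1 : Bit y1) (hy2 : Bit y2) (hy3 : Bit y3) (hy4 : Bit y4) (hy5 : Bit y5)
    (hy6 : Bit y6) (hy7 : Bit y7) (hy8 : Bit y8)
    (hx0 : Bit x0) (hx1 : Bit x1) (hx2 : Bit x2) (hx3 : Bit x3) (hx4 : Bit x4) (hx5 : Bit x5)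
    (hx6 : Bit x6) (hx7 : Bit x7) (hx8 : Bit x8) (ht : Bit t) (p : ℕ) (hp : p < 19) :
    env19 y0 y1 y2 y3 y4 y5 y6 y7 y8 x0 x1 x2 x3 x4 x5 x6 x7 x8 t p = 0 ∨
    env19 y0 y1 y2 y3 y4 y5 y6 y7 y8 x0 x1 x2 x3 x4 x5 x6 x7 x8 t p = 1 := by
  interval_cases p <;> assumption

/-- exchange of the labels `a`, `b` -/
def l01 : List (ℕ × ℕ) := [(1, 2), (4, 5), (6, 7), (10, 11), (13, 14), (15, 16)]

/-- exchange of the labels `b`, `c` -/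
def l12 : List (ℕ × ℕ) := [(0, 1), (3, 4), (7, 8), (9, 10), (12, 13), (16, 17)]

/-- exchange of `u`, `v` -/
def l34 : List (ℕ × ℕ) := [(9, 12), (10, 13), (11, 14)]

/-- exchange of the pairs -/
def lpp : List (ℕ × ℕ) :=
  [(0, 9), (1, 10), (2, 11), (3, 12), (4, 13), (5, 14), (6, 15), (7, 16), (8, 17)]

section

variable (R : ℕ → ℕ → ℕ) (h : rowsChk R = true)
  {y0 y1 y2 y3 y4 y5 y6 y7 y8 x0 x1 x2 x3 x4 x5 x6 x7 x8 t : ℕ}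
  (hy0 : Bit y0) (hy1 : Bit y1) (hy2 : Bit y2) (hy3 : Bit y3) (hy4 : Bit y4) (hy5 : Bit y5)
  (hy6 : Bit y6) (hy7 : Bit y7) (hy8 : Bit y8)
  (hx0 : Bit x0) (hx1 : Bit x1) (hx2 : Bit x2) (hx3 : Bit x3) (hx4 : Bit x4) (hx5 : Bit x5)
  (hx6 : Bit x6) (hx7 : Bit x7) (hx8 : Bit x8) (ht : Bit t)

include h hy0 hy1 hy2 hy3 hy4 hy5 hy6 hy7 hy8 hx0 hx1 hx2 hx3 hx4 hx5 hx6 hx7 hx8 ht

theorem kr01 (hs : symChk R l01 = true) :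
    Kr R t (c9 x0 x2 x1 x3 x5 x4 x7 x6 x8) (c9 y0 y2 y1 y3 y5 y4 y7 y6 y8)
      = Kr R t (c9 x0 x1 x2 x3 x4 x5 x6 x7 x8) (c9 y0 y1 y2 y3 y4 y5 y6 y7 y8) :=
  sym_of R h l01 rfl hs _ (env19_bit hy0 hy1 hy2 hy3 hy4 hy5 hy6 hy7 hy8 hx0 hx1 hx2 hx3 hx4 hx5
    hx6 hx7 hx8 ht)

theorem kr12 (hs : symChk R l12 = true) :
    Kr R t (c9 x1 x0 x2 x4 x3 x5 x6 x8 x7) (c9 y1 y0 y2 y4 y3 y5 y6 y8 y7)
      = Kr R t (c9 x0 x1 x2 x3 x4 x5 x6 x7 x8) (c9 y0 y1 y2 y3 y4 y5 y6 y7 y8) :=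
  sym_of R h l12 rfl hs _ (env19_bit hy0 hy1 hy2 hy3 hy4 hy5 hy6 hy7 hy8 hx0 hx1 hx2 hx3 hx4 hx5
    hx6 hx7 hx8 ht)

theorem kr34 (hs : symChk R l34 = true) :
    Kr R t (c9 x3 x4 x5 x0 x1 x2 x6 x7 x8) (c9 y0 y1 y2 y3 y4 y5 y6 y7 y8)
      = Kr R t (c9 x0 x1 x2 x3 x4 x5 x6 x7 x8) (c9 y0 y1 y2 y3 y4 y5 y6 y7 y8) :=
  sym_of R h l34 rfl hs _ (env19_bit hy0 hy1 hy2 hy3 hy4 hy5 hy6 hy7 hy8 hx0 hx1 hx2 hx3 hx4 hx5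
    hx6 hx7 hx8 ht)

theorem krpp (hs : symChk R lpp = true) :
    Kr R t (c9 y0 y1 y2 y3 y4 y5 y6 y7 y8) (c9 x0 x1 x2 x3 x4 x5 x6 x7 x8)
      = Kr R t (c9 x0 x1 x2 x3 x4 x5 x6 x7 x8) (c9 y0 y1 y2 y3 y4 y5 y6 y7 y8) :=
  sym_of R h lpp rfl hs _ (env19_bit hy0 hy1 hy2 hy3 hy4 hy5 hy6 hy7 hy8 hx0 hx1 hx2 hx3 hx4 hx5
    hx6 hx7 hx8 ht)

end

theorem ksym {V : Type*} (R : ℕ → ℕ → ℕ) (h : rowsChk R = true) (h01 : symChk R l01 = true)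
    (h12 : symChk R l12 = true) (h34 : symChk R l34 = true) (hpp : symChk R lpp = true)
    (g : V → V → V → ℕ) (hb : ∀ a b c, g a b c = 0 ∨ g a b c = 1) (hs : Symm3 g) :
    KSym (Kr R) g := by
  have B : ∀ a b c, Bit (g a b c) := hb
  have kpp : ∀ a b c u v w x, K3 (Kr R) g a b c w x u v = K3 (Kr R) g a b c u v w x := by
    intro a b c u v w x
    exact krpp R h (B _ _ _) (B _ _ _) (B _ _ _) (B _ _ _) (B _ _ _) (B _ _ _) (B _ _ _)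
      (B _ _ _) (B _ _ _) (B _ _ _) (B _ _ _) (B _ _ _) (B _ _ _) (B _ _ _) (B _ _ _)
      (B _ _ _) (B _ _ _) (B _ _ _) (B _ _ _) hpp
  have k34 : ∀ a b c u v w x, K3 (Kr R) g a b c v u w x = K3 (Kr R) g a b c u v w x := by
    intro a b c u v w x
    unfold K3 fl
    rw [hs.s23 a u v, hs.s23 b u v, hs.s23 c u v]
    exact kr34 R h (B _ _ _) (B _ _ _) (B _ _ _) (B _ _ _) (B _ _ _) (B _ _ _) (B _ _ _)
      (B _ _ _) (B _ _ _) (B _ _ _) (B _ _ _) (B _ _ _) (B _ _ _) (B _ _ _) (B _ _ _)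
      (B _ _ _) (B _ _ _) (B _ _ _) (B _ _ _) h34
  refine ⟨?_, ?_, k34, ?_, kpp⟩
  · intro a b c u v w x
    unfold K3 fl
    rw [hs.s12 a b c, hs.s12 a b u, hs.s12 a b v, hs.s12 a b w, hs.s12 a b x]
    exact kr01 R h (B _ _ _) (B _ _ _) (B _ _ _) (B _ _ _) (B _ _ _) (B _ _ _) (B _ _ _)
      (B _ _ _) (B _ _ _) (B _ _ _) (B _ _ _) (B _ _ _) (B _ _ _) (B _ _ _) (B _ _ _)
      (B _ _ _) (B _ _ _) (B _ _ _) (B _ _ _) h01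
  · intro a b c u v w x
    unfold K3 fl
    rw [hs.s23 a b c, hs.s12 b c u, hs.s12 b c v, hs.s12 b c w, hs.s12 b c x]
    exact kr12 R h (B _ _ _) (B _ _ _) (B _ _ _) (B _ _ _) (B _ _ _) (B _ _ _) (B _ _ _)
      (B _ _ _) (B _ _ _) (B _ _ _) (B _ _ _) (B _ _ _) (B _ _ _) (B _ _ _) (B _ _ _)
      (B _ _ _) (B _ _ _) (B _ _ _) (B _ _ _) h12
  · intro a b c u v w x
    rw [← kpp a b c u v x w, k34 a b c w x u v, kpp a b c u v w x]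

end Pool.Agent.H6N7
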